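import Pool.Agent.H15_OneLoop.Flows



/-!
# Connectivity and duality for the cusp torus (proofs by helper534)
-/

set_option autoImplicit false

namespace Pool.Agent.H15_OneLoop

open Matrix

variable {N : ℕ}









/-- each directed side or its partner is chosen -/
theorem J4_side (T : Gluing N) (φ : Fin (2 * N) → Fin N × Fin 4) (hφ : IsFaceChoice T φ)
    (j : Fin N) (v a : Fin 4) (hva : v ≠ a) :
    (∃ x : Fin (2 * N) × Fin 3, φ x.1 = (j, a) ∧ sv φ x = v) ∨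
    (∃ x : Fin (2 * N) × Fin 3, φ x.1 = (T.adj j a, T.glue j a a) ∧ sv φ x = T.glue j a v) := by
  obtain ⟨F, hF, -⟩ := hφ j a
  rcases hF with hF | hF
  · left
    obtain ⟨i, hi⟩ := Fin.exists_succAbove_eq hva
    refine ⟨(F, i), hF, ?_⟩
    unfold sv
    rw [hF]
    exact hi
  · right
    have hne : T.glue j a v ≠ T.glue j a a := fun h => hva ((T.glue j a).injective h)
    obtain ⟨i, hi⟩ := Fin.exists_succAbove_eq hne
    refine ⟨(F, i), hF, ?_⟩
    unfold sv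
    rw [hF]
    exact hi

theorem J4_D1_single (T : Gluing N) (φ : Fin (2 * N) → Fin N × Fin 4)
    (x : Fin (2 * N) × Fin 3) (j : Fin N) (v a : Fin 4) (hx : φ x.1 = (j, a))
    (hv : sv φ x = v) :
    cuspD₁ T φ *ᵥ Pi.single x 1 = Pi.single (T.adj j a, T.glue j a v) 1 - Pi.single (j, v) 1 := by
  funext t
  rw [mulVec_single_one]
  show cuspD₁ T φ t x = _
  unfold cuspD₁
  rw [hx, hv, Pi.sub_apply, Pi.single_apply, Pi.single_apply]
  simp only [eq_comm]

theorem J4_back (T : Gluing N) (j : Fin N) (a v : Fin 4) :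
    (T.adj (T.adj j a) (T.glue j a a), T.glue (T.adj j a) (T.glue j a a) (T.glue j a v)) =
      (j, v) := by
  rw [T.adj_adj, T.glue_apply_glue]

/-- TARGET -/
theorem cusp_dual (T : Gluing N)
    (hT : ∀ p q : Fin N × Fin 4, Relation.EqvGen T.VertexStep p q)
    (φ : Fin (2 * N) → Fin N × Fin 4) (hφ : IsFaceChoice T φ) (t t₀ : Fin N × Fin 4) :
    ∃ y : Fin (2 * N) × Fin 3 → ℤ, cuspD₁ T φ *ᵥ y = Pi.single t 1 - Pi.single t₀ 1 := by
  have key : ∀ p q : Fin N × Fin 4, Relation.EqvGen T.VertexStep p q →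
      ∃ y : Fin (2 * N) × Fin 3 → ℤ, cuspD₁ T φ *ᵥ y = Pi.single p 1 - Pi.single q 1 := by
    intro p q h
    induction h with
    | rel p q h =>
      obtain ⟨j, a, v, hv⟩ := h
      rcases J4_side T φ hφ j v a hv with ⟨x, hx, hs⟩ | ⟨x, hx, hs⟩
      · refine ⟨-Pi.single x 1, ?_⟩
        rw [mulVec_neg, J4_D1_single T φ x j v a hx hs, neg_sub]
      · refine ⟨Pi.single x 1, ?_⟩
        rw [J4_D1_single T φ x _ _ _ hx hs, J4_back]
    | refl p => exact ⟨0, by rw [mulVec_zero, sub_self]⟩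
    | symm p q _ ih =>
      obtain ⟨y, hy⟩ := ih
      exact ⟨-y, by rw [mulVec_neg, hy, neg_sub]⟩
    | trans p q r _ _ ih1 ih2 =>
      obtain ⟨y, hy⟩ := ih1
      obtain ⟨z, hz⟩ := ih2
      exact ⟨y + z, by rw [mulVec_add, hy, hz, sub_add_sub_cancel]⟩
  exact key t t₀ (hT t t₀)

theorem J4_D2_single {I : Type} [Fintype I] [DecidableEq I] (φ : Fin (2 * N) → Fin N × Fin 4)
    (cls : Fin N → Fin 4 → Fin 4 → I) (x : Fin (2 * N) × Fin 3) (j : Fin N) (v a : Fin 4)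
    (hx : φ x.1 = (j, a)) (hv : sv φ x = v) :
    (Pi.single x 1 : Fin (2 * N) × Fin 3 → ℤ) ᵥ* cuspD₂ φ cls =
      Pi.single (cls j v (lft v a)) 1 - Pi.single (cls j v (rgt v a)) 1 := by
  funext c
  rw [single_one_vecMul]
  show cuspD₂ φ cls x c = _
  unfold cuspD₂
  rw [hx, hv, Pi.sub_apply, Pi.single_apply, Pi.single_apply]
  simp only [eq_comm]

theorem J4_third : ∀ v w w' : Fin 4, v ≠ w → v ≠ w' → w ≠ w' →
    ∃ a, v ≠ a ∧ ((lft v a = w ∧ rgt v a = w') ∨ (lft v a = w' ∧ rgt v a = w)) := by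
  set_option synthInstance.maxSize 1000 in
  decide

theorem J4_lr : ∀ v w a : Fin 4, v ≠ a → w ≠ a → v ≠ w → w = lft v a ∨ w = rgt v a := by
  decide

theorem J4_bc : ∀ v : Fin 4, v ≠ bc v := by decide

/-- TARGET -/
theorem cusp_prim {I : Type} [Fintype I] [DecidableEq I] (T : Gluing N)
    (hT : ∀ p q : Fin N × Fin 4, Relation.EqvGen T.VertexStep p q)
    (φ : Fin (2 * N) → Fin N × Fin 4) (hφ : IsFaceChoice T φ)
    (cls : Fin N → Fin 4 → Fin 4 → I) (hcls : IsCornerClass T cls) (c c₀ : I) :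
    ∃ l : Fin (2 * N) × Fin 3 → ℤ, l ᵥ* cuspD₂ φ cls = Pi.single c 1 - Pi.single c₀ 1 := by
  let R : I → I → Prop := fun c c' =>
    ∃ l : Fin (2 * N) × Fin 3 → ℤ, l ᵥ* cuspD₂ φ cls = Pi.single c 1 - Pi.single c' 1
  have Rrefl : ∀ c, R c c := fun c => ⟨0, by rw [zero_vecMul, sub_self]⟩
  have Rsymm : ∀ c c', R c c' → R c' c := by
    rintro c c' ⟨l, hl⟩
    exact ⟨-l, by rw [neg_vecMul, hl, neg_sub]⟩
  have Rtrans : ∀ c c' c'', R c c' → R c' c'' → R c c'' := by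
    rintro c c' c'' ⟨l, hl⟩ ⟨m, hm⟩
    exact ⟨l + m, by rw [add_vecMul, hl, hm, sub_add_sub_cancel]⟩
  -- the two corners of a side
  have hside : ∀ j v a, v ≠ a → R (cls j v (lft v a)) (cls j v (rgt v a)) := by
    intro j v a hva
    rcases J4_side T φ hφ j v a hva with ⟨x, hx, hs⟩ | ⟨x, hx, hs⟩
    · exact ⟨_, J4_D2_single φ cls x j v a hx hs⟩
    · have h := J4_D2_single φ cls x _ _ _ hx hs
      obtain ⟨e1, e2⟩ := lft_rgt_glue (T.glue j a) (T.odd j a) v a hva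
      obtain ⟨l1, l2, l3, l4, l5⟩ := lft_ne v a hva
      rw [e1, e2, hcls.glue j a v (rgt v a) hva l4 l3.symm,
        hcls.glue j a v (lft v a) hva l2 l1.symm] at h
      exact Rsymm _ _ ⟨_, h⟩
  have htri : ∀ j v w w', v ≠ w → v ≠ w' → R (cls j v w) (cls j v w') := by
    intro j v w w' hw hw'
    by_cases hww : w = w'
    · rw [hww]
      exact Rrefl _
    · obtain ⟨a, hva, h | h⟩ := J4_third v w w' hw hw' hww
      · have := hside j v a hva
        rwa [h.1, h.2] at this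
      · have := hside j v a hva
        rw [h.1, h.2] at this
        exact Rsymm _ _ this
  have hall : ∀ p q : Fin N × Fin 4, Relation.EqvGen T.VertexStep p q →
      ∀ w u, p.2 ≠ w → q.2 ≠ u → R (cls p.1 p.2 w) (cls q.1 q.2 u) := by
    intro p q h
    induction h with
    | rel p q h =>
      obtain ⟨j, a, v, hva⟩ := h
      intro w u hw hu
      obtain ⟨l1, l2, l3, l4, l5⟩ := lft_ne v a hva
      have h1 : R (cls j v w) (cls j v (lft v a)) := htri j v w (lft v a) hw l1.symm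
      have h2 : R (cls (T.adj j a) (T.glue j a v) (T.glue j a (lft v a)))
          (cls (T.adj j a) (T.glue j a v) u) :=
        htri _ _ _ _ (fun h => l1 ((T.glue j a).injective h).symm) hu
      rw [hcls.glue j a v (lft v a) hva l2 l1.symm] at h2
      exact Rtrans _ _ _ h1 h2
    | refl p =>
      intro w u hw hu
      exact htri _ _ _ _ hw hu
    | symm p q _ ih =>
      intro w u hw hu
      exact Rsymm _ _ (ih u w hu hw)
    | trans p q r _ _ ih1 ih2 =>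
      intro w u hw hu
      exact Rtrans _ _ _ (ih1 w (bc q.2) hw (J4_bc _)) (ih2 (bc q.2) u (J4_bc _) hu)
  obtain ⟨j, v, w, hvw, rfl⟩ := hcls.surj c
  obtain ⟨j', v', w', hvw', rfl⟩ := hcls.surj c₀
  exact hall (j, v) (j', v') (hT _ _) w w' hvw hvw'

/-- the pairing with a flow -/
def J4_pair (T : Gluing N) (φ : Fin (2 * N) → Fin N × Fin 4) (η : Fin N → Fin 4 → Fin 4 → ℤ)
    (y : Fin (2 * N) × Fin 3 → ℤ) : ℤ :=
  ∑ x, y x * jump T η (φ x.1).1 (sv φ x) (φ x.1).2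

theorem J4_pair_single (T : Gluing N) (φ : Fin (2 * N) → Fin N × Fin 4)
    (η : Fin N → Fin 4 → Fin 4 → ℤ) (x : Fin (2 * N) × Fin 3) (j : Fin N) (v a : Fin 4)
    (hx : φ x.1 = (j, a)) (hv : sv φ x = v) :
    J4_pair T φ η (Pi.single x 1) = jump T η j v a := by
  unfold J4_pair
  rw [Finset.sum_eq_single x]
  · rw [Pi.single_eq_same, one_mul, hx, hv]
  · intro b _ hb
    rw [Pi.single_eq_of_ne hb, zero_mul]
  · intro h
    exact absurd (Finset.mem_univ _) h

theorem J4_pair_neg (T : Gluing N) (φ : Fin (2 * N) → Fin N × Fin 4)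
    (η : Fin N → Fin 4 → Fin 4 → ℤ) (y : Fin (2 * N) × Fin 3 → ℤ) :
    J4_pair T φ η (-y) = - J4_pair T φ η y := by
  unfold J4_pair
  rw [← Finset.sum_neg_distrib]
  exact Finset.sum_congr rfl fun x _ => by rw [Pi.neg_apply, neg_mul]

theorem J4_pair_add (T : Gluing N) (φ : Fin (2 * N) → Fin N × Fin 4)
    (η : Fin N → Fin 4 → Fin 4 → ℤ) (y z : Fin (2 * N) × Fin 3 → ℤ) :
    J4_pair T φ η (y + z) = J4_pair T φ η y + J4_pair T φ η z := by
  unfold J4_pair
  rw [← Finset.sum_add_distrib]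
  exact Finset.sum_congr rfl fun x _ => by rw [Pi.add_apply, add_mul]

theorem J4_pair_zero (T : Gluing N) (φ : Fin (2 * N) → Fin N × Fin 4)
    (η : Fin N → Fin 4 → Fin 4 → ℤ) : J4_pair T φ η 0 = 0 := by
  unfold J4_pair
  exact Finset.sum_eq_zero fun x _ => by rw [Pi.zero_apply, zero_mul]

theorem J4_pair_sum (T : Gluing N) (φ : Fin (2 * N) → Fin N × Fin 4)
    (η : Fin N → Fin 4 → Fin 4 → ℤ) (l : Fin (2 * N) × Fin 3 → ℤ)
    (Y : Fin (2 * N) × Fin 3 → Fin (2 * N) × Fin 3 → ℤ) :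
    J4_pair T φ η (∑ x, l x • Y x) = ∑ x, l x * J4_pair T φ η (Y x) := by
  unfold J4_pair
  simp only [Finset.sum_apply, Pi.smul_apply, smul_eq_mul, Finset.mul_sum, Finset.sum_mul]
  rw [Finset.sum_comm]
  exact Finset.sum_congr rfl fun x _ => Finset.sum_congr rfl fun y _ => by ring

/-- the change of the potential across a side does not depend on the corner -/
theorem J4_jump (T : Gluing N) (η : Fin N → Fin 4 → Fin 4 → ℤ) (hη : IsFlow T η)
    (hdiv : ∀ j v, ∑ a, η j v a = 0) (j : Fin N) (v a w : Fin 4) (hva : v ≠ a) (hwa : w ≠ a)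
    (hvw : v ≠ w) :
    pot (η j v) v w - pot (η (T.adj j a) (T.glue j a v)) (T.glue j a v) (T.glue j a w) =
      jump T η j v a := by
  rcases J4_lr v w a hva hwa hvw with h | h
  · rw [h]
    rfl
  · rw [h]
    unfold jump
    have hne : T.glue j a v ≠ T.glue j a a := fun h => hva ((T.glue j a).injective h)
    obtain ⟨e1, e2⟩ := lft_rgt_glue (T.glue j a) (T.odd j a) v a hva
    have p1 := pot_sub (η j v) v (hη.diag j v) (hdiv j v) a hva
    have p2 := pot_sub (η (T.adj j a) (T.glue j a v)) (T.glue j a v) (hη.diag _ _) (hdiv _ _)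
      (T.glue j a a) hne
    rw [e1, e2, hη.anti j v a hva] at p2
    linarith

/-- paths of corners -/
theorem J4_path (T : Gluing N) (φ : Fin (2 * N) → Fin N × Fin 4) (hφ : IsFaceChoice T φ)
    (p q : Fin N × Fin 4 × Fin 4) (h : Relation.EqvGen T.CornerStep p q) :
    ∃ y : Fin (2 * N) × Fin 3 → ℤ,
      cuspD₁ T φ *ᵥ y = Pi.single (q.1, q.2.1) 1 - Pi.single (p.1, p.2.1) 1 ∧
      ∀ η : Fin N → Fin 4 → Fin 4 → ℤ, IsFlow T η → (∀ j v, ∑ a, η j v a = 0) →
        J4_pair T φ η y = pot (η p.1 p.2.1) p.2.1 p.2.2 - pot (η q.1 q.2.1) q.2.1 q.2.2 := by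
  induction h with
  | rel p q h =>
    obtain ⟨j, a, v, w, hva, hwa, hvw⟩ := h
    rcases J4_side T φ hφ j v a hva with ⟨x, hx, hs⟩ | ⟨x, hx, hs⟩
    · refine ⟨Pi.single x 1, J4_D1_single T φ x j v a hx hs, ?_⟩
      intro η hη hdiv
      rw [J4_pair_single T φ η x j v a hx hs]
      exact (J4_jump T η hη hdiv j v a w hva hwa hvw).symm
    · refine ⟨-Pi.single x 1, ?_, ?_⟩
      · rw [mulVec_neg, J4_D1_single T φ x _ _ _ hx hs, J4_back, neg_sub]
      · intro η hη hdiv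
        rw [J4_pair_neg, J4_pair_single T φ η x _ _ _ hx hs]
        show _ = pot (η j v) v w -
          pot (η (T.adj j a) (T.glue j a v)) (T.glue j a v) (T.glue j a w)
        have h1 := J4_jump T η hη hdiv (T.adj j a) (T.glue j a v) (T.glue j a a) (T.glue j a w)
          (fun h => hva ((T.glue j a).injective h)) (fun h => hwa ((T.glue j a).injective h))
          (fun h => hvw ((T.glue j a).injective h))
        rw [T.adj_adj, T.glue_apply_glue, T.glue_apply_glue] at h1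
        rw [← h1, neg_sub]
  | refl p =>
    refine ⟨0, by rw [mulVec_zero, sub_self], fun η _ _ => ?_⟩
    rw [J4_pair_zero, sub_self]
  | symm p q _ ih =>
    obtain ⟨y, hy, hy'⟩ := ih
    refine ⟨-y, by rw [mulVec_neg, hy, neg_sub], fun η h1 h2 => ?_⟩
    rw [J4_pair_neg, hy' η h1 h2, neg_sub]
  | trans p q r _ _ ih1 ih2 =>
    obtain ⟨y, hy, hy'⟩ := ih1
    obtain ⟨z, hz, hz'⟩ := ih2
    refine ⟨y + z, ?_, fun η h1 h2 => ?_⟩
    · rw [mulVec_add, hy, hz]
      abel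
    · rw [J4_pair_add, hy' η h1 h2, hz' η h1 h2]
      abel

/-- summation against `D₂` -/
theorem J4_sum_D2 {I : Type} [Fintype I] [DecidableEq I] {M : Type} [AddCommGroup M]
    (φ : Fin (2 * N) → Fin N × Fin 4) (cls : Fin N → Fin 4 → Fin 4 → I)
    (l : Fin (2 * N) × Fin 3 → ℤ) (hl : l ᵥ* cuspD₂ φ cls = 0) (f : I → M) :
    ∑ x, l x • (f (cls (φ x.1).1 (sv φ x) (lft (sv φ x) (φ x.1).2)) -
      f (cls (φ x.1).1 (sv φ x) (rgt (sv φ x) (φ x.1).2))) = 0 := by
  have h1 : ∀ x, f (cls (φ x.1).1 (sv φ x) (lft (sv φ x) (φ x.1).2)) -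
      f (cls (φ x.1).1 (sv φ x) (rgt (sv φ x) (φ x.1).2)) = ∑ c, cuspD₂ φ cls x c • f c := by
    intro x
    unfold cuspD₂
    simp only [sub_smul, Finset.sum_sub_distrib, ite_smul, one_smul, zero_smul,
      Finset.sum_ite_eq, Finset.mem_univ, if_true]
  simp only [h1, Finset.smul_sum]
  rw [Finset.sum_comm]
  refine Finset.sum_eq_zero fun c _ => ?_
  have h2 : ∑ x, l x • cuspD₂ φ cls x c • f c = (l ᵥ* cuspD₂ φ cls) c • f c := by
    show _ = (∑ x, l x * cuspD₂ φ cls x c) • f c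
    rw [Finset.sum_smul]
    exact Finset.sum_congr rfl fun x _ => by rw [mul_smul]
  rw [h2, hl, Pi.zero_apply, zero_smul]

/-- TARGET -/
theorem cusp_omega_dual {I : Type} [Fintype I] [DecidableEq I] (T : Gluing N)
    (φ : Fin (2 * N) → Fin N × Fin 4) (hφ : IsFaceChoice T φ)
    (cls : Fin N → Fin 4 → Fin 4 → I) (hcls : IsCornerClass T cls)
    (l : Fin (2 * N) × Fin 3 → ℤ) (hl : l ᵥ* cuspD₂ φ cls = 0) :
    ∃ y, cuspD₁ T φ *ᵥ y = 0 ∧
      ∀ x, cuspD₁ T φ *ᵥ x = 0 → x ⬝ᵥ cuspΩ T φ *ᵥ y = l ⬝ᵥ x := by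
  choose rj rv rw' hne hr using hcls.surj
  have hsv : ∀ x : Fin (2 * N) × Fin 3, sv φ x ≠ (φ x.1).2 := fun x => Fin.succAbove_ne _ _
  have hY : ∀ x : Fin (2 * N) × Fin 3, ∃ y : Fin (2 * N) × Fin 3 → ℤ,
      cuspD₁ T φ *ᵥ y =
        Pi.single (rj (cls (φ x.1).1 (sv φ x) (lft (sv φ x) (φ x.1).2)),
          rv (cls (φ x.1).1 (sv φ x) (lft (sv φ x) (φ x.1).2))) 1 -
        Pi.single (rj (cls (φ x.1).1 (sv φ x) (rgt (sv φ x) (φ x.1).2)),
          rv (cls (φ x.1).1 (sv φ x) (rgt (sv φ x) (φ x.1).2))) 1 ∧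
      ∀ η : Fin N → Fin 4 → Fin 4 → ℤ, IsFlow T η → (∀ j v, ∑ a, η j v a = 0) →
        J4_pair T φ η y = η (φ x.1).1 (sv φ x) (φ x.1).2 -
          ((fun c => pot (η (rj c) (rv c)) (rv c) (rw' c))
              (cls (φ x.1).1 (sv φ x) (lft (sv φ x) (φ x.1).2)) -
            (fun c => pot (η (rj c) (rv c)) (rv c) (rw' c))
              (cls (φ x.1).1 (sv φ x) (rgt (sv φ x) (φ x.1).2))) := by
    intro x
    obtain ⟨l1, l2, l3, l4, l5⟩ := lft_ne _ _ (hsv x)
    have c1 := hcls.conn (hne (cls (φ x.1).1 (sv φ x) (rgt (sv φ x) (φ x.1).2))) l3.symm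
      (hr (cls (φ x.1).1 (sv φ x) (rgt (sv φ x) (φ x.1).2)))
    have c2 := hcls.conn l1.symm (hne (cls (φ x.1).1 (sv φ x) (lft (sv φ x) (φ x.1).2)))
      (hr (cls (φ x.1).1 (sv φ x) (lft (sv φ x) (φ x.1).2))).symm
    obtain ⟨y1, hy1, hy1'⟩ := J4_path T φ hφ _ _ c1
    obtain ⟨y2, hy2, hy2'⟩ := J4_path T φ hφ _ _ c2
    refine ⟨y1 + y2, ?_, fun η h1 h2 => ?_⟩
    · rw [mulVec_add, hy1, hy2]
      abel
    · rw [J4_pair_add, hy1' η h1 h2, hy2' η h1 h2]
      have h3 := pot_sub (η (φ x.1).1 (sv φ x)) (sv φ x) (h1.diag _ _) (h2 _ _) (φ x.1).2 (hsv x)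
      simp only
      linarith
  choose Y hY1 hY2 using hY
  refine ⟨∑ x, l x • Y x, ?_, ?_⟩
  · rw [mulVec_sum]
    simp only [mulVec_smul, hY1]
    exact J4_sum_D2 φ cls l hl (fun c => (Pi.single (rj c, rv c) 1 : Fin N × Fin 4 → ℤ))
  · intro x hx
    obtain ⟨η, hη, hres⟩ := flow_ext (K := ℤ) T φ hφ x
    have hmap : ∀ (m n : Type) (M : Matrix m n ℤ), M.map (Int.cast : ℤ → ℤ) = M := by
      intro m n M
      ext i j
      simp
    have hdiv : ∀ j v, ∑ a, η j v a = 0 := by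
      intro j v
      have h1 := div_res (K := ℤ) T φ hφ η hη (j, v)
      rw [hmap, hres, hx, Pi.zero_apply] at h1
      have h2 : -∑ a, η j v a = 0 := h1.symm
      exact neg_eq_zero.mp h2
    have h3 := dot_res (K := ℤ) T φ hφ η hη (∑ x, l x • Y x)
    rw [hmap, hres] at h3
    rw [h3]
    have h4 : ∑ x_1, (∑ x, l x • Y x) x_1 * jump T η (φ x_1.1).1 (sv φ x_1) (φ x_1.1).2 =
        J4_pair T φ η (∑ x, l x • Y x) := rfl
    rw [h4, J4_pair_sum]
    have h5 : ∀ z, l z * J4_pair T φ η (Y z) = l z * x z - l z •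
          ((fun c => pot (η (rj c) (rv c)) (rv c) (rw' c))
              (cls (φ z.1).1 (sv φ z) (lft (sv φ z) (φ z.1).2)) -
            (fun c => pot (η (rj c) (rv c)) (rv c) (rw' c))
              (cls (φ z.1).1 (sv φ z) (rgt (sv φ z) (φ z.1).2))) := by
      intro z
      rw [hY2 z η hη hdiv, ← hres, mul_sub, smul_eq_mul]
      rfl
    have h6 := J4_sum_D2 φ cls l hl (fun c => pot (η (rj c) (rv c)) (rv c) (rw' c))
    calc ∑ z, l z * J4_pair T φ η (Y z) = ∑ z, (l z * x z - l z •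
          ((fun c => pot (η (rj c) (rv c)) (rv c) (rw' c))
              (cls (φ z.1).1 (sv φ z) (lft (sv φ z) (φ z.1).2)) -
            (fun c => pot (η (rj c) (rv c)) (rv c) (rw' c))
              (cls (φ z.1).1 (sv φ z) (rgt (sv φ z) (φ z.1).2)))) :=
          Finset.sum_congr rfl fun z _ => h5 z
      _ = l ⬝ᵥ x := by
        rw [Finset.sum_sub_distrib, h6, sub_zero]
        rfl

end Pool.Agent.H15_OneLoop
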