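import Pool.Agent.H15_OneLoop.Cusp



/-!
# Flows on the triangulation of the cusp (proofs by helper680)
-/

set_option autoImplicit false

namespace Pool.Agent.H15_OneLoop

open Matrix

variable {N : ℕ}

/-! Auxiliary facts -/

theorem j303_total {M : Type} [AddCommMonoid M] (T : Gluing N) (φ : Fin (2 * N) → Fin N × Fin 4)
    (hφ : IsFaceChoice T φ) (g : Fin N × Fin 4 → M) :
    ∑ p, g p = ∑ F, (g (φ F) + g (T.adj (φ F).1 (φ F).2, T.glue (φ F).1 (φ F).2 (φ F).2)) := by
  let q : Fin (2 * N) × Bool → Fin N × Fin 4 := fun r =>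
    if r.2 then (T.adj (φ r.1).1 (φ r.1).2, T.glue (φ r.1).1 (φ r.1).2 (φ r.1).2) else φ r.1
  have inv : ∀ p : Fin N × Fin 4, (T.adj (T.adj p.1 p.2) (T.glue p.1 p.2 p.2),
      T.glue (T.adj p.1 p.2) (T.glue p.1 p.2 p.2) (T.glue p.1 p.2 p.2)) = p := by
    intro p
    rw [T.adj_adj, T.glue_apply_glue]
  have hne : ∀ p : Fin N × Fin 4, (T.adj p.1 p.2, T.glue p.1 p.2 p.2) ≠ p := by
    intro p h
    exact T.ne_self p.1 p.2 ⟨congrArg Prod.fst h, congrArg Prod.snd h⟩
  have hcross : ∀ F F', φ F = (T.adj (φ F').1 (φ F').2, T.glue (φ F').1 (φ F').2 (φ F').2) →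
      False := by
    intro F F' h
    obtain ⟨F₀, h0, h1⟩ := hφ (φ F').1 (φ F').2
    have e1 := h1 F (Or.inr h)
    have e2 := h1 F' (Or.inl rfl)
    rw [e1, ← e2] at h
    exact hne _ h.symm
  have hinj : ∀ F F', φ F = φ F' → F = F' := by
    intro F F' h
    obtain ⟨F₀, h0, h1⟩ := hφ (φ F').1 (φ F').2
    rw [h1 F (Or.inl h), h1 F' (Or.inl rfl)]
  have hb : Function.Bijective q := by
    constructor
    · rintro ⟨F, b⟩ ⟨F', b'⟩ h
      cases b <;> cases b'
      · have := hinj F F' (by simpa [q] using h)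
        rw [this]
      · exact (hcross F F' (by simpa [q] using h)).elim
      · exact (hcross F' F (by simpa [q] using h.symm)).elim
      · have h' : (T.adj (φ F).1 (φ F).2, T.glue (φ F).1 (φ F).2 (φ F).2) =
            (T.adj (φ F').1 (φ F').2, T.glue (φ F').1 (φ F').2 (φ F').2) := by simpa [q] using h
        have h'' := congrArg (fun p : Fin N × Fin 4 => (T.adj p.1 p.2, T.glue p.1 p.2 p.2)) h'
        simp only [] at h''
        rw [inv (φ F), inv (φ F')] at h''
        rw [hinj F F' h'']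
    · rintro ⟨j, a⟩
      obtain ⟨F, h0, h1⟩ := hφ j a
      rcases h0 with h0 | h0
      · exact ⟨(F, false), by simpa [q] using h0⟩
      · refine ⟨(F, true), ?_⟩
        have := inv (j, a)
        simp only [q, if_true]
        rw [h0]
        exact this
  rw [← hb.sum_comp g, Fintype.sum_prod_type]
  refine Finset.sum_congr rfl fun F _ => ?_
  rw [Fintype.sum_bool, add_comm]
  simp [q]

/-- TARGET -/
theorem pairing {M : Type} [AddCommMonoid M] (T : Gluing N) (φ : Fin (2 * N) → Fin N × Fin 4)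
    (hφ : IsFaceChoice T φ) (f : Fin N → Fin 4 → Fin 4 → M) (hf : ∀ j a, f j a a = 0) :
    ∑ j, ∑ v, ∑ a, f j v a = ∑ x : Fin (2 * N) × Fin 3, (f (φ x.1).1 (sv φ x) (φ x.1).2 +
      f (T.adj (φ x.1).1 (φ x.1).2) (T.glue (φ x.1).1 (φ x.1).2 (sv φ x))
        (T.glue (φ x.1).1 (φ x.1).2 (φ x.1).2)) := by
  have h1 : ∑ j, ∑ v, ∑ a, f j v a = ∑ p : Fin N × Fin 4, ∑ v, f p.1 v p.2 := by
    rw [Fintype.sum_prod_type]
    refine Finset.sum_congr rfl fun j _ => ?_
    rw [Finset.sum_comm]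
  rw [h1, j303_total T φ hφ, Fintype.sum_prod_type]
  refine Finset.sum_congr rfl fun F _ => ?_
  rw [Finset.sum_add_distrib]
  congr 1
  · rw [Fin.sum_univ_succAbove _ (φ F).2, hf, zero_add]
    rfl
  · simp only []
    rw [← Equiv.sum_comp (T.glue (φ F).1 (φ F).2), Fin.sum_univ_succAbove _ (φ F).2, hf, zero_add]
    rfl

theorem j303_partner (T : Gluing N) (j : Fin N) (v a : Fin 4) :
    (T.adj (T.adj j a) (T.glue j a a), T.glue (T.adj j a) (T.glue j a a) (T.glue j a v),
      T.glue (T.adj j a) (T.glue j a a) (T.glue j a a)) = (j, v, a) := by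
  rw [T.adj_adj, T.glue_apply_glue, T.glue_apply_glue]

theorem j303_partner_iff (T : Gluing N) (j : Fin N) (v a : Fin 4) (k : Fin N) (w b : Fin 4) :
    ((T.adj k b, T.glue k b w, T.glue k b b) = (j, v, a)) ↔
      ((k, w, b) = (T.adj j a, T.glue j a v, T.glue j a a)) := by
  constructor
  · intro h
    simp only [Prod.mk.injEq] at h
    obtain ⟨h1, h2, h3⟩ := h
    subst h1 h2 h3
    rw [T.adj_adj, T.glue_apply_glue, T.glue_apply_glue]
  · intro h
    simp only [Prod.mk.injEq] at h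
    obtain ⟨h1, h2, h3⟩ := h
    subst h1 h2 h3
    rw [T.adj_adj, T.glue_apply_glue, T.glue_apply_glue]

theorem j303_elem_flow (T : Gluing N) (φ : Fin (2 * N) → Fin N × Fin 4)
    (x : Fin (2 * N) × Fin 3) : IsFlow T (elem T φ x) := by
  constructor
  · intro j a
    unfold elem
    rw [if_neg, if_neg, sub_zero]
    · intro h
      simp only [Prod.mk.injEq] at h
      have := (T.glue (φ x.1).1 (φ x.1).2).injective (h.2.1.trans h.2.2.symm)
      exact Fin.succAbove_ne _ _ this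
    · intro h
      simp only [Prod.mk.injEq] at h
      exact Fin.succAbove_ne _ _ (h.2.1.trans h.2.2.symm)
  · intro j v a _
    unfold elem
    rw [neg_sub]
    congr 1
    · refine if_congr ?_ rfl rfl
      rw [← j303_partner_iff]
    · refine if_congr ?_ rfl rfl
      rw [j303_partner_iff, T.adj_adj, T.glue_apply_glue, T.glue_apply_glue]

theorem j303_chosen_inj (T : Gluing N) (φ : Fin (2 * N) → Fin N × Fin 4)
    (hφ : IsFaceChoice T φ) (x y : Fin (2 * N) × Fin 3)
    (h : ((φ x.1).1, sv φ x, (φ x.1).2) = ((φ y.1).1, sv φ y, (φ y.1).2)) : x = y := by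
  simp only [Prod.mk.injEq] at h
  obtain ⟨h1, h2, h3⟩ := h
  have e : φ x.1 = φ y.1 := Prod.ext h1 h3
  have e1 : x.1 = y.1 := by
    obtain ⟨F₀, h0, h1⟩ := hφ (φ y.1).1 (φ y.1).2
    rw [h1 x.1 (Or.inl e), h1 y.1 (Or.inl rfl)]
  refine Prod.ext e1 ?_
  unfold sv at h2
  rw [e] at h2
  exact Fin.succAbove_right_injective h2

theorem j303_chosen_ne (T : Gluing N) (φ : Fin (2 * N) → Fin N × Fin 4)
    (hφ : IsFaceChoice T φ) (x y : Fin (2 * N) × Fin 3) :
    (T.adj (φ x.1).1 (φ x.1).2, T.glue (φ x.1).1 (φ x.1).2 (sv φ x),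
      T.glue (φ x.1).1 (φ x.1).2 (φ x.1).2) ≠ ((φ y.1).1, sv φ y, (φ y.1).2) := by
  intro h
  simp only [Prod.mk.injEq] at h
  obtain ⟨h1, h2, h3⟩ := h
  have e : φ y.1 = (T.adj (φ x.1).1 (φ x.1).2, T.glue (φ x.1).1 (φ x.1).2 (φ x.1).2) :=
    Prod.ext h1.symm h3.symm
  obtain ⟨F₀, h0, h1'⟩ := hφ (φ x.1).1 (φ x.1).2
  have e1 := h1' y.1 (Or.inr e)
  have e2 := h1' x.1 (Or.inl rfl)
  rw [e1, ← e2] at e
  exact T.ne_self _ _ ⟨congrArg Prod.fst e.symm, congrArg Prod.snd e.symm⟩

theorem j303_elem_res (T : Gluing N) (φ : Fin (2 * N) → Fin N × Fin 4)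
    (hφ : IsFaceChoice T φ) (x y : Fin (2 * N) × Fin 3) :
    elem T φ x (φ y.1).1 (sv φ y) (φ y.1).2 = if x = y then 1 else 0 := by
  unfold elem
  rw [if_neg (j303_chosen_ne T φ hφ x y), sub_zero]
  refine if_congr ⟨fun h => j303_chosen_inj T φ hφ x y h, fun h => by rw [h]⟩ rfl rfl

/-- TARGET -/
theorem flow_ext {K : Type} [CommRing K] (T : Gluing N) (φ : Fin (2 * N) → Fin N × Fin 4)
    (hφ : IsFaceChoice T φ) (y : Fin (2 * N) × Fin 3 → K) :
    ∃ η : Fin N → Fin 4 → Fin 4 → K, IsFlow T η ∧ res φ η = y := by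
  refine ⟨fun j v a => ∑ x, y x * (elem T φ x j v a : K), ⟨?_, ?_⟩, ?_⟩
  · intro j a
    refine Finset.sum_eq_zero fun x _ => ?_
    rw [(j303_elem_flow T φ x).diag]
    simp
  · intro j v a h
    rw [← Finset.sum_neg_distrib]
    refine Finset.sum_congr rfl fun x _ => ?_
    rw [(j303_elem_flow T φ x).anti j v a h]
    push_cast
    ring
  · ext z
    unfold res
    have h : ∀ x, elem T φ x (φ z.1).1 (sv φ z) (φ z.1).2 = if x = z then 1 else 0 :=
      fun x => j303_elem_res T φ hφ x z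
    calc ∑ x, y x * ((elem T φ x (φ z.1).1 (sv φ z) (φ z.1).2 : ℤ) : K)
        = ∑ x, y x * (if x = z then 1 else 0) := by
          refine Finset.sum_congr rfl fun x _ => ?_
          rw [h x]
          split_ifs <;> simp
      _ = y z := by simp

/-- TARGET -/
theorem div_res {K : Type} [CommRing K] (T : Gluing N) (φ : Fin (2 * N) → Fin N × Fin 4)
    (hφ : IsFaceChoice T φ) (η : Fin N → Fin 4 → Fin 4 → K) (hη : IsFlow T η)
    (t : Fin N × Fin 4) :
    ((cuspD₁ T φ).map (Int.cast : ℤ → K) *ᵥ res φ η) t = -∑ a, η t.1 t.2 a := by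
  have h := pairing T φ hφ (fun j v a => if (j, v) = t then η j v a else 0)
    (fun j a => by rw [hη.diag]; simp)
  have h2 : ∑ j, ∑ v, ∑ a, (if (j, v) = t then η j v a else 0) = ∑ a, η t.1 t.2 a := by
    rw [← Fintype.sum_prod_type' (f := fun j v => ∑ a, (if (j, v) = t then η j v a else 0))]
    rw [Fintype.sum_eq_single t]
    · simp
    · intro p hp
      simp [hp]
  rw [← h2, h, ← Finset.sum_neg_distrib]
  unfold Matrix.mulVec dotProduct
  refine Finset.sum_congr rfl fun x _ => ?_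
  rw [hη.anti _ (sv φ x) _ (Fin.succAbove_ne _ _)]
  simp only [Matrix.map_apply, cuspD₁, res]
  split_ifs <;> simp

theorem j303_pot_eq {K : Type} [AddCommGroup K] (η : Fin 4 → K) (v w : Fin 4) :
    pot η v w = ∑ a, ((if a ≠ v ∧ lft v a = w ∧ rgt v a = bc v then (1 : ℤ) else 0) -
      (if a ≠ v ∧ rgt v a = w ∧ lft v a = bc v then 1 else 0)) • η a := by
  unfold pot
  refine Finset.sum_congr rfl fun a _ => ?_
  split_ifs <;> simp

theorem j303_pot_sum {K : Type} [CommRing K] {ι : Type} [Fintype ι] (c : ι → K)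
    (e : ι → Fin 4 → ℤ) (v w : Fin 4) :
    pot (fun a => ∑ x, c x * (e x a : K)) v w = ∑ x, c x * ((pot (e x) v w : ℤ) : K) := by
  rw [j303_pot_eq]
  simp only [j303_pot_eq (e _), Int.cast_sum, Finset.mul_sum, Finset.smul_sum]
  rw [Finset.sum_comm]
  refine Finset.sum_congr rfl fun x _ => Finset.sum_congr rfl fun a _ => ?_
  rw [zsmul_eq_mul, smul_eq_mul]
  push_cast
  ring

theorem j303_flow_expand {K : Type} [CommRing K] (T : Gluing N)
    (φ : Fin (2 * N) → Fin N × Fin 4) (hφ : IsFaceChoice T φ) (η : Fin N → Fin 4 → Fin 4 → K)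
    (hη : IsFlow T η) (j : Fin N) (v a : Fin 4) :
    η j v a = ∑ x, res φ η x * (elem T φ x j v a : K) := by
  have h := pairing T φ hφ (fun j' v' a' => if (j', v', a') = (j, v, a) then η j' v' a' else 0)
    (fun j a => by rw [hη.diag]; simp)
  have h2 : ∑ j', ∑ v', ∑ a', (if (j', v', a') = (j, v, a) then η j' v' a' else 0) =
      η j v a := by
    rw [Fintype.sum_eq_single j, Fintype.sum_eq_single v, Fintype.sum_eq_single a]
    · simp
    · intro p hp
      simp [hp]
    · intro p hp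
      simp [hp]
    · intro p hp
      simp [hp]
  rw [← h2, h]
  refine Finset.sum_congr rfl fun x _ => ?_
  rw [hη.anti _ (sv φ x) _ (Fin.succAbove_ne _ _)]
  unfold elem res
  split_ifs <;> simp

theorem j303_jump_expand {K : Type} [CommRing K] (T : Gluing N)
    (φ : Fin (2 * N) → Fin N × Fin 4) (hφ : IsFaceChoice T φ) (η : Fin N → Fin 4 → Fin 4 → K)
    (hη : IsFlow T η) (j : Fin N) (v a : Fin 4) :
    jump T η j v a = ∑ x, res φ η x * ((jump T (elem T φ x) j v a : ℤ) : K) := by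
  have h : ∀ (j : Fin N) (v : Fin 4),
      η j v = fun a => ∑ x, res φ η x * (elem T φ x j v a : K) := by
    intro j v
    ext a
    exact j303_flow_expand T φ hφ η hη j v a
  unfold jump
  rw [h j v, h (T.adj j a) (T.glue j a v), j303_pot_sum, j303_pot_sum, ← Finset.sum_sub_distrib]
  refine Finset.sum_congr rfl fun x _ => ?_
  push_cast
  ring

/-- TARGET -/
theorem dot_res {K : Type} [CommRing K] (T : Gluing N) (φ : Fin (2 * N) → Fin N × Fin 4)
    (hφ : IsFaceChoice T φ) (η : Fin N → Fin 4 → Fin 4 → K) (hη : IsFlow T η)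
    (y : Fin (2 * N) × Fin 3 → K) :
    res φ η ⬝ᵥ (cuspΩ T φ).map (Int.cast : ℤ → K) *ᵥ y =
      ∑ x, y x * jump T η (φ x.1).1 (sv φ x) (φ x.1).2 := by
  unfold dotProduct Matrix.mulVec dotProduct
  simp only [Finset.mul_sum]
  rw [Finset.sum_comm]
  refine Finset.sum_congr rfl fun z _ => ?_
  rw [j303_jump_expand T φ hφ η hη, Finset.mul_sum]
  refine Finset.sum_congr rfl fun x _ => ?_
  simp only [Matrix.map_apply, cuspΩ]
  ring

/-- TARGET -/
theorem pot_sub {K : Type} [AddCommGroup K] (η : Fin 4 → K) (v : Fin 4) (h0 : η v = 0)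
    (h : ∑ a, η a = 0) (a : Fin 4) (hva : v ≠ a) :
    pot η v (lft v a) - pot η v (rgt v a) = η a := by
  rw [Fin.sum_univ_four] at h
  unfold pot
  rw [Fin.sum_univ_four, Fin.sum_univ_four]
  have e3 : η 3 = -(η 0 + η 1 + η 2) := by rw [eq_neg_iff_add_eq_zero, add_comm]; exact h
  have e0 : η 0 = -(η 1 + η 2 + η 3) := by rw [e3]; abel
  fin_cases v <;> fin_cases a <;> first | exact absurd rfl hva | skip
  all_goals
    simp only [Fin.zero_eta, Fin.mk_one, Fin.reduceFinMk, Fin.isValue] at h0 hva ⊢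
    simp [lft, rgt, bc] <;> (try rw [e3, h0]) <;> (try rw [e0, h0]) <;> (try abel)


theorem j303_lft_bij : ∀ v : Fin 4, Function.Bijective (lft v) := by decide

theorem j303_rgt_bij : ∀ v : Fin 4, Function.Bijective (rgt v) := by decide

/-- The coboundary flow of a function on the vertices of the cusp triangulation. -/
def j303_cf {I : Type} {K : Type} [AddCommGroup K] (cls : Fin N → Fin 4 → Fin 4 → I) (g : I → K) :
    Fin N → Fin 4 → Fin 4 → K :=
  fun j v a => g (cls j v (lft v a)) - g (cls j v (rgt v a))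

theorem j303_cf_flow {I : Type} {K : Type} [AddCommGroup K] (T : Gluing N)
    (cls : Fin N → Fin 4 → Fin 4 → I) (hcls : IsCornerClass T cls) (g : I → K) :
    IsFlow T (j303_cf cls g) := by
  constructor
  · intro j a
    unfold j303_cf
    rw [(lft_self a).1, (lft_self a).2, sub_self]
  · intro j v a h
    unfold j303_cf
    obtain ⟨h1, h2⟩ := lft_rgt_glue (T.glue j a) (T.odd j a) v a h
    obtain ⟨n1, n2, n3, n4, n5⟩ := lft_ne v a h
    rw [h1, h2, hcls.glue j a v _ h n4 n3.symm, hcls.glue j a v _ h n2 n1.symm, neg_sub]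

theorem j303_cf_sum {I : Type} {K : Type} [AddCommGroup K]
    (cls : Fin N → Fin 4 → Fin 4 → I) (g : I → K) (j : Fin N) (v : Fin 4) :
    ∑ a, j303_cf cls g j v a = 0 := by
  unfold j303_cf
  rw [Finset.sum_sub_distrib, (j303_lft_bij v).sum_comp (fun w => g (cls j v w)),
    (j303_rgt_bij v).sum_comp (fun w => g (cls j v w)), sub_self]

theorem j303_cf_res {I : Type} [Fintype I] [DecidableEq I]
    (φ : Fin (2 * N) → Fin N × Fin 4) (cls : Fin N → Fin 4 → Fin 4 → I) (g : I → ℤ) :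
    cuspD₂ φ cls *ᵥ g = res φ (j303_cf cls g) := by
  ext x
  unfold Matrix.mulVec dotProduct cuspD₂ res j303_cf
  simp [sub_mul, Finset.sum_sub_distrib]

theorem j303_map_cast {α β : Type} (A : Matrix α β ℤ) : A.map (Int.cast : ℤ → ℤ) = A := by
  ext i j
  simp

/-- TARGET -/
theorem cusp_D₁D₂ {I : Type} [Fintype I] [DecidableEq I] (T : Gluing N)
    (φ : Fin (2 * N) → Fin N × Fin 4) (hφ : IsFaceChoice T φ)
    (cls : Fin N → Fin 4 → Fin 4 → I) (hcls : IsCornerClass T cls) :
    cuspD₁ T φ * cuspD₂ φ cls = 0 := by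
  have key : ∀ g : I → ℤ, cuspD₁ T φ *ᵥ (cuspD₂ φ cls *ᵥ g) = 0 := by
    intro g
    rw [j303_cf_res]
    ext t
    have := div_res T φ hφ _ (j303_cf_flow T cls hcls g) t
    rw [j303_map_cast, j303_cf_sum] at this
    simpa using this
  ext t c
  have := congrFun (key (Pi.single c 1)) t
  rw [Matrix.mulVec_mulVec, Matrix.mulVec_single_one] at this
  simpa using this

/-- TARGET -/
theorem cusp_omega_self (T : Gluing N) (φ : Fin (2 * N) → Fin N × Fin 4)
    (hφ : IsFaceChoice T φ) (x : Fin (2 * N) × Fin 3 → ℤ) (hx : cuspD₁ T φ *ᵥ x = 0) :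
    x ⬝ᵥ cuspΩ T φ *ᵥ x = 0 := by
  obtain ⟨η, hη, rfl⟩ := flow_ext T φ hφ x
  have hdiv : ∀ j v, ∑ a, η j v a = 0 := by
    intro j v
    have := div_res T φ hφ η hη (j, v)
    rw [j303_map_cast, hx] at this
    simpa using this.symm
  have hps : ∀ j v a, v ≠ a → pot (η j v) v (lft v a) - pot (η j v) v (rgt v a) = η j v a :=
    fun j v a h => pot_sub (η j v) v (hη.diag j v) (hdiv j v) a h
  have hjump : ∀ j v a, v ≠ a → 2 * jump T η j v a =
      (pot (η j v) v (lft v a) + pot (η j v) v (rgt v a)) -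
      (pot (η (T.adj j a) (T.glue j a v)) (T.glue j a v) (lft (T.glue j a v) (T.glue j a a)) +
        pot (η (T.adj j a) (T.glue j a v)) (T.glue j a v)
          (rgt (T.glue j a v) (T.glue j a a))) := by
    intro j v a h
    obtain ⟨h1, h2⟩ := lft_rgt_glue (T.glue j a) (T.odd j a) v a h
    have e1 := hps j v a h
    have e2 := hps (T.adj j a) (T.glue j a v) (T.glue j a a)
      (fun h' => h ((T.glue j a).injective h'))
    rw [hη.anti j v a h] at e2
    unfold jump
    rw [h1, h2] at e2 ⊢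
    linarith
  have hd := dot_res T φ hφ η hη (res φ η)
  rw [j303_map_cast] at hd
  rw [hd]
  have hpair := pairing T φ hφ (fun j v a => η j v a *
    (pot (η j v) v (lft v a) + pot (η j v) v (rgt v a))) (fun j a => by rw [hη.diag]; simp)
  have hz : ∑ j, ∑ v, ∑ a, η j v a *
      (pot (η j v) v (lft v a) + pot (η j v) v (rgt v a)) = 0 := by
    refine Finset.sum_eq_zero fun j _ => Finset.sum_eq_zero fun v _ => ?_
    have : ∀ a, η j v a * (pot (η j v) v (lft v a) + pot (η j v) v (rgt v a)) =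
        pot (η j v) v (lft v a) ^ 2 - pot (η j v) v (rgt v a) ^ 2 := by
      intro a
      by_cases h : v = a
      · subst h
        rw [hη.diag, (lft_self v).1, (lft_self v).2]
        ring
      · rw [← hps j v a h]
        ring
    simp only [this]
    rw [Finset.sum_sub_distrib, (j303_lft_bij v).sum_comp (fun w => pot (η j v) v w ^ 2),
      (j303_rgt_bij v).sum_comp (fun w => pot (η j v) v w ^ 2), sub_self]
  rw [hz] at hpair
  have h2 : 2 * ∑ x, res φ η x * jump T η (φ x.1).1 (sv φ x) (φ x.1).2 = 0 := by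
    rw [hpair, Finset.mul_sum]
    refine Finset.sum_congr rfl fun x _ => ?_
    have e1 := hjump (φ x.1).1 (sv φ x) (φ x.1).2 (Fin.succAbove_ne _ _)
    rw [hη.anti _ (sv φ x) _ (Fin.succAbove_ne _ _)]
    unfold res
    linear_combination (η (φ x.1).1 (sv φ x) (φ x.1).2) * e1
  linarith

theorem j303_pot_exact {K : Type} [AddCommGroup K] : ∀ (G : Fin 4 → K) (v w : Fin 4), v ≠ w →
    pot (fun a => G (lft v a) - G (rgt v a)) v w = G w - G (bc v) := by
  intro G v w h
  unfold pot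
  rw [Fin.sum_univ_four]
  fin_cases v <;> fin_cases w <;> first | exact absurd rfl h | skip
  all_goals simp [lft, rgt, bc]

/-- TARGET -/
theorem cusp_omega_exact {I : Type} [Fintype I] [DecidableEq I] (T : Gluing N)
    (φ : Fin (2 * N) → Fin N × Fin 4) (hφ : IsFaceChoice T φ)
    (cls : Fin N → Fin 4 → Fin 4 → I) (hcls : IsCornerClass T cls) (g : I → ℤ)
    (y : Fin (2 * N) × Fin 3 → ℤ) (hy : cuspD₁ T φ *ᵥ y = 0) :
    (cuspD₂ φ cls *ᵥ g) ⬝ᵥ cuspΩ T φ *ᵥ y = 0 := by
  rw [j303_cf_res]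
  have hf := j303_cf_flow T cls hcls g
  have hd := dot_res T φ hφ _ hf y
  rw [j303_map_cast] at hd
  rw [hd]
  have hj : ∀ j v a, v ≠ a → jump T (j303_cf cls g) j v a =
      g (cls (T.adj j a) (T.glue j a v) (bc (T.glue j a v))) - g (cls j v (bc v)) := by
    intro j v a h
    obtain ⟨n1, n2, n3, n4, n5⟩ := lft_ne v a h
    unfold jump
    have e1 := j303_pot_exact (fun w => g (cls j v w)) v (lft v a) n1.symm
    have e2 := j303_pot_exact (fun w => g (cls (T.adj j a) (T.glue j a v) w)) (T.glue j a v)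
      (T.glue j a (lft v a)) (fun h' => n1.symm ((T.glue j a).injective h'))
    have e3 : j303_cf cls g j v = fun a => g (cls j v (lft v a)) - g (cls j v (rgt v a)) := rfl
    have e4 : j303_cf cls g (T.adj j a) (T.glue j a v) =
      fun a' => g (cls (T.adj j a) (T.glue j a v) (lft (T.glue j a v) a')) -
        g (cls (T.adj j a) (T.glue j a v) (rgt (T.glue j a v) a')) := rfl
    rw [e3, e4, e1, e2, hcls.glue j a v _ h n2 n1.symm]
    ring
  have h3 : ∑ t : Fin N × Fin 4, g (cls t.1 t.2 (bc t.2)) * (cuspD₁ T φ *ᵥ y) t = 0 := by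
    rw [hy]
    simp
  rw [← h3]
  unfold Matrix.mulVec dotProduct
  simp only [Finset.mul_sum]
  rw [Finset.sum_comm]
  refine Finset.sum_congr rfl fun x _ => ?_
  rw [hj _ (sv φ x) _ (Fin.succAbove_ne _ _)]
  unfold cuspD₁
  have : ∀ (t₀ t₁ : Fin N × Fin 4) (r : ℤ), ∑ t : Fin N × Fin 4, g (cls t.1 t.2 (bc t.2)) *
      (((if t₀ = t then 1 else 0) - (if t₁ = t then 1 else 0)) * r) =
      r * (g (cls t₀.1 t₀.2 (bc t₀.2)) - g (cls t₁.1 t₁.2 (bc t₁.2))) := by
    intro t₀ t₁ r
    simp only [sub_mul, mul_sub, Finset.sum_sub_distrib]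
    simp [mul_comm]
  rw [this]

end Pool.Agent.H15_OneLoop
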