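import Pool.Agent.H15_OneLoop.TorusBasis

/-!
# The torsion of the chain complex of a torus (proof by helper344)
-/

set_option autoImplicit false

namespace Pool.Agent.H15_OneLoop

open Matrix


theorem aux_tc_inv {I N : Type} [Fintype I] [DecidableEq I] [Fintype N] [DecidableEq N]
    (W : Matrix I N ℤ) (hc : Fintype.card I = Fintype.card N) (hW : sqdet W = 1) :
    ∃ V : Matrix N I ℤ, V * W = 1 ∧ W * V = 1 := by
  have hu : IsUnit (Wᵀ * W).det := by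
    have : (Wᵀ * W).det = 1 := hW
    rw [this]
    exact isUnit_one
  have h1 : ((Wᵀ * W)⁻¹ * Wᵀ) * W = 1 := by
    rw [Matrix.mul_assoc, Matrix.nonsing_inv_mul _ hu]
  exact ⟨(Wᵀ * W)⁻¹ * Wᵀ, h1, (Matrix.mul_eq_one_comm_of_card_eq (R := ℤ) (eq := hc.symm)).mp h1⟩

theorem aux_tc_anti {I₁ I₀ : Type} [Fintype I₁] [DecidableEq I₁] [Fintype I₀] [DecidableEq I₀]
    (D₁ : Matrix I₀ I₁ ℤ) (Ω : Matrix I₁ I₁ ℤ)
    (hΩ1 : ∀ x, D₁ *ᵥ x = 0 → x ⬝ᵥ Ω *ᵥ x = 0) (p q : I₁ → ℤ)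
    (hp : D₁ *ᵥ p = 0) (hq : D₁ *ᵥ q = 0) : p ⬝ᵥ Ω *ᵥ q = - (q ⬝ᵥ Ω *ᵥ p) := by
  have h := hΩ1 (p + q) (by rw [mulVec_add, hp, hq, add_zero])
  rw [mulVec_add, dotProduct_add, add_dotProduct, add_dotProduct, hΩ1 p hp, hΩ1 q hq] at h
  linarith

/-- The inverse `V` of `W`; its last block of rows is `D₁` without the row `t₀`. -/
theorem aux_tc_coord {I₂ I₁ I₀ : Type} [Fintype I₂] [DecidableEq I₂] [Fintype I₁]
    [DecidableEq I₁] [Fintype I₀] [DecidableEq I₀]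
    (D₂ : Matrix I₁ I₂ ℤ) (D₁ : Matrix I₀ I₁ ℤ) (c₀ : I₂) (t₀ : I₀)
    (hcard : Fintype.card I₁ = Fintype.card I₂ + Fintype.card I₀)
    (hDD : D₁ * D₂ = 0)
    (x₁ x₂ : I₁ → ℤ) (Y : Matrix I₁ {t // t ≠ t₀} ℤ)
    (hx₁ : D₁ *ᵥ x₁ = 0) (hx₂ : D₁ *ᵥ x₂ = 0)
    (hY : (D₁.submatrix (Subtype.val : {t // t ≠ t₀} → I₀) id) * Y = 1)
    (hW : sqdet (fromCols (D₂.submatrix id (Subtype.val : {c // c ≠ c₀} → I₂))
        (fromCols (replicateCol Unit x₁) (fromCols (replicateCol Unit x₂) Y))) = 1) :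
    ∃ V : Matrix ({c // c ≠ c₀} ⊕ Unit ⊕ Unit ⊕ {t // t ≠ t₀}) I₁ ℤ,
      V * (fromCols (D₂.submatrix id (Subtype.val : {c // c ≠ c₀} → I₂))
        (fromCols (replicateCol Unit x₁) (fromCols (replicateCol Unit x₂) Y))) = 1 ∧
      (fromCols (D₂.submatrix id (Subtype.val : {c // c ≠ c₀} → I₂))
        (fromCols (replicateCol Unit x₁) (fromCols (replicateCol Unit x₂) Y))) * V = 1 ∧
      (∀ t i, V (Sum.inr (Sum.inr (Sum.inr t))) i = D₁ t i) := by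
  set W := fromCols (D₂.submatrix id (Subtype.val : {c // c ≠ c₀} → I₂))
        (fromCols (replicateCol Unit x₁) (fromCols (replicateCol Unit x₂) Y)) with hWdef
  have hc2 : Fintype.card {c // c ≠ c₀} = Fintype.card I₂ - 1 := by
    rw [Fintype.card_subtype_compl, Fintype.card_subtype_eq]
  have hc0 : Fintype.card {t // t ≠ t₀} = Fintype.card I₀ - 1 := by
    rw [Fintype.card_subtype_compl, Fintype.card_subtype_eq]
  have hp2 : 0 < Fintype.card I₂ := Fintype.card_pos_iff.mpr ⟨c₀⟩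
  have hp0 : 0 < Fintype.card I₀ := Fintype.card_pos_iff.mpr ⟨t₀⟩
  obtain ⟨V, hVW, hWV⟩ := aux_tc_inv W (by
    rw [Fintype.card_sum, Fintype.card_sum, Fintype.card_sum, Fintype.card_unit]
    omega) hW
  refine ⟨V, hVW, hWV, ?_⟩
  have hD : ∀ t n, ((D₁.submatrix (Subtype.val : {t // t ≠ t₀} → I₀) id) * W) t n =
      (1 : Matrix ({c // c ≠ c₀} ⊕ Unit ⊕ Unit ⊕ {t // t ≠ t₀})
        ({c // c ≠ c₀} ⊕ Unit ⊕ Unit ⊕ {t // t ≠ t₀}) ℤ) (Sum.inr (Sum.inr (Sum.inr t))) n := by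
    intro t n
    rcases n with c | ⟨⟩ | ⟨⟩ | t'
    · rw [Matrix.one_apply_ne (by simp)]
      exact congrFun (congrFun hDD (t : I₀)) (c : I₂)
    · rw [Matrix.one_apply_ne (by simp)]
      exact congrFun hx₁ (t : I₀)
    · rw [Matrix.one_apply_ne (by simp)]
      exact congrFun hx₂ (t : I₀)
    · have h5 := congrFun (congrFun hY t) t'
      have h6 : (1 : Matrix ({c // c ≠ c₀} ⊕ Unit ⊕ Unit ⊕ {t // t ≠ t₀})
        ({c // c ≠ c₀} ⊕ Unit ⊕ Unit ⊕ {t // t ≠ t₀}) ℤ) (Sum.inr (Sum.inr (Sum.inr t)))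
          (Sum.inr (Sum.inr (Sum.inr t'))) = (1 : Matrix {t // t ≠ t₀} {t // t ≠ t₀} ℤ) t t' := by
        simp [Matrix.one_apply]
      rw [h6]
      exact h5
  intro t i
  have h3 : ∀ n, ((D₁.submatrix (Subtype.val : {t // t ≠ t₀} → I₀) id) * W) t n = (V * W) (Sum.inr (Sum.inr (Sum.inr t))) n := by
    intro n
    rw [hD, hVW]
  have h4 : ((D₁.submatrix (Subtype.val : {t // t ≠ t₀} → I₀) id) * W * V) t i =
      (V * W * V) (Sum.inr (Sum.inr (Sum.inr t))) i := by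
    rw [Matrix.mul_apply, Matrix.mul_apply]
    exact Finset.sum_congr rfl fun n _ => by rw [h3]
  rw [Matrix.mul_assoc, hWV, Matrix.mul_one, Matrix.mul_assoc, hWV, Matrix.mul_one] at h4
  exact h4.symm

/-- The intersection form in the coordinates given by `W`. -/
theorem aux_tc_form {I₂ I₁ I₀ : Type} [Fintype I₂] [DecidableEq I₂] [Fintype I₁]
    [DecidableEq I₁] [Fintype I₀] [DecidableEq I₀]
    (D₂ : Matrix I₁ I₂ ℤ) (D₁ : Matrix I₀ I₁ ℤ) (Ω : Matrix I₁ I₁ ℤ) (c₀ : I₂) (t₀ : I₀)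
    (hDD : D₁ * D₂ = 0)
    (hΩ1 : ∀ x, D₁ *ᵥ x = 0 → x ⬝ᵥ Ω *ᵥ x = 0)
    (hΩ2 : ∀ g y, D₁ *ᵥ y = 0 → (D₂ *ᵥ g) ⬝ᵥ Ω *ᵥ y = 0)
    (x₁ x₂ : I₁ → ℤ) (Y : Matrix I₁ {t // t ≠ t₀} ℤ)
    (hx₁ : D₁ *ᵥ x₁ = 0) (hx₂ : D₁ *ᵥ x₂ = 0)
    (W : Matrix I₁ ({c // c ≠ c₀} ⊕ Unit ⊕ Unit ⊕ {t // t ≠ t₀}) ℤ)
    (hWdef : W = fromCols (D₂.submatrix id (Subtype.val : {c // c ≠ c₀} → I₂))
        (fromCols (replicateCol Unit x₁) (fromCols (replicateCol Unit x₂) Y)))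
    {R : Type} [CommRing R] (v w : ({c // c ≠ c₀} ⊕ Unit ⊕ Unit ⊕ {t // t ≠ t₀}) → R)
    (hv : ∀ t, v (Sum.inr (Sum.inr (Sum.inr t))) = 0)
    (hw : ∀ t, w (Sum.inr (Sum.inr (Sum.inr t))) = 0) :
    (W.map (Int.cast : ℤ → R) *ᵥ v) ⬝ᵥ Ω.map (Int.cast : ℤ → R) *ᵥ
        (W.map (Int.cast : ℤ → R) *ᵥ w) =
      (v (Sum.inr (Sum.inl ())) * w (Sum.inr (Sum.inr (Sum.inl ()))) -
        v (Sum.inr (Sum.inr (Sum.inl ()))) * w (Sum.inr (Sum.inl ()))) *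
      ((x₁ ⬝ᵥ Ω *ᵥ x₂ : ℤ) : R) := by
  set G : Matrix ({c // c ≠ c₀} ⊕ Unit ⊕ Unit ⊕ {t // t ≠ t₀})
    ({c // c ≠ c₀} ⊕ Unit ⊕ Unit ⊕ {t // t ≠ t₀}) ℤ := Wᵀ * (Ω * W) with hG
  have hmap : (W.map (Int.cast : ℤ → R))ᵀ * (Ω.map (Int.cast : ℤ → R) * W.map (Int.cast : ℤ → R))
      = G.map (Int.cast : ℤ → R) := by
    have e1 : (Ω * W).map (Int.castRingHom R) =
      Ω.map (Int.castRingHom R) * W.map (Int.castRingHom R) := Matrix.map_mul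
    have e2 : (Wᵀ * (Ω * W)).map (Int.castRingHom R) =
      Wᵀ.map (Int.castRingHom R) * (Ω * W).map (Int.castRingHom R) := Matrix.map_mul
    rw [e1] at e2
    exact e2.symm
  have h1 : (W.map (Int.cast : ℤ → R) *ᵥ v) ⬝ᵥ Ω.map (Int.cast : ℤ → R) *ᵥ
        (W.map (Int.cast : ℤ → R) *ᵥ w) = v ⬝ᵥ G.map (Int.cast : ℤ → R) *ᵥ w := by
    rw [← hmap, ← mulVec_mulVec, ← mulVec_mulVec, dotProduct_mulVec v, vecMul_transpose]
  have hGe : ∀ i j, G i j = (fun k => W k i) ⬝ᵥ Ω *ᵥ (fun k => W k j) := by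
    intro i j
    rfl
  have hcol : ∀ c : {c // c ≠ c₀}, (fun k => W k (Sum.inl c)) = D₂ *ᵥ Pi.single (c : I₂) 1 := by
    intro c
    rw [mulVec_single_one, hWdef]
    rfl
  have hcol1 : (fun k => W k (Sum.inr (Sum.inl ()))) = x₁ := by
    rw [hWdef]
    rfl
  have hcol2 : (fun k => W k (Sum.inr (Sum.inr (Sum.inl ())))) = x₂ := by
    rw [hWdef]
    rfl
  have hker : ∀ g, D₁ *ᵥ (D₂ *ᵥ g) = 0 := by
    intro g
    rw [mulVec_mulVec, hDD, zero_mulVec]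
  have g11 : ∀ c c', G (Sum.inl c) (Sum.inl c') = 0 := by
    intro c c'
    rw [hGe, hcol, hcol]
    exact hΩ2 _ _ (hker _)
  have g12 : ∀ c, G (Sum.inl c) (Sum.inr (Sum.inl ())) = 0 := by
    intro c
    rw [hGe, hcol, hcol1]
    exact hΩ2 _ _ hx₁
  have g13 : ∀ c, G (Sum.inl c) (Sum.inr (Sum.inr (Sum.inl ()))) = 0 := by
    intro c
    rw [hGe, hcol, hcol2]
    exact hΩ2 _ _ hx₂
  have g21 : ∀ c, G (Sum.inr (Sum.inl ())) (Sum.inl c) = 0 := by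
    intro c
    rw [hGe, hcol, hcol1, aux_tc_anti D₁ Ω hΩ1 _ _ hx₁ (hker _), hΩ2 _ _ hx₁, neg_zero]
  have g31 : ∀ c, G (Sum.inr (Sum.inr (Sum.inl ()))) (Sum.inl c) = 0 := by
    intro c
    rw [hGe, hcol, hcol2, aux_tc_anti D₁ Ω hΩ1 _ _ hx₂ (hker _), hΩ2 _ _ hx₂, neg_zero]
  have g22 : G (Sum.inr (Sum.inl ())) (Sum.inr (Sum.inl ())) = 0 := by
    rw [hGe, hcol1]
    exact hΩ1 _ hx₁
  have g33 : G (Sum.inr (Sum.inr (Sum.inl ()))) (Sum.inr (Sum.inr (Sum.inl ()))) = 0 := by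
    rw [hGe, hcol2]
    exact hΩ1 _ hx₂
  have g23 : G (Sum.inr (Sum.inl ())) (Sum.inr (Sum.inr (Sum.inl ()))) = x₁ ⬝ᵥ Ω *ᵥ x₂ := by
    rw [hGe, hcol1, hcol2]
  have g32 : G (Sum.inr (Sum.inr (Sum.inl ()))) (Sum.inr (Sum.inl ())) = -(x₁ ⬝ᵥ Ω *ᵥ x₂) := by
    rw [hGe, hcol1, hcol2, aux_tc_anti D₁ Ω hΩ1 _ _ hx₂ hx₁]
  rw [h1]
  simp only [dotProduct, mulVec, Fintype.sum_sum_type, Matrix.map_apply, hv, hw, g11, g12, g13, g21,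
    g31, g22, g33, g23, g32, Int.cast_zero, zero_mul, mul_zero, Finset.sum_const_zero, add_zero,
    zero_add, Finset.univ_unique, Finset.sum_singleton, PUnit.default_eq_unit, Int.cast_neg]
  ring

/-- The determinant of `[c | D₁ γ]`. -/
theorem aux_tc_last {I₀ κ : Type} [Fintype I₀] [DecidableEq I₀]
    [Fintype κ] [DecidableEq κ] (t₀ : I₀)
    (E : Matrix I₀ κ ℂ) (hE : ∀ k, ∑ t, E t k = 0)
    (hκ : Fintype.card κ + 1 = Fintype.card I₀) (c : I₀ → ℂ) :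
    sqdet (fromCols (replicateCol Unit c) E) =
      (∑ t, c t) ^ 2 * sqdet (E.submatrix (Subtype.val : {t // t ≠ t₀} → I₀) id) := by
  let S : Matrix I₀ I₀ ℂ := (1 : Matrix I₀ I₀ ℂ).updateRow t₀ (fun _ => 1)
  have hS : S.det = 1 := by
    have h1 : (fun _ => 1 : I₀ → ℂ) = ∑ k, (1 : ℂ) • (1 : Matrix I₀ I₀ ℂ) k := by
      funext j
      simp [Finset.sum_apply, Matrix.one_apply]
    show ((1 : Matrix I₀ I₀ ℂ).updateRow t₀ (fun _ => 1)).det = 1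
    rw [h1, Matrix.det_updateRow_sum]
    simp
  have h2 : sqdet (S * fromCols (replicateCol Unit c) E) =
      sqdet (fromCols (replicateCol Unit c) E) := by
    rw [sqdet_mul S _ rfl (by rw [Fintype.card_sum, Fintype.card_unit]; omega), sqdet_square, hS]
    simp
  let e : (Unit ⊕ {t // t ≠ t₀}) ≃ I₀ :=
    { toFun := Sum.elim (fun _ => t₀) (fun t => t.1)
      invFun := fun t => if h : t = t₀ then Sum.inl () else Sum.inr ⟨t, h⟩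
      left_inv := by
        rintro (⟨⟩ | ⟨t, ht⟩)
        · simp
        · simp [ht]
      right_inv := by
        intro t
        by_cases h : t = t₀
        · simp [h]
        · simp [h] }
  have h3 : (S * fromCols (replicateCol Unit c) E).submatrix e id =
      fromBlocks (Matrix.of fun _ _ => ∑ t, c t) 0
        (replicateCol Unit (fun t : {t // t ≠ t₀} => c t))
        (E.submatrix (Subtype.val : {t // t ≠ t₀} → I₀) id) := by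
    ext (⟨⟩ | ⟨t, ht⟩) (⟨⟩ | k)
    · show ∑ j, S t₀ j * c j = ∑ t, c t
      refine Finset.sum_congr rfl fun j _ => ?_
      show ((1 : Matrix I₀ I₀ ℂ).updateRow t₀ (fun _ => 1)) t₀ j * c j = c j
      rw [Matrix.updateRow_self, one_mul]
    · show ∑ j, S t₀ j * E j k = 0
      rw [← hE k]
      refine Finset.sum_congr rfl fun j _ => ?_
      show ((1 : Matrix I₀ I₀ ℂ).updateRow t₀ (fun _ => 1)) t₀ j * E j k = E j k
      rw [Matrix.updateRow_self, one_mul]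
    · show ∑ j, S t j * c j = c t
      have h5 : ∀ j, S t j = (1 : Matrix I₀ I₀ ℂ) t j := fun j => by
        show ((1 : Matrix I₀ I₀ ℂ).updateRow t₀ (fun _ => 1)) t j = _
        rw [Matrix.updateRow_ne ht]
      simp [h5, Matrix.one_apply]
    · show ∑ j, S t j * E j k = E t k
      have h5 : ∀ j, S t j = (1 : Matrix I₀ I₀ ℂ) t j := fun j => by
        show ((1 : Matrix I₀ I₀ ℂ).updateRow t₀ (fun _ => 1)) t j = _
        rw [Matrix.updateRow_ne ht]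
      simp [h5, Matrix.one_apply]
  have h4 := sqdet_reindex (S * fromCols (replicateCol Unit c) E) e (Equiv.refl _)
  rw [← h2, ← h4]
  have h6 : (S * fromCols (replicateCol Unit c) E).submatrix e (Equiv.refl (Unit ⊕ κ)) =
    (S * fromCols (replicateCol Unit c) E).submatrix e id := rfl
  rw [h6, h3, sqdet_fromBlocks_zero₁₂ _ _ _ rfl, sqdet_square]
  · simp
  · rw [Fintype.card_subtype_compl, Fintype.card_subtype_eq]
    omega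

theorem aux_tc_cast {I₂ I₁ I₀ : Type} [Fintype I₂] [DecidableEq I₂] [Fintype I₁]
    [DecidableEq I₁] [Fintype I₀] [DecidableEq I₀] {c₀ : I₂}
    (D₁ : Matrix I₀ I₁ ℤ) (t₀ : I₀)
    (V : Matrix ({c // c ≠ c₀} ⊕ Unit ⊕ Unit ⊕ {t // t ≠ t₀}) I₁ ℤ)
    (W : Matrix I₁ ({c // c ≠ c₀} ⊕ Unit ⊕ Unit ⊕ {t // t ≠ t₀}) ℤ)
    (hVW : V * W = 1) (hWV : W * V = 1)
    (hV4 : ∀ t i, V (Sum.inr (Sum.inr (Sum.inr t))) i = D₁ t i) :
    V.map (Int.cast : ℤ → ℂ) * W.map (Int.cast : ℤ → ℂ) = 1 ∧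
    W.map (Int.cast : ℤ → ℂ) * V.map (Int.cast : ℤ → ℂ) = 1 ∧
    ∀ x, D₁.map (Int.cast : ℤ → ℂ) *ᵥ x = 0 →
      ∀ t, (V.map (Int.cast : ℤ → ℂ) *ᵥ x) (Sum.inr (Sum.inr (Sum.inr t))) = 0 := by
  refine ⟨?_, ?_, ?_⟩
  · have e1 : (V * W).map (Int.castRingHom ℂ) =
      V.map (Int.castRingHom ℂ) * W.map (Int.castRingHom ℂ) := Matrix.map_mul
    rw [hVW, Matrix.map_one _ (map_zero _) (map_one _)] at e1
    exact e1.symm
  · have e1 : (W * V).map (Int.castRingHom ℂ) =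
      W.map (Int.castRingHom ℂ) * V.map (Int.castRingHom ℂ) := Matrix.map_mul
    rw [hWV, Matrix.map_one _ (map_zero _) (map_one _)] at e1
    exact e1.symm
  · intro x hx t
    refine Eq.trans ?_ (congrFun hx (t : I₀))
    show ∑ i, ((V (Sum.inr (Sum.inr (Sum.inr t))) i : ℤ) : ℂ) * x i = ∑ i, ((D₁ t i : ℤ) : ℂ) * x i
    exact Finset.sum_congr rfl fun i _ => by rw [hV4]

/-- TARGET 1 -/
theorem torus_core {I₂ I₁ I₀ κ : Type} [Fintype I₂] [DecidableEq I₂] [Fintype I₁]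
    [DecidableEq I₁] [Fintype I₀] [DecidableEq I₀] [Fintype κ] [DecidableEq κ]
    (D₂ : Matrix I₁ I₂ ℤ) (D₁ : Matrix I₀ I₁ ℤ) (Ω : Matrix I₁ I₁ ℤ) (c₀ : I₂) (t₀ : I₀)
    (hcard : Fintype.card I₁ = Fintype.card I₂ + Fintype.card I₀)
    (hDD : D₁ * D₂ = 0)
    (h2 : ∀ i, ∑ c, D₂ i c = 0) (h1 : ∀ i, ∑ t, D₁ t i = 0)
    (hprim : ∀ c, ∃ l : I₁ → ℤ, l ᵥ* D₂ = Pi.single c 1 - Pi.single c₀ 1)
    (hdual : ∀ t, ∃ y : I₁ → ℤ, D₁ *ᵥ y = Pi.single t 1 - Pi.single t₀ 1)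
    (hΩ1 : ∀ x, D₁ *ᵥ x = 0 → x ⬝ᵥ Ω *ᵥ x = 0)
    (hΩ2 : ∀ g y, D₁ *ᵥ y = 0 → (D₂ *ᵥ g) ⬝ᵥ Ω *ᵥ y = 0)
    (hΩ3 : ∀ l, l ᵥ* D₂ = 0 → ∃ y, D₁ *ᵥ y = 0 ∧ ∀ x, D₁ *ᵥ x = 0 → x ⬝ᵥ Ω *ᵥ y = l ⬝ᵥ x)
    (x y : I₁ → ℂ) (hx : D₁.map (Int.cast : ℤ → ℂ) *ᵥ x = 0)
    (hy : D₁.map (Int.cast : ℤ → ℂ) *ᵥ y = 0)
    (γ : Matrix I₁ κ ℂ) (hκ : Fintype.card κ + 1 = Fintype.card I₀) (c : I₀ → ℂ) :
    (∑ t, c t) ^ 2 *
        sqdet (fromCols ((D₂.submatrix id (Subtype.val : {c // c ≠ c₀} → I₂)).map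
          (Int.cast : ℤ → ℂ))
          (fromCols (replicateCol Unit x) (fromCols (replicateCol Unit y) γ))) =
      (x ⬝ᵥ Ω.map (Int.cast : ℤ → ℂ) *ᵥ y) ^ 2 *
        sqdet (fromCols (replicateCol Unit c) (D₁.map (Int.cast : ℤ → ℂ) * γ)) := by
  obtain ⟨x₁, x₂, Y, hx₁, hx₂, hY, hW, hs⟩ :=
    torus_basis D₂ D₁ Ω c₀ t₀ hcard hDD h2 h1 hprim hdual hΩ1 hΩ2 hΩ3
  obtain ⟨V, hVW, hWV, hV4⟩ := aux_tc_coord D₂ D₁ c₀ t₀ hcard hDD x₁ x₂ Y hx₁ hx₂ hY hW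
  set W := fromCols (D₂.submatrix id (Subtype.val : {c // c ≠ c₀} → I₂))
        (fromCols (replicateCol Unit x₁) (fromCols (replicateCol Unit x₂) Y)) with hWdef
  obtain ⟨hVWC, hWVC, hVx⟩ := aux_tc_cast D₁ t₀ V W hVW hWV hV4
  have hc2 : Fintype.card {c // c ≠ c₀} = Fintype.card I₂ - 1 := by
    rw [Fintype.card_subtype_compl, Fintype.card_subtype_eq]
  have hc0 : Fintype.card {t // t ≠ t₀} = Fintype.card I₀ - 1 := by
    rw [Fintype.card_subtype_compl, Fintype.card_subtype_eq]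
  have hp2 : 0 < Fintype.card I₂ := Fintype.card_pos_iff.mpr ⟨c₀⟩
  have hp0 : 0 < Fintype.card I₀ := Fintype.card_pos_iff.mpr ⟨t₀⟩
  set WC := W.map (Int.cast : ℤ → ℂ) with hWC
  set VC := V.map (Int.cast : ℤ → ℂ) with hVC
  -- the intersection number
  have hxW : WC *ᵥ (VC *ᵥ x) = x := by rw [mulVec_mulVec, hWVC, one_mulVec]
  have hyW : WC *ᵥ (VC *ᵥ y) = y := by rw [mulVec_mulVec, hWVC, one_mulVec]
  have hv : ∀ t, (VC *ᵥ x) (Sum.inr (Sum.inr (Sum.inr t))) = 0 := hVx x hx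
  have hw : ∀ t, (VC *ᵥ y) (Sum.inr (Sum.inr (Sum.inr t))) = 0 := hVx y hy
  have hform := aux_tc_form D₂ D₁ Ω c₀ t₀ hDD hΩ1 hΩ2 x₁ x₂ Y hx₁ hx₂ W hWdef
    (VC *ᵥ x) (VC *ᵥ y) hv hw
  rw [← hWC, hxW, hyW] at hform
  have hs' : (((x₁ ⬝ᵥ Ω *ᵥ x₂ : ℤ)) : ℂ) ^ 2 = 1 := by exact_mod_cast congrArg (Int.cast : ℤ → ℂ) hs
  -- the matrix `[c | D₁ γ]`
  have hE : ∀ k, ∑ t, (D₁.map (Int.cast : ℤ → ℂ) * γ) t k = 0 := by
    intro k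
    simp only [Matrix.mul_apply, Matrix.map_apply]
    rw [Finset.sum_comm]
    refine Finset.sum_eq_zero fun i _ => ?_
    rw [← Finset.sum_mul, ← Int.cast_sum, h1 i, Int.cast_zero, zero_mul]
  rw [aux_tc_last t₀ _ hE hκ c]
  -- the matrix `M = W U`
  set M := fromCols ((D₂.submatrix id (Subtype.val : {c // c ≠ c₀} → I₂)).map
          (Int.cast : ℤ → ℂ))
          (fromCols (replicateCol Unit x) (fromCols (replicateCol Unit y) γ)) with hM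
  have hM2 : sqdet M = sqdet (VC * M) := by
    have e1 : M = WC * (VC * M) := by rw [← Matrix.mul_assoc, hWVC, Matrix.one_mul]
    have e2 : sqdet WC = 1 := by
      have e3 := sqdet_map (Int.castRingHom ℂ) W
      rw [hW, map_one] at e3
      exact e3
    conv_lhs => rw [e1]
    rw [sqdet_mul WC (VC * M), e2, one_mul]
    · rw [Fintype.card_sum, Fintype.card_sum, Fintype.card_sum, Fintype.card_unit]
      omega
    · rw [Fintype.card_sum, Fintype.card_sum, Fintype.card_sum, Fintype.card_unit,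
        Fintype.card_sum, Fintype.card_sum, Fintype.card_sum, Fintype.card_unit]
      omega
  have hU1 : ∀ i c, (VC * M) i (Sum.inl c) =
      (1 : Matrix ({c // c ≠ c₀} ⊕ Unit ⊕ Unit ⊕ {t // t ≠ t₀})
        ({c // c ≠ c₀} ⊕ Unit ⊕ Unit ⊕ {t // t ≠ t₀}) ℂ) i (Sum.inl c) := by
    intro i c
    rw [← hVWC]
    rfl
  have hU2 : (VC * M).toBlocks₁₁ = 1 := by
    ext c c'
    have h3 : (VC * M).toBlocks₁₁ c c' = (VC * M) (Sum.inl c) (Sum.inl c') := rfl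
    rw [h3, hU1]
    simp [Matrix.one_apply]
  have hU3 : (VC * M).toBlocks₂₁ = 0 := by
    ext c c'
    have h3 : (VC * M).toBlocks₂₁ c c' = (VC * M) (Sum.inr c) (Sum.inl c') := rfl
    rw [h3, hU1]
    simp
  have hU4 : sqdet (VC * M) = sqdet (VC * M).toBlocks₂₂ := by
    conv_lhs => rw [← Matrix.fromBlocks_toBlocks (VC * M), hU2, hU3]
    rw [sqdet_fromBlocks_zero₂₁ _ _ _ rfl, sqdet_square, det_one, one_pow, one_mul]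
    rw [Fintype.card_sum, Fintype.card_sum, Fintype.card_unit,
        Fintype.card_sum, Fintype.card_sum, Fintype.card_unit]
    omega
  set Q := (VC * M).toBlocks₂₂ with hQ
  have hQr := sqdet_reindex Q (Equiv.sumAssoc Unit Unit {t // t ≠ t₀}) (Equiv.sumAssoc Unit Unit κ)
  set Q' := Q.submatrix (Equiv.sumAssoc Unit Unit {t // t ≠ t₀}) (Equiv.sumAssoc Unit Unit κ)
    with hQ'
  have hQ1 : Q'.toBlocks₂₁ = 0 := by
    ext t u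
    rcases u with ⟨⟩ | ⟨⟩
    · exact hv t
    · exact hw t
  have hQ2 : Q'.toBlocks₂₂ =
      (D₁.map (Int.cast : ℤ → ℂ) * γ).submatrix (Subtype.val : {t // t ≠ t₀} → I₀) id := by
    ext t k
    show ∑ i, VC (Sum.inr (Sum.inr (Sum.inr t))) i * γ i k = ∑ i, ((D₁ t i : ℤ) : ℂ) * γ i k
    refine Finset.sum_congr rfl fun i _ => ?_
    rw [hVC, Matrix.map_apply, hV4]
  have hQ3 : Q'.toBlocks₁₁.det =
      (VC *ᵥ x) (Sum.inr (Sum.inl ())) * (VC *ᵥ y) (Sum.inr (Sum.inr (Sum.inl ()))) -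
        (VC *ᵥ x) (Sum.inr (Sum.inr (Sum.inl ()))) * (VC *ᵥ y) (Sum.inr (Sum.inl ())) := by
    let e : Fin 2 ≃ (Unit ⊕ Unit) :=
      ⟨![Sum.inl (), Sum.inr ()], Sum.elim (fun _ => 0) (fun _ => 1), by decide, by decide⟩
    rw [← Matrix.det_submatrix_equiv_self e, Matrix.det_fin_two]
    have a1 : Q'.toBlocks₁₁.submatrix e e 0 0 = (VC *ᵥ x) (Sum.inr (Sum.inl ())) := rfl
    have a2 : Q'.toBlocks₁₁.submatrix e e 0 1 = (VC *ᵥ y) (Sum.inr (Sum.inl ())) := rfl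
    have a3 : Q'.toBlocks₁₁.submatrix e e 1 0 = (VC *ᵥ x) (Sum.inr (Sum.inr (Sum.inl ()))) := rfl
    have a4 : Q'.toBlocks₁₁.submatrix e e 1 1 = (VC *ᵥ y) (Sum.inr (Sum.inr (Sum.inl ()))) := rfl
    rw [a1, a2, a3, a4]
    ring
  have hQ4 : sqdet Q' = Q'.toBlocks₁₁.det ^ 2 *
      sqdet ((D₁.map (Int.cast : ℤ → ℂ) * γ).submatrix (Subtype.val : {t // t ≠ t₀} → I₀) id) := by
    conv_lhs => rw [← Matrix.fromBlocks_toBlocks Q', hQ1, hQ2]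
    rw [sqdet_fromBlocks_zero₂₁ _ _ _ rfl, sqdet_square]
    omega
  rw [hM2, hU4, ← hQr, hQ4, hQ3, hform]
  linear_combination (-(((VC *ᵥ x) (Sum.inr (Sum.inl ())) *
    (VC *ᵥ y) (Sum.inr (Sum.inr (Sum.inl ()))) -
        (VC *ᵥ x) (Sum.inr (Sum.inr (Sum.inl ()))) * (VC *ᵥ y) (Sum.inr (Sum.inl ()))) ^ 2 *
    (∑ t, c t) ^ 2 *
    sqdet ((D₁.map (Int.cast : ℤ → ℂ) * γ).submatrix (Subtype.val : {t // t ≠ t₀} → I₀) id))) * hs'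

/-- TARGET 2 -/
theorem torus_exact {I₂ I₁ I₀ : Type} [Fintype I₂] [DecidableEq I₂] [Fintype I₁]
    [DecidableEq I₁] [Fintype I₀] [DecidableEq I₀]
    (D₂ : Matrix I₁ I₂ ℤ) (D₁ : Matrix I₀ I₁ ℤ) (Ω : Matrix I₁ I₁ ℤ) (c₀ : I₂) (t₀ : I₀)
    (hcard : Fintype.card I₁ = Fintype.card I₂ + Fintype.card I₀)
    (hDD : D₁ * D₂ = 0)
    (h2 : ∀ i, ∑ c, D₂ i c = 0) (h1 : ∀ i, ∑ t, D₁ t i = 0)
    (hprim : ∀ c, ∃ l : I₁ → ℤ, l ᵥ* D₂ = Pi.single c 1 - Pi.single c₀ 1)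
    (hdual : ∀ t, ∃ y : I₁ → ℤ, D₁ *ᵥ y = Pi.single t 1 - Pi.single t₀ 1)
    (hΩ1 : ∀ x, D₁ *ᵥ x = 0 → x ⬝ᵥ Ω *ᵥ x = 0)
    (hΩ2 : ∀ g y, D₁ *ᵥ y = 0 → (D₂ *ᵥ g) ⬝ᵥ Ω *ᵥ y = 0)
    (hΩ3 : ∀ l, l ᵥ* D₂ = 0 → ∃ y, D₁ *ᵥ y = 0 ∧ ∀ x, D₁ *ᵥ x = 0 → x ⬝ᵥ Ω *ᵥ y = l ⬝ᵥ x)
    (d d' : I₁ → ℂ) (hd : D₁.map (Int.cast : ℤ → ℂ) *ᵥ d = 0)
    (hd' : D₁.map (Int.cast : ℤ → ℂ) *ᵥ d' = 0)
    (hdd' : d ⬝ᵥ Ω.map (Int.cast : ℤ → ℂ) *ᵥ d' ≠ 0)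
    (θ : I₁ → ℤ) (hθ : D₁ *ᵥ θ = 0)
    (hdθ : d ⬝ᵥ Ω.map (Int.cast : ℤ → ℂ) *ᵥ (fun i => (θ i : ℂ)) = 0)
    (hd'θ : d' ⬝ᵥ Ω.map (Int.cast : ℤ → ℂ) *ᵥ (fun i => (θ i : ℂ)) = 0) :
    ∃ g : I₂ → ℤ, D₂ *ᵥ g = θ := by
  obtain ⟨x₁, x₂, Y, hx₁, hx₂, hY, hW, hs⟩ :=
    torus_basis D₂ D₁ Ω c₀ t₀ hcard hDD h2 h1 hprim hdual hΩ1 hΩ2 hΩ3
  obtain ⟨V, hVW, hWV, hV4⟩ := aux_tc_coord D₂ D₁ c₀ t₀ hcard hDD x₁ x₂ Y hx₁ hx₂ hY hW
  set W := fromCols (D₂.submatrix id (Subtype.val : {c // c ≠ c₀} → I₂))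
        (fromCols (replicateCol Unit x₁) (fromCols (replicateCol Unit x₂) Y)) with hWdef
  obtain ⟨hVWC, hWVC, hVx⟩ := aux_tc_cast D₁ t₀ V W hVW hWV hV4
  set WC := W.map (Int.cast : ℤ → ℂ) with hWC
  set VC := V.map (Int.cast : ℤ → ℂ) with hVC
  have hW' : ∀ z, WC *ᵥ (VC *ᵥ z) = z := fun z => by rw [mulVec_mulVec, hWVC, one_mulVec]
  have hθC : D₁.map (Int.cast : ℤ → ℂ) *ᵥ (fun i => (θ i : ℂ)) = 0 := by
    funext t
    have := congrArg (Int.cast : ℤ → ℂ) (congrFun hθ t)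
    simpa [mulVec, dotProduct] using this
  have hform : ∀ z z', D₁.map (Int.cast : ℤ → ℂ) *ᵥ z = 0 → D₁.map (Int.cast : ℤ → ℂ) *ᵥ z' = 0 →
      z ⬝ᵥ Ω.map (Int.cast : ℤ → ℂ) *ᵥ z' =
      ((VC *ᵥ z) (Sum.inr (Sum.inl ())) * (VC *ᵥ z') (Sum.inr (Sum.inr (Sum.inl ()))) -
        (VC *ᵥ z) (Sum.inr (Sum.inr (Sum.inl ()))) * (VC *ᵥ z') (Sum.inr (Sum.inl ()))) *
      ((x₁ ⬝ᵥ Ω *ᵥ x₂ : ℤ) : ℂ) := by
    intro z z' hz hz'
    have h := aux_tc_form D₂ D₁ Ω c₀ t₀ hDD hΩ1 hΩ2 x₁ x₂ Y hx₁ hx₂ W hWdef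
      (VC *ᵥ z) (VC *ᵥ z') (hVx z hz) (hVx z' hz')
    rw [← hWC, hW', hW'] at h
    exact h
  have hs' : ((x₁ ⬝ᵥ Ω *ᵥ x₂ : ℤ) : ℂ) ≠ 0 := by
    intro h
    have h0 : (x₁ ⬝ᵥ Ω *ᵥ x₂ : ℤ) = 0 := by exact_mod_cast h
    rw [h0] at hs
    norm_num at hs
  rw [hform d d' hd hd'] at hdd'
  rw [hform d _ hd hθC] at hdθ
  rw [hform d' _ hd' hθC] at hd'θ
  have k1 := (mul_eq_zero.mp hdθ).resolve_right hs'
  have k2 := (mul_eq_zero.mp hd'θ).resolve_right hs'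
  have k3 := left_ne_zero_of_mul hdd'
  have hcast : ∀ n, (VC *ᵥ (fun i => (θ i : ℂ))) n = (((V *ᵥ θ) n : ℤ) : ℂ) := by
    intro n
    simp [mulVec, dotProduct, hVC]
  set a := (VC *ᵥ d) (Sum.inr (Sum.inl ()))
  set b := (VC *ᵥ d) (Sum.inr (Sum.inr (Sum.inl ())))
  set a' := (VC *ᵥ d') (Sum.inr (Sum.inl ()))
  set b' := (VC *ᵥ d') (Sum.inr (Sum.inr (Sum.inl ())))
  have hp : (VC *ᵥ (fun i => (θ i : ℂ))) (Sum.inr (Sum.inl ())) = 0 := by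
    have : (a * b' - b * a') * (VC *ᵥ (fun i => (θ i : ℂ))) (Sum.inr (Sum.inl ())) = 0 := by
      linear_combination a' * k1 - a * k2
    exact (mul_eq_zero.mp this).resolve_left k3
  have hq : (VC *ᵥ (fun i => (θ i : ℂ))) (Sum.inr (Sum.inr (Sum.inl ()))) = 0 := by
    have : (a * b' - b * a') * (VC *ᵥ (fun i => (θ i : ℂ))) (Sum.inr (Sum.inr (Sum.inl ()))) = 0 := by
      linear_combination b' * k1 - b * k2
    exact (mul_eq_zero.mp this).resolve_left k3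
  rw [hcast] at hp hq
  have hp' : (V *ᵥ θ) (Sum.inr (Sum.inl ())) = 0 := by exact_mod_cast hp
  have hq' : (V *ᵥ θ) (Sum.inr (Sum.inr (Sum.inl ()))) = 0 := by exact_mod_cast hq
  have hr' : ∀ t, (V *ᵥ θ) (Sum.inr (Sum.inr (Sum.inr t))) = 0 := by
    intro t
    have := hVx _ hθC t
    rw [hcast] at this
    exact_mod_cast this
  refine ⟨fun c => if h : c ≠ c₀ then (V *ᵥ θ) (Sum.inl ⟨c, h⟩) else 0, ?_⟩
  have hθW : W *ᵥ (V *ᵥ θ) = θ := by rw [mulVec_mulVec, hWV, one_mulVec]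
  conv_rhs => rw [← hθW]
  funext i
  show ∑ c, D₂ i c * _ = ∑ n, W i n * (V *ᵥ θ) n
  rw [Fintype.sum_sum_type, Fintype.sum_sum_type, Fintype.sum_sum_type]
  simp only [Finset.univ_unique, PUnit.default_eq_unit, hp', hq', hr',
    mul_zero, Finset.sum_const_zero, add_zero]
  rw [← Fintype.sum_subtype_add_sum_subtype (fun c => c ≠ c₀) (fun c => D₂ i c * _)]
  have h8 : ∑ c : {c // ¬ (c ≠ c₀)}, D₂ i (c : I₂) *
      (if h : (c : I₂) ≠ c₀ then (V *ᵥ θ) (Sum.inl ⟨(c : I₂), h⟩) else 0) = 0 := by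
    refine Finset.sum_eq_zero fun c _ => ?_
    rw [dif_neg c.2, mul_zero]
  rw [h8, add_zero]
  refine Finset.sum_congr rfl fun c _ => ?_
  rw [dif_pos c.2]
  rfl

end Pool.Agent.H15_OneLoop
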