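import Pool.Agent.H15_OneLoop.EdgeDet
import Pool.Agent.H15_OneLoop.Flows
import Pool.Agent.H15_OneLoop.Duality
import Pool.Agent.H15_OneLoop.TorusCore

/-!
# The determinant of the 1-chains in terms of the gluing matrices
-/

set_option autoImplicit false

namespace Pool.Agent.H15_OneLoop

open Matrix

variable {N : ℕ}

/-- The matrix in the numerator of the 1-loop invariant. -/
noncomputable def numMat (T : IdealTriangulation N) (z : Fin N → ℂ)
    (θ : NormalCurve T.toGluing) (r : Fin N) : Matrix (Fin N) (Fin N) ℂ :=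
  ∑ k, (hatG T θ r k).map (Int.cast : ℤ → ℂ) * Matrix.diagonal fun j => zeta (z j) k

theorem numMat_row (T : IdealTriangulation N) (z : Fin N → ℂ) (θ : NormalCurve T.toGluing)
    (r j : Fin N) : numMat T z θ r r j = ∑ k, (θ.C k j : ℂ) * zeta (z j) k := by
  simp [numMat, Matrix.sum_apply, hatG]

theorem numMat_ne (T : IdealTriangulation N) (z : Fin N → ℂ) (θ : NormalCurve T.toGluing)
    {r E : Fin N} (hE : E ≠ r) (j : Fin N) :
    numMat T z θ r E j = ∑ k, (T.G k E j : ℂ) * zeta (z j) k := by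
  simp [numMat, Matrix.sum_apply, hatG, hE]

/-- The rows: the coefficient at the vertex `0`, and the coordinates of the combination of the
parabolic elements, in each tetrahedron. -/
noncomputable def tetMat (P : Fin N → Fin 4 → Mat2) :
    Matrix (Fin N ⊕ (Fin N × Fin 3)) (Fin N × Fin 4) ℂ :=
  fromRows (Matrix.of fun j t => if t = (j, 0) then 1 else 0)
    (Matrix.of fun p t => if p.1 = t.1 then coord (P t.1 t.2) p.2 else 0)

/-- The order of the rows. -/
def tetRow (N : ℕ) : Fin 4 × Fin N ≃ Fin N ⊕ (Fin N × Fin 3) where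
  toFun x := Fin.cases (motive := fun _ => Fin N ⊕ (Fin N × Fin 3)) (Sum.inl x.2)
    (fun i => Sum.inr (x.2, i)) x.1
  invFun := Sum.elim (fun j => (0, j)) (fun p => (p.2.succ, p.1))
  left_inv := by
    rintro ⟨i, j⟩
    refine Fin.cases ?_ (fun i => ?_) i <;> rfl
  right_inv := by rintro (j | ⟨j, i⟩) <;> rfl

theorem tetMat_sqdet (P : Fin N → Fin 4 → Mat2) :
    sqdet (tetMat P) = ∏ j, (Setup.faceMat P j 0).det ^ 2 := by
  have hM : (tetMat P).submatrix (tetRow N) (Equiv.prodComm (Fin 4) (Fin N)) =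
      blockDiagonal fun j => (Matrix.of fun i v => Fin.cases (motive := fun _ => ℂ)
        (if v = 0 then 1 else 0) (fun k => coord (P j v) k) i : Matrix (Fin 4) (Fin 4) ℂ) := by
    ext ⟨i, j⟩ ⟨v, j'⟩
    rw [Matrix.blockDiagonal_apply]
    refine Fin.cases ?_ (fun k => ?_) i
    · show (if ((j', v) : Fin N × Fin 4) = (j, 0) then (1 : ℂ) else 0) =
        if j = j' then (if v = 0 then 1 else 0) else 0
      by_cases h : j = j'
      · subst h; simp
      · simp [h, Ne.symm h]
    · show (if j = j' then coord (P j' v) k else 0) = if j = j' then coord (P j v) k else 0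
      by_cases h : j = j'
      · subst h; simp
      · simp [h]
  rw [← sqdet_reindex (tetMat P) (tetRow N) (Equiv.prodComm (Fin 4) (Fin N)), hM,
    sqdet_blockDiagonal _ rfl]
  refine Finset.prod_congr rfl fun j _ => ?_
  rw [sqdet_square, Matrix.det_succ_row_zero, Fin.sum_univ_succ]
  rw [Finset.sum_eq_zero (fun k _ => by simp), add_zero]
  simp only [Matrix.of_apply, Fin.cases_zero, Fin.val_zero, pow_zero, if_true, one_mul, mul_one]
  rfl

theorem Setup.kvec_sq {T : Gluing N} {z : Fin N → ℂ} {A P : Fin N → Fin 4 → Mat2}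
    {s : Fin N → Fin 4 → ℂ} (H : Setup T z A P s) (j : Fin N) :
    kvec (z j) (s j) 0 ^ 2 * (∏ v, s j v) ^ 2 = (Setup.faceMat P j 0).det ^ 2 := by
  rw [H.faceMat_det]
  obtain ⟨m0, m01, m02, m03, m10, m12, m13, m20, m21, m23, m30, m31, m32⟩ := mm_table (z j)
  have e1 : (0 : Fin 4).succAbove (0 : Fin 3) = 1 := rfl
  have e2 : (0 : Fin 4).succAbove (1 : Fin 3) = 2 := rfl
  have e3 : (0 : Fin 4).succAbove (2 : Fin 3) = 3 := rfl
  rw [e1, e2, e3, m12, m13, m23, Fin.prod_univ_four]
  have s0 := H.hs j 0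
  simp only [kvec, Matrix.cons_val_zero]
  field_simp
  ring

/-- The bijection which orders the edges with the edge `r` first. -/
noncomputable def edgeRow (r : Fin N) : Unit ⊕ {E // E ≠ r} ≃ Fin N :=
  Equiv.ofBijective (Sum.elim (fun _ => r) Subtype.val) (by
    constructor
    · rintro (a | a) (b | b) h
      · rfl
      · exact absurd h.symm b.2
      · exact absurd h a.2
      · exact congrArg Sum.inr (Subtype.ext h)
    · intro E
      by_cases h : E = r
      · exact ⟨Sum.inl (), h.symm⟩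
      · exact ⟨Sum.inr ⟨E, h⟩, rfl⟩)

/-- The order of the columns. -/
def chainCol (α β κ : Type) : α ⊕ (Unit ⊕ (Unit ⊕ (β ⊕ κ))) ≃ (α ⊕ (Unit ⊕ β)) ⊕ (Unit ⊕ κ) where
  toFun := Sum.elim (fun a => Sum.inl (Sum.inl a)) (Sum.elim
    (fun _ => Sum.inl (Sum.inr (Sum.inl ()))) (Sum.elim (fun _ => Sum.inr (Sum.inl ()))
    (Sum.elim (fun b => Sum.inl (Sum.inr (Sum.inr b))) (fun k => Sum.inr (Sum.inr k)))))
  invFun := Sum.elim (Sum.elim (fun a => Sum.inl a) (Sum.elim (fun _ => Sum.inr (Sum.inl ()))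
    (fun b => Sum.inr (Sum.inr (Sum.inr (Sum.inl b))))))
    (Sum.elim (fun _ => Sum.inr (Sum.inr (Sum.inl ())))
      (fun k => Sum.inr (Sum.inr (Sum.inr (Sum.inr k)))))
  left_inv := by rintro (a | _ | _ | b | k) <;> rfl
  right_inv := by rintro ((a | _ | b) | _ | k) <;> rfl

/-- The matrix of the flows of the remaining `1`-chains. -/
noncomputable def gamMat (T : IdealTriangulation N) (z : Fin N → ℂ) (s : Fin N → Fin 4 → ℂ)
    (φ : Fin (2 * N) → Fin N × Fin 4) (r : Fin N) {κ : Type}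
    (η : κ → Fin N → Fin 4 → Fin 4 → ℂ) :
    Matrix (Fin (2 * N) × Fin 3) ({E // E ≠ r} ⊕ κ) ℂ :=
  Matrix.of fun x k => Sum.elim (fun E => res φ (psi T z s E.1) x) (fun k => res φ (η k) x) k

/-- Step 1: the matrix of the `1`-chains factors through the `1`-chains of the cusp. -/
theorem coord₁_factor {T : IdealTriangulation N} {z : Fin N → ℂ} {A P : Fin N → Fin 4 → Mat2}
    {s : Fin N → Fin 4 → ℂ} (H : Setup T.toGluing z A P s) (φ : Fin (2 * N) → Fin N × Fin 4)
    (cls : Fin N → Fin 4 → Fin 4 → Fin N × Fin 2) (hcls : IsCornerClass T.toGluing cls)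
    (c₀ : Fin N × Fin 2) (r : Fin N) (θ : NormalCurve T.toGluing) {κ : Type}
    (b₁ : κ → chain₁ T.toGluing A) (η : κ → Fin N → Fin 4 → Fin 4 → ℂ)
    (hη : ∀ k, Rep P (b₁ k) (η k)) :
    (cm (coord₁ T.toGluing A φ) (Sum.elim (bd₂ T.toGluing A ∘ bfam H cls hcls c₀ r)
      (Sum.elim (fun _ : Unit => classOne H.hP θ) b₁))).submatrix (Equiv.refl _)
        (chainCol {c // c ≠ c₀} {E // E ≠ r} κ) =
      phiMat φ P * fromCols
        (((cuspD₂ φ cls).submatrix id (Subtype.val : {c // c ≠ c₀} → Fin N × Fin 2)).map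
          (Int.cast : ℤ → ℂ))
        (fromCols (replicateCol Unit (res φ (disFlow z s)))
          (fromCols (replicateCol Unit (res φ fun j v a => (θ.crossing j v a : ℂ)))
            (gamMat T z s φ r η))) := by
  ext x k
  rw [Matrix.mul_apply]
  rcases k with c | _ | _ | E | k
  · have e : (chainCol {c // c ≠ c₀} {E // E ≠ r} κ) (Sum.inl c) = Sum.inl (Sum.inl c) := rfl
    have h := coord₁_eq φ _ _ (rep_phiTwo H.hP cls hcls (Pi.single c.1 (1 : ℂ)))
    simp only [Matrix.submatrix_apply, Equiv.refl_apply, e, cm, Matrix.of_apply, Sum.elim_inl,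
      Function.comp_apply, bfam, fromCols_apply_inl, Matrix.map_apply, id]
    rw [h]
    simp only [Matrix.mulVec, dotProduct]
    refine Finset.sum_congr rfl fun y _ => ?_
    congr 1
    simp only [res, cuspD₂, Pi.single_apply]
    push_cast
    rfl
  · have e : (chainCol {c // c ≠ c₀} {E // E ≠ r} κ) (Sum.inr (Sum.inl ())) =
      Sum.inl (Sum.inr (Sum.inl ())) := rfl
    simp only [Matrix.submatrix_apply, Equiv.refl_apply, e, cm, Matrix.of_apply, Sum.elim_inl,
      Sum.elim_inr, Function.comp_apply, bfam, fromCols_apply_inl, fromCols_apply_inr]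
    rw [map_sum, map_sum, Finset.sum_apply]
    have h : ∀ E, coord₁ T.toGluing A φ (bd₂ T.toGluing A (qEdge H E)) x =
        ∑ y, phiMat φ P x y * res φ (psi T z s E) y := by
      intro E
      rw [coord₁_eq φ _ _ (rep_qEdge H E)]
      rfl
    simp only [h]
    rw [Finset.sum_comm]
    refine Finset.sum_congr rfl fun y _ => ?_
    rw [← Finset.mul_sum]
    congr 1
    simp only [res, replicateCol_apply]
    exact sum_psi T z s _ (Fin.succAbove_ne _ _)
  · have e : (chainCol {c // c ≠ c₀} {E // E ≠ r} κ) (Sum.inr (Sum.inr (Sum.inl ()))) =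
      Sum.inr (Sum.inl ()) := rfl
    simp only [Matrix.submatrix_apply, Equiv.refl_apply, e, cm, Matrix.of_apply, Sum.elim_inl,
      Sum.elim_inr, fromCols_apply_inl, fromCols_apply_inr]
    rw [coord₁_eq φ _ _ (rep_classOne H.hP θ)]
    rfl
  · have e : (chainCol {c // c ≠ c₀} {E // E ≠ r} κ) (Sum.inr (Sum.inr (Sum.inr (Sum.inl E)))) =
      Sum.inl (Sum.inr (Sum.inr E)) := rfl
    simp only [Matrix.submatrix_apply, Equiv.refl_apply, e, cm, Matrix.of_apply, Sum.elim_inl,
      Sum.elim_inr, Function.comp_apply, bfam, fromCols_apply_inr]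
    rw [coord₁_eq φ _ _ (rep_qEdge H E)]
    rfl
  · have e : (chainCol {c // c ≠ c₀} {E // E ≠ r} κ) (Sum.inr (Sum.inr (Sum.inr (Sum.inr k)))) =
      Sum.inr (Sum.inr k) := rfl
    simp only [Matrix.submatrix_apply, Equiv.refl_apply, e, cm, Matrix.of_apply,
      Sum.elim_inr, fromCols_apply_inr]
    rw [coord₁_eq φ _ _ (hη k)]
    rfl

/-- The sum of the parabolic elements of a tetrahedron with the coefficients `kvec`. -/
theorem Setup.kvec_zero {T : Gluing N} {z : Fin N → ℂ} {A P : Fin N → Fin 4 → Mat2}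
    {s : Fin N → Fin 4 → ℂ} (H : Setup T z A P s) (j : Fin N) :
    ∑ v, kvec (z j) (s j) v • P j v = 0 := by
  rw [← kvec_rel (z j) (s j) (H.hs j)]
  exact Finset.sum_congr rfl fun v _ => by rw [H.hPs]

/-- Step 2: the image of the columns in the `0`-chains. -/
theorem tet_factor {T : IdealTriangulation N} {z : Fin N → ℂ} {A P : Fin N → Fin 4 → Mat2}
    {s : Fin N → Fin 4 → ℂ} (H : Setup T.toGluing z A P s) (φ : Fin (2 * N) → Fin N × Fin 4)
    (hφ : IsFaceChoice T.toGluing φ) (r : Fin N) (θ : NormalCurve T.toGluing) {κ : Type}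
    (b₁ : κ → chain₁ T.toGluing A) (η : κ → Fin N → Fin 4 → Fin 4 → ℂ)
    (hη : ∀ k, Rep P (b₁ k) (η k)) :
    tetMat P * (fromCols (replicateCol Unit fun t : Fin N × Fin 4 =>
        (∑ k, (θ.C k t.1 : ℂ) * zeta (z t.1) k) * kvec (z t.1) (s t.1) t.2)
      ((cuspD₁ T.toGluing φ).map (Int.cast : ℤ → ℂ) * gamMat T z s φ r η)).submatrix id
        (Equiv.sumAssoc Unit {E // E ≠ r} κ) =
      fromBlocks (Matrix.diagonal (fun j => kvec (z j) (s j) 0) *
          ((numMat T z θ r)ᵀ.submatrix (Equiv.refl _) (edgeRow r) *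
            Matrix.diagonal (Sum.elim (fun _ : Unit => (1 : ℂ))
              (fun _ : {E // E ≠ r} => (-1 : ℂ)))))
        (Matrix.of fun j k => -∑ a, η k j 0 a) 0
        (cm (coord₀ N) (bd₁ T.toGluing A ∘ b₁)) := by
  -- the columns
  have hpsi : ∀ (E : Fin N) (t : Fin N × Fin 4),
      ((cuspD₁ T.toGluing φ).map (Int.cast : ℤ → ℂ) *ᵥ res φ (psi T z s E)) t =
        -((∑ k, (T.G k E t.1 : ℂ) * zeta (z t.1) k) * kvec (z t.1) (s t.1) t.2) := by
    intro E t
    rw [div_res T.toGluing φ hφ _ (psi_isFlow H E) t, psi_div T H.h0 H.h1 H.hs]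
  have hη' : ∀ (k : κ) (t : Fin N × Fin 4),
      ((cuspD₁ T.toGluing φ).map (Int.cast : ℤ → ℂ) *ᵥ res φ (η k)) t =
        -∑ a, η k t.1 t.2 a := by
    intro k t
    rw [div_res T.toGluing φ hφ _ (hη k).1 t]
  -- the three kinds of columns
  have hcol : ∀ (t : Fin N × Fin 4) (k : (Unit ⊕ {E // E ≠ r}) ⊕ κ),
      (fromCols (replicateCol Unit fun t : Fin N × Fin 4 =>
        (∑ k, (θ.C k t.1 : ℂ) * zeta (z t.1) k) * kvec (z t.1) (s t.1) t.2)
      ((cuspD₁ T.toGluing φ).map (Int.cast : ℤ → ℂ) * gamMat T z s φ r η)).submatrix id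
        (Equiv.sumAssoc Unit {E // E ≠ r} κ) t k =
      Sum.elim (fun e => (kvec (z t.1) (s t.1) t.2) * ((numMat T z θ r) (edgeRow r e) t.1 *
        Sum.elim (fun _ => 1) (fun _ => -1) e)) (fun k => -∑ a, η k t.1 t.2 a) k := by
    intro t k
    rcases k with (k | E) | k
    · have e1 : (Equiv.sumAssoc Unit {E // E ≠ r} κ) (Sum.inl (Sum.inl k)) = Sum.inl k := rfl
      have e2 : edgeRow r (Sum.inl k) = r := rfl
      simp only [Matrix.submatrix_apply, id, e1, fromCols_apply_inl, replicateCol_apply,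
        Sum.elim_inl, e2, mul_one]
      rw [numMat_row]
      ring
    · have e1 : (Equiv.sumAssoc Unit {E // E ≠ r} κ) (Sum.inl (Sum.inr E)) =
        Sum.inr (Sum.inl E) := rfl
      have e2 : edgeRow r (Sum.inr E) = E.1 := rfl
      simp only [Matrix.submatrix_apply, id, e1, fromCols_apply_inr, Sum.elim_inl, Sum.elim_inr,
        e2]
      rw [numMat_ne T z θ E.2]
      refine (hpsi E t).trans ?_
      ring
    · have e1 : (Equiv.sumAssoc Unit {E // E ≠ r} κ) (Sum.inr k) =
        Sum.inr (Sum.inr k) := rfl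
      simp only [Matrix.submatrix_apply, id, e1, fromCols_apply_inr, Sum.elim_inr]
      exact hη' k t
  ext p k
  rw [Matrix.mul_apply]
  simp only [hcol]
  rcases p with j | ⟨j, i⟩
  · have h1 : ∀ (F : Fin N × Fin 4 → ℂ), ∑ t, tetMat P (Sum.inl j) t * F t = F (j, 0) := by
      intro F
      simp [tetMat]
    rw [h1]
    rcases k with k | k
    · simp only [Sum.elim_inl, fromBlocks_apply₁₁]
      rw [Matrix.diagonal_mul, Matrix.mul_diagonal]
      rfl
    · simp
  · have h1 : ∀ (F : Fin N × Fin 4 → ℂ), ∑ t, tetMat P (Sum.inr (j, i)) t * F t =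
        coord (∑ v, F (j, v) • P j v) i := by
      intro F
      rw [coord_sum, Finset.sum_apply, Fintype.sum_prod_type]
      rw [Finset.sum_eq_single j]
      · refine Finset.sum_congr rfl fun v _ => ?_
        simp [tetMat, coord_smul, mul_comm]
      · intro j' _ hj'
        refine Finset.sum_eq_zero fun v _ => ?_
        simp [tetMat, Ne.symm hj']
      · intro h; exact absurd (Finset.mem_univ _) h
    rw [h1]
    rcases k with k | k
    · simp only [Sum.elim_inl, fromBlocks_apply₂₁, Matrix.zero_apply]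
      have h2 : ∑ v, (kvec (z j) (s j) v * ((numMat T z θ r) (edgeRow r k) j *
          Sum.elim (fun _ => (1 : ℂ)) (fun _ => -1) k)) • P j v = 0 := by
        have : ∀ v, (kvec (z j) (s j) v * ((numMat T z θ r) (edgeRow r k) j *
          Sum.elim (fun _ => (1 : ℂ)) (fun _ => -1) k)) • P j v =
          ((numMat T z θ r) (edgeRow r k) j * Sum.elim (fun _ => (1 : ℂ)) (fun _ => -1) k) •
            kvec (z j) (s j) v • P j v := by
          intro v
          rw [smul_smul]
          congr 1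
          ring
        rw [Finset.sum_congr rfl fun v _ => this v, ← Finset.smul_sum, H.kvec_zero, smul_zero]
      rw [h2, coord_zero]
      rfl
    · simp only [Sum.elim_inr, fromBlocks_apply₂₂, cm, Matrix.of_apply, Function.comp_apply]
      rw [← bd₁_rep (hη k) j]
      rfl

theorem assembly {T : IdealTriangulation N} {z : Fin N → ℂ} {A P : Fin N → Fin 4 → Mat2}
    {s : Fin N → Fin 4 → ℂ} (H : Setup T.toGluing z A P s) (φ : Fin (2 * N) → Fin N × Fin 4)
    (hφ : IsFaceChoice T.toGluing φ)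
    (cls : Fin N → Fin 4 → Fin 4 → Fin N × Fin 2) (hcls : IsCornerClass T.toGluing cls)
    (c₀ : Fin N × Fin 2) (r : Fin N) (θ : NormalCurve T.toGluing)
    (hdiv : ∀ j v, ∑ a, θ.crossing j v a = 0)
    (hcurve : (∑ t : Fin N × Fin 4, (∑ k, (θ.C k t.1 : ℂ) * zeta (z t.1) k) *
        kvec (z t.1) (s t.1) t.2) ^ 2 =
      4 * (res φ (disFlow z s) ⬝ᵥ (cuspΩ T.toGluing φ).map (Int.cast : ℤ → ℂ) *ᵥ
        (res φ fun j v a => (θ.crossing j v a : ℂ))) ^ 2)
    (hI : res φ (disFlow z s) ⬝ᵥ (cuspΩ T.toGluing φ).map (Int.cast : ℤ → ℂ) *ᵥ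
        (res φ fun j v a => (θ.crossing j v a : ℂ)) ≠ 0)
    {κ : Type} [Fintype κ] [DecidableEq κ]
    (b₁ : κ → chain₁ T.toGluing A) (hκ : Fintype.card κ = 3 * N) :
    4 * sqdet (cm (coord₁ T.toGluing A φ) (Sum.elim (bd₂ T.toGluing A ∘ bfam H cls hcls c₀ r)
        (Sum.elim (fun _ : Unit => classOne H.hP θ) b₁))) * ∏ j, (∏ v, s j v) ^ 2 =
      (∏ F, (Setup.faceMat P (φ F).1 (φ F).2).det ^ 2) * (numMat T z θ r).det ^ 2 *
        sqdet (cm (coord₀ N) (bd₁ T.toGluing A ∘ b₁)) := by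
  choose η hη using fun k => H.exists_rep (b₁ k)
  have hN : 0 < N := lt_of_le_of_lt (Nat.zero_le _) r.2
  have hr : Fintype.card {E // E ≠ r} + 1 = N := by
    rw [Fintype.card_subtype_compl, Fintype.card_subtype_eq, Fintype.card_fin]
    omega
  -- the torus
  have hcard : Fintype.card (Fin (2 * N) × Fin 3) =
      Fintype.card (Fin N × Fin 2) + Fintype.card (Fin N × Fin 4) := by
    simp only [Fintype.card_prod, Fintype.card_fin]; ring
  have hxd : (cuspD₁ T.toGluing φ).map (Int.cast : ℤ → ℂ) *ᵥ res φ (disFlow z s) = 0 := by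
    ext t
    rw [div_res T.toGluing φ hφ _ (disFlow_isFlow H) t, disFlow_sum H.h0 H.h1 H.hs]
    simp
  have hyd : (cuspD₁ T.toGluing φ).map (Int.cast : ℤ → ℂ) *ᵥ
      (res φ fun j v a => (θ.crossing j v a : ℂ)) = 0 := by
    ext t
    rw [div_res T.toGluing φ hφ _ (crossing_isFlow θ ℂ) t, ← Int.cast_sum, hdiv]
    simp
  have hcol : ∀ i, ∑ c, cuspD₂ φ cls i c = 0 := by
    intro i
    simp [cuspD₂, Finset.sum_sub_distrib]
  have hrow : ∀ i, ∑ t, cuspD₁ T.toGluing φ t i = 0 := by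
    intro i
    simp [cuspD₁, Finset.sum_sub_distrib]
  have key := torus_core (cuspD₂ φ cls) (cuspD₁ T.toGluing φ) (cuspΩ T.toGluing φ) c₀ (r, 0)
    hcard (cusp_D₁D₂ T.toGluing φ hφ cls hcls) hcol hrow
    (fun c => cusp_prim T.toGluing T.one_cusp φ hφ cls hcls c c₀)
    (fun t => cusp_dual T.toGluing T.one_cusp φ hφ t (r, 0))
    (cusp_omega_self T.toGluing φ hφ) (cusp_omega_exact T.toGluing φ hφ cls hcls)
    (cusp_omega_dual T.toGluing φ hφ cls hcls)
    (res φ (disFlow z s)) (res φ fun j v a => (θ.crossing j v a : ℂ)) hxd hyd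
    (gamMat T z s φ r η) (by
      rw [Fintype.card_sum, hκ]
      simp only [Fintype.card_prod, Fintype.card_fin]
      omega)
    (fun t => (∑ k, (θ.C k t.1 : ℂ) * zeta (z t.1) k) * kvec (z t.1) (s t.1) t.2)
  rw [hcurve] at key
  set I := res φ (disFlow z s) ⬝ᵥ (cuspΩ T.toGluing φ).map (Int.cast : ℤ → ℂ) *ᵥ
        (res φ fun j v a => (θ.crossing j v a : ℂ)) with hIdef
  set R := fromCols
        (((cuspD₂ φ cls).submatrix id (Subtype.val : {c // c ≠ c₀} → Fin N × Fin 2)).map
          (Int.cast : ℤ → ℂ))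
        (fromCols (replicateCol Unit (res φ (disFlow z s)))
          (fromCols (replicateCol Unit (res φ fun j v a => (θ.crossing j v a : ℂ)))
            (gamMat T z s φ r η))) with hR
  set Q := fromCols (replicateCol Unit fun t : Fin N × Fin 4 =>
        (∑ k, (θ.C k t.1 : ℂ) * zeta (z t.1) k) * kvec (z t.1) (s t.1) t.2)
      ((cuspD₁ T.toGluing φ).map (Int.cast : ℤ → ℂ) * gamMat T z s φ r η) with hQ
  have key2 : 4 * sqdet R = sqdet Q := by
    have : I ^ 2 * (4 * sqdet R) = I ^ 2 * sqdet Q := by linear_combination key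
    exact mul_left_cancel₀ (pow_ne_zero 2 hI) this
  -- step 1
  have hcards : Fintype.card ({c // c ≠ c₀} ⊕ (Unit ⊕ (Unit ⊕ ({E // E ≠ r} ⊕ κ)))) =
      Fintype.card (Fin (2 * N) × Fin 3) := by
    simp only [Fintype.card_sum, Fintype.card_unit, hκ, Fintype.card_prod, Fintype.card_fin]
    rw [Fintype.card_subtype_compl, Fintype.card_subtype_eq]
    simp only [Fintype.card_prod, Fintype.card_fin]
    omega
  have step1 : sqdet (cm (coord₁ T.toGluing A φ)
      (Sum.elim (bd₂ T.toGluing A ∘ bfam H cls hcls c₀ r)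
        (Sum.elim (fun _ : Unit => classOne H.hP θ) b₁))) = sqdet (phiMat φ P) * sqdet R := by
    rw [← sqdet_reindex _ (Equiv.refl _) (chainCol {c // c ≠ c₀} {E // E ≠ r} κ),
      coord₁_factor H φ cls hcls c₀ r θ b₁ η hη, sqdet_mul _ _ rfl hcards.symm]
  -- step 2
  have hc4 : Fintype.card ((Unit ⊕ {E // E ≠ r}) ⊕ κ) = Fintype.card (Fin N × Fin 4) := by
    simp only [Fintype.card_sum, Fintype.card_unit, hκ, Fintype.card_prod, Fintype.card_fin]
    omega
  have step2 : sqdet (tetMat P) * sqdet Q =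
      (∏ j, kvec (z j) (s j) 0) ^ 2 * (numMat T z θ r).det ^ 2 *
        sqdet (cm (coord₀ N) (bd₁ T.toGluing A ∘ b₁)) := by
    have h1 : sqdet Q = sqdet (Q.submatrix id (Equiv.sumAssoc Unit {E // E ≠ r} κ)) :=
      (sqdet_reindex Q (Equiv.refl _) (Equiv.sumAssoc Unit {E // E ≠ r} κ)).symm
    rw [h1, ← sqdet_mul _ _ (by
      simp only [Fintype.card_sum, Fintype.card_prod, Fintype.card_fin]; ring) hc4.symm,
      hQ, tet_factor H φ hφ r θ b₁ η hη, sqdet_fromBlocks_zero₂₁ _ _ _ (by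
        simp only [Fintype.card_sum, Fintype.card_unit, Fintype.card_fin]; omega) (by
        simp only [Fintype.card_prod, Fintype.card_fin, hκ]; ring)]
    congr 1
    rw [sqdet_mul _ _ rfl (by
      simp only [Fintype.card_sum, Fintype.card_unit, Fintype.card_fin]; omega),
      sqdet_mul _ _ (by
      simp only [Fintype.card_sum, Fintype.card_unit, Fintype.card_fin]; omega) rfl,
      sqdet_square, Matrix.det_diagonal, sqdet_reindex, sqdet_square, Matrix.det_transpose,
      sqdet_square, Matrix.det_diagonal, Fintype.prod_sum_type]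
    simp only [Sum.elim_inl, Sum.elim_inr, Finset.prod_const_one, Finset.prod_const, one_mul]
    rw [← pow_mul, mul_comm _ 2, pow_mul]
    simp
  have hk : (∏ j, kvec (z j) (s j) 0) ^ 2 * ∏ j, (∏ v, s j v) ^ 2 =
      ∏ j, (Setup.faceMat P j 0).det ^ 2 := by
    rw [← Finset.prod_pow, ← Finset.prod_mul_distrib]
    exact Finset.prod_congr rfl fun j _ => H.kvec_sq j
  have hne : ∏ j, (Setup.faceMat P j 0).det ^ 2 ≠ 0 :=
    Finset.prod_ne_zero_iff.2 fun j _ => pow_ne_zero 2 (H.faceMat_det_ne j 0)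
  have step3 : 4 * sqdet R * ∏ j, (∏ v, s j v) ^ 2 = (numMat T z θ r).det ^ 2 *
        sqdet (cm (coord₀ N) (bd₁ T.toGluing A ∘ b₁)) := by
    rw [tetMat_sqdet] at step2
    refine mul_left_cancel₀ hne ?_
    rw [key2]
    nth_rewrite 2 [← hk]
    linear_combination (∏ j, (∏ v, s j v) ^ 2) * step2
  rw [step1, phiMat_sqdet]
  linear_combination (∏ F, (Setup.faceMat P (φ F).1 (φ F).2).det ^ 2) * step3

end Pool.Agent.H15_OneLoop
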