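import Mathlib

/-!
# Ideal triangulations with one cusp, gluing equations, adjoint torsion, 1-loop invariant

All the definitions used in the statement of the 1-loop theorem.
-/

set_option autoImplicit false

namespace Pool.Agent.H15_OneLoop

open Matrix

/-- `2 × 2` complex matrices. -/
abbrev Mat2 : Type := Matrix (Fin 2) (Fin 2) ℂ

/-! ### The combinatorics of an oriented ideal triangulation -/

/-- `N` oriented tetrahedra, each with vertices `0, 1, 2, 3` in the order of its orientation,
whose faces are glued in pairs. The face of tetrahedron `j` opposite to its vertex `a` is glued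
to the face of tetrahedron `adj j a` opposite to its vertex `glue j a a`; the gluing map sends
the vertex `v ≠ a` to the vertex `glue j a v`. It reverses the orientation of the faces, that is,
the permutation `glue j a` of `0, 1, 2, 3` is odd. No face is glued to itself. -/
structure Gluing (N : ℕ) where
  /-- the tetrahedron on the other side of the face opposite to `a` -/
  adj : Fin N → Fin 4 → Fin N
  /-- the gluing map, as a permutation of the vertices -/
  glue : Fin N → Fin 4 → Equiv.Perm (Fin 4)
  adj_adj : ∀ j a, adj (adj j a) (glue j a a) = j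
  glue_glue : ∀ j a, glue (adj j a) (glue j a a) = (glue j a)⁻¹
  odd : ∀ j a, Equiv.Perm.sign (glue j a) = -1
  ne_self : ∀ j a, ¬ (adj j a = j ∧ glue j a a = a)

variable {N : ℕ}

/-- The identifications of edges of tetrahedra: `(j, v, w)` is the edge of tetrahedron `j`
between its vertices `v` and `w`; it is the same edge as `(j, w, v)`, and it is glued to an edge
of `adj j a` across each of the two faces of `j` which contain it. -/
inductive Gluing.EdgeStep (T : Gluing N) :
    Fin N × Fin 4 × Fin 4 → Fin N × Fin 4 × Fin 4 → Prop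
  | flip (j : Fin N) (v w : Fin 4) : EdgeStep T (j, v, w) (j, w, v)
  | cross (j : Fin N) (a v w : Fin 4) (hv : v ≠ a) (hw : w ≠ a) :
      EdgeStep T (j, v, w) (T.adj j a, T.glue j a v, T.glue j a w)

/-- The identifications of ideal vertices of tetrahedra. -/
inductive Gluing.VertexStep (T : Gluing N) : Fin N × Fin 4 → Fin N × Fin 4 → Prop
  | cross (j : Fin N) (a v : Fin 4) (hv : v ≠ a) :
      VertexStep T (j, v) (T.adj j a, T.glue j a v)

/-- An oriented ideal triangulation with `N` tetrahedra and `N` edges and with exactly one cusp.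
The edges are numbered: `edge j v w` is the number of the edge of the triangulation which is the
image of the edge `vw` of tetrahedron `j`. All the ideal vertices of the tetrahedra are
identified, so that there is one cusp; as there are as many edges as tetrahedra, the Euler
characteristic of its cross section vanishes, so that the latter is a torus. -/
structure IdealTriangulation (N : ℕ) extends Gluing N where
  /-- the number of the edge -/
  edge : Fin N → Fin 4 → Fin 4 → Fin N
  edge_eq_iff : ∀ {j : Fin N} {v w : Fin 4} {k : Fin N} {x y : Fin 4}, v ≠ w → x ≠ y →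
    (edge j v w = edge k x y ↔ Relation.EqvGen toGluing.EdgeStep (j, v, w) (k, x, y))
  edge_surj : ∀ e, ∃ j v w, v ≠ w ∧ edge j v w = e
  one_cusp : ∀ p q : Fin N × Fin 4, Relation.EqvGen toGluing.VertexStep p q

/-! ### Shapes and the gluing matrices -/

/-- The three shape parameters `z`, `z' = 1 / (1 - z)`, `z'' = 1 - 1 / z`. -/
noncomputable def par (z : ℂ) : Fin 3 → ℂ := ![z, 1 / (1 - z), 1 - 1 / z]

/-- The numbers `ζ = 1 / z`, `ζ' = 1 / (1 - z)`, `ζ'' = 1 / (z (z - 1))`. -/
noncomputable def zeta (z : ℂ) : Fin 3 → ℂ := ![1 / z, 1 / (1 - z), 1 / (z * (z - 1))]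

/-- The pairs of opposite edges of a tetrahedron: the edges `01` and `23` carry `z`, the edges
`02` and `13` carry `z'`, the edges `03` and `12` carry `z''`. -/
def oppEdges : Fin 3 → Finset (Fin 4 × Fin 4) :=
  ![{(0, 1), (2, 3)}, {(0, 2), (1, 3)}, {(0, 3), (1, 2)}]

/-- Which of the three shape parameters the edge `vw` (`v ≠ w`) carries. -/
def kind (v w : Fin 4) : Fin 3 :=
  ![![0, 0, 1, 2], ![0, 0, 2, 1], ![1, 2, 0, 0], ![2, 1, 0, 0]] v w

/-- The gluing matrices `G`, `G'`, `G''`: the entry in the row of the edge `e` and the column of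
the tetrahedron `j` is the number of edges of tetrahedron `j` which carry the shape `z_j`
(resp. `z_j'`, `z_j''`) and are identified with `e`. -/
def IdealTriangulation.G (T : IdealTriangulation N) (k : Fin 3) : Matrix (Fin N) (Fin N) ℤ :=
  fun e j => (((oppEdges k).filter fun p => T.edge j p.1 p.2 = e).card : ℤ)

/-! ### Peripheral curves -/

/-- An oriented closed curve in normal position in the triangulated cusp cross section, whose
triangles are the `(j, v)`, at the ideal vertex `v` of tetrahedron `j`; the three sides of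
`(j, v)` lie on the faces of `j` opposite to the vertices `a ≠ v`, and its three corners lie on
the edges `vw`. The curve is a sequence of normal arcs, periodic with period `len`. The `i`-th arc
lies in tetrahedron `tet i` and is described by the permutation `arc i`: it lies in the triangle
at the ideal vertex `arc i 0`, it enters the triangle through the side on the face opposite to
`arc i 3`, leaves it through the side on the face opposite to `arc i 2`, and so cuts off the
corner on the edge from `arc i 0` to `arc i 1`. -/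
structure NormalCurve (T : Gluing N) where
  len : ℕ
  len_pos : 0 < len
  tet : ℕ → Fin N
  arc : ℕ → Equiv.Perm (Fin 4)
  tet_succ : ∀ i, tet (i + 1) = T.adj (tet i) (arc i 2)
  vertex_succ : ∀ i, arc (i + 1) 0 = T.glue (tet i) (arc i 2) (arc i 0)
  enter_succ : ∀ i, arc (i + 1) 3 = T.glue (tet i) (arc i 2) (arc i 2)
  tet_period : ∀ i, tet (i + len) = tet i
  arc_period : ∀ i, arc (i + len) = arc i

/-- The coefficients `C`, `C'`, `C''` of the completeness equation along the curve `θ`: the
number of corners carrying `z_j` (resp. `z_j'`, `z_j''`) which are cut off by `θ`, counted with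
the sign `+1` if the corner is on the left of the curve, and `-1` if it is on the right (left and
right as the orientation of the tetrahedra tells; this is the sign of the permutation which
describes the arc). -/
def NormalCurve.C {T : Gluing N} (θ : NormalCurve T) (k : Fin 3) (j : Fin N) : ℤ :=
  ∑ i ∈ Finset.range θ.len,
    if θ.tet i = j ∧ kind (θ.arc i 0) (θ.arc i 1) = k then (Equiv.Perm.sign (θ.arc i) : ℤ) else 0

/-- How often `θ` leaves the triangle `(j, v)` through its side on the face opposite to `a`, minus
how often it enters it there. -/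
def NormalCurve.crossing {T : Gluing N} (θ : NormalCurve T) (j : Fin N) (v a : Fin 4) : ℤ :=
  ∑ i ∈ Finset.range θ.len,
    ((if θ.tet i = j ∧ θ.arc i 0 = v ∧ θ.arc i 2 = a then 1 else 0) -
      (if θ.tet i = j ∧ θ.arc i 0 = v ∧ θ.arc i 3 = a then 1 else 0))

/-- `θ` is null-homologous in the cusp torus: the `1`-cycle which it defines in the cell
decomposition dual to the triangulation is the boundary of a sum `g` of dual `2`-cells. The dual
`2`-cells are the vertices of the triangulation, which are the classes of corners: `g j v w` is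
the coefficient at the corner of the triangle `(j, v)` on the edge `vw`. (On a torus, this says
that `θ` is homotopically trivial.) -/
def NormalCurve.NullHomologous {T : Gluing N} (θ : NormalCurve T) : Prop :=
  ∃ g : Fin N → Fin 4 → Fin 4 → ℤ,
    (∀ j a v w, v ≠ a → w ≠ a → v ≠ w →
      g (T.adj j a) (T.glue j a v) (T.glue j a w) = g j v w) ∧
    ∀ (j : Fin N) (σ : Equiv.Perm (Fin 4)), Equiv.Perm.sign σ = 1 →
      θ.crossing j (σ 0) (σ 2) = g j (σ 0) (σ 1) - g j (σ 0) (σ 3)

/-! ### The complete hyperbolic structure -/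

/-- Shapes `z_j` of positively oriented ideal hyperbolic tetrahedra which solve the gluing
equations (around each edge the product of the shapes is `1` and the dihedral angles add up to
`2 π`) and the completeness equations (for each closed peripheral curve in normal position, the
derivative of its holonomy is `1`). -/
structure CompleteShapes (T : IdealTriangulation N) where
  z : Fin N → ℂ
  im_pos : ∀ j, 0 < (z j).im
  edge_prod : ∀ e, ∏ k, ∏ j, par (z j) k ^ T.G k e j = 1
  edge_angle : ∀ e, ∑ k, ∑ j, (T.G k e j : ℝ) * (par (z j) k).arg = 2 * Real.pi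
  complete : ∀ γ : NormalCurve T.toGluing, ∏ k, ∏ j, par (z j) k ^ γ.C k j = 1

/-! ### Flattenings and the 1-loop invariant -/

/-- Combinatorial flattenings: integers `f`, `f'`, `f''` with
`G f + G' f' + G'' f'' = (2, …, 2)` and `f + f' + f'' = (1, …, 1)`. Strong combinatorial
flattenings satisfy in addition a condition on peripheral curves, which is not needed here. -/
structure IsFlattening (T : IdealTriangulation N) (f : Fin 3 → Fin N → ℤ) : Prop where
  edge : ∀ e, ∑ k, ∑ j, T.G k e j * f k j = 2
  tet : ∀ j, ∑ k, f k j = 1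

/-- The matrices `Ĝ`, `Ĝ'`, `Ĝ''`: the row `r` of the gluing matrix is replaced by the
completeness coefficients along `θ`. -/
def hatG (T : IdealTriangulation N) (θ : NormalCurve T.toGluing) (r : Fin N) (k : Fin 3) :
    Matrix (Fin N) (Fin N) ℤ :=
  (T.G k).updateRow r (θ.C k)

/-- The 1-loop invariant
`det (Ĝ diag ζ + Ĝ' diag ζ' + Ĝ'' diag ζ'') / (2 ζ^f ζ'^f' ζ''^f'')`. -/
noncomputable def oneLoop (T : IdealTriangulation N) (z : Fin N → ℂ)
    (θ : NormalCurve T.toGluing) (f : Fin 3 → Fin N → ℤ) (r : Fin N) : ℂ :=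
  (∑ k, (hatG T θ r k).map (Int.cast : ℤ → ℂ) * Matrix.diagonal fun j => zeta (z j) k).det /
    (2 * ∏ k, ∏ j, zeta (z j) k ^ f k j)

/-! ### The holonomy and the flat bundle of Killing fields -/

/-- Homogeneous coordinates of the ideal vertices of the tetrahedron with shape `z` in its
standard position: `∞`, `0`, `1`, `z`. -/
noncomputable def pos (z : ℂ) : Fin 4 → Fin 2 → ℂ := ![![1, 0], ![0, 1], ![1, 1], ![z, 1]]

/-- The holonomy: `A j a` is the Möbius transformation (an invertible matrix, unique up to
scalars) which maps the face opposite to `a` of the tetrahedron `j` in standard position to the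
face of `adj j a` to which it is glued, as the gluing prescribes. The holonomy of a loop in the
manifold, crossing faces, is the product of these matrices. -/
def IsHolonomy (T : Gluing N) (z : Fin N → ℂ) (A : Fin N → Fin 4 → Mat2) : Prop :=
  ∀ j a, IsUnit (A j a).det ∧
    ∀ v, v ≠ a → ∃ c : ℂ, A j a *ᵥ pos (z j) v = c • pos (z (T.adj j a)) (T.glue j a v)

/-- The `0`-chains, with values in the flat bundle of Lie algebras `sl₂(ℂ)`, of the spine dual to
the triangulation, which has a `0`-cell in each tetrahedron, a `1`-cell across each face and a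
`2`-cell around each edge: a traceless matrix for each tetrahedron. -/
def IsChain₀ (u : Fin N → Mat2) : Prop := ∀ j, (u j).trace = 0

/-- The `1`-chains: `y j a` is the coefficient of the `1`-cell leaving the tetrahedron `j` through
the face opposite to `a`, an element of the fibre `sl₂(ℂ)` over tetrahedron `j`. The same `1`-cell
with the reversed orientation leaves `adj j a` through the face opposite to `glue j a a`. -/
def IsChain₁ (T : Gluing N) (A : Fin N → Fin 4 → Mat2) (y : Fin N → Fin 4 → Mat2) : Prop :=
  (∀ j a, (y j a).trace = 0) ∧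
    ∀ j a, y (T.adj j a) (T.glue j a a) = -(A j a * y j a * (A j a)⁻¹)

/-- The `2`-chains: for each oriented edge of the triangulation a parallel section of the bundle
over the `2`-cell around it. Its value in the fibre over the tetrahedron `j`, at the edge of `j`
from `v` to `w`, is `x j v w`. -/
def IsChain₂ (T : Gluing N) (A : Fin N → Fin 4 → Mat2) (x : Fin N → Fin 4 → Fin 4 → Mat2) :
    Prop :=
  (∀ j v w, (x j v w).trace = 0) ∧ (∀ j v w, x j w v = -x j v w) ∧
    ∀ j a v w, v ≠ a → w ≠ a →
      x (T.adj j a) (T.glue j a v) (T.glue j a w) = A j a * x j v w * (A j a)⁻¹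

/-- The even permutations of `0, 1, 2, 3` which send `2` to `a`. For such a `σ`, the positively
oriented boundary of the `2`-cell of the edge from `σ 0` to `σ 1` crosses the face opposite to
`a = σ 2`, leaving the tetrahedron. -/
def evenAt (a : Fin 4) : Finset (Equiv.Perm (Fin 4)) :=
  Finset.univ.filter fun σ => Equiv.Perm.sign σ = 1 ∧ σ 2 = a

/-- The boundary of `2`-chains: the `2`-cell of an oriented edge crosses each of the faces which
contain the edge, in the positive direction around the edge. -/
def bdy₂ (x : Fin N → Fin 4 → Fin 4 → Mat2) : Fin N → Fin 4 → Mat2 :=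
  fun j a => ∑ σ ∈ evenAt a, x j (σ 0) (σ 1)

/-- The boundary of `1`-chains. -/
def bdy₁ (y : Fin N → Fin 4 → Mat2) : Fin N → Mat2 :=
  fun j => -∑ a, y j a

/-! ### Porti's bases of the homology -/

/-- `P` is a nonzero parallel section of the bundle over the cusp, in other words a nonzero
element of `sl₂(ℂ)` which is invariant under the adjoint action of the peripheral subgroup:
`P j v` is its value in the fibre over tetrahedron `j` at the triangle `(j, v)` of the cusp. -/
structure IsCuspInvariant (T : Gluing N) (A P : Fin N → Fin 4 → Mat2) : Prop where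
  trace_eq : ∀ j v, (P j v).trace = 0
  parallel : ∀ j a v, v ≠ a → P (T.adj j a) (T.glue j a v) = A j a * P j v * (A j a)⁻¹
  ne_zero : ∃ j v, P j v ≠ 0

/-- The `2`-cycle `[∂M] ⊗ P`: the fundamental class of the cusp torus, with coefficient `P`. The
`2`-cell of the oriented edge from `v` to `w` is covered by the dual `2`-cell of the torus at its
end `v` in the positive and by the one at its end `w` in the negative direction. -/
def cuspCycle (P : Fin N → Fin 4 → Mat2) : Fin N → Fin 4 → Fin 4 → Mat2 :=
  fun j v w => P j v - P j w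

/-- The `1`-cycle `θ ⊗ P`: the peripheral curve `θ`, with coefficient `P`. -/
def curveCycle {T : Gluing N} (θ : NormalCurve T) (P : Fin N → Fin 4 → Mat2) :
    Fin N → Fin 4 → Mat2 :=
  fun j a => ∑ i ∈ Finset.range θ.len,
    ((if θ.tet i = j ∧ θ.arc i 2 = a then P (θ.tet i) (θ.arc i 0) else 0) -
      (if θ.tet i = j ∧ θ.arc i 3 = a then P (θ.tet i) (θ.arc i 0) else 0))

/-! ### Reidemeister torsion -/

/-- The determinant of a family of vectors with respect to the coordinates `c`. -/
noncomputable def vol {C ι : Type} [Fintype ι] [DecidableEq ι] (c : C → ι → ℂ) (x : ι → C) : ℂ :=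
  Matrix.det (Matrix.of fun i k => c (x k) i)

/-- `τ` is a value of the Reidemeister torsion of a complex `0 → K₂ → K₁ → K₀ → 0` of
finite-dimensional vector spaces, given as subspaces of `C₂`, `C₁`, `C₀`, with differentials `d₂`
and `d₁`, based by the coordinates `c₂`, `c₁`, `c₀` (which identify `K₂`, `K₁`, `K₀` with coordinate
spaces), with `H₀ = 0`, `H₁` based by the class of the cycle `h₁` and `H₂` based by the class of
the cycle `h₂`. That is, for some families `b₂` in `K₂` and `b₁` in `K₁` such that `h₂, b₂` is a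
basis of `K₂`, `d₂ b₂, h₁, b₁` is a basis of `K₁` and `d₁ b₁` is a basis of `K₀`,
`τ = [d₂ b₂, h₁, b₁ : c₁] / ([h₂, b₂ : c₂] [d₁ b₁ : c₀])`. The bijections `e₂`, `e₁`, `e₀` order
these bases, so that `τ` matters only up to sign. -/
def IsBasedTorsion {C₂ C₁ C₀ ι₂ ι₁ ι₀ : Type} [Zero C₁] [Zero C₀] [Fintype ι₂] [DecidableEq ι₂]
    [Fintype ι₁] [DecidableEq ι₁] [Fintype ι₀] [DecidableEq ι₀] (K₂ : C₂ → Prop)
    (K₁ : C₁ → Prop) (K₀ : C₀ → Prop) (c₂ : C₂ → ι₂ → ℂ) (c₁ : C₁ → ι₁ → ℂ) (c₀ : C₀ → ι₀ → ℂ)
    (d₂ : C₂ → C₁) (d₁ : C₁ → C₀) (h₂ : C₂) (h₁ : C₁) (τ : ℂ) : Prop :=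
  (∀ w, ∃! x, K₂ x ∧ c₂ x = w) ∧ (∀ w, ∃! y, K₁ y ∧ c₁ y = w) ∧ (∀ w, ∃! u, K₀ u ∧ c₀ u = w) ∧
    (∀ x, K₂ x → K₁ (d₂ x) ∧ d₁ (d₂ x) = 0) ∧ (∀ y, K₁ y → K₀ (d₁ y)) ∧
    (K₂ h₂ ∧ d₂ h₂ = 0) ∧ (K₁ h₁ ∧ d₁ h₁ = 0) ∧
    ∃ (κ₂ κ₁ : Type) (b₂ : κ₂ → C₂) (b₁ : κ₁ → C₁) (e₂ : ι₂ ≃ Unit ⊕ κ₂)
      (e₁ : ι₁ ≃ κ₂ ⊕ Unit ⊕ κ₁) (e₀ : ι₀ ≃ κ₁),
      (∀ k, K₂ (b₂ k)) ∧ (∀ k, K₁ (b₁ k)) ∧
      vol c₂ (Sum.elim (fun _ => h₂) b₂ ∘ e₂) ≠ 0 ∧
      vol c₁ (Sum.elim (d₂ ∘ b₂) (Sum.elim (fun _ => h₁) b₁) ∘ e₁) ≠ 0 ∧
      vol c₀ (d₁ ∘ b₁ ∘ e₀) ≠ 0 ∧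
      τ = vol c₁ (Sum.elim (d₂ ∘ b₂) (Sum.elim (fun _ => h₁) b₁) ∘ e₁) /
        (vol c₂ (Sum.elim (fun _ => h₂) b₂ ∘ e₂) * vol c₀ (d₁ ∘ b₁ ∘ e₀))

/-- Coordinates of a traceless matrix with respect to the standard basis of `sl₂(ℂ)`. -/
def coord (X : Mat2) : Fin 3 → ℂ := ![X 0 0, X 0 1, X 1 0]

/-- A choice of one of the two sides `(j, a)`, `(adj j a, glue j a a)` of each face, that is, of
an orientation and of a lift to the universal cover for each `1`-cell. -/
def IsFaceChoice (T : Gluing N) (φ : Fin (2 * N) → Fin N × Fin 4) : Prop :=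
  ∀ j a, ∃! F, φ F = (j, a) ∨ φ F = (T.adj j a, T.glue j a a)

/-- A choice of an oriented edge of a tetrahedron for each edge of the triangulation, that is, of
an orientation and of a lift to the universal cover for each `2`-cell. -/
def IsEdgeChoice (T : IdealTriangulation N) (ε : Fin N → Fin N × Fin 4 × Fin 4) : Prop :=
  ∀ e, (ε e).2.1 ≠ (ε e).2.2 ∧ T.edge (ε e).1 (ε e).2.1 (ε e).2.2 = e

/-- The coordinates on `2`-chains. -/
def crd₂ (ε : Fin N → Fin N × Fin 4 × Fin 4) (x : Fin N → Fin 4 → Fin 4 → Mat2) :
    Fin N × Fin 3 → ℂ :=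
  fun p => coord (x (ε p.1).1 (ε p.1).2.1 (ε p.1).2.2) p.2

/-- The coordinates on `1`-chains. -/
def crd₁ (φ : Fin (2 * N) → Fin N × Fin 4) (y : Fin N → Fin 4 → Mat2) :
    Fin (2 * N) × Fin 3 → ℂ :=
  fun p => coord (y (φ p.1).1 (φ p.1).2) p.2

/-- The coordinates on `0`-chains. -/
def crd₀ (u : Fin N → Mat2) : Fin N × Fin 3 → ℂ :=
  fun p => coord (u p.1) p.2

/-- `τ` is a value of Porti's adjoint torsion of the manifold `M` with the ideal triangulation
`T`, the holonomy given by the shapes `z`, with respect to the peripheral curve `θ`: the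
Reidemeister torsion of the spine of `M` dual to `T`, twisted by the adjoint action of the
holonomy on `sl₂(ℂ)`, with respect to the bases `θ ⊗ P` of `H₁` and `[∂M] ⊗ P` of `H₂`, where `P`
is invariant under the peripheral subgroup. All the choices (of the matrices of the holonomy,
of `P`, of lifts and orientations of the cells and of the auxiliary bases) are arbitrary; `τ` is
well defined up to sign. -/
def IsPortiTorsion (T : IdealTriangulation N) (z : Fin N → ℂ) (θ : NormalCurve T.toGluing)
    (τ : ℂ) : Prop :=
  ∃ (A P : Fin N → Fin 4 → Mat2) (φ : Fin (2 * N) → Fin N × Fin 4)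
    (ε : Fin N → Fin N × Fin 4 × Fin 4),
    IsHolonomy T.toGluing z A ∧ IsCuspInvariant T.toGluing A P ∧ IsFaceChoice T.toGluing φ ∧
      IsEdgeChoice T ε ∧
      IsBasedTorsion (IsChain₂ T.toGluing A) (IsChain₁ T.toGluing A) IsChain₀ (crd₂ ε) (crd₁ φ)
        crd₀ bdy₂ bdy₁ (cuspCycle P) (curveCycle θ P) τ

end Pool.Agent.H15_OneLoop
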