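import Pool.Agent.H15_OneLoop.Reps
import Pool.Agent.H15_OneLoop.Duality

/-!
# Bijectivity of the coordinates, `d d = 0` and surjectivity of the boundary of `1`-chains
-/

set_option autoImplicit false

namespace Pool.Agent.H15_OneLoop

open Matrix

variable {N : ℕ}

/-- TARGET 1 -/
theorem exists_chain {T : Gluing N} {A P : Fin N → Fin 4 → Mat2} (hP : IsCuspInvariant T A P)
    (η : Fin N → Fin 4 → Fin 4 → ℂ) (hη : IsFlow T η) : ∃ y : chain₁ T A, Rep P y η := by
  refine ⟨⟨fun j a => ∑ u, η j u a • P j u, fun j a => ?_, fun j a => ?_⟩, hη, fun j a => rfl⟩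
  · show (∑ u, η j u a • P j u).trace = 0
    rw [Matrix.trace_sum]
    refine Finset.sum_eq_zero fun u _ => ?_
    rw [Matrix.trace_smul, hP.trace_eq, smul_zero]
  · show ∑ u, η (T.adj j a) u (T.glue j a a) • P (T.adj j a) u =
      -(A j a * (∑ u, η j u a • P j u) * (A j a)⁻¹)
    rw [← Equiv.sum_comp (T.glue j a) (fun u => η (T.adj j a) u (T.glue j a a) • P (T.adj j a) u),
      Matrix.mul_sum, Matrix.sum_mul, ← Finset.sum_neg_distrib]
    refine Finset.sum_congr rfl fun u _ => ?_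
    by_cases hu : u = a
    · subst hu
      rw [hη.diag, hη.diag, zero_smul, zero_smul]
      simp
    · rw [hη.anti j u a hu, hP.parallel j a u hu, Matrix.mul_smul, Matrix.smul_mul, neg_smul]

/-- TARGET 2 -/
theorem coord₀_bij (N : ℕ) : Function.Bijective (coord₀ N) := by
  constructor
  · intro x y h
    apply Subtype.ext
    funext j
    refine coord_inj (x.2 j) (y.2 j) ?_
    funext i
    exact congrFun h (j, i)
  · intro w
    refine ⟨⟨fun j => !![w (j, 0), w (j, 1); w (j, 2), -w (j, 0)], fun j => ?_⟩, ?_⟩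
    · show (!![w (j, 0), w (j, 1); w (j, 2), -w (j, 0)] : Mat2).trace = 0
      rw [Matrix.trace_fin_two]
      simp
    · ext ⟨j, i⟩
      show coord !![w (j, 0), w (j, 1); w (j, 2), -w (j, 0)] i = w (j, i)
      fin_cases i <;> simp [coord]

/-- A `1`-chain is determined by its values at the chosen sides. -/
theorem j496_inj {T : Gluing N} {A : Fin N → Fin 4 → Mat2} (φ : Fin (2 * N) → Fin N × Fin 4)
    (hφ : IsFaceChoice T φ) : Function.Injective (coord₁ T A φ) := by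
  intro x y h
  apply Subtype.ext
  funext j a
  have key : ∀ F, x.1 (φ F).1 (φ F).2 = y.1 (φ F).1 (φ F).2 := by
    intro F
    refine coord_inj (x.2.1 _ _) (y.2.1 _ _) ?_
    funext i
    exact congrFun h (F, i)
  obtain ⟨F, hF | hF, -⟩ := hφ j a
  · have h1 := key F
    rw [hF] at h1
    exact h1
  · have h1 := key F
    rw [hF] at h1
    have hx := x.2.2 (T.adj j a) (T.glue j a a)
    have hy := y.2.2 (T.adj j a) (T.glue j a a)
    rw [T.adj_adj, T.glue_apply_glue] at hx hy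
    rw [hx, hy, h1]

/-- TARGET 3 -/
theorem coord₁_bij {T : Gluing N} {z : Fin N → ℂ} {A P : Fin N → Fin 4 → Mat2}
    {s : Fin N → Fin 4 → ℂ} (H : Setup T z A P s) (φ : Fin (2 * N) → Fin N × Fin 4)
    (hφ : IsFaceChoice T φ) : Function.Bijective (coord₁ T A φ) := by
  refine ⟨j496_inj φ hφ, fun w => ?_⟩
  have hdet : (phiMat φ P).det ≠ 0 := by
    intro h0
    have h1 := phiMat_sqdet φ P
    rw [sqdet_square, h0, zero_pow (by norm_num)] at h1
    have h2 : ∏ F, (Setup.faceMat P (φ F).1 (φ F).2).det ^ 2 ≠ 0 :=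
      Finset.prod_ne_zero_iff.2 fun F _ => pow_ne_zero _ (H.faceMat_det_ne _ _)
    exact h2 h1.symm
  obtain ⟨η, hη, hres⟩ := flow_ext T φ hφ ((phiMat φ P)⁻¹ *ᵥ w)
  obtain ⟨y, hy⟩ := exists_chain H.hP η hη
  refine ⟨y, ?_⟩
  rw [coord₁_eq φ y η hy, hres, Matrix.mulVec_mulVec, Matrix.mul_nonsing_inv _ hdet.isUnit,
    Matrix.one_mulVec]

theorem j496_conj {A X Y : Mat2} (hA : IsUnit A.det) (h : A * X * A⁻¹ = A * Y * A⁻¹) :
    X = Y := by
  have h1 : A⁻¹ * (A * X * A⁻¹) * A = X := by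
    rw [Matrix.mul_assoc, Matrix.mul_assoc, Matrix.mul_assoc, Matrix.nonsing_inv_mul _ hA,
      Matrix.mul_one, ← Matrix.mul_assoc, Matrix.nonsing_inv_mul _ hA, Matrix.one_mul]
  have h2 : A⁻¹ * (A * Y * A⁻¹) * A = Y := by
    rw [Matrix.mul_assoc, Matrix.mul_assoc, Matrix.mul_assoc, Matrix.nonsing_inv_mul _ hA,
      Matrix.mul_one, ← Matrix.mul_assoc, Matrix.nonsing_inv_mul _ hA, Matrix.one_mul]
  rw [← h1, ← h2, h]

/-- TARGET 4 -/
theorem coord₂_inj {T : IdealTriangulation N} {z : Fin N → ℂ} {A P : Fin N → Fin 4 → Mat2}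
    {s : Fin N → Fin 4 → ℂ} (H : Setup T.toGluing z A P s)
    (ε : Fin N → Fin N × Fin 4 × Fin 4) (hε : IsEdgeChoice T ε) :
    Function.Injective (coord₂ T.toGluing A ε) := by
  intro x y h
  have key : ∀ p q : Fin N × Fin 4 × Fin 4, Relation.EqvGen T.toGluing.EdgeStep p q →
      (x.1 p.1 p.2.1 p.2.2 = y.1 p.1 p.2.1 p.2.2 ↔ x.1 q.1 q.2.1 q.2.2 = y.1 q.1 q.2.1 q.2.2) := by
    intro p q hpq
    induction hpq with
    | rel p q hpq =>
      cases hpq with
      | flip j v w =>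
        show x.1 j v w = y.1 j v w ↔ x.1 j w v = y.1 j w v
        rw [x.2.2.1 j v w, y.2.2.1 j v w, neg_inj]
      | cross j a v w hv hw =>
        show x.1 j v w = y.1 j v w ↔ x.1 (T.adj j a) (T.glue j a v) (T.glue j a w) =
          y.1 (T.adj j a) (T.glue j a v) (T.glue j a w)
        rw [x.2.2.2 j a v w hv hw, y.2.2.2 j a v w hv hw]
        exact ⟨fun h => by rw [h], fun h => j496_conj (H.hA j a).1 h⟩
    | refl p => exact Iff.rfl
    | symm p q _ ih => exact ih.symm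
    | trans p q r _ _ ih1 ih2 => exact ih1.trans ih2
  have hself : ∀ (x : chain₂ T.toGluing A) (j : Fin N) (v : Fin 4), x.1 j v v = 0 := by
    intro x j v
    have h1 := x.2.2.1 j v v
    ext i k
    have h2 := congrFun (congrFun h1 i) k
    rw [Matrix.neg_apply] at h2
    exact self_eq_neg.1 h2
  apply Subtype.ext
  funext j v w
  by_cases hvw : v = w
  · subst hvw
    rw [hself, hself]
  · have h1 := hε (T.edge j v w)
    have h2 := (T.edge_eq_iff h1.1 hvw).1 h1.2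
    refine (key _ _ h2).1 ?_
    refine coord_inj (x.2.1 _ _ _) (y.2.1 _ _ _) ?_
    funext i
    exact congrFun h (T.edge j v w, i)

/-- TARGET 5 -/
theorem bd₁_bd₂ (T : Gluing N) (A : Fin N → Fin 4 → Mat2) (x : chain₂ T A) :
    bd₁ T A (bd₂ T A x) = 0 := by
  apply Subtype.ext
  funext j
  show -∑ a, ∑ σ ∈ evenAt a, x.1 j (σ 0) (σ 1) = 0
  simp only [sum_evenAt (fun v w => x.1 j v w)]
  have h01 := x.2.2.1 j 0 1
  have h02 := x.2.2.1 j 0 2
  have h03 := x.2.2.1 j 0 3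
  have h12 := x.2.2.1 j 1 2
  have h13 := x.2.2.1 j 1 3
  have h23 := x.2.2.1 j 2 3
  rw [neg_eq_zero]
  simp only [Fin.sum_univ_four]
  simp [lft, h01, h02, h03, h12, h13, h23]
  abel

/-- TARGET 6 -/
theorem bd₂_classTwo {T : Gluing N} {A P : Fin N → Fin 4 → Mat2} (hP : IsCuspInvariant T A P)
    {I : Type} (cls : Fin N → Fin 4 → Fin 4 → I) (hcls : IsCornerClass T cls) :
    bd₂ T A (classTwo hP) = 0 := by
  rw [classTwo_eq hP cls hcls]
  apply Subtype.ext
  funext j a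
  rw [(rep_phiTwo hP cls hcls fun _ => 1).2 j a]
  simp

/-- TARGET 7 -/
theorem bd₁_surj {T : Gluing N} (hT : ∀ p q : Fin N × Fin 4, Relation.EqvGen T.VertexStep p q)
    {z : Fin N → ℂ} {A P : Fin N → Fin 4 → Mat2} {s : Fin N → Fin 4 → ℂ}
    (H : Setup T z A P s) (φ : Fin (2 * N) → Fin N × Fin 4) (hφ : IsFaceChoice T φ)
    (x : Fin N → ℂ) (hx : ∑ t : Fin N × Fin 4, x t.1 * kvec (z t.1) (s t.1) t.2 ≠ 0) :
    Function.Surjective (bd₁ T A) := by
  intro u
  obtain ⟨t₀, -, -⟩ := Finset.exists_ne_zero_of_sum_ne_zero hx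
  have hc := fun j => H.face_exists j 0 (u.1 j) (u.2 j)
  choose c _ hc using hc
  set K := ∑ t : Fin N × Fin 4, x t.1 * kvec (z t.1) (s t.1) t.2 with hK
  set S := ∑ t : Fin N × Fin 4, c t.1 t.2 with hS
  let c' : Fin N × Fin 4 → ℂ := fun t => c t.1 t.2 - S / K * (x t.1 * kvec (z t.1) (s t.1) t.2)
  have hsum : ∑ t, c' t = 0 := by
    show ∑ t : Fin N × Fin 4, (c t.1 t.2 - S / K * (x t.1 * kvec (z t.1) (s t.1) t.2)) = 0
    rw [Finset.sum_sub_distrib, ← Finset.mul_sum, ← hK, ← hS, div_mul_cancel₀ _ hx, sub_self]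
  have hrel : ∀ j, ∑ v, kvec (z j) (s j) v • P j v = 0 := by
    intro j
    rw [← kvec_rel (z j) (s j) (H.hs j)]
    exact Finset.sum_congr rfl fun v _ => by rw [H.hPs]
  have hu : ∀ j, u.1 j = ∑ v, c' (j, v) • P j v := by
    intro j
    show u.1 j = ∑ v, (c j v - S / K * (x j * kvec (z j) (s j) v)) • P j v
    have h1 : ∑ v, (c j v - S / K * (x j * kvec (z j) (s j) v)) • P j v =
        ∑ v, c j v • P j v - (S / K * x j) • ∑ v, kvec (z j) (s j) v • P j v := by
      rw [Finset.smul_sum, ← Finset.sum_sub_distrib]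
      refine Finset.sum_congr rfl fun v _ => ?_
      rw [sub_smul, smul_smul, mul_assoc]
    rw [h1, hrel, smul_zero, sub_zero, ← hc j]
  have hy := fun t => cusp_dual T hT φ hφ t t₀
  choose y hy using hy
  let Y : Fin (2 * N) × Fin 3 → ℂ := ∑ t, c' t • (fun i => ((y t i : ℤ) : ℂ))
  have hcast : ∀ t, (cuspD₁ T φ).map (Int.cast : ℤ → ℂ) *ᵥ (fun i => ((y t i : ℤ) : ℂ)) =
      Pi.single t 1 - Pi.single t₀ 1 := by
    intro t
    funext r
    have h1 := congrFun (hy t) r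
    have h2 : ((cuspD₁ T φ).map (Int.cast : ℤ → ℂ) *ᵥ (fun i => ((y t i : ℤ) : ℂ))) r =
        (((cuspD₁ T φ *ᵥ y t) r : ℤ) : ℂ) := by
      simp only [Matrix.mulVec, dotProduct, Matrix.map_apply]
      push_cast
      rfl
    rw [h2, h1, Pi.sub_apply, Pi.sub_apply, Pi.single_apply, Pi.single_apply, Pi.single_apply,
      Pi.single_apply]
    push_cast
    rfl
  have hY : (cuspD₁ T φ).map (Int.cast : ℤ → ℂ) *ᵥ Y = c' := by
    show (cuspD₁ T φ).map (Int.cast : ℤ → ℂ) *ᵥ (∑ t, c' t • (fun i => ((y t i : ℤ) : ℂ))) = c'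
    rw [Matrix.mulVec_sum]
    simp only [Matrix.mulVec_smul, hcast]
    funext r
    rw [Finset.sum_apply]
    simp only [Pi.smul_apply, Pi.sub_apply, smul_eq_mul, mul_sub, Finset.sum_sub_distrib,
      ← Finset.sum_mul, hsum, zero_mul, sub_zero, Pi.single_apply]
    simp
  obtain ⟨η, hη, hres⟩ := flow_ext T φ hφ Y
  obtain ⟨ch, hch⟩ := exists_chain H.hP η hη
  refine ⟨ch, Subtype.ext (funext fun j => ?_)⟩
  rw [bd₁_rep hch j, hu j]
  refine Finset.sum_congr rfl fun v _ => ?_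
  rw [← div_res T φ hφ η hη (j, v), hres, hY]

end Pool.Agent.H15_OneLoop
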