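import Pool.Agent.H15_OneLoop.Psi

/-!
# Comparison of the chains of the cusp with the chains of the manifold
-/

set_option autoImplicit false

namespace Pool.Agent.H15_OneLoop

open Matrix

variable {N : ℕ}

theorem coord_add (X Y : Mat2) : coord (X + Y) = coord X + coord Y := by
  ext i; fin_cases i <;> simp [coord]

theorem coord_smul (c : ℂ) (X : Mat2) : coord (c • X) = c • coord X := by
  ext i; fin_cases i <;> simp [coord]

theorem coord_zero : coord 0 = 0 := by
  ext i; fin_cases i <;> simp [coord]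

theorem coord_sum {ι : Type} (S : Finset ι) (f : ι → Mat2) :
    coord (∑ i ∈ S, f i) = ∑ i ∈ S, coord (f i) := by
  classical
  induction S using Finset.induction_on with
  | empty => simp [coord_zero]
  | insert a S ha ih => rw [Finset.sum_insert ha, Finset.sum_insert ha, coord_add, ih]

/-- A traceless matrix is determined by its coordinates. -/
theorem coord_inj {X Y : Mat2} (hX : X.trace = 0) (hY : Y.trace = 0) (h : coord X = coord Y) :
    X = Y := by
  have h0 := congrFun h 0
  have h1 := congrFun h 1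
  have h2 := congrFun h 2
  simp only [coord, Matrix.cons_val_zero, Matrix.cons_val_one, Matrix.cons_val] at h0 h1 h2
  rw [Matrix.trace_fin_two] at hX hY
  ext i j
  fin_cases i <;> fin_cases j
  · exact h0
  · exact h1
  · exact h2
  · show X 1 1 = Y 1 1
    linear_combination hX - hY - h0

namespace Setup

variable {T : Gluing N} {z : Fin N → ℂ} {A P : Fin N → Fin 4 → Mat2}
  {s : Fin N → Fin 4 → ℂ}

/-- The matrix of the three parabolic elements of a face. -/
noncomputable def faceMat (P : Fin N → Fin 4 → Mat2) (j : Fin N) (a : Fin 4) :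
    Matrix (Fin 3) (Fin 3) ℂ :=
  Matrix.of fun i k => coord (P j (a.succAbove k)) i

theorem faceMat_det (H : Setup T z A P s) (j : Fin N) (a : Fin 4) :
    (faceMat P j a).det = -(s j (a.succAbove 0) * s j (a.succAbove 1) * s j (a.succAbove 2) *
      (mm (z j) (a.succAbove 0) (a.succAbove 1) * mm (z j) (a.succAbove 1) (a.succAbove 2) *
        mm (z j) (a.succAbove 0) (a.succAbove 2))) := by
  have h := det3_nilM (s j (a.succAbove 0)) (s j (a.succAbove 1)) (s j (a.succAbove 2))
    (pos (z j) (a.succAbove 0)) (pos (z j) (a.succAbove 1)) (pos (z j) (a.succAbove 2))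
  unfold mm
  rw [← h]
  unfold det3 faceMat
  congr 1
  ext i k
  fin_cases k <;> simp [H.hPs]

theorem faceMat_det_ne (H : Setup T z A P s) (j : Fin N) (a : Fin 4) :
    (faceMat P j a).det ≠ 0 := by
  rw [H.faceMat_det]
  have h01 : a.succAbove 0 ≠ a.succAbove 1 :=
    Fin.succAbove_right_injective.ne (by decide)
  have h12 : a.succAbove 1 ≠ a.succAbove 2 :=
    Fin.succAbove_right_injective.ne (by decide)
  have h02 : a.succAbove 0 ≠ a.succAbove 2 :=
    Fin.succAbove_right_injective.ne (by decide)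
  exact neg_ne_zero.2 (mul_ne_zero (mul_ne_zero (mul_ne_zero (H.hs _ _) (H.hs _ _)) (H.hs _ _))
    (mul_ne_zero (mul_ne_zero (mm_ne (H.h0 j) (H.h1 j) h01) (mm_ne (H.h0 j) (H.h1 j) h12))
      (mm_ne (H.h0 j) (H.h1 j) h02)))

theorem coord_face (j : Fin N) (a : Fin 4) (c : Fin 4 → ℂ) (hc : c a = 0) :
    coord (∑ v, c v • P j v) = faceMat P j a *ᵥ fun k => c (a.succAbove k) := by
  rw [Fin.sum_univ_succAbove _ a, hc, zero_smul, zero_add, coord_sum]
  ext i
  simp only [Finset.sum_apply, coord_smul, Pi.smul_apply, smul_eq_mul, Matrix.mulVec,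
    dotProduct, faceMat, Matrix.of_apply]
  exact Finset.sum_congr rfl fun k _ => mul_comm _ _

/-- Coefficients with respect to the parabolic elements of a face are unique. -/
theorem face_unique (H : Setup T z A P s) (j : Fin N) (a : Fin 4) (c d : Fin 4 → ℂ)
    (hc : c a = 0) (hd : d a = 0) (h : ∑ v, c v • P j v = ∑ v, d v • P j v) : c = d := by
  have h1 := congrArg coord h
  rw [coord_face j a c hc, coord_face j a d hd] at h1
  have h2 : (fun k => c (a.succAbove k)) = fun k => d (a.succAbove k) := by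
    have hu : IsUnit (faceMat P j a) :=
      (Matrix.isUnit_iff_isUnit_det _).2 (H.faceMat_det_ne j a).isUnit
    exact (Matrix.mulVec_injective_iff_isUnit.2 hu) h1
  funext v
  by_cases hv : v = a
  · rw [hv, hc, hd]
  · obtain ⟨k, rfl⟩ := Fin.exists_succAbove_eq hv
    exact congrFun h2 k

/-- Each traceless matrix is a combination of the parabolic elements of a face. -/
theorem face_exists (H : Setup T z A P s) (j : Fin N) (a : Fin 4) (X : Mat2)
    (hX : X.trace = 0) : ∃ c : Fin 4 → ℂ, c a = 0 ∧ X = ∑ v, c v • P j v := by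
  have hdet := H.faceMat_det_ne j a
  let c' : Fin 3 → ℂ := (faceMat P j a)⁻¹ *ᵥ coord X
  refine ⟨fun v => ∑ k, if a.succAbove k = v then c' k else 0, ?_, ?_⟩
  · refine Finset.sum_eq_zero fun k _ => ?_
    rw [if_neg (Fin.succAbove_ne a k)]
  · refine coord_inj hX ?_ ?_
    · rw [Matrix.trace_sum]
      refine Finset.sum_eq_zero fun v _ => ?_
      rw [Matrix.trace_smul, H.hP.trace_eq, smul_zero]
    · rw [coord_face j a _ (Finset.sum_eq_zero fun k _ => if_neg (Fin.succAbove_ne a k))]
      have : (fun k => ∑ k', if a.succAbove k' = a.succAbove k then c' k' else 0) = c' := by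
        funext k
        simp [Fin.succAbove_right_injective.eq_iff]
      rw [this, Matrix.mulVec_mulVec, Matrix.mul_nonsing_inv _ hdet.isUnit, Matrix.one_mulVec]

end Setup

/-- The `1`-chain `y` comes from the flow `η`. -/
def Rep {T : Gluing N} {A : Fin N → Fin 4 → Mat2} (P : Fin N → Fin 4 → Mat2)
    (y : chain₁ T A) (η : Fin N → Fin 4 → Fin 4 → ℂ) : Prop :=
  IsFlow T η ∧ ∀ j a, y.1 j a = ∑ u, η j u a • P j u

theorem Setup.exists_rep {T : Gluing N} {z : Fin N → ℂ} {A P : Fin N → Fin 4 → Mat2}
    {s : Fin N → Fin 4 → ℂ} (H : Setup T z A P s) (y : chain₁ T A) : ∃ η, Rep P y η := by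
  have h := fun j a => H.face_exists j a (y.1 j a) (y.2.1 j a)
  choose c hc0 hc using h
  refine ⟨fun j u a => c j a u, ⟨fun j a => hc0 j a, fun j v a hva => ?_⟩, hc⟩
  -- compare the decompositions on both sides of the face
  have h1 := y.2.2 j a
  rw [hc j a, hc (T.adj j a) (T.glue j a a)] at h1
  have h2 : ∑ w, c (T.adj j a) (T.glue j a a) w • P (T.adj j a) w =
      ∑ w, (-(c j a ((T.glue j a).symm w))) • P (T.adj j a) w := by
    rw [h1, ← Equiv.sum_comp (T.glue j a) (fun w => (-(c j a ((T.glue j a).symm w))) •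
      P (T.adj j a) w), Matrix.mul_sum, Matrix.sum_mul, ← Finset.sum_neg_distrib]
    refine Finset.sum_congr rfl fun w _ => ?_
    rw [Equiv.symm_apply_apply]
    by_cases hw : w = a
    · rw [hw, hc0, zero_smul, neg_zero, zero_smul]
      simp
    · rw [H.hP.parallel j a w hw, Matrix.mul_smul, Matrix.smul_mul, neg_smul]
  have h3 := H.face_unique (T.adj j a) (T.glue j a a) _ _ (hc0 _ _)
    (by simp [hc0 j a]) h2
  have h4 := congrFun h3 (T.glue j a v)
  simpa using h4

/-- The matrix of the isomorphism of the `1`-chains of the cusp with those of the manifold. -/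
noncomputable def phiMat (φ : Fin (2 * N) → Fin N × Fin 4) (P : Fin N → Fin 4 → Mat2) :
    Matrix (Fin (2 * N) × Fin 3) (Fin (2 * N) × Fin 3) ℂ :=
  fun x y => if x.1 = y.1 then coord (P (φ y.1).1 (sv φ y)) x.2 else 0

theorem coord₁_eq {T : Gluing N} {A P : Fin N → Fin 4 → Mat2}
    (φ : Fin (2 * N) → Fin N × Fin 4) (y : chain₁ T A) (η : Fin N → Fin 4 → Fin 4 → ℂ)
    (h : Rep P y η) : coord₁ T A φ y = phiMat φ P *ᵥ res φ η := by
  ext ⟨F, i⟩
  show coord (y.1 (φ F).1 (φ F).2) i = _
  rw [h.2, Setup.coord_face _ _ (fun u => η (φ F).1 u (φ F).2) (h.1.diag _ _)]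
  simp only [Matrix.mulVec, dotProduct, Setup.faceMat, Matrix.of_apply, phiMat, res,
    Fintype.sum_prod_type]
  rw [Finset.sum_eq_single F (fun G _ hG => Finset.sum_eq_zero fun k _ => by
    rw [if_neg (Ne.symm hG), zero_mul]) (fun h => absurd (Finset.mem_univ _) h)]
  simp only [if_true]
  rfl

theorem phiMat_sqdet (φ : Fin (2 * N) → Fin N × Fin 4) (P : Fin N → Fin 4 → Mat2) :
    sqdet (phiMat φ P) = ∏ F, (Setup.faceMat P (φ F).1 (φ F).2).det ^ 2 := by
  have h : phiMat φ P = (blockDiagonal fun F => Setup.faceMat P (φ F).1 (φ F).2).submatrix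
      (Equiv.prodComm _ _) (Equiv.prodComm _ _) := by
    ext ⟨F, i⟩ ⟨G, k⟩
    simp only [phiMat, Matrix.submatrix_apply, Equiv.prodComm_apply, Prod.swap,
      Matrix.blockDiagonal_apply, Setup.faceMat, Matrix.of_apply]
    by_cases hFG : F = G
    · subst hFG
      simp [sv]
    · simp [hFG]
  rw [h, sqdet_reindex, sqdet_blockDiagonal _ rfl]
  simp only [sqdet_square]

end Pool.Agent.H15_OneLoop
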