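import Pool.Agent.H15_OneLoop.Local

/-!
# Parallel data, behaviour under the holonomy, determinants
-/

set_option autoImplicit false
namespace Pool.Agent.H15_OneLoop
open Matrix

/-! ### Behaviour under the holonomy -/

theorem dd_mulVec (A : Mat2) (V W : Fin 2 → ℂ) : dd (A *ᵥ V) (A *ᵥ W) = A.det * dd V W := by
  simp [dd, Matrix.mulVec, dotProduct, Fin.sum_univ_two, Matrix.det_fin_two]
  ring

theorem dd_smul (c d : ℂ) (V W : Fin 2 → ℂ) : dd (c • V) (d • W) = c * d * dd V W := by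
  simp [dd]; ring

theorem nilM_smul (c : ℂ) (V : Fin 2 → ℂ) : nilM (c • V) = c ^ 2 • nilM V := by
  ext i j
  fin_cases i <;> fin_cases j <;> simp [nilM] <;> ring

theorem rotM_smul {c d : ℂ} (hc : c ≠ 0) (hd : d ≠ 0) (V W : Fin 2 → ℂ) :
    rotM (c • V) (d • W) = rotM V W := by
  unfold rotM
  rw [dd_smul]
  have : (c * d * dd V W)⁻¹ = (c * d)⁻¹ * (dd V W)⁻¹ := by rw [mul_inv]
  rw [this]
  ext i j
  fin_cases i <;> fin_cases j <;> simp <;> field_simp

theorem mul_nilM_mul (A : Mat2) (V : Fin 2 → ℂ) :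
    A * nilM V * A⁻¹ = (A.det)⁻¹ • nilM (A *ᵥ V) := by
  rw [Matrix.inv_def, Ring.inverse_eq_inv', Matrix.mul_smul]
  congr 1
  rw [Matrix.adjugate_fin_two]
  ext i j
  fin_cases i <;> fin_cases j <;>
    simp [nilM, Matrix.mul_apply, Fin.sum_univ_two, Matrix.mulVec, dotProduct] <;> ring

theorem mul_rotM_mul (A : Mat2) (V W : Fin 2 → ℂ) :
    A * rotM V W * A⁻¹ = rotM (A *ᵥ V) (A *ᵥ W) := by
  unfold rotM
  rw [dd_mulVec, mul_inv, Matrix.mul_smul, Matrix.smul_mul, Matrix.inv_def,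
    Ring.inverse_eq_inv', Matrix.mul_smul, smul_smul, mul_comm (A.det)⁻¹]
  congr 1
  rw [Matrix.adjugate_fin_two]
  ext i j
  fin_cases i <;> fin_cases j <;>
    simp [Matrix.mul_apply, Fin.sum_univ_two, Matrix.mulVec, dotProduct] <;> ring

theorem pos_ne_zero (z : ℂ) (v : Fin 4) : pos z v ≠ 0 := by
  intro h
  have h0 := congrFun h 0
  have h1 := congrFun h 1
  fin_cases v <;> simp [pos] at h0 h1

theorem nilM_ne_zero {V : Fin 2 → ℂ} (hV : V ≠ 0) : nilM V ≠ 0 := by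
  intro h
  apply hV
  have h0 := congrFun (congrFun h 0) 1
  have h1 := congrFun (congrFun h 1) 0
  simp [nilM] at h0 h1
  ext i
  fin_cases i
  · simpa using h0
  · simpa using h1

/-- The data used in the proof of the theorem. -/
structure Setup {N : ℕ} (T : Gluing N) (z : Fin N → ℂ) (A P : Fin N → Fin 4 → Mat2)
    (s : Fin N → Fin 4 → ℂ) : Prop where
  h0 : ∀ j, z j ≠ 0
  h1 : ∀ j, z j ≠ 1
  hA : IsHolonomy T z A
  hP : IsCuspInvariant T A P
  hs : ∀ j v, s j v ≠ 0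
  hPs : ∀ j v, P j v = s j v • nilM (pos (z j) v)

namespace Setup

variable {N : ℕ} {T : Gluing N} {z : Fin N → ℂ} {A P : Fin N → Fin 4 → Mat2}
  {s : Fin N → Fin 4 → ℂ}

/-- The scale factors of the holonomy across a face. -/
theorem scale (H : Setup T z A P s) (j : Fin N) (a : Fin 4) :
    ∃ c : Fin 4 → ℂ, (∀ v, v ≠ a → c v ≠ 0) ∧
      (∀ v, v ≠ a → A j a *ᵥ pos (z j) v = c v • pos (z (T.adj j a)) (T.glue j a v)) ∧
      (∀ v w, v ≠ a → w ≠ a → (A j a).det * mm (z j) v w =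
        c v * c w * mm (z (T.adj j a)) (T.glue j a v) (T.glue j a w)) ∧
      (∀ v, v ≠ a → s (T.adj j a) (T.glue j a v) * (A j a).det = s j v * c v ^ 2) := by
  obtain ⟨hu, hc⟩ := H.hA j a
  choose! c hc using hc
  have hdet : (A j a).det ≠ 0 := hu.ne_zero
  have hc0 : ∀ v, v ≠ a → c v ≠ 0 := by
    intro v hv h
    have h1 := hc v hv
    rw [h, zero_smul] at h1
    have h2 : (A j a)⁻¹ *ᵥ (A j a *ᵥ pos (z j) v) = pos (z j) v := by
      rw [Matrix.mulVec_mulVec, Matrix.nonsing_inv_mul _ hu, Matrix.one_mulVec]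
    rw [h1, Matrix.mulVec_zero] at h2
    exact pos_ne_zero _ _ h2.symm
  refine ⟨c, hc0, hc, ?_, ?_⟩
  · intro v w hv hw
    unfold mm
    rw [← dd_mulVec, hc v hv, hc w hw, dd_smul]
  · intro v hv
    have h1 := H.hP.parallel j a v hv
    rw [H.hPs, H.hPs, Matrix.mul_smul, Matrix.smul_mul, mul_nilM_mul, hc v hv, nilM_smul,
      smul_smul, smul_smul] at h1
    have h2 : (s (T.adj j a) (T.glue j a v) - s j v * (A j a).det⁻¹ * c v ^ 2) •
        nilM (pos (z (T.adj j a)) (T.glue j a v)) = 0 := by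
      rw [sub_smul, h1, sub_self]
    have h3 := (smul_eq_zero.1 h2).resolve_right (nilM_ne_zero (pos_ne_zero _ _))
    rw [sub_eq_zero] at h3
    rw [h3]
    field_simp

/-- The scale factors of the holonomy across a face, solved. -/
theorem scale' (H : Setup T z A P s) (j : Fin N) (a : Fin 4) :
    ∃ (c : Fin 4 → ℂ) (D : ℂ), D ≠ 0 ∧ (∀ v, v ≠ a → c v ≠ 0) ∧
      (∀ v w, v ≠ a → w ≠ a → mm (z (T.adj j a)) (T.glue j a v) (T.glue j a w) =
        D * mm (z j) v w / (c v * c w)) ∧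
      (∀ v, v ≠ a → s (T.adj j a) (T.glue j a v) = s j v * c v ^ 2 / D) := by
  obtain ⟨c, hc0, -, hm, hsc⟩ := H.scale j a
  have hdet : (A j a).det ≠ 0 := (H.hA j a).1.ne_zero
  refine ⟨c, (A j a).det, hdet, hc0, ?_, ?_⟩
  · intro v w hv hw
    have h1 := hc0 v hv
    have h2 := hc0 w hw
    rw [hm v w hv hw]
    field_simp
  · intro v hv
    rw [← hsc v hv]
    field_simp

/-- Displacements are invariant under the gluing. -/
theorem dis_glue (H : Setup T z A P s) (j : Fin N) {a v x y : Fin 4} (hv : v ≠ a) (hx : x ≠ a)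
    (hy : y ≠ a) (hvx : v ≠ x) (hvy : v ≠ y) :
    dis (z (T.adj j a)) (s (T.adj j a)) (T.glue j a v) (T.glue j a x) (T.glue j a y) =
      dis (z j) (s j) v x y := by
  obtain ⟨c, D, hD, hc0, hm, hsc⟩ := H.scale' j a
  have i1 := mm_ne (H.h0 j) (H.h1 j) hvx
  have i2 := mm_ne (H.h0 j) (H.h1 j) hvy
  have i5 := H.hs j v
  have j1 := hc0 v hv
  have j2 := hc0 x hx
  have j3 := hc0 y hy
  unfold dis
  rw [hm x y hx hy, hm v x hv hx, hm v y hv hy, hsc v hv]
  field_simp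

/-- The squares of the Ptolemy coordinates. -/
theorem lam_glue (H : Setup T z A P s) (j : Fin N) {a v w : Fin 4} (hv : v ≠ a) (hw : w ≠ a) :
    s (T.adj j a) (T.glue j a v) * s (T.adj j a) (T.glue j a w) *
      mm (z (T.adj j a)) (T.glue j a v) (T.glue j a w) ^ 2 = s j v * s j w * mm (z j) v w ^ 2 := by
  obtain ⟨c, D, hD, hc0, hm, hsc⟩ := H.scale' j a
  have j1 := hc0 v hv
  have j2 := hc0 w hw
  rw [hm v w hv hw, hsc v hv, hsc w hw]
  field_simp

/-- Rotations are parallel. -/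
theorem rotM_glue (H : Setup T z A P s) (j : Fin N) {a v w : Fin 4} (hv : v ≠ a) (hw : w ≠ a) :
    rotM (pos (z (T.adj j a)) (T.glue j a v)) (pos (z (T.adj j a)) (T.glue j a w)) =
      A j a * rotM (pos (z j) v) (pos (z j) w) * (A j a)⁻¹ := by
  obtain ⟨c, hc0, hc, -, -⟩ := H.scale j a
  rw [mul_rotM_mul, hc v hv, hc w hw, rotM_smul (hc0 v hv) (hc0 w hw)]

/-- Decompositions in a face are invariant under the gluing. -/
theorem rdec_glue (H : Setup T z A P s) (j : Fin N) {a v w b u : Fin 4} (hv : v ≠ a)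
    (hw : w ≠ a) (hb : b ≠ a) (hvw : v ≠ w) (hvb : v ≠ b) (hwb : w ≠ b) :
    rdec (z (T.adj j a)) (s (T.adj j a)) (T.glue j a v) (T.glue j a w) (T.glue j a b)
      (T.glue j a u) = rdec (z j) (s j) v w b u := by
  unfold rdec
  simp only [(T.glue j a).injective.eq_iff]
  rw [H.dis_glue j hv hb hw hvb hvw, H.dis_glue j hw hv hb hvw.symm hwb,
    H.dis_glue j hb hv hw hvb.symm hwb.symm]

end Setup

/-! ### Determinants -/

/-- The determinant of three matrices in coordinates. -/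
noncomputable def det3 (X : Fin 3 → Mat2) : ℂ := Matrix.det (Matrix.of fun i k => coord (X k) i)

theorem det3_nilM (s₀ s₁ s₂ : ℂ) (U V W : Fin 2 → ℂ) :
    det3 ![s₀ • nilM U, s₁ • nilM V, s₂ • nilM W] =
      -(s₀ * s₁ * s₂ * (dd U V * dd V W * dd U W)) := by
  unfold det3
  rw [Matrix.det_fin_three]
  simp [coord, nilM, dd]
  ring

theorem det3_rotM (s₀ s₁ : ℂ) (V W : Fin 2 → ℂ) (h : dd V W ≠ 0) :
    det3 ![s₀ • nilM V, s₁ • nilM W, rotM V W] = -(s₀ * s₁ * dd V W ^ 2) := by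
  unfold det3
  rw [Matrix.det_fin_three]
  simp [coord, nilM, rotM]
  field_simp
  simp [dd]
  ring

end Pool.Agent.H15_OneLoop
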