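import Pool.Agent.H15_OneLoop.Cusp



/-!
# The vertices of the triangulation of the cusp (proofs by helper933)
-/

set_option autoImplicit false

namespace Pool.Agent.H15_OneLoop

variable {N : ℕ}

/-! ### Auxiliary facts on permutations of four letters -/

theorem J5_ex : ∀ v w : Fin 4, v ≠ w →
    ∃ σ : Equiv.Perm (Fin 4), Equiv.Perm.sign σ = 1 ∧ σ 0 = v ∧ σ 1 = w := by decide

theorem J5_one : ∀ ρ : Equiv.Perm (Fin 4), Equiv.Perm.sign ρ = 1 → ρ 0 = 0 → ρ 1 = 1 → ρ = 1 := by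
  decide

theorem J5_uniq (σ τ : Equiv.Perm (Fin 4)) (h1 : Equiv.Perm.sign σ = 1)
    (h2 : Equiv.Perm.sign τ = 1) (h3 : σ 0 = τ 0) (h4 : σ 1 = τ 1) : σ = τ := by
  have := J5_one (σ⁻¹ * τ) (by rw [Equiv.Perm.sign_mul, Equiv.Perm.sign_inv, h1, h2]; rfl)
    (by rw [Equiv.Perm.mul_apply, ← h3]; simp) (by rw [Equiv.Perm.mul_apply, ← h4]; simp)
  exact inv_mul_eq_one.1 this

theorem J5_conj : Equiv.swap (2 : Fin 4) 3 * Equiv.swap 0 1 * Equiv.swap 2 3 =
    Equiv.swap 0 1 := by decide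

theorem J5_inv : Equiv.swap (0 : Fin 4) 1 * Equiv.swap 2 3 *
    (Equiv.swap (0 : Fin 4) 1 * Equiv.swap 2 3) = 1 := by decide

theorem J5_ne : Equiv.swap (0 : Fin 4) 1 * Equiv.swap 2 3 ≠ 1 := by decide

/-- States: a tetrahedron and a permutation. -/
abbrev J5S (N : ℕ) : Type := Fin N × Equiv.Perm (Fin 4)

/-- Rotation around an edge. -/
def J5rot (T : Gluing N) : Equiv.Perm (J5S N) where
  toFun c := (T.adj c.1 (c.2 2), T.glue c.1 (c.2 2) * c.2 * Equiv.swap 2 3)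
  invFun c := (T.adj c.1 (c.2 3), T.glue c.1 (c.2 3) * c.2 * Equiv.swap 2 3)
  left_inv := by
    rintro ⟨j, σ⟩
    have h3 : (T.glue j (σ 2) * σ * Equiv.swap 2 3 : Equiv.Perm (Fin 4)) 3 =
        T.glue j (σ 2) (σ 2) := by
      simp [Equiv.Perm.mul_apply]
    simp only [h3, T.adj_adj, T.glue_glue]
    refine Prod.ext rfl ?_
    simp only [mul_assoc, Equiv.swap_mul_self, mul_one, inv_mul_cancel_left]
  right_inv := by
    rintro ⟨j, σ⟩
    have h3 : (T.glue j (σ 3) * σ * Equiv.swap 2 3 : Equiv.Perm (Fin 4)) 2 =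
        T.glue j (σ 3) (σ 3) := by
      simp [Equiv.Perm.mul_apply]
    simp only [h3, T.adj_adj, T.glue_glue]
    refine Prod.ext rfl ?_
    simp only [mul_assoc, Equiv.swap_mul_self, mul_one, inv_mul_cancel_left]

theorem J5rot_apply (T : Gluing N) (c : J5S N) :
    J5rot T c = (T.adj c.1 (c.2 2), T.glue c.1 (c.2 2) * c.2 * Equiv.swap 2 3) := rfl

theorem J5rot_inv_apply (T : Gluing N) (c : J5S N) :
    (J5rot T)⁻¹ c = (T.adj c.1 (c.2 3), T.glue c.1 (c.2 3) * c.2 * Equiv.swap 2 3) := rfl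

/-- Reversal. -/
def J5rev (N : ℕ) : Equiv.Perm (J5S N) where
  toFun c := (c.1, c.2 * (Equiv.swap 0 1 * Equiv.swap 2 3))
  invFun c := (c.1, c.2 * (Equiv.swap 0 1 * Equiv.swap 2 3))
  left_inv := by
    rintro ⟨j, σ⟩
    simp only [mul_assoc _ (_ : Equiv.Perm (Fin 4)) _]
    refine Prod.ext rfl ?_
    have h : σ * (Equiv.swap 0 1 * (Equiv.swap 2 3 * (Equiv.swap 0 1 * Equiv.swap 2 3))) = σ := by
      have := J5_inv
      rw [mul_assoc] at this
      rw [this, mul_one]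
    exact h
  right_inv := by
    rintro ⟨j, σ⟩
    simp only [mul_assoc _ (_ : Equiv.Perm (Fin 4)) _]
    refine Prod.ext rfl ?_
    have h : σ * (Equiv.swap 0 1 * (Equiv.swap 2 3 * (Equiv.swap 0 1 * Equiv.swap 2 3))) = σ := by
      have := J5_inv
      rw [mul_assoc] at this
      rw [this, mul_one]
    exact h

theorem J5rev_apply (c : J5S N) :
    J5rev N c = (c.1, c.2 * (Equiv.swap 0 1 * Equiv.swap 2 3)) := rfl

theorem J5rot_rev (T : Gluing N) (c : J5S N) :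
    J5rot T (J5rev N c) = J5rev N ((J5rot T)⁻¹ c) := by
  obtain ⟨j, σ⟩ := c
  rw [J5rot_apply, J5rev_apply, J5rev_apply, J5rot_inv_apply]
  have h2 : (σ * (Equiv.swap 0 1 * Equiv.swap 2 3) : Equiv.Perm (Fin 4)) 2 = σ 3 := by
    have : (Equiv.swap 0 1 * Equiv.swap 2 3 : Equiv.Perm (Fin 4)) 2 = 3 := by decide
    rw [Equiv.Perm.mul_apply, this]
  simp only [h2]
  refine Prod.ext rfl ?_
  simp only [mul_assoc]
  congr 2
  decide

theorem J5rev_inv : (J5rev N)⁻¹ = J5rev N := rfl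

/-- the dihedral relation -/
theorem J5_dihedral (T : Gluing N) : J5rot T * J5rev N = J5rev N * (J5rot T)⁻¹ := by
  ext1 c
  rw [Equiv.Perm.mul_apply, Equiv.Perm.mul_apply]
  exact J5rot_rev T c

theorem J5_dihedral_zpow (T : Gluing N) (m : ℤ) (c : J5S N) :
    ((J5rot T) ^ m) (J5rev N c) = J5rev N (((J5rot T) ^ (-m)) c) := by
  have h1 : SemiconjBy (J5rev N) (J5rot T)⁻¹ (J5rot T) := (J5_dihedral T).symm
  have h2 := h1.zpow_right m
  have h3 : J5rev N * ((J5rot T)⁻¹) ^ m = (J5rot T) ^ m * J5rev N := h2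
  rw [← Equiv.Perm.mul_apply, ← h3, Equiv.Perm.mul_apply, inv_zpow, zpow_neg]

theorem J5rev_ne (c : J5S N) : J5rev N c ≠ c := by
  obtain ⟨j, σ⟩ := c
  intro h
  rw [J5rev_apply] at h
  have h2 := (Prod.ext_iff.1 h).2
  simp only at h2
  exact J5_ne (mul_eq_left.1 h2)

theorem J5rev_ne_rot (T : Gluing N) (c : J5S N) : J5rev N c ≠ J5rot T c := by
  obtain ⟨j, σ⟩ := c
  intro h
  rw [J5rev_apply, J5rot_apply] at h
  have h1 : j = T.adj j (σ 2) := (Prod.ext_iff.1 h).1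
  have h2 : σ * (Equiv.swap 0 1 * Equiv.swap 2 3) = T.glue j (σ 2) * σ * Equiv.swap 2 3 :=
    (Prod.ext_iff.1 h).2
  rw [← mul_assoc] at h2
  have h3 : σ * Equiv.swap 0 1 = T.glue j (σ 2) * σ := mul_right_cancel h2
  have h4 := congrArg (fun π : Equiv.Perm (Fin 4) => π 2) h3
  simp only [Equiv.Perm.mul_apply] at h4
  have h5 : Equiv.swap (0 : Fin 4) 1 2 = 2 := by decide
  rw [h5] at h4
  exact T.ne_self j (σ 2) ⟨h1.symm, h4.symm⟩

theorem J5rev_ne_zpow (T : Gluing N) (c : J5S N) (n : ℤ) : ((J5rot T) ^ n) c ≠ J5rev N c := by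
  intro h
  rcases Int.even_or_odd' n with ⟨m, hm | hm⟩
  · -- even
    apply J5rev_ne (((J5rot T) ^ m) c)
    have h1 := J5_dihedral_zpow T (-m) c
    rw [neg_neg] at h1
    rw [← h1, ← h, ← Equiv.Perm.mul_apply, ← zpow_add, hm]
    congr 2
    ring
  · apply J5rev_ne_rot T (((J5rot T) ^ m) c)
    have h1 := J5_dihedral_zpow T (-m) c
    rw [neg_neg] at h1
    rw [← h1, ← h, ← Equiv.Perm.mul_apply, ← zpow_add, hm]
    have h2 : (J5rot T) ^ (-m + (2 * m + 1)) = J5rot T * (J5rot T) ^ m := by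
      have : -m + (2 * m + 1) = 1 + m := by ring
      rw [this, zpow_add, zpow_one]
    rw [h2, Equiv.Perm.mul_apply]

/-! ### Corners -/

/-- The relation between corners through rotations. -/
def J5P (T : Gluing N) (c c' : Fin N × Fin 4 × Fin 4) : Prop :=
  (c.2.1 ≠ c.2.2 ↔ c'.2.1 ≠ c'.2.2) ∧
    ∀ σ τ : Equiv.Perm (Fin 4), Equiv.Perm.sign σ = 1 → Equiv.Perm.sign τ = 1 →
      σ 0 = c.2.1 → σ 1 = c.2.2 → τ 0 = c'.2.1 → τ 1 = c'.2.2 →
      ∃ n : ℤ, ((J5rot T) ^ n) (c.1, σ) = (c'.1, τ)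

theorem J5_sign_rot (T : Gluing N) (j : Fin N) (a : Fin 4) (σ : Equiv.Perm (Fin 4))
    (h : Equiv.Perm.sign σ = 1) :
    Equiv.Perm.sign (T.glue j a * σ * Equiv.swap 2 3) = 1 := by
  rw [Equiv.Perm.sign_mul, Equiv.Perm.sign_mul, T.odd, h, Equiv.Perm.sign_swap (by decide)]
  rfl

theorem J5P_step (T : Gluing N) (c c' : Fin N × Fin 4 × Fin 4) (h : T.CornerStep c c') :
    J5P T c c' := by
  obtain ⟨j, a, v, w, hv, hw, hvw⟩ := h
  refine ⟨?_, ?_⟩
  · simp only
    exact iff_of_true hvw (fun e => hvw ((T.glue j a).injective e))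
  · intro σ τ hσ hτ h0 h1 h2 h3
    simp only at h0 h1 h2 h3 ⊢
    have hs0 : Equiv.swap (2 : Fin 4) 3 0 = 0 := by decide
    have hs1 : Equiv.swap (2 : Fin 4) 3 1 = 1 := by decide
    have hτ' : τ = T.glue j a * σ * Equiv.swap 2 3 := by
      apply J5_uniq _ _ hτ (J5_sign_rot T j a σ hσ)
      · rw [Equiv.Perm.mul_apply, Equiv.Perm.mul_apply, hs0, h0, h2]
      · rw [Equiv.Perm.mul_apply, Equiv.Perm.mul_apply, hs1, h1, h3]
    have ha : a = σ 2 ∨ a = σ 3 := by
      obtain ⟨i, rfl⟩ := σ.surjective a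
      fin_cases i
      · exact absurd h0.symm hv
      · exact absurd h1.symm hw
      · left; rfl
      · right; rfl
    rcases ha with ha | ha
    · refine ⟨1, ?_⟩
      rw [zpow_one, J5rot_apply, hτ', ha]
    · refine ⟨-1, ?_⟩
      rw [zpow_neg_one, J5rot_inv_apply, hτ', ha]

theorem J5P_eqv (T : Gluing N) (c c' : Fin N × Fin 4 × Fin 4)
    (h : Relation.EqvGen T.CornerStep c c') : J5P T c c' := by
  induction h with
  | rel x y h => exact J5P_step T x y h
  | refl x =>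
    refine ⟨Iff.rfl, fun σ τ hσ hτ h0 h1 h2 h3 => ⟨0, ?_⟩⟩
    have := J5_uniq σ τ hσ hτ (h0.trans h2.symm) (h1.trans h3.symm)
    rw [this, zpow_zero]
    rfl
  | symm x y _ ih =>
    refine ⟨ih.1.symm, fun σ τ hσ hτ h0 h1 h2 h3 => ?_⟩
    obtain ⟨n, hn⟩ := ih.2 τ σ hτ hσ h2 h3 h0 h1
    refine ⟨-n, ?_⟩
    rw [← hn, ← Equiv.Perm.mul_apply, ← zpow_add, neg_add_cancel, zpow_zero]
    rfl
  | trans x y z _ _ ih1 ih2 =>
    refine ⟨ih1.1.trans ih2.1, fun σ τ hσ hτ h0 h1 h2 h3 => ?_⟩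
    have hx : x.2.1 ≠ x.2.2 := by
      rw [← h0, ← h1]
      exact fun e => absurd (σ.injective e) (by decide)
    obtain ⟨ρ, hρ, e0, e1⟩ := J5_ex _ _ (ih1.1.1 hx)
    obtain ⟨n, hn⟩ := ih1.2 σ ρ hσ hρ h0 h1 e0 e1
    obtain ⟨m, hm⟩ := ih2.2 ρ τ hρ hτ e0 e1 h2 h3
    refine ⟨m + n, ?_⟩
    rw [zpow_add, Equiv.Perm.mul_apply, hn, hm]

/-- A corner is not equivalent to the reversed one. -/
theorem J5_not_rev (T : Gluing N) (j : Fin N) (v w : Fin 4) (hvw : v ≠ w) :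
    ¬ Relation.EqvGen T.CornerStep (j, v, w) (j, w, v) := by
  intro h
  obtain ⟨σ, hσ, h0, h1⟩ := J5_ex v w hvw
  have hτ : Equiv.Perm.sign (σ * (Equiv.swap 0 1 * Equiv.swap 2 3)) = 1 := by
    rw [Equiv.Perm.sign_mul, Equiv.Perm.sign_mul, hσ, Equiv.Perm.sign_swap (by decide),
      Equiv.Perm.sign_swap (by decide)]
    rfl
  have e0 : (σ * (Equiv.swap 0 1 * Equiv.swap 2 3) : Equiv.Perm (Fin 4)) 0 = w := by
    have : (Equiv.swap 0 1 * Equiv.swap 2 3 : Equiv.Perm (Fin 4)) 0 = 1 := by decide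
    rw [Equiv.Perm.mul_apply, this, h1]
  have e1 : (σ * (Equiv.swap 0 1 * Equiv.swap 2 3) : Equiv.Perm (Fin 4)) 1 = v := by
    have : (Equiv.swap 0 1 * Equiv.swap 2 3 : Equiv.Perm (Fin 4)) 1 = 0 := by decide
    rw [Equiv.Perm.mul_apply, this, h0]
  obtain ⟨n, hn⟩ := (J5P_eqv T _ _ h).2 σ _ hσ hτ h0 h1 e0 e1
  exact J5rev_ne_zpow T (j, σ) n hn

/-- Reversed corner. -/
def J5fl (c : Fin N × Fin 4 × Fin 4) : Fin N × Fin 4 × Fin 4 := (c.1, c.2.2, c.2.1)

theorem J5fl_fl (c : Fin N × Fin 4 × Fin 4) : J5fl (J5fl c) = c := rfl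

theorem J5fl_eqv (T : Gluing N) (c c' : Fin N × Fin 4 × Fin 4)
    (h : Relation.EqvGen T.CornerStep c c') :
    Relation.EqvGen T.CornerStep (J5fl c) (J5fl c') := by
  induction h with
  | rel x y h =>
    obtain ⟨j, a, v, w, hv, hw, hvw⟩ := h
    exact Relation.EqvGen.rel _ _ (Gluing.CornerStep.cross j a w v hw hv hvw.symm)
  | refl x => exact Relation.EqvGen.refl _
  | symm x y _ ih => exact ih.symm
  | trans x y z _ _ ih1 ih2 => exact ih1.trans _ _ _ ih2

/-- Edges and corners. -/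
theorem J5_edge (T : Gluing N) (c c' : Fin N × Fin 4 × Fin 4)
    (h : Relation.EqvGen T.EdgeStep c c') : (c.2.1 ≠ c.2.2 ↔ c'.2.1 ≠ c'.2.2) ∧
      (c.2.1 ≠ c.2.2 → Relation.EqvGen T.CornerStep c c' ∨
        Relation.EqvGen T.CornerStep c (J5fl c')) := by
  induction h with
  | rel x y h =>
    cases h with
    | flip j v w =>
      refine ⟨⟨Ne.symm, Ne.symm⟩, fun _ => Or.inr ?_⟩
      exact Relation.EqvGen.refl _
    | cross j a v w hv hw =>
      refine ⟨⟨fun h e => h ((T.glue j a).injective e), fun h e => h (congrArg _ e)⟩,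
        fun h => Or.inl ?_⟩
      exact Relation.EqvGen.rel _ _ (Gluing.CornerStep.cross j a v w hv hw h)
  | refl x => exact ⟨Iff.rfl, fun _ => Or.inl (Relation.EqvGen.refl _)⟩
  | symm x y _ ih =>
    refine ⟨ih.1.symm, fun h => ?_⟩
    rcases ih.2 (ih.1.2 h) with h1 | h1
    · exact Or.inl h1.symm
    · right
      have h2 := J5fl_eqv T _ _ h1
      rw [J5fl_fl] at h2
      exact h2.symm
  | trans x y z _ _ ih1 ih2 =>
    refine ⟨ih1.1.trans ih2.1, fun h => ?_⟩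
    rcases ih1.2 h with h1 | h1 <;> rcases ih2.2 (ih1.1.1 h) with h2 | h2
    · exact Or.inl (h1.trans _ _ _ h2)
    · exact Or.inr (h1.trans _ _ _ h2)
    · exact Or.inr (h1.trans _ _ _ (J5fl_eqv T _ _ h2))
    · left
      have h3 := J5fl_eqv T _ _ h2
      rw [J5fl_fl] at h3
      exact h1.trans _ _ _ h3

/-- TARGET -/
theorem exists_cornerClass (T : IdealTriangulation N) (ε : Fin N → Fin N × Fin 4 × Fin 4)
    (hε : IsEdgeChoice T ε) :
    ∃ cls : Fin N → Fin 4 → Fin 4 → Fin N × Fin 2,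
      IsCornerClass T.toGluing cls ∧
      (∀ j v w, (cls j v w).1 = T.edge j v w) ∧
      (∀ e, (cls (ε e).1 (ε e).2.1 (ε e).2.2).2 = 0) ∧
      (∀ j v w, v ≠ w → cls j w v = ((cls j v w).1, 1 - (cls j v w).2)) := by
  classical
  -- the two cases
  have hcase : ∀ j v w, v ≠ w →
      Relation.EqvGen T.CornerStep (j, v, w) (ε (T.edge j v w)) ∨
        Relation.EqvGen T.CornerStep (j, v, w) (J5fl (ε (T.edge j v w))) := by
    intro j v w hvw
    have h1 := hε (T.edge j v w)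
    have h2 : Relation.EqvGen T.EdgeStep (j, v, w) (ε (T.edge j v w)) :=
      (T.edge_eq_iff hvw h1.1).1 h1.2.symm
    exact (J5_edge T.toGluing _ _ h2).2 hvw
  have hrev : ∀ c : Fin N × Fin 4 × Fin 4, c.2.1 ≠ c.2.2 →
      ¬ Relation.EqvGen T.CornerStep c (J5fl c) := fun c hc =>
    J5_not_rev T.toGluing c.1 c.2.1 c.2.2 hc
  -- not both cases
  have hnot : ∀ j v w, v ≠ w → Relation.EqvGen T.CornerStep (j, v, w) (ε (T.edge j v w)) →
      ¬ Relation.EqvGen T.CornerStep (j, v, w) (J5fl (ε (T.edge j v w))) := by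
    intro j v w _ h1 h2
    exact hrev (ε (T.edge j v w)) (hε _).1 (h1.symm.trans _ _ _ h2)
  have hflip : ∀ j v w, v ≠ w → T.edge j w v = T.edge j v w := by
    intro j v w hvw
    exact (T.edge_eq_iff hvw.symm hvw).2 (Relation.EqvGen.rel _ _ (Gluing.EdgeStep.flip j w v))
  let cls : Fin N → Fin 4 → Fin 4 → Fin N × Fin 2 := fun j v w =>
    (T.edge j v w, if Relation.EqvGen T.CornerStep (j, v, w) (ε (T.edge j v w)) then 0 else 1)
  have hc0 : ∀ j v w, Relation.EqvGen T.CornerStep (j, v, w) (ε (T.edge j v w)) →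
      cls j v w = (T.edge j v w, 0) := fun j v w h => by
    simp only [cls]; rw [if_pos h]
  have hc1 : ∀ j v w, ¬ Relation.EqvGen T.CornerStep (j, v, w) (ε (T.edge j v w)) →
      cls j v w = (T.edge j v w, 1) := fun j v w h => by
    simp only [cls]; rw [if_neg h]
  have h01 : (0 : Fin 2) ≠ 1 := by decide
  have hε0 : ∀ e, cls (ε e).1 (ε e).2.1 (ε e).2.2 = (e, 0) := by
    intro e
    have h1 := (hε e).2
    have h2 := hc0 (ε e).1 (ε e).2.1 (ε e).2.2 (by rw [h1]; exact Relation.EqvGen.refl _)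
    rw [h1] at h2
    exact h2
  have hreverse : ∀ j v w, v ≠ w → cls j w v = ((cls j v w).1, 1 - (cls j v w).2) := by
    intro j v w hvw
    have he := hflip j v w hvw
    by_cases h : Relation.EqvGen T.CornerStep (j, v, w) (ε (T.edge j v w))
    · have h2 : ¬ Relation.EqvGen T.CornerStep (j, w, v) (ε (T.edge j w v)) := by
        rw [he]
        intro h3
        have h4 := J5fl_eqv T.toGluing _ _ h3
        exact hnot j v w hvw h h4
      rw [hc0 j v w h, hc1 j w v h2, he]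
      rfl
    · have h2 : Relation.EqvGen T.CornerStep (j, w, v) (ε (T.edge j w v)) := by
        rw [he]
        have h3 := (hcase j v w hvw).resolve_left h
        exact J5fl_eqv T.toGluing _ _ h3
      rw [hc1 j v w h, hc0 j w v h2, he]
      rfl
  refine ⟨cls, ⟨?_, ?_, ?_⟩, fun j v w => rfl, fun e => by rw [hε0 e], hreverse⟩
  · intro j a v w hv hw hvw
    have hstep := Gluing.CornerStep.cross (T := T.toGluing) j a v w hv hw hvw
    have hne : T.glue j a v ≠ T.glue j a w := fun e => hvw ((T.glue j a).injective e)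
    have he : T.edge (T.adj j a) (T.glue j a v) (T.glue j a w) = T.edge j v w :=
      ((T.edge_eq_iff hvw hne).2 (Relation.EqvGen.rel _ _
        (Gluing.EdgeStep.cross j a v w hv hw))).symm
    by_cases h : Relation.EqvGen T.CornerStep (j, v, w) (ε (T.edge j v w))
    · rw [hc0 j v w h, hc0 _ _ _ (by
        rw [he]
        exact (Relation.EqvGen.rel _ _ hstep).symm.trans _ _ _ h), he]
    · rw [hc1 j v w h, hc1 _ _ _ (by
        rw [he]
        intro h2
        exact h ((Relation.EqvGen.rel _ _ hstep).trans _ _ _ h2)), he]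
  · intro j v w k x y hvw hxy heq
    by_cases h : Relation.EqvGen T.CornerStep (j, v, w) (ε (T.edge j v w))
    · by_cases h' : Relation.EqvGen T.CornerStep (k, x, y) (ε (T.edge k x y))
      · rw [hc0 _ _ _ h, hc0 _ _ _ h'] at heq
        have he : T.edge j v w = T.edge k x y := (Prod.ext_iff.1 heq).1
        rw [← he] at h'
        exact h.trans _ _ _ h'.symm
      · rw [hc0 _ _ _ h, hc1 _ _ _ h'] at heq
        exact absurd (Prod.ext_iff.1 heq).2 h01
    · by_cases h' : Relation.EqvGen T.CornerStep (k, x, y) (ε (T.edge k x y))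
      · rw [hc1 _ _ _ h, hc0 _ _ _ h'] at heq
        exact absurd (Prod.ext_iff.1 heq).2 h01.symm
      · have h1 := (hcase j v w hvw).resolve_left h
        have h2 := (hcase k x y hxy).resolve_left h'
        rw [hc1 _ _ _ h, hc1 _ _ _ h'] at heq
        have he : T.edge j v w = T.edge k x y := (Prod.ext_iff.1 heq).1
        rw [← he] at h2
        exact h1.trans _ _ _ h2.symm
  · rintro ⟨e, i⟩
    have hi : i = 0 ∨ i = 1 := by
      fin_cases i
      · left; rfl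
      · right; rfl
    rcases hi with rfl | rfl
    · exact ⟨_, _, _, (hε e).1, hε0 e⟩
    · refine ⟨(ε e).1, (ε e).2.2, (ε e).2.1, (hε e).1.symm, ?_⟩
      rw [hreverse _ _ _ (hε e).1, hε0 e]
      rfl

end Pool.Agent.H15_OneLoop
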