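import Pool.Agent.H15_OneLoop.Psi
import Pool.Agent.H15_OneLoop.Flows

/-!
# The curve identity (proof by helper761)

The completeness equation along a normal curve, in terms of the intersection number of the
displacement flow and the curve.
-/

set_option autoImplicit false

namespace Pool.Agent.H15_OneLoop

open Matrix

variable {N : ℕ}

/-! ### Local identities -/

/-- The contribution of one passage. -/
theorem j493_local {z : ℂ} (h0 : z ≠ 0) (h1 : z ≠ 1) (s : Fin 4 → ℂ) (hs : ∀ v, s v ≠ 0)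
    (σ : Equiv.Perm (Fin 4)) (u : Fin 4) :
    ((Equiv.Perm.sign σ : ℤ) : ℂ) * (zeta z (kind (σ 0) (σ 1)) * kvec z s u) =
      rdec z s (σ 0) (σ 1) (σ 3) u - rdec z s (σ 0) (σ 1) (σ 2) u := by
  rcases Int.units_eq_one_or (Equiv.Perm.sign σ) with h | h
  · obtain ⟨e1, e2⟩ := lft_rgt_of_even σ h
    have hne : σ 0 ≠ σ 2 := fun h' => absurd (σ.injective h') (by decide)
    have := rdec_sub h0 h1 s hs hne u
    rw [e1, e2] at this
    rw [h, this]
    simp
  · have h' : Equiv.Perm.sign (σ * Equiv.swap 2 3) = 1 := by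
      rw [Equiv.Perm.sign_mul, h, Equiv.Perm.sign_swap (by decide)]
      decide
    have a0 : (σ * Equiv.swap (2 : Fin 4) 3) 0 = σ 0 := by
      rw [Equiv.Perm.mul_apply, Equiv.swap_apply_of_ne_of_ne (by decide) (by decide)]
    have a1 : (σ * Equiv.swap (2 : Fin 4) 3) 1 = σ 1 := by
      rw [Equiv.Perm.mul_apply, Equiv.swap_apply_of_ne_of_ne (by decide) (by decide)]
    have a2 : (σ * Equiv.swap (2 : Fin 4) 3) 2 = σ 3 := by
      rw [Equiv.Perm.mul_apply, Equiv.swap_apply_left]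
    have a3 : (σ * Equiv.swap (2 : Fin 4) 3) 3 = σ 2 := by
      rw [Equiv.Perm.mul_apply, Equiv.swap_apply_right]
    obtain ⟨e1, e2⟩ := lft_rgt_of_even _ h'
    rw [a0, a1, a2] at e1
    rw [a0, a2, a3] at e2
    have hne : σ 0 ≠ σ 3 := fun h' => absurd (σ.injective h') (by decide)
    have := rdec_sub h0 h1 s hs hne u
    rw [e1, e2] at this
    rw [h, ← this]
    simp

/-- The vertex which is neither `v`, nor `x`, nor `y`. -/
theorem j493_third : ∀ v x y : Fin 4, v ≠ x → v ≠ y → x ≠ y →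
    ∃ a : Fin 4, v ≠ a ∧ ((lft v a = y ∧ rgt v a = x) ∨ (lft v a = x ∧ rgt v a = y)) := by
  have key : ∀ v x y : Fin 4, v ≠ x → v ≠ y → x ≠ y →
      (v ≠ rgt v y ∧ lft v (rgt v y) = y ∧ rgt v (rgt v y) = x) ∨
        (v ≠ rgt v x ∧ lft v (rgt v x) = x ∧ rgt v (rgt v x) = y) := by
    decide
  intro v x y h1 h2 h3
  rcases key v x y h1 h2 h3 with ⟨k1, k2, k3⟩ | ⟨k1, k2, k3⟩
  · exact ⟨rgt v y, k1, Or.inl ⟨k2, k3⟩⟩
  · exact ⟨rgt v x, k1, Or.inr ⟨k2, k3⟩⟩

/-- The potential of the displacement flow. -/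
theorem j493_pot_dis {z : Fin N → ℂ} (h0 : ∀ j, z j ≠ 0) (h1 : ∀ j, z j ≠ 1)
    {s : Fin N → Fin 4 → ℂ} (hs : ∀ j v, s j v ≠ 0) (j : Fin N) {v x y : Fin 4} (hvx : v ≠ x)
    (hvy : v ≠ y) (hxy : x ≠ y) :
    pot (disFlow z s j v) v y - pot (disFlow z s j v) v x = dis (z j) (s j) v x y := by
  obtain ⟨a, hva, h⟩ := j493_third v x y hvx hvy hxy
  have hd : disFlow z s j v v = 0 := by
    unfold disFlow
    rw [(lft_self v).1, (lft_self v).2, dis_self]
  have hp := pot_sub (disFlow z s j v) v hd (disFlow_sum h0 h1 hs j v) a hva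
  have he : disFlow z s j v a = dis (z j) (s j) v (rgt v a) (lft v a) := rfl
  rw [he] at hp
  rcases h with ⟨e1, e2⟩ | ⟨e1, e2⟩
  · rw [e1, e2] at hp
    exact hp
  · rw [e1, e2] at hp
    rw [dis_antisymm, ← hp]
    ring

/-! ### Flows and the curve -/

/-- The jump is antisymmetric. -/
theorem j493_jump_anti {K : Type} [CommRing K] (T : Gluing N) (η : Fin N → Fin 4 → Fin 4 → K)
    (hη : IsFlow T η) (hdiv : ∀ j v, ∑ a, η j v a = 0) (j : Fin N) (v a : Fin 4) (h : v ≠ a) :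
    jump T η (T.adj j a) (T.glue j a v) (T.glue j a a) = -jump T η j v a := by
  obtain ⟨h1, h2⟩ := lft_rgt_glue (T.glue j a) (T.odd j a) v a h
  have e1 := pot_sub (η j v) v (hη.diag j v) (hdiv j v) a h
  have e2 := pot_sub (η (T.adj j a) (T.glue j a v)) (T.glue j a v) (hη.diag _ _) (hdiv _ _)
    (T.glue j a a) (fun h' => h ((T.glue j a).injective h'))
  rw [hη.anti j v a h] at e2
  unfold jump
  rw [h1, T.adj_adj, T.glue_apply_glue, T.glue_apply_glue]
  rw [h1, h2] at e2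
  linear_combination e2 + e1

/-- The jump computed at the other corner. -/
theorem j493_jump_rgt {K : Type} [CommRing K] (T : Gluing N) (η : Fin N → Fin 4 → Fin 4 → K)
    (hη : IsFlow T η) (hdiv : ∀ j v, ∑ a, η j v a = 0) (j : Fin N) (v a : Fin 4) (h : v ≠ a) :
    jump T η j v a = pot (η j v) v (rgt v a) -
      pot (η (T.adj j a) (T.glue j a v)) (T.glue j a v) (T.glue j a (rgt v a)) := by
  obtain ⟨h1, h2⟩ := lft_rgt_glue (T.glue j a) (T.odd j a) v a h
  have e1 := pot_sub (η j v) v (hη.diag j v) (hdiv j v) a h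
  have e2 := pot_sub (η (T.adj j a) (T.glue j a v)) (T.glue j a v) (hη.diag _ _) (hdiv _ _)
    (T.glue j a a) (fun h' => h ((T.glue j a).injective h'))
  rw [hη.anti j v a h] at e2
  unfold jump
  rw [h1, h2] at e2
  linear_combination e1 + e2

/-- The jump at the exit side of a passage, computed at the corner which is cut off. -/
theorem j493_jump_perm {K : Type} [CommRing K] (T : Gluing N) (η : Fin N → Fin 4 → Fin 4 → K)
    (hη : IsFlow T η) (hdiv : ∀ j v, ∑ a, η j v a = 0) (j : Fin N) (σ : Equiv.Perm (Fin 4)) :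
    jump T η j (σ 0) (σ 2) = pot (η j (σ 0)) (σ 0) (σ 1) -
      pot (η (T.adj j (σ 2)) (T.glue j (σ 2) (σ 0))) (T.glue j (σ 2) (σ 0))
        (T.glue j (σ 2) (σ 1)) := by
  have hne : σ 0 ≠ σ 2 := fun h' => absurd (σ.injective h') (by decide)
  rcases Int.units_eq_one_or (Equiv.Perm.sign σ) with h | h
  · obtain ⟨e1, e2⟩ := lft_rgt_of_even σ h
    unfold jump
    rw [e1]
  · obtain ⟨e1, e2⟩ := lft_rgt_of_odd σ h
    rw [j493_jump_rgt T η hη hdiv j _ _ hne, e2]

/-- The number of exits of the curve. -/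
def j493_ex {T : Gluing N} (θ : NormalCurve T) (j : Fin N) (v a : Fin 4) : ℤ :=
  ∑ i ∈ Finset.range θ.len, (if θ.tet i = j ∧ θ.arc i 0 = v ∧ θ.arc i 2 = a then 1 else 0)

/-- The number of entries of the curve. -/
def j493_en {T : Gluing N} (θ : NormalCurve T) (j : Fin N) (v a : Fin 4) : ℤ :=
  ∑ i ∈ Finset.range θ.len, (if θ.tet i = j ∧ θ.arc i 0 = v ∧ θ.arc i 3 = a then 1 else 0)

theorem j493_crossing {T : Gluing N} (θ : NormalCurve T) (j : Fin N) (v a : Fin 4) :
    θ.crossing j v a = j493_ex θ j v a - j493_en θ j v a := by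
  unfold NormalCurve.crossing j493_ex j493_en
  rw [Finset.sum_sub_distrib]

theorem j493_en_glue {T : Gluing N} (θ : NormalCurve T) (k : Fin N) (x b : Fin 4) :
    j493_en θ (T.adj k b) (T.glue k b x) (T.glue k b b) = j493_ex θ k x b := by
  unfold j493_en j493_ex
  rw [← θ.sum_shift (fun t s => if t = T.adj k b ∧ s 0 = T.glue k b x ∧
    s 3 = T.glue k b b then (1 : ℤ) else 0)]
  refine Finset.sum_congr rfl fun i _ => ?_
  have key : (θ.tet (i + 1) = T.adj k b ∧ θ.arc (i + 1) 0 = T.glue k b x ∧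
      θ.arc (i + 1) 3 = T.glue k b b) ↔ (θ.tet i = k ∧ θ.arc i 0 = x ∧ θ.arc i 2 = b) := by
    have h1 := T.side_iff (T.adj k b) (T.glue k b b) (θ.tet i) (θ.arc i 2)
    rw [T.adj_adj, T.glue_apply_glue] at h1
    rw [θ.tet_succ, θ.enter_succ, θ.vertex_succ]
    constructor
    · rintro ⟨h2, h3, h4⟩
      obtain ⟨h5, h6⟩ := h1.1 ⟨h2, h4⟩
      rw [h5, h6] at h3
      exact ⟨h5, (T.glue k b).injective h3, h6⟩
    · rintro ⟨h2, h3, h4⟩
      rw [h2, h3, h4]
      exact ⟨rfl, rfl, rfl⟩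
  simp only [key]

theorem j493_ex_glue {T : Gluing N} (θ : NormalCurve T) (j : Fin N) (v a : Fin 4) :
    j493_ex θ (T.adj j a) (T.glue j a v) (T.glue j a a) = j493_en θ j v a := by
  have h := j493_en_glue θ (T.adj j a) (T.glue j a v) (T.glue j a a)
  rw [T.adj_adj, T.glue_apply_glue, T.glue_apply_glue] at h
  exact h.symm

theorem j493_ex_diag {T : Gluing N} (θ : NormalCurve T) (j : Fin N) (a : Fin 4) :
    j493_ex θ j a a = 0 := by
  unfold j493_ex
  refine Finset.sum_eq_zero fun i _ => ?_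
  have h2 : ¬ (θ.tet i = j ∧ θ.arc i 0 = a ∧ θ.arc i 2 = a) := by
    rintro ⟨-, h1, h2⟩
    exact absurd ((θ.arc i).injective (h1.trans h2.symm)) (by decide)
  rw [if_neg h2]

/-- The intersection number with a curve is the sum of the jumps at the exits. -/
theorem j493_inter {K : Type} [CommRing K] (T : Gluing N) (φ : Fin (2 * N) → Fin N × Fin 4)
    (hφ : IsFaceChoice T φ) (η : Fin N → Fin 4 → Fin 4 → K) (hη : IsFlow T η)
    (hdiv : ∀ j v, ∑ a, η j v a = 0) (θ : NormalCurve T) :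
    res φ η ⬝ᵥ (cuspΩ T φ).map (Int.cast : ℤ → K) *ᵥ
        (res φ fun j v a => (θ.crossing j v a : K)) =
      ∑ i ∈ Finset.range θ.len, jump T η (θ.tet i) (θ.arc i 0) (θ.arc i 2) := by
  rw [dot_res T φ hφ η hη]
  have hp := pairing T φ hφ (fun j v a => (j493_ex θ j v a : K) * jump T η j v a)
    (fun j a => by rw [j493_ex_diag]; simp)
  have hl : ∑ j, ∑ v, ∑ a, (j493_ex θ j v a : K) * jump T η j v a =
      ∑ i ∈ Finset.range θ.len, jump T η (θ.tet i) (θ.arc i 0) (θ.arc i 2) := by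
    unfold j493_ex
    push_cast
    simp only [Finset.sum_mul]
    have step : ∀ j v a, ∑ i ∈ Finset.range θ.len,
        (if θ.tet i = j ∧ θ.arc i 0 = v ∧ θ.arc i 2 = a then (1 : K) else 0) * jump T η j v a =
        ∑ i ∈ Finset.range θ.len,
        (if θ.tet i = j then if θ.arc i 0 = v then if θ.arc i 2 = a then
          jump T η j v a else 0 else 0 else 0) := by
      intro j v a
      refine Finset.sum_congr rfl fun i _ => ?_
      by_cases g1 : θ.tet i = j <;> by_cases g2 : θ.arc i 0 = v <;>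
        by_cases g3 : θ.arc i 2 = a <;> simp [g1, g2, g3]
    simp only [step]
    simp only [fun j v => Finset.sum_comm (s := (Finset.univ : Finset (Fin 4)))
      (t := Finset.range θ.len) (f := fun a i => (if θ.tet i = j then if θ.arc i 0 = v then
        if θ.arc i 2 = a then jump T η j v a else 0 else 0 else 0))]
    simp only [fun j => Finset.sum_comm (s := (Finset.univ : Finset (Fin 4)))
      (t := Finset.range θ.len) (f := fun v i => ∑ a, (if θ.tet i = j then if θ.arc i 0 = v then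
        if θ.arc i 2 = a then jump T η j v a else 0 else 0 else 0))]
    rw [Finset.sum_comm]
    refine Finset.sum_congr rfl fun i _ => ?_
    rw [Finset.sum_eq_single (θ.tet i) (fun b _ hb => by simp [Ne.symm hb])
      (fun h => absurd (Finset.mem_univ _) h)]
    rw [Finset.sum_eq_single (θ.arc i 0) (fun b _ hb => by simp [Ne.symm hb])
      (fun h => absurd (Finset.mem_univ _) h)]
    rw [Finset.sum_eq_single (θ.arc i 2) (fun b _ hb => by simp [Ne.symm hb])
      (fun h => absurd (Finset.mem_univ _) h)]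
    simp
  rw [← hl, hp]
  refine Finset.sum_congr rfl fun x _ => ?_
  rw [j493_ex_glue, j493_jump_anti T η hη hdiv _ (sv φ x) _ (Fin.succAbove_ne _ _)]
  have hc := j493_crossing θ (φ x.1).1 (sv φ x) (φ x.1).2
  unfold res
  beta_reduce
  rw [hc]
  push_cast
  ring

/-- The difference between two successive passages. -/
theorem j493_step {T : Gluing N} {z : Fin N → ℂ} {A P : Fin N → Fin 4 → Mat2}
    {s : Fin N → Fin 4 → ℂ} (H : Setup T z A P s) (θ : NormalCurve T) (i : ℕ) :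
    (∑ u, rdec (z (θ.tet i)) (s (θ.tet i)) (θ.arc i 0) (θ.arc i 1) (θ.arc i 3) u) -
      (∑ u, rdec (z (θ.tet (i + 1))) (s (θ.tet (i + 1))) (θ.arc (i + 1) 0) (θ.arc (i + 1) 1)
        (θ.arc (i + 1) 2) u) =
      -2 * (jump T (disFlow z s) (θ.tet i) (θ.arc i 0) (θ.arc i 2) -
        (pot (disFlow z s (θ.tet i) (θ.arc i 0)) (θ.arc i 0) (θ.arc i 1) -
          pot (disFlow z s (θ.tet (i + 1)) (θ.arc (i + 1) 0)) (θ.arc (i + 1) 0)
            (θ.arc (i + 1) 1))) := by
  have hflow := disFlow_isFlow H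
  have hdiv := disFlow_sum H.h0 H.h1 H.hs
  rw [j493_jump_perm T (disFlow z s) hflow hdiv]
  have e0 := θ.vertex_succ i
  have e3 := θ.enter_succ i
  have et := θ.tet_succ i
  generalize θ.tet (i + 1) = j' at *
  generalize θ.arc (i + 1) = σ' at *
  generalize θ.arc i = σ at *
  generalize θ.tet i = j at *
  subst et
  have n01 : σ 0 ≠ σ 1 := fun h' => absurd (σ.injective h') (by decide)
  have n02 : σ 0 ≠ σ 2 := fun h' => absurd (σ.injective h') (by decide)
  have n03 : σ 0 ≠ σ 3 := fun h' => absurd (σ.injective h') (by decide)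
  have n12 : σ 1 ≠ σ 2 := fun h' => absurd (σ.injective h') (by decide)
  have n13 : σ 1 ≠ σ 3 := fun h' => absurd (σ.injective h') (by decide)
  have n23 : σ 3 ≠ σ 2 := fun h' => absurd (σ.injective h') (by decide)
  set p := T.glue j (σ 2) with hp
  have q01 : p (σ 0) ≠ p (σ 1) := p.injective.ne n01
  have q03 : p (σ 0) ≠ p (σ 3) := p.injective.ne n03
  have q13 : p (σ 1) ≠ p (σ 3) := p.injective.ne n13
  -- `{σ' 1, σ' 2} = {p (σ 1), p (σ 3)}`
  have hcases : (σ' 1 = p (σ 1) ∧ σ' 2 = p (σ 3)) ∨ (σ' 1 = p (σ 3) ∧ σ' 2 = p (σ 1)) := by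
    have four : ∀ τ : Equiv.Perm (Fin 4), τ 0 = 0 → τ 3 = 2 →
        (τ 1 = 1 ∧ τ 2 = 3) ∨ (τ 1 = 3 ∧ τ 2 = 1) := by decide
    have := four ((p * σ)⁻¹ * σ') (by
      rw [Equiv.Perm.mul_apply, e0, Equiv.Perm.inv_eq_iff_eq]
      rfl) (by
      rw [Equiv.Perm.mul_apply, e3, Equiv.Perm.inv_eq_iff_eq]
      rfl)
    simpa only [Equiv.Perm.mul_apply, Equiv.Perm.inv_eq_iff_eq] using this
  have d1 : dis (z (T.adj j (σ 2))) (s (T.adj j (σ 2))) (p (σ 0)) (p (σ 1)) (p (σ 3)) =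
      dis (z j) (s j) (σ 0) (σ 1) (σ 3) := H.dis_glue j n02 n12 n23 n01 n03
  have d2 : dis (z (T.adj j (σ 2))) (s (T.adj j (σ 2))) (p (σ 1)) (p (σ 0)) (p (σ 3)) =
      dis (z j) (s j) (σ 1) (σ 0) (σ 3) := H.dis_glue j n12 n02 n23 n01.symm n13
  have d3 : dis (z (T.adj j (σ 2))) (s (T.adj j (σ 2))) (p (σ 3)) (p (σ 0)) (p (σ 1)) =
      dis (z j) (s j) (σ 3) (σ 0) (σ 1) := H.dis_glue j n23 n02 n12 n03.symm n13.symm
  rcases hcases with ⟨f1, f2⟩ | ⟨f1, f2⟩
  · rw [e0, f1, f2, sum_rdec _ _ n01 n03 n13, sum_rdec _ _ q01 q03 q13, d2, d3,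
      dis_antisymm _ _ (p (σ 0)) (p (σ 1)) (p (σ 3)), d1, dis_antisymm _ _ (σ 0) (σ 1) (σ 3)]
    ring
  · rw [e0, f1, f2, sum_rdec _ _ n01 n03 n13, sum_rdec _ _ q03 q01 q13.symm, d2, d3, d1,
      dis_antisymm _ _ (σ 0) (σ 1) (σ 3)]
    have := j493_pot_dis H.h0 H.h1 H.hs (T.adj j (σ 2)) q01 q03 q13
    rw [d1] at this
    linear_combination 2 * this

/-- TARGET -/
theorem curve_identity {T : Gluing N} {z : Fin N → ℂ} {A P : Fin N → Fin 4 → Mat2}
    {s : Fin N → Fin 4 → ℂ} (H : Setup T z A P s) (φ : Fin (2 * N) → Fin N × Fin 4)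
    (hφ : IsFaceChoice T φ) (θ : NormalCurve T) :
    (∑ t : Fin N × Fin 4, (∑ k, (θ.C k t.1 : ℂ) * zeta (z t.1) k) *
        kvec (z t.1) (s t.1) t.2) ^ 2 =
      4 * (res φ (disFlow z s) ⬝ᵥ (cuspΩ T φ).map (Int.cast : ℤ → ℂ) *ᵥ
        (res φ fun j v a => (θ.crossing j v a : ℂ))) ^ 2 := by
  have hflow := disFlow_isFlow H
  have hdiv := disFlow_sum H.h0 H.h1 H.hs
  rw [j493_inter T φ hφ _ hflow hdiv θ]
  -- the left hand side as a sum over the passages
  have hL : ∑ t : Fin N × Fin 4, (∑ k, (θ.C k t.1 : ℂ) * zeta (z t.1) k) *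
        kvec (z t.1) (s t.1) t.2 =
      ∑ i ∈ Finset.range θ.len,
        ((∑ u, rdec (z (θ.tet i)) (s (θ.tet i)) (θ.arc i 0) (θ.arc i 1) (θ.arc i 3) u) -
        (∑ u, rdec (z (θ.tet i)) (s (θ.tet i)) (θ.arc i 0) (θ.arc i 1) (θ.arc i 2) u)) := by
    have hC : ∀ j, ∑ k, (θ.C k j : ℂ) * zeta (z j) k =
        ∑ i ∈ Finset.range θ.len, (if θ.tet i = j then
          ((Equiv.Perm.sign (θ.arc i) : ℤ) : ℂ) * zeta (z j) (kind (θ.arc i 0) (θ.arc i 1))
          else 0) := by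
      intro j
      unfold NormalCurve.C
      push_cast
      simp only [Finset.sum_mul]
      rw [Finset.sum_comm]
      refine Finset.sum_congr rfl fun i _ => ?_
      by_cases g : θ.tet i = j
      · rw [if_pos g, Finset.sum_eq_single (kind (θ.arc i 0) (θ.arc i 1))
          (fun b _ hb => by rw [if_neg (fun h => hb h.2.symm)]; simp)
          (fun h => absurd (Finset.mem_univ _) h), if_pos ⟨g, rfl⟩]
      · rw [if_neg g]
        refine Finset.sum_eq_zero fun k _ => ?_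
        rw [if_neg (fun h => g h.1)]
        simp
    rw [Fintype.sum_prod_type]
    simp only [hC, Finset.sum_mul]
    simp only [fun j => Finset.sum_comm (s := (Finset.univ : Finset (Fin 4)))
      (t := Finset.range θ.len) (f := fun u i => (if θ.tet i = j then
          ((Equiv.Perm.sign (θ.arc i) : ℤ) : ℂ) * zeta (z j) (kind (θ.arc i 0) (θ.arc i 1))
          else 0) * kvec (z j) (s j) u)]
    rw [Finset.sum_comm]
    refine Finset.sum_congr rfl fun i _ => ?_
    rw [Finset.sum_eq_single (θ.tet i) (fun b _ hb => by simp [Ne.symm hb])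
      (fun h => absurd (Finset.mem_univ _) h), ← Finset.sum_sub_distrib]
    refine Finset.sum_congr rfl fun u _ => ?_
    rw [if_pos rfl, ← j493_local (H.h0 _) (H.h1 _) (s _) (H.hs _) (θ.arc i) u]
    ring
  have hshift : ∑ i ∈ Finset.range θ.len,
      ∑ u, rdec (z (θ.tet i)) (s (θ.tet i)) (θ.arc i 0) (θ.arc i 1) (θ.arc i 2) u =
      ∑ i ∈ Finset.range θ.len, ∑ u, rdec (z (θ.tet (i + 1))) (s (θ.tet (i + 1)))
        (θ.arc (i + 1) 0) (θ.arc (i + 1) 1) (θ.arc (i + 1) 2) u :=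
    (θ.sum_shift (fun t σ => ∑ u, rdec (z t) (s t) (σ 0) (σ 1) (σ 2) u)).symm
  have hpot : ∑ i ∈ Finset.range θ.len,
      pot (disFlow z s (θ.tet (i + 1)) (θ.arc (i + 1) 0)) (θ.arc (i + 1) 0)
        (θ.arc (i + 1) 1) = ∑ i ∈ Finset.range θ.len,
      pot (disFlow z s (θ.tet i) (θ.arc i 0)) (θ.arc i 0) (θ.arc i 1) :=
    θ.sum_shift (fun t σ => pot (disFlow z s t (σ 0)) (σ 0) (σ 1))
  rw [hL, Finset.sum_sub_distrib, hshift, ← Finset.sum_sub_distrib,
    Finset.sum_congr rfl fun i _ => j493_step H θ i, ← Finset.mul_sum, Finset.sum_sub_distrib,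
    Finset.sum_sub_distrib, hpot]
  ring

end Pool.Agent.H15_OneLoop
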