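import Mathlib

/-!
# Squares of determinants of matrices with different index types

`sqdet M = det (Mᵀ M)` is the square of the determinant of `M` for any identification of the row
indices with the column indices.
-/

set_option autoImplicit false

namespace Pool.Agent.H15_OneLoop

open Matrix

/-- The square of the determinant of a matrix whose rows and columns are indexed by different
types of the same size. -/
def sqdet {m n R : Type} [Fintype m] [Fintype n] [DecidableEq n] [CommRing R]
    (M : Matrix m n R) : R :=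
  (Mᵀ * M).det

variable {R : Type} [CommRing R]

theorem sqdet_reindex {m n m' n' : Type} [Fintype m] [Fintype n] [DecidableEq n] [Fintype m']
    [Fintype n'] [DecidableEq n'] (M : Matrix m n R) (e : m' ≃ m) (f : n' ≃ n) :
    sqdet (M.submatrix e f) = sqdet M := by
  unfold sqdet
  rw [Matrix.transpose_submatrix, Matrix.submatrix_mul_equiv, Matrix.det_submatrix_equiv_self]

theorem sqdet_square {n : Type} [Fintype n] [DecidableEq n] (M : Matrix n n R) :
    sqdet M = M.det ^ 2 := by
  unfold sqdet
  rw [Matrix.det_mul, Matrix.det_transpose, sq]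

theorem sqdet_eq {m n : Type} [Fintype m] [Fintype n] [DecidableEq n] (M : Matrix m n R)
    (e : n ≃ m) : sqdet M = (M.submatrix e id).det ^ 2 := by
  rw [← sqdet_square]
  exact (sqdet_reindex M e (Equiv.refl n)).symm

theorem sqdet_eq' {m n : Type} [Fintype m] [DecidableEq m] [Fintype n] [DecidableEq n]
    (M : Matrix m n R) (e : m ≃ n) : sqdet M = (M.submatrix id e).det ^ 2 := by
  rw [← sqdet_square]
  exact (sqdet_reindex M (Equiv.refl m) e).symm

theorem sqdet_mul {m k n : Type} [Fintype m] [Fintype k] [DecidableEq k] [Fintype n]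
    [DecidableEq n] (A : Matrix m k R) (B : Matrix k n R)
    (hmk : Fintype.card m = Fintype.card k) (hkn : Fintype.card k = Fintype.card n) :
    sqdet (A * B) = sqdet A * sqdet B := by
  obtain ⟨e⟩ := Fintype.card_eq.1 hmk
  obtain ⟨f⟩ := Fintype.card_eq.1 hkn
  have h1 : sqdet (A * B) = sqdet ((A.submatrix e.symm id) * (B.submatrix id f)) := by
    rw [← sqdet_reindex (A * B) e.symm f]
    congr 1
  have h2 : sqdet A = sqdet (A.submatrix e.symm id) :=
    (sqdet_reindex A e.symm (Equiv.refl k)).symm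
  have h3 : sqdet B = sqdet (B.submatrix id f) :=
    (sqdet_reindex B (Equiv.refl k) f).symm
  rw [h1, h2, h3, sqdet_square, sqdet_square, sqdet_square, Matrix.det_mul, mul_pow]

theorem sqdet_fromBlocks_zero₂₁ {m₁ m₂ n₁ n₂ : Type} [Fintype m₁] [Fintype m₂] [Fintype n₁]
    [Fintype n₂] [DecidableEq n₁] [DecidableEq n₂] (A : Matrix m₁ n₁ R) (B : Matrix m₁ n₂ R)
    (D : Matrix m₂ n₂ R) (h₁ : Fintype.card m₁ = Fintype.card n₁)
    (h₂ : Fintype.card m₂ = Fintype.card n₂) :
    sqdet (fromBlocks A B 0 D) = sqdet A * sqdet D := by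
  obtain ⟨e⟩ := Fintype.card_eq.1 h₁
  obtain ⟨f⟩ := Fintype.card_eq.1 h₂
  have h1 : sqdet (fromBlocks A B 0 D) = sqdet (fromBlocks (A.submatrix e.symm id)
      (B.submatrix e.symm id) 0 (D.submatrix f.symm id)) := by
    rw [← sqdet_reindex (fromBlocks A B 0 D) (Equiv.sumCongr e.symm f.symm)
      (Equiv.refl (n₁ ⊕ n₂))]
    congr 1
    ext i j
    rcases i with i | i <;> rcases j with j | j <;> simp
  have h2 : sqdet A = sqdet (A.submatrix e.symm id) :=
    (sqdet_reindex A e.symm (Equiv.refl n₁)).symm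
  have h3 : sqdet D = sqdet (D.submatrix f.symm id) :=
    (sqdet_reindex D f.symm (Equiv.refl n₂)).symm
  rw [h1, h2, h3, sqdet_square, sqdet_square, sqdet_square, Matrix.det_fromBlocks_zero₂₁,
    mul_pow]

theorem sqdet_fromBlocks_zero₁₂ {m₁ m₂ n₁ n₂ : Type} [Fintype m₁] [Fintype m₂] [Fintype n₁]
    [Fintype n₂] [DecidableEq n₁] [DecidableEq n₂] (A : Matrix m₁ n₁ R) (C : Matrix m₂ n₁ R)
    (D : Matrix m₂ n₂ R) (h₁ : Fintype.card m₁ = Fintype.card n₁)
    (h₂ : Fintype.card m₂ = Fintype.card n₂) :
    sqdet (fromBlocks A 0 C D) = sqdet A * sqdet D := by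
  obtain ⟨e⟩ := Fintype.card_eq.1 h₁
  obtain ⟨f⟩ := Fintype.card_eq.1 h₂
  have h1 : sqdet (fromBlocks A 0 C D) = sqdet (fromBlocks (A.submatrix e.symm id)
      0 (C.submatrix f.symm id) (D.submatrix f.symm id)) := by
    rw [← sqdet_reindex (fromBlocks A 0 C D) (Equiv.sumCongr e.symm f.symm)
      (Equiv.refl (n₁ ⊕ n₂))]
    congr 1
    ext i j
    rcases i with i | i <;> rcases j with j | j <;> simp
  have h2 : sqdet A = sqdet (A.submatrix e.symm id) :=
    (sqdet_reindex A e.symm (Equiv.refl n₁)).symm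
  have h3 : sqdet D = sqdet (D.submatrix f.symm id) :=
    (sqdet_reindex D f.symm (Equiv.refl n₂)).symm
  rw [h1, h2, h3, sqdet_square, sqdet_square, sqdet_square, Matrix.det_fromBlocks_zero₁₂,
    mul_pow]

/-- Block diagonal matrices. -/
theorem sqdet_blockDiagonal {o m n : Type} [Fintype o] [DecidableEq o] [Fintype m] [Fintype n]
    [DecidableEq n] (M : o → Matrix m n R) (h : Fintype.card m = Fintype.card n) :
    sqdet (blockDiagonal M) = ∏ k, sqdet (M k) := by
  unfold sqdet
  rw [Matrix.blockDiagonal_transpose, ← Matrix.blockDiagonal_mul, Matrix.det_blockDiagonal]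

theorem sqdet_map {S : Type} [CommRing S] (f : R →+* S) {m n : Type} [Fintype m] [Fintype n]
    [DecidableEq n] (M : Matrix m n R) : sqdet (M.map f) = f (sqdet M) := by
  unfold sqdet
  rw [RingHom.map_det, RingHom.mapMatrix_apply, Matrix.map_mul, Matrix.transpose_map]

end Pool.Agent.H15_OneLoop
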