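import Pool.Agent.H15_OneLoop.Local
import Pool.Agent.H15_OneLoop.SqDet

/-!
# The cellular chain complex of the cusp torus: definitions

The `1`-cells dual to the triangulation of the cusp cross section are indexed by
`Fin (2 * N) × Fin 3`: the pair `(F, i)` is the side on the face `F` of the triangle `(j, v)`,
where `(j, a) = φ F` is the chosen side of the face `F` and `v = a.succAbove i`.
-/

set_option autoImplicit false

namespace Pool.Agent.H15_OneLoop

open Matrix

variable {N : ℕ}

/-- An antisymmetric function on the directed sides of the triangles of the cusp: `η j v a` is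
the value on the side of the triangle `(j, v)` on the face opposite to `a`, directed out of the
triangle. -/
structure IsFlow {K : Type} [AddCommGroup K] (T : Gluing N)
    (η : Fin N → Fin 4 → Fin 4 → K) : Prop where
  diag : ∀ j a, η j a a = 0
  anti : ∀ j v a, v ≠ a → η (T.adj j a) (T.glue j a v) (T.glue j a a) = -η j v a

/-- The vertex `v` of the chosen triangle of the `1`-cell `x`. -/
def sv (φ : Fin (2 * N) → Fin N × Fin 4) (x : Fin (2 * N) × Fin 3) : Fin 4 :=
  (φ x.1).2.succAbove x.2

/-- The values of a function on directed sides at the chosen sides. -/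
def res {K : Type} (φ : Fin (2 * N) → Fin N × Fin 4) (η : Fin N → Fin 4 → Fin 4 → K) :
    Fin (2 * N) × Fin 3 → K :=
  fun x => η (φ x.1).1 (sv φ x) (φ x.1).2

/-- Corners of triangles of the cusp (that is, oriented edges of tetrahedra) which are glued to
each other. -/
inductive Gluing.CornerStep (T : Gluing N) :
    Fin N × Fin 4 × Fin 4 → Fin N × Fin 4 × Fin 4 → Prop
  | cross (j : Fin N) (a v w : Fin 4) (hv : v ≠ a) (hw : w ≠ a) (hvw : v ≠ w) :
      CornerStep T (j, v, w) (T.adj j a, T.glue j a v, T.glue j a w)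

/-- `cls` numbers the vertices of the triangulation of the cusp, that is, the classes of
corners. -/
structure IsCornerClass {I : Type} (T : Gluing N) (cls : Fin N → Fin 4 → Fin 4 → I) : Prop where
  glue : ∀ j a v w, v ≠ a → w ≠ a → v ≠ w →
    cls (T.adj j a) (T.glue j a v) (T.glue j a w) = cls j v w
  conn : ∀ {j : Fin N} {v w : Fin 4} {k : Fin N} {x y : Fin 4}, v ≠ w → x ≠ y →
    cls j v w = cls k x y → Relation.EqvGen T.CornerStep (j, v, w) (k, x, y)
  surj : ∀ c, ∃ j v w, v ≠ w ∧ cls j v w = c

/-- The boundary of dual `1`-chains. -/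
def cuspD₁ (T : Gluing N) (φ : Fin (2 * N) → Fin N × Fin 4) :
    Matrix (Fin N × Fin 4) (Fin (2 * N) × Fin 3) ℤ :=
  fun t x =>
    (if (T.adj (φ x.1).1 (φ x.1).2, T.glue (φ x.1).1 (φ x.1).2 (sv φ x)) = t then 1 else 0) -
      (if ((φ x.1).1, sv φ x) = t then 1 else 0)

/-- The boundary of dual `2`-chains. -/
def cuspD₂ {I : Type} [DecidableEq I] (φ : Fin (2 * N) → Fin N × Fin 4)
    (cls : Fin N → Fin 4 → Fin 4 → I) : Matrix (Fin (2 * N) × Fin 3) I ℤ :=
  fun x c =>
    (if cls (φ x.1).1 (sv φ x) (lft (sv φ x) (φ x.1).2) = c then 1 else 0) -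
      (if cls (φ x.1).1 (sv φ x) (rgt (sv φ x) (φ x.1).2) = c then 1 else 0)

/-- The base corner of the triangles at the vertex `v`. -/
def bc : Fin 4 → Fin 4 := ![1, 0, 0, 0]

/-- The potential, at the corner `w` of a triangle at the vertex `v`, of a cocycle `η` in this
triangle (`η a` is the value of the cocycle on the side on the face opposite to `a`, directed from
the corner `rgt v a` to the corner `lft v a`). It vanishes at the base corner. -/
def pot {K : Type} [AddCommGroup K] (η : Fin 4 → K) (v w : Fin 4) : K :=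
  ∑ a, ((if a ≠ v ∧ lft v a = w ∧ rgt v a = bc v then η a else 0) -
    (if a ≠ v ∧ rgt v a = w ∧ lft v a = bc v then η a else 0))

/-- The change of the potential of `η` when one leaves the triangle `(j, v)` through its side on
the face opposite to `a`. -/
def jump {K : Type} [AddCommGroup K] (T : Gluing N) (η : Fin N → Fin 4 → Fin 4 → K)
    (j : Fin N) (v a : Fin 4) : K :=
  pot (η j v) v (lft v a) -
    pot (η (T.adj j a) (T.glue j a v)) (T.glue j a v) (T.glue j a (lft v a))

/-- The elementary flow of the `1`-cell `x`. -/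
def elem (T : Gluing N) (φ : Fin (2 * N) → Fin N × Fin 4) (x : Fin (2 * N) × Fin 3) :
    Fin N → Fin 4 → Fin 4 → ℤ :=
  fun j v a => (if ((φ x.1).1, sv φ x, (φ x.1).2) = (j, v, a) then 1 else 0) -
    (if (T.adj (φ x.1).1 (φ x.1).2, T.glue (φ x.1).1 (φ x.1).2 (sv φ x),
      T.glue (φ x.1).1 (φ x.1).2 (φ x.1).2) = (j, v, a) then 1 else 0)

/-- The matrix of the intersection form on `1`-cycles of the cusp torus. -/
def cuspΩ (T : Gluing N) (φ : Fin (2 * N) → Fin N × Fin 4) :
    Matrix (Fin (2 * N) × Fin 3) (Fin (2 * N) × Fin 3) ℤ :=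
  fun x y => jump T (elem T φ x) (φ y.1).1 (sv φ y) (φ y.1).2

end Pool.Agent.H15_OneLoop
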