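import Pool.Agent.H15_OneLoop.Basic

/-!
# The chain complex as a complex of vector spaces
-/

set_option autoImplicit false

namespace Pool.Agent.H15_OneLoop

open Matrix

variable {N : ℕ}

/-- The `0`-chains, with values in the flat bundle of Lie algebras `sl₂(ℂ)`, of the spine dual to
the triangulation, which has a `0`-cell in each tetrahedron, a `1`-cell across each face and a
`2`-cell around each edge: a traceless matrix for each tetrahedron. -/
def chain₀ (N : ℕ) : Submodule ℂ (Fin N → Mat2) where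
  carrier := {u | ∀ j, (u j).trace = 0}
  add_mem' := by
    intro x y hx hy j
    simp [Matrix.trace_add, hx j, hy j]
  zero_mem' := by intro j; simp
  smul_mem' := by
    intro c x hx j
    simp [Matrix.trace_smul, hx j]

/-- The `1`-chains: `y j a` is the coefficient of the `1`-cell leaving the tetrahedron `j` through
the face opposite to `a`, an element of the fibre `sl₂(ℂ)` over tetrahedron `j`. The same `1`-cell
with the reversed orientation leaves `adj j a` through the face opposite to `glue j a a`. -/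
def chain₁ (T : Gluing N) (A : Fin N → Fin 4 → Mat2) :
    Submodule ℂ (Fin N → Fin 4 → Mat2) where
  carrier := {y | (∀ j a, (y j a).trace = 0) ∧
    ∀ j a, y (T.adj j a) (T.glue j a a) = -(A j a * y j a * (A j a)⁻¹)}
  add_mem' := by
    rintro x y ⟨hx, hx'⟩ ⟨hy, hy'⟩
    refine ⟨fun j a => by simp [Matrix.trace_add, hx j a, hy j a], fun j a => ?_⟩
    simp only [Pi.add_apply, hx', hy', Matrix.mul_add, Matrix.add_mul]
    abel
  zero_mem' := by constructor <;> intros <;> simp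
  smul_mem' := by
    rintro c x ⟨hx, hx'⟩
    refine ⟨fun j a => by simp [Matrix.trace_smul, hx j a], fun j a => ?_⟩
    simp only [Pi.smul_apply, hx', Matrix.mul_smul, Matrix.smul_mul, smul_neg]

/-- The `2`-chains: for each oriented edge of the triangulation a parallel section of the bundle
over the `2`-cell around it. Its value in the fibre over the tetrahedron `j`, at the edge of `j`
from `v` to `w`, is `x j v w`. -/
def chain₂ (T : Gluing N) (A : Fin N → Fin 4 → Mat2) :
    Submodule ℂ (Fin N → Fin 4 → Fin 4 → Mat2) where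
  carrier := {x | (∀ j v w, (x j v w).trace = 0) ∧ (∀ j v w, x j w v = -x j v w) ∧
    ∀ j a v w, v ≠ a → w ≠ a →
      x (T.adj j a) (T.glue j a v) (T.glue j a w) = A j a * x j v w * (A j a)⁻¹}
  add_mem' := by
    rintro x y ⟨hx, hx', hx''⟩ ⟨hy, hy', hy''⟩
    refine ⟨fun j v w => by simp [Matrix.trace_add, hx j v w, hy j v w], fun j v w => ?_,
      fun j a v w hv hw => ?_⟩
    · simp only [Pi.add_apply, hx' j v w, hy' j v w]
      abel
    · simp only [Pi.add_apply, hx'' j a v w hv hw, hy'' j a v w hv hw, Matrix.mul_add,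
        Matrix.add_mul]
  zero_mem' := by refine ⟨?_, ?_, ?_⟩ <;> intros <;> simp
  smul_mem' := by
    rintro c x ⟨hx, hx', hx''⟩
    refine ⟨fun j v w => by simp [Matrix.trace_smul, hx j v w], fun j v w => ?_,
      fun j a v w hv hw => ?_⟩
    · simp only [Pi.smul_apply, hx' j v w, smul_neg]
    · simp only [Pi.smul_apply, hx'' j a v w hv hw, Matrix.mul_smul, Matrix.smul_mul]

theorem evenAt_glue (T : Gluing N) (A : Fin N → Fin 4 → Mat2)
    (x : Fin N → Fin 4 → Fin 4 → Mat2) (hx : x ∈ chain₂ T A) (j : Fin N) (a : Fin 4) :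
    ∑ σ ∈ evenAt (T.glue j a a), x (T.adj j a) (σ 0) (σ 1) =
      -(A j a * (∑ σ ∈ evenAt a, x j (σ 0) (σ 1)) * (A j a)⁻¹) := by
  obtain ⟨-, hx', hx''⟩ := hx
  rw [Matrix.mul_sum, Matrix.sum_mul, ← Finset.sum_neg_distrib]
  symm
  refine Finset.sum_bij'
    (i := fun σ _ => T.glue j a * σ * Equiv.swap 0 1)
    (j := fun σ _ => (T.glue j a)⁻¹ * σ * Equiv.swap 0 1) ?_ ?_ ?_ ?_ ?_
  · intro σ hσ
    simp only [evenAt, Finset.mem_filter, Finset.mem_univ, true_and] at hσ ⊢
    refine ⟨?_, ?_⟩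
    · rw [Equiv.Perm.sign_mul, Equiv.Perm.sign_mul, hσ.1, T.odd,
        Equiv.Perm.sign_swap (by decide)]
      decide
    · rw [Equiv.Perm.mul_apply, Equiv.Perm.mul_apply,
        Equiv.swap_apply_of_ne_of_ne (by decide) (by decide), hσ.2]
  · intro σ hσ
    simp only [evenAt, Finset.mem_filter, Finset.mem_univ, true_and] at hσ ⊢
    refine ⟨?_, ?_⟩
    · rw [Equiv.Perm.sign_mul, Equiv.Perm.sign_mul, hσ.1, Equiv.Perm.sign_inv, T.odd,
        Equiv.Perm.sign_swap (by decide)]
      decide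
    · rw [Equiv.Perm.mul_apply, Equiv.Perm.mul_apply,
        Equiv.swap_apply_of_ne_of_ne (by decide) (by decide), hσ.2]
      simp
  · intro σ _
    ext i
    simp
  · intro σ _
    ext i
    simp
  · intro σ hσ
    simp only [evenAt, Finset.mem_filter, Finset.mem_univ, true_and] at hσ
    have h0 : (T.glue j a * σ * Equiv.swap (0 : Fin 4) 1) 0 = T.glue j a (σ 1) := by simp
    have h1 : (T.glue j a * σ * Equiv.swap (0 : Fin 4) 1) 1 = T.glue j a (σ 0) := by simp
    have e0 : σ 0 ≠ a := by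
      rw [← hσ.2]; exact fun h => absurd (σ.injective h) (by decide)
    have e1 : σ 1 ≠ a := by
      rw [← hσ.2]; exact fun h => absurd (σ.injective h) (by decide)
    rw [h0, h1, hx'' j a _ _ e1 e0, hx' j (σ 0) (σ 1)]
    simp only [Matrix.mul_neg, Matrix.neg_mul]

/-- The boundary of `2`-chains: the `2`-cell of an oriented edge crosses each of the faces which
contain the edge, in the positive direction around the edge. -/
def bd₂ (T : Gluing N) (A : Fin N → Fin 4 → Mat2) : chain₂ T A →ₗ[ℂ] chain₁ T A where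
  toFun x := ⟨fun j a => ∑ σ ∈ evenAt a, x.1 j (σ 0) (σ 1), by
    refine ⟨fun j a => ?_, fun j a => evenAt_glue T A x.1 x.2 j a⟩
    rw [Matrix.trace_sum]
    exact Finset.sum_eq_zero fun σ _ => x.2.1 j _ _⟩
  map_add' x y := by
    ext j a
    simp [Finset.sum_add_distrib]
  map_smul' c x := by
    ext j a
    simp [Finset.mul_sum, Matrix.sum_apply]

/-- The boundary of `1`-chains. -/
def bd₁ (T : Gluing N) (A : Fin N → Fin 4 → Mat2) : chain₁ T A →ₗ[ℂ] chain₀ N where
  toFun y := ⟨fun j => -∑ a, y.1 j a, by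
    intro j
    rw [Matrix.trace_neg, Matrix.trace_sum, Finset.sum_eq_zero fun a _ => y.2.1 j a, neg_zero]⟩
  map_add' x y := by
    ext j a
    simp [Finset.sum_add_distrib, Matrix.sum_apply]
    ring
  map_smul' c x := by
    ext j a
    simp [Finset.mul_sum, Matrix.sum_apply]

/-! ### Porti's bases of the homology -/

/-- The `2`-cycle `[∂M] ⊗ P`: the fundamental class of the cusp torus, with coefficient `P`. The
`2`-cell of the oriented edge from `v` to `w` is covered by the dual `2`-cell of the torus at its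
end `v` in the positive and by the one at its end `w` in the negative direction. -/
def classTwo {T : Gluing N} {A P : Fin N → Fin 4 → Mat2} (hP : IsCuspInvariant T A P) :
    chain₂ T A :=
  ⟨fun j v w => P j v - P j w, by
    refine ⟨fun j v w => ?_, fun j v w => ?_, fun j a v w hv hw => ?_⟩
    · rw [Matrix.trace_sub, hP.trace_eq, hP.trace_eq, sub_zero]
    · exact (neg_sub _ _).symm
    · simp only []
      rw [hP.parallel j a v hv, hP.parallel j a w hw, Matrix.mul_sub, Matrix.sub_mul]⟩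

theorem sum_range_shift {M : Type} [AddCommMonoid M] (g : ℕ → M) (n : ℕ)
    (h : g n = g 0) : ∑ i ∈ Finset.range n, g (i + 1) = ∑ i ∈ Finset.range n, g i := by
  cases n with
  | zero => simp
  | succ n => rw [Finset.sum_range_succ, Finset.sum_range_succ', h]

theorem Gluing.glue_apply_glue (T : Gluing N) (j : Fin N) (a v : Fin 4) :
    T.glue (T.adj j a) (T.glue j a a) (T.glue j a v) = v := by
  rw [T.glue_glue]; simp

/-- `(j, a)` and `(adj j a, glue j a a)` are the two sides of one face. -/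
theorem Gluing.side_iff (T : Gluing N) (j : Fin N) (a : Fin 4) (k : Fin N) (b : Fin 4) :
    (T.adj k b = j ∧ T.glue k b b = a) ↔ (k = T.adj j a ∧ b = T.glue j a a) := by
  constructor
  · rintro ⟨rfl, rfl⟩
    refine ⟨(T.adj_adj k b).symm, (T.glue_apply_glue k b b).symm⟩
  · rintro ⟨rfl, rfl⟩
    exact ⟨T.adj_adj j a, T.glue_apply_glue j a a⟩

theorem NormalCurve.sum_shift {T : Gluing N} (θ : NormalCurve T) {M : Type} [AddCommMonoid M]
    (g : Fin N → Equiv.Perm (Fin 4) → M) :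
    ∑ i ∈ Finset.range θ.len, g (θ.tet (i + 1)) (θ.arc (i + 1)) =
      ∑ i ∈ Finset.range θ.len, g (θ.tet i) (θ.arc i) := by
  refine sum_range_shift (fun i => g (θ.tet i) (θ.arc i)) θ.len ?_
  have h1 := θ.tet_period 0
  have h2 := θ.arc_period 0
  rw [Nat.zero_add] at h1 h2
  simp only [h1, h2]

theorem classOne_enter {T : Gluing N} {A P : Fin N → Fin 4 → Mat2} (hP : IsCuspInvariant T A P)
    (θ : NormalCurve T) (j : Fin N) (a : Fin 4) :
    ∑ i ∈ Finset.range θ.len, (if θ.tet i = T.adj j a ∧ θ.arc i 3 = T.glue j a a then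
      P (θ.tet i) (θ.arc i 0) else 0) = A j a * (∑ i ∈ Finset.range θ.len,
      (if θ.tet i = j ∧ θ.arc i 2 = a then P (θ.tet i) (θ.arc i 0) else 0)) * (A j a)⁻¹ := by
  rw [← θ.sum_shift (fun t s => if t = T.adj j a ∧ s 3 = T.glue j a a then P t (s 0) else 0),
    Matrix.mul_sum, Matrix.sum_mul]
  refine Finset.sum_congr rfl fun i _ => ?_
  have key : (θ.tet (i + 1) = T.adj j a ∧ θ.arc (i + 1) 3 = T.glue j a a) ↔
      (θ.tet i = j ∧ θ.arc i 2 = a) := by
    rw [θ.tet_succ, θ.enter_succ, T.side_iff, T.adj_adj, T.glue_apply_glue]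
  by_cases h : θ.tet i = j ∧ θ.arc i 2 = a
  · rw [if_pos h, if_pos (key.2 h), θ.tet_succ, θ.vertex_succ]
    have hne : θ.arc i 0 ≠ θ.arc i 2 := fun h => absurd ((θ.arc i).injective h) (by decide)
    rw [hP.parallel _ _ _ hne, h.1, h.2]
  · rw [if_neg h, if_neg (fun h' => h (key.1 h'))]
    simp

theorem classOne_exit {T : Gluing N} {A P : Fin N → Fin 4 → Mat2} (hP : IsCuspInvariant T A P)
    (θ : NormalCurve T) (j : Fin N) (a : Fin 4) :
    ∑ i ∈ Finset.range θ.len, (if θ.tet i = T.adj j a ∧ θ.arc i 2 = T.glue j a a then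
      P (θ.tet i) (θ.arc i 0) else 0) = A j a * (∑ i ∈ Finset.range θ.len,
      (if θ.tet i = j ∧ θ.arc i 3 = a then P (θ.tet i) (θ.arc i 0) else 0)) * (A j a)⁻¹ := by
  rw [← θ.sum_shift (fun t s => if t = j ∧ s 3 = a then P t (s 0) else 0),
    Matrix.mul_sum, Matrix.sum_mul]
  refine Finset.sum_congr rfl fun i _ => ?_
  have key : (θ.tet (i + 1) = j ∧ θ.arc (i + 1) 3 = a) ↔
      (θ.tet i = T.adj j a ∧ θ.arc i 2 = T.glue j a a) := by
    rw [θ.tet_succ, θ.enter_succ, T.side_iff]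
  by_cases h : θ.tet i = T.adj j a ∧ θ.arc i 2 = T.glue j a a
  · have h' := key.2 h
    rw [if_pos h, if_pos h', h'.1, h.1]
    have hv := θ.vertex_succ i
    rw [h.1, h.2] at hv
    have hne : θ.arc (i + 1) 0 ≠ a := by
      rw [← h'.2]; exact fun h => absurd ((θ.arc (i + 1)).injective h) (by decide)
    rw [← hP.parallel j a _ hne, hv]
    congr 1
    have := T.glue_apply_glue (T.adj j a) (T.glue j a a) (θ.arc i 0)
    rw [T.adj_adj, T.glue_apply_glue] at this
    exact this.symm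
  · rw [if_neg h, if_neg (fun h' => h (key.1 h'))]
    simp

/-- The `1`-cycle `θ ⊗ P`: the peripheral curve `θ`, with coefficient `P`. -/
def classOne {T : Gluing N} {A P : Fin N → Fin 4 → Mat2} (hP : IsCuspInvariant T A P)
    (θ : NormalCurve T) : chain₁ T A :=
  ⟨fun j a => ∑ i ∈ Finset.range θ.len,
      ((if θ.tet i = j ∧ θ.arc i 2 = a then P (θ.tet i) (θ.arc i 0) else 0) -
        (if θ.tet i = j ∧ θ.arc i 3 = a then P (θ.tet i) (θ.arc i 0) else 0)), by
    refine ⟨fun j a => ?_, fun j a => ?_⟩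
    · rw [Matrix.trace_sum]
      refine Finset.sum_eq_zero fun i _ => ?_
      rw [Matrix.trace_sub]
      split_ifs <;> simp [hP.trace_eq]
    · simp only [Finset.sum_sub_distrib]
      rw [classOne_enter hP θ j a, classOne_exit hP θ j a, Matrix.mul_sub, Matrix.sub_mul,
        neg_sub]⟩

/-! ### Reidemeister torsion -/

/-- `τ` is a value of the Reidemeister torsion of the complex `0 → C₂ → C₁ → C₀ → 0` with
differentials `d₂`, `d₁`, based by the coordinates `c₂`, `c₁`, `c₀` (isomorphisms to coordinate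
spaces), with `H₀ = 0`, `H₁` based by the class of the cycle `h₁` and `H₂` based by the class of
the cycle `h₂`. That is, for some families `b₂` in `C₂` and `b₁` in `C₁` such that `h₂, b₂` is a
basis of `C₂`, `d₂ b₂, h₁, b₁` is a basis of `C₁` and `d₁ b₁` is a basis of `C₀`,
`τ = [d₂ b₂, h₁, b₁ : c₁] / ([h₂, b₂ : c₂] [d₁ b₁ : c₀])`. The bijections `e₂`, `e₁`, `e₀` order
these bases, so that `τ` matters only up to sign. -/
def IsTorsion {C₂ C₁ C₀ ι₂ ι₁ ι₀ : Type} [AddCommGroup C₂] [Module ℂ C₂] [AddCommGroup C₁]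
    [Module ℂ C₁] [AddCommGroup C₀] [Module ℂ C₀] [Fintype ι₂] [DecidableEq ι₂] [Fintype ι₁]
    [DecidableEq ι₁] [Fintype ι₀] [DecidableEq ι₀] (c₂ : C₂ →ₗ[ℂ] ι₂ → ℂ)
    (c₁ : C₁ →ₗ[ℂ] ι₁ → ℂ) (c₀ : C₀ →ₗ[ℂ] ι₀ → ℂ) (d₂ : C₂ →ₗ[ℂ] C₁) (d₁ : C₁ →ₗ[ℂ] C₀)
    (h₂ : C₂) (h₁ : C₁) (τ : ℂ) : Prop :=
  Function.Bijective c₂ ∧ Function.Bijective c₁ ∧ Function.Bijective c₀ ∧
    d₂ h₂ = 0 ∧ d₁ h₁ = 0 ∧ (∀ x, d₁ (d₂ x) = 0) ∧
    ∃ (κ₂ κ₁ : Type) (b₂ : κ₂ → C₂) (b₁ : κ₁ → C₁) (e₂ : ι₂ ≃ Unit ⊕ κ₂)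
      (e₁ : ι₁ ≃ κ₂ ⊕ Unit ⊕ κ₁) (e₀ : ι₀ ≃ κ₁),
      vol c₂ (Sum.elim (fun _ => h₂) b₂ ∘ e₂) ≠ 0 ∧
      vol c₁ (Sum.elim (d₂ ∘ b₂) (Sum.elim (fun _ => h₁) b₁) ∘ e₁) ≠ 0 ∧
      vol c₀ (d₁ ∘ b₁ ∘ e₀) ≠ 0 ∧
      τ = vol c₁ (Sum.elim (d₂ ∘ b₂) (Sum.elim (fun _ => h₁) b₁) ∘ e₁) /
        (vol c₂ (Sum.elim (fun _ => h₂) b₂ ∘ e₂) * vol c₀ (d₁ ∘ b₁ ∘ e₀))

/-- The coordinates on `2`-chains. -/
def coord₂ (T : Gluing N) (A : Fin N → Fin 4 → Mat2) (ε : Fin N → Fin N × Fin 4 × Fin 4) :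
    chain₂ T A →ₗ[ℂ] (Fin N × Fin 3 → ℂ) where
  toFun x p := coord (x.1 (ε p.1).1 (ε p.1).2.1 (ε p.1).2.2) p.2
  map_add' x y := by
    ext ⟨e, i⟩
    fin_cases i <;> simp [coord]
  map_smul' c x := by
    ext ⟨e, i⟩
    fin_cases i <;> simp [coord]

/-- The coordinates on `1`-chains. -/
def coord₁ (T : Gluing N) (A : Fin N → Fin 4 → Mat2) (φ : Fin (2 * N) → Fin N × Fin 4) :
    chain₁ T A →ₗ[ℂ] (Fin (2 * N) × Fin 3 → ℂ) where
  toFun y p := coord (y.1 (φ p.1).1 (φ p.1).2) p.2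
  map_add' x y := by
    ext ⟨e, i⟩
    fin_cases i <;> simp [coord]
  map_smul' c x := by
    ext ⟨e, i⟩
    fin_cases i <;> simp [coord]

/-- The coordinates on `0`-chains. -/
def coord₀ (N : ℕ) : chain₀ N →ₗ[ℂ] (Fin N × Fin 3 → ℂ) where
  toFun u p := coord (u.1 p.1) p.2
  map_add' x y := by
    ext ⟨e, i⟩
    fin_cases i <;> simp [coord]
  map_smul' c x := by
    ext ⟨e, i⟩
    fin_cases i <;> simp [coord]

/-- `τ` is a value of Porti's adjoint torsion of the manifold `M` with the ideal triangulation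
`T`, the holonomy given by the shapes `z`, with respect to the peripheral curve `θ`: the
Reidemeister torsion of the spine of `M` dual to `T`, twisted by the adjoint action of the
holonomy on `sl₂(ℂ)`, with respect to the bases `θ ⊗ P` of `H₁` and `[∂M] ⊗ P` of `H₂`, where `P`
is invariant under the peripheral subgroup. All the choices (of the matrices of the holonomy,
of `P`, of lifts and orientations of the cells and of the auxiliary bases) are arbitrary; `τ` is
well defined up to sign. -/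
def IsAdjointTorsion (T : IdealTriangulation N) (z : Fin N → ℂ) (θ : NormalCurve T.toGluing)
    (τ : ℂ) : Prop :=
  ∃ (A P : Fin N → Fin 4 → Mat2) (_ : IsHolonomy T.toGluing z A)
    (hP : IsCuspInvariant T.toGluing A P) (φ : Fin (2 * N) → Fin N × Fin 4)
    (ε : Fin N → Fin N × Fin 4 × Fin 4),
    IsFaceChoice T.toGluing φ ∧ IsEdgeChoice T ε ∧
      IsTorsion (coord₂ T.toGluing A ε) (coord₁ T.toGluing A φ) (coord₀ N) (bd₂ T.toGluing A)
        (bd₁ T.toGluing A) (classTwo hP) (classOne hP θ) τ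

/-- The statement of the theorem. -/
def Statement : Prop :=
  ∀ {N : ℕ} (T : IdealTriangulation N) (S : CompleteShapes T) (θ : NormalCurve T.toGluing),
    ¬ θ.NullHomologous → ∀ (f : Fin 3 → Fin N → ℤ), IsFlattening T f → ∀ r : Fin N,
      (∃ τ, IsAdjointTorsion T S.z θ τ) ∧
        ∀ τ, IsAdjointTorsion T S.z θ τ →
          τ = oneLoop T S.z θ f r ∨ τ = -oneLoop T S.z θ f r

end Pool.Agent.H15_OneLoop
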