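import Pool.Agent.H15_OneLoop.Defs
import Pool.Agent.H15_OneLoop.SqDet

/-!
# The square of the torsion, computed with a convenient basis of the 2-chains
-/

set_option autoImplicit false

namespace Pool.Agent.H15_OneLoop

open Matrix

/-- The matrix of the coordinates of a family of vectors. -/
def cm {C ι κ : Type} (c : C → ι → ℂ) (x : κ → C) : Matrix ι κ ℂ :=
  Matrix.of fun i k => c (x k) i

theorem vol_sq {C ι κ : Type} [Fintype ι] [DecidableEq ι] [Fintype κ] [DecidableEq κ]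
    (c : C → ι → ℂ) (x : κ → C) (e : ι ≃ κ) : vol c (x ∘ e) ^ 2 = sqdet (cm c x) := by
  rw [sqdet_eq' (cm c x) e]
  rfl

/-- A matrix with nonzero `sqdet` is onto. -/
theorem exists_mulVec_eq {m n : Type} [Fintype m] [DecidableEq m] [Fintype n] [DecidableEq n]
    (M : Matrix m n ℂ) (hc : Fintype.card m = Fintype.card n) (h : sqdet M ≠ 0) (w : m → ℂ) :
    ∃ u, M *ᵥ u = w := by
  obtain ⟨e⟩ := Fintype.card_eq.1 hc
  have hdet : (M.submatrix id e).det ≠ 0 := by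
    intro h0
    apply h
    rw [sqdet_eq' M e, h0]
    ring
  refine ⟨fun k => ((M.submatrix id e)⁻¹ *ᵥ w) (e.symm k), ?_⟩
  have h1 : (M.submatrix id e) *ᵥ ((M.submatrix id e)⁻¹ *ᵥ w) = w := by
    rw [Matrix.mulVec_mulVec, Matrix.mul_nonsing_inv _ hdet.isUnit, Matrix.one_mulVec]
  refine Eq.trans ?_ h1
  ext i
  simp only [Matrix.mulVec, dotProduct, Matrix.submatrix_apply, id]
  rw [← Equiv.sum_comp e]
  simp

theorem torsion_sq {C₂ C₁ C₀ ι₂ ι₁ ι₀ : Type} [AddCommGroup C₂] [Module ℂ C₂] [AddCommGroup C₁]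
    [Module ℂ C₁] [AddCommGroup C₀] [Module ℂ C₀] [Fintype ι₂] [DecidableEq ι₂] [Fintype ι₁]
    [DecidableEq ι₁] [Fintype ι₀] [DecidableEq ι₀] (c₂ : C₂ →ₗ[ℂ] ι₂ → ℂ)
    (c₁ : C₁ →ₗ[ℂ] ι₁ → ℂ) (c₀ : C₀ →ₗ[ℂ] ι₀ → ℂ) (d₂ : C₂ →ₗ[ℂ] C₁) (d₁ : C₁ →ₗ[ℂ] C₀)
    (h₂ : C₂) (h₁ : C₁) (τ : ℂ) (hτ : IsTorsion c₂ c₁ c₀ d₂ d₁ h₂ h₁ τ)
    {κ : Type} [Fintype κ] [DecidableEq κ] (b : κ → C₂)
    (hcard : Fintype.card ι₂ = 1 + Fintype.card κ)
    (hb : sqdet (cm c₂ (Sum.elim (fun _ : Unit => h₂) b)) ≠ 0) :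
    ∃ (κ₁ : Type) (_ : Fintype κ₁) (_ : DecidableEq κ₁) (b₁ : κ₁ → C₁),
      Fintype.card κ₁ = Fintype.card ι₀ ∧
      Fintype.card ι₁ = Fintype.card κ + (1 + Fintype.card κ₁) ∧
      sqdet (cm c₀ (d₁ ∘ b₁)) ≠ 0 ∧
      sqdet (cm c₁ (Sum.elim (d₂ ∘ b) (Sum.elim (fun _ : Unit => h₁) b₁))) ≠ 0 ∧
      τ ^ 2 * (sqdet (cm c₂ (Sum.elim (fun _ : Unit => h₂) b)) *
        sqdet (cm c₀ (d₁ ∘ b₁))) =
        sqdet (cm c₁ (Sum.elim (d₂ ∘ b) (Sum.elim (fun _ : Unit => h₁) b₁))) := by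
  classical
  obtain ⟨hc₂, -, -, hdh, -, -, κ₂, κ₁, b₂, b₁, e₂, e₁, e₀, hD₂, hD₁, hD₀, hτ⟩ := hτ
  have : Finite (Unit ⊕ κ₂) := Finite.of_equiv ι₂ e₂
  have : Finite κ₂ := Finite.of_injective (Sum.inr : κ₂ → Unit ⊕ κ₂) Sum.inr_injective
  have : Fintype κ₂ := Fintype.ofFinite κ₂
  have : Finite κ₁ := Finite.of_equiv ι₀ e₀
  have : Fintype κ₁ := Fintype.ofFinite κ₁
  have cκ₂ : Fintype.card ι₂ = 1 + Fintype.card κ₂ := by
    rw [Fintype.card_congr e₂, Fintype.card_sum, Fintype.card_unit]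
  have cκ : Fintype.card κ = Fintype.card κ₂ := by omega
  have cκ₁ : Fintype.card κ₁ = Fintype.card ι₀ := (Fintype.card_congr e₀).symm
  have cι₁ : Fintype.card ι₁ = Fintype.card κ₂ + (1 + Fintype.card κ₁) := by
    rw [Fintype.card_congr e₁, Fintype.card_sum, Fintype.card_sum, Fintype.card_unit]
  -- squares of the volumes
  have s₂ := vol_sq c₂ (Sum.elim (fun _ : Unit => h₂) b₂) e₂
  have s₁ := vol_sq c₁ (Sum.elim (d₂ ∘ b₂) (Sum.elim (fun _ : Unit => h₁) b₁)) e₁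
  have s₀ := vol_sq c₀ (d₁ ∘ b₁) e₀
  have hτ2 : τ ^ 2 * (sqdet (cm c₂ (Sum.elim (fun _ : Unit => h₂) b₂)) *
        sqdet (cm c₀ (d₁ ∘ b₁))) =
        sqdet (cm c₁ (Sum.elim (d₂ ∘ b₂) (Sum.elim (fun _ : Unit => h₁) b₁))) := by
    rw [← s₂, ← s₁, ← s₀, hτ]
    have := hD₂
    have := hD₀
    rw [Function.comp_assoc]
    field_simp
  have n₂ : sqdet (cm c₂ (Sum.elim (fun _ : Unit => h₂) b₂)) ≠ 0 := by
    rw [← s₂]; exact pow_ne_zero 2 hD₂
  have n₁ : sqdet (cm c₁ (Sum.elim (d₂ ∘ b₂) (Sum.elim (fun _ : Unit => h₁) b₁))) ≠ 0 := by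
    rw [← s₁]; exact pow_ne_zero 2 hD₁
  have n₀ : sqdet (cm c₀ (d₁ ∘ b₁)) ≠ 0 := by
    rw [← s₀]; exact pow_ne_zero 2 hD₀
  -- expansion of `b₂` in the basis `h₂, b`
  have hex : ∀ k : κ₂, ∃ u : Unit ⊕ κ → ℂ,
      cm c₂ (Sum.elim (fun _ : Unit => h₂) b) *ᵥ u = c₂ (b₂ k) := fun k =>
    exists_mulVec_eq _ (by rw [hcard, Fintype.card_sum, Fintype.card_unit]) hb _
  choose u hu using hex
  have hexp : ∀ k, b₂ k = u k (Sum.inl ()) • h₂ + ∑ k', u k (Sum.inr k') • b k' := by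
    intro k
    apply hc₂.1
    rw [← hu k, map_add, map_smul, map_sum]
    ext i
    simp only [Matrix.mulVec, dotProduct, cm, Matrix.of_apply, Fintype.sum_sum_type,
      Sum.elim_inl, Sum.elim_inr, Finset.univ_unique, Finset.sum_singleton, Pi.add_apply,
      Pi.smul_apply, smul_eq_mul, Finset.sum_apply, map_smul]
    congr 1
    · exact mul_comm _ _
    · exact Finset.sum_congr rfl fun k' _ => mul_comm _ _
  let M : Matrix κ κ₂ ℂ := Matrix.of fun k' k => u k (Sum.inr k')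
  let mrow : Matrix Unit κ₂ ℂ := Matrix.of fun _ k => u k (Sum.inl ())
  have hX : cm c₂ (Sum.elim (fun _ : Unit => h₂) b₂) =
      cm c₂ (Sum.elim (fun _ : Unit => h₂) b) * fromBlocks 1 mrow 0 M := by
    ext i k
    rcases k with k | k
    · simp [cm, Matrix.mul_apply, Matrix.one_apply]
    · have := congrFun (hu k) i
      simp only [Matrix.mulVec, dotProduct] at this
      simp only [cm, Matrix.of_apply, Sum.elim_inr, Matrix.mul_apply] at this ⊢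
      rw [← this]
      refine Finset.sum_congr rfl fun l _ => ?_
      rcases l with l | l
      · simp [mrow]
      · simp [M]
  have hZ : cm c₁ (Sum.elim (d₂ ∘ b₂) (Sum.elim (fun _ : Unit => h₁) b₁)) =
      cm c₁ (Sum.elim (d₂ ∘ b) (Sum.elim (fun _ : Unit => h₁) b₁)) *
        fromBlocks M 0 0 (1 : Matrix (Unit ⊕ κ₁) (Unit ⊕ κ₁) ℂ) := by
    ext i k
    rcases k with k | k
    · have h3 : c₁ (d₂ (b₂ k)) = ∑ k', u k (Sum.inr k') • c₁ (d₂ (b k')) := by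
        rw [hexp k, map_add, map_smul, hdh, smul_zero, zero_add, map_sum, map_sum]
        simp only [map_smul]
      simp only [cm, Matrix.of_apply, Sum.elim_inl, Function.comp_apply, Matrix.mul_apply,
        Fintype.sum_sum_type, fromBlocks_apply₁₁, fromBlocks_apply₂₁, Matrix.zero_apply,
        mul_zero, Finset.sum_const_zero, add_zero, Sum.elim_inr]
      rw [h3, Finset.sum_apply]
      simp only [Pi.smul_apply, smul_eq_mul, M, Matrix.of_apply]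
      exact Finset.sum_congr rfl fun k' _ => mul_comm _ _
    · simp [cm, Matrix.mul_apply, Matrix.one_apply]
  have e1 : sqdet (cm c₂ (Sum.elim (fun _ : Unit => h₂) b₂)) =
      sqdet (cm c₂ (Sum.elim (fun _ : Unit => h₂) b)) * sqdet M := by
    rw [hX, sqdet_mul _ _ (by rw [hcard, Fintype.card_sum, Fintype.card_unit])
      (by rw [Fintype.card_sum, Fintype.card_sum, cκ]),
      sqdet_fromBlocks_zero₂₁ _ _ _ rfl cκ, sqdet_square, Matrix.det_one]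
    ring
  have e2 : sqdet (cm c₁ (Sum.elim (d₂ ∘ b₂) (Sum.elim (fun _ : Unit => h₁) b₁))) =
      sqdet (cm c₁ (Sum.elim (d₂ ∘ b) (Sum.elim (fun _ : Unit => h₁) b₁))) * sqdet M := by
    rw [hZ, sqdet_mul _ _ (by rw [cι₁, Fintype.card_sum, Fintype.card_sum, Fintype.card_unit, cκ])
      (by simp only [Fintype.card_sum, cκ]),
      sqdet_fromBlocks_zero₂₁ _ _ _ cκ rfl, sqdet_square (1 : Matrix (Unit ⊕ κ₁) (Unit ⊕ κ₁) ℂ),
      Matrix.det_one]
    ring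
  have nM : sqdet M ≠ 0 := by
    intro h
    rw [h, mul_zero] at e1
    exact n₂ e1
  refine ⟨κ₁, inferInstance, inferInstance, b₁, cκ₁, by rw [cι₁, cκ], n₀, ?_, ?_⟩
  · intro h
    rw [h, zero_mul] at e2
    exact n₁ e2
  · rw [e1, e2] at hτ2
    have : sqdet M * (τ ^ 2 * (sqdet (cm c₂ (Sum.elim (fun _ : Unit => h₂) b)) *
        sqdet (cm c₀ (d₁ ∘ b₁)))) = sqdet M *
        sqdet (cm c₁ (Sum.elim (d₂ ∘ b) (Sum.elim (fun _ : Unit => h₁) b₁))) := by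
      linear_combination hτ2
    exact mul_left_cancel₀ nM this

end Pool.Agent.H15_OneLoop
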