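import Pool.Agent.H15_OneLoop.Reps
import Pool.Agent.H15_OneLoop.TorsionSq

/-!
# The special basis of the 2-chains
-/

set_option autoImplicit false

namespace Pool.Agent.H15_OneLoop

open Matrix

variable {N : ℕ}

/-- The matrix whose columns are the all-ones vector and the unit vectors except one. -/
theorem sqdet_ones {I : Type} [Fintype I] [DecidableEq I] (c₀ : I) :
    sqdet (fromCols (replicateCol Unit (fun _ : I => (1 : ℂ)))
      (Matrix.of fun (i : I) (c : {c // c ≠ c₀}) => if i = (c : I) then (1 : ℂ) else 0)) = 1 := by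
  unfold sqdet
  have hM : (fromCols (replicateCol Unit (fun _ : I => (1 : ℂ)))
      (Matrix.of fun (i : I) (c : {c // c ≠ c₀}) => if i = (c : I) then (1 : ℂ) else 0))ᵀ *
      (fromCols (replicateCol Unit (fun _ : I => (1 : ℂ)))
      (Matrix.of fun (i : I) (c : {c // c ≠ c₀}) => if i = (c : I) then (1 : ℂ) else 0)) =
      fromBlocks (Matrix.of fun _ _ => (Fintype.card I : ℂ)) (Matrix.of fun _ _ => 1)
        (Matrix.of fun _ _ => 1) 1 := by
    ext i j
    rcases i with i | i <;> rcases j with j | j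
    · simp [Matrix.mul_apply]
    · simp [Matrix.mul_apply]
    · simp [Matrix.mul_apply]
    · simp [Matrix.mul_apply, Matrix.one_apply]
      congr 1
      ext
      constructor
      · intro h; exact (Subtype.ext h.symm)
      · intro h; exact congrArg Subtype.val h.symm
  rw [hM, Matrix.det_fromBlocks_one₂₂]
  have hc : (Fintype.card {c // c ≠ c₀} : ℂ) = Fintype.card I - 1 := by
    rw [Fintype.card_subtype_compl, Fintype.card_subtype_eq]
    have : 1 ≤ Fintype.card I := Fintype.card_pos_iff.2 ⟨c₀⟩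
    push_cast [this]
    ring
  rw [Matrix.det_unique]
  simp only [Matrix.sub_apply, Matrix.of_apply, Matrix.mul_apply, mul_one, Finset.sum_const,
    Finset.card_univ, nsmul_eq_mul]
  rw [hc]
  ring

theorem phiTwo_sum {T : Gluing N} {A P : Fin N → Fin 4 → Mat2} (hP : IsCuspInvariant T A P)
    {I : Type} [Fintype I] [DecidableEq I] (cls : Fin N → Fin 4 → Fin 4 → I)
    (hcls : IsCornerClass T cls) (g : I → ℂ) :
    phiTwo hP cls hcls g = ∑ c, g c • phiTwo hP cls hcls (Pi.single c 1) := by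
  ext1
  funext j v w
  rw [Submodule.coe_sum]
  simp only [Submodule.coe_smul]
  simp only [Finset.sum_apply, Pi.smul_apply]
  have h : ∀ c, (phiTwo hP cls hcls (Pi.single c 1)).1 j v w =
      (if cls j v w = c then (1 : ℂ) else 0) • P j v - (if cls j w v = c then (1 : ℂ) else 0) •
        P j w := by
    intro c
    show (Pi.single c (1 : ℂ) : I → ℂ) (cls j v w) • P j v -
      (Pi.single c (1 : ℂ) : I → ℂ) (cls j w v) • P j w = _
    rw [Pi.single_apply, Pi.single_apply]
  simp only [h, smul_sub, smul_smul, Finset.sum_sub_distrib, ← Finset.sum_smul]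
  simp only [mul_ite, mul_one, mul_zero, Finset.sum_ite_eq, Finset.mem_univ, if_true]
  rfl

/-- The order of the columns. -/
def edgeCol (N : ℕ) : Fin 3 × Fin N ≃ (Fin N × Fin 2) ⊕ Fin N where
  toFun x := if x.1 = 0 then Sum.inl (x.2, 0) else if x.1 = 1 then Sum.inl (x.2, 1) else
    Sum.inr x.2
  invFun := Sum.elim (fun c => (c.2.castSucc, c.1)) (fun E => (2, E))
  left_inv := by rintro ⟨i, E⟩; fin_cases i <;> rfl
  right_inv := by
    rintro (⟨E, b⟩ | E)
    · fin_cases b <;> rfl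
    · rfl

theorem edge_sqdet {T : IdealTriangulation N} {z : Fin N → ℂ} {A P : Fin N → Fin 4 → Mat2}
    {s : Fin N → Fin 4 → ℂ} (H : Setup T.toGluing z A P s)
    (ε : Fin N → Fin N × Fin 4 × Fin 4) (hε : IsEdgeChoice T ε)
    (cls : Fin N → Fin 4 → Fin 4 → Fin N × Fin 2) (hcls : IsCornerClass T.toGluing cls)
    (h1 : ∀ j v w, (cls j v w).1 = T.edge j v w)
    (h2 : ∀ e, (cls (ε e).1 (ε e).2.1 (ε e).2.2).2 = 0)
    (h3 : ∀ j v w, v ≠ w → cls j w v = ((cls j v w).1, 1 - (cls j v w).2)) :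
    sqdet (cm (coord₂ T.toGluing A ε)
      (Sum.elim (fun c : Fin N × Fin 2 => phiTwo H.hP cls hcls (Pi.single c 1))
        (fun E => qEdge H E))) =
      ∏ e, (s (ε e).1 (ε e).2.1 * s (ε e).1 (ε e).2.2 *
        mm (z (ε e).1) (ε e).2.1 (ε e).2.2 ^ 2) ^ 2 := by
  have hc1 : ∀ E, cls (ε E).1 (ε E).2.1 (ε E).2.2 = (E, 0) := by
    intro E
    refine Prod.ext ?_ (h2 E)
    rw [h1]
    exact (hε E).2
  have hc2 : ∀ E, cls (ε E).1 (ε E).2.2 (ε E).2.1 = (E, 1) := by
    intro E
    rw [h3 _ _ _ (hε E).1, hc1]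
    rfl
  have hM : (cm (coord₂ T.toGluing A ε)
      (Sum.elim (fun c : Fin N × Fin 2 => phiTwo H.hP cls hcls (Pi.single c 1))
        (fun E => qEdge H E))).submatrix (Equiv.prodComm (Fin 3) (Fin N)) (edgeCol N) =
      blockDiagonal fun E => Matrix.of fun i k => coord ((![s (ε E).1 (ε E).2.1 •
        nilM (pos (z (ε E).1) (ε E).2.1), (-s (ε E).1 (ε E).2.2) •
          nilM (pos (z (ε E).1) (ε E).2.2), rotM (pos (z (ε E).1) (ε E).2.1)
            (pos (z (ε E).1) (ε E).2.2)] : Fin 3 → Mat2) k) i := by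
    ext ⟨i, E⟩ ⟨k, E'⟩
    rw [Matrix.blockDiagonal_apply]
    simp only [Matrix.submatrix_apply, Equiv.prodComm_apply, Prod.swap, cm, Matrix.of_apply]
    show coord _ i = _
    fin_cases k
    · have : (edgeCol N) ((⟨0, by decide⟩ : Fin 3), E') = Sum.inl (E', 0) := rfl
      rw [this, Sum.elim_inl]
      show coord ((Pi.single (E', 0) (1 : ℂ) : Fin N × Fin 2 → ℂ)
        (cls (ε E).1 (ε E).2.1 (ε E).2.2) • P (ε E).1 (ε E).2.1 -
          (Pi.single (E', 0) (1 : ℂ) : Fin N × Fin 2 → ℂ)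
            (cls (ε E).1 (ε E).2.2 (ε E).2.1) • P (ε E).1 (ε E).2.2) i = _
      rw [hc1, hc2, H.hPs, Pi.single_apply, Pi.single_apply]
      by_cases hE : E = E'
      · subst hE
        simp
      · simp [hE, coord_zero]
    · have : (edgeCol N) ((⟨1, by decide⟩ : Fin 3), E') = Sum.inl (E', 1) := rfl
      rw [this, Sum.elim_inl]
      show coord ((Pi.single (E', 1) (1 : ℂ) : Fin N × Fin 2 → ℂ)
        (cls (ε E).1 (ε E).2.1 (ε E).2.2) • P (ε E).1 (ε E).2.1 -
          (Pi.single (E', 1) (1 : ℂ) : Fin N × Fin 2 → ℂ)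
            (cls (ε E).1 (ε E).2.2 (ε E).2.1) • P (ε E).1 (ε E).2.2) i = _
      rw [hc1, hc2, H.hPs _ (ε E).2.2, Pi.single_apply, Pi.single_apply]
      by_cases hE : E = E'
      · subst hE
        simp
      · simp [hE, coord_zero]
    · have : (edgeCol N) ((⟨2, by decide⟩ : Fin 3), E') = Sum.inr E' := rfl
      rw [this, Sum.elim_inr]
      show coord (if T.edge (ε E).1 (ε E).2.1 (ε E).2.2 = E' then
        rotM (pos (z (ε E).1) (ε E).2.1) (pos (z (ε E).1) (ε E).2.2) else 0) i = _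
      rw [(hε E).2]
      by_cases hE : E = E'
      · subst hE
        simp
      · simp [hE, coord_zero]
  rw [← sqdet_reindex _ (Equiv.prodComm (Fin 3) (Fin N)) (edgeCol N), hM,
    sqdet_blockDiagonal _ rfl]
  refine Finset.prod_congr rfl fun E _ => ?_
  have hne : dd (pos (z (ε E).1) (ε E).2.1) (pos (z (ε E).1) (ε E).2.2) ≠ 0 :=
    mm_ne (H.h0 _) (H.h1 _) (hε E).1
  have := det3_rotM (s (ε E).1 (ε E).2.1) (-s (ε E).1 (ε E).2.2) _ _ hne
  unfold det3 at this
  rw [sqdet_square, this]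
  unfold mm
  ring

/-- The special family of `2`-chains. -/
noncomputable def bfam {T : IdealTriangulation N} {z : Fin N → ℂ} {A P : Fin N → Fin 4 → Mat2}
    {s : Fin N → Fin 4 → ℂ} (H : Setup T.toGluing z A P s)
    (cls : Fin N → Fin 4 → Fin 4 → Fin N × Fin 2) (hcls : IsCornerClass T.toGluing cls)
    (c₀ : Fin N × Fin 2) (r : Fin N) :
    {c // c ≠ c₀} ⊕ (Unit ⊕ {E // E ≠ r}) → chain₂ T.toGluing A :=
  Sum.elim (fun c => phiTwo H.hP cls hcls (Pi.single c.1 1))
    (Sum.elim (fun _ => ∑ E, qEdge H E) (fun E => qEdge H E.1))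

theorem bfam_sqdet {T : IdealTriangulation N} {z : Fin N → ℂ} {A P : Fin N → Fin 4 → Mat2}
    {s : Fin N → Fin 4 → ℂ} (H : Setup T.toGluing z A P s)
    (ε : Fin N → Fin N × Fin 4 × Fin 4) (hε : IsEdgeChoice T ε)
    (cls : Fin N → Fin 4 → Fin 4 → Fin N × Fin 2) (hcls : IsCornerClass T.toGluing cls)
    (h1 : ∀ j v w, (cls j v w).1 = T.edge j v w)
    (h2 : ∀ e, (cls (ε e).1 (ε e).2.1 (ε e).2.2).2 = 0)
    (h3 : ∀ j v w, v ≠ w → cls j w v = ((cls j v w).1, 1 - (cls j v w).2))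
    (c₀ : Fin N × Fin 2) (r : Fin N) :
    sqdet (cm (coord₂ T.toGluing A ε)
      (Sum.elim (fun _ : Unit => classTwo H.hP) (bfam H cls hcls c₀ r))) =
      ∏ e, (s (ε e).1 (ε e).2.1 * s (ε e).1 (ε e).2.2 *
        mm (z (ε e).1) (ε e).2.1 (ε e).2.2 ^ 2) ^ 2 := by
  set B := cm (coord₂ T.toGluing A ε)
      (Sum.elim (fun c : Fin N × Fin 2 => phiTwo H.hP cls hcls (Pi.single c 1))
        (fun E => qEdge H E)) with hB
  have hM : (cm (coord₂ T.toGluing A ε)
      (Sum.elim (fun _ : Unit => classTwo H.hP) (bfam H cls hcls c₀ r))).submatrix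
        (Equiv.refl _) (Equiv.sumAssoc Unit {c // c ≠ c₀} (Unit ⊕ {E // E ≠ r})) =
      B * fromBlocks
        (fromCols (replicateCol Unit (fun _ : Fin N × Fin 2 => (1 : ℂ)))
          (Matrix.of fun (i : Fin N × Fin 2) (c : {c // c ≠ c₀}) =>
            if i = (c : Fin N × Fin 2) then (1 : ℂ) else 0)) 0 0
        (fromCols (replicateCol Unit (fun _ : Fin N => (1 : ℂ)))
          (Matrix.of fun (i : Fin N) (c : {c // c ≠ r}) =>
            if i = (c : Fin N) then (1 : ℂ) else 0)) := by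
    ext p k
    rw [Matrix.mul_apply, Fintype.sum_sum_type]
    rcases k with (k | k) | (k | k)
    · have : (Equiv.sumAssoc Unit {c // c ≠ c₀} (Unit ⊕ {E // E ≠ r})) (Sum.inl (Sum.inl k)) =
        Sum.inl k := rfl
      simp only [Matrix.submatrix_apply, Equiv.refl_apply, this, cm, Matrix.of_apply,
        Sum.elim_inl, fromBlocks_apply₁₁, fromBlocks_apply₂₁, Matrix.zero_apply, mul_zero,
        Finset.sum_const_zero, add_zero, fromCols_apply_inl, replicateCol_apply, mul_one, hB]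
      rw [classTwo_eq H.hP cls hcls, phiTwo_sum H.hP cls hcls, map_sum, Finset.sum_apply]
      simp
    · have : (Equiv.sumAssoc Unit {c // c ≠ c₀} (Unit ⊕ {E // E ≠ r})) (Sum.inl (Sum.inr k)) =
        Sum.inr (Sum.inl k) := rfl
      simp [this, cm, bfam, hB]
    · have : (Equiv.sumAssoc Unit {c // c ≠ c₀} (Unit ⊕ {E // E ≠ r})) (Sum.inr (Sum.inl k)) =
        Sum.inr (Sum.inr (Sum.inl k)) := rfl
      simp only [Matrix.submatrix_apply, Equiv.refl_apply, this, cm, Matrix.of_apply,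
        Sum.elim_inl, Sum.elim_inr, fromBlocks_apply₁₂, fromBlocks_apply₂₂, Matrix.zero_apply,
        mul_zero, Finset.sum_const_zero, zero_add, fromCols_apply_inl, replicateCol_apply,
        mul_one, hB, bfam]
      rw [map_sum, Finset.sum_apply]
    · have : (Equiv.sumAssoc Unit {c // c ≠ c₀} (Unit ⊕ {E // E ≠ r})) (Sum.inr (Sum.inr k)) =
        Sum.inr (Sum.inr (Sum.inr k)) := rfl
      simp [this, cm, bfam, hB]
  have hc : ∀ {I : Type} [Fintype I] [DecidableEq I] (c₀ : I),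
      Fintype.card I = Fintype.card (Unit ⊕ {c // c ≠ c₀}) := by
    intro I _ _ c₀
    rw [Fintype.card_sum, Fintype.card_unit, Fintype.card_subtype_compl,
      Fintype.card_subtype_eq]
    have : 1 ≤ Fintype.card I := Fintype.card_pos_iff.2 ⟨c₀⟩
    omega
  rw [← sqdet_reindex _ (Equiv.refl (Fin N × Fin 3))
    (Equiv.sumAssoc Unit {c // c ≠ c₀} (Unit ⊕ {E // E ≠ r})), hM, sqdet_mul _ _ ?_ ?_,
    sqdet_fromBlocks_zero₂₁ _ _ _ (hc c₀) (hc r), sqdet_ones, sqdet_ones, hB,
    edge_sqdet H ε hε cls hcls h1 h2 h3]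
  · ring
  · simp only [Fintype.card_prod, Fintype.card_sum, Fintype.card_fin]
    ring
  · rw [Fintype.card_sum, Fintype.card_sum, hc c₀, hc r]

end Pool.Agent.H15_OneLoop
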