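import Pool.Agent.H15_OneLoop.Defs

/-!
# Local computations in an ideal tetrahedron
-/

set_option autoImplicit false

namespace Pool.Agent.H15_OneLoop

open Matrix

/-- For `v ≠ a`, the vertex `w` for which `(v, w, a, b)` is an even permutation. -/
def lft (v a : Fin 4) : Fin 4 := ![![0, 3, 1, 2], ![2, 1, 3, 0], ![3, 0, 2, 1], ![1, 2, 0, 3]] v a

/-- For `v ≠ a`, the vertex `b` for which `(v, w, a, b)` is an even permutation. -/
def rgt (v a : Fin 4) : Fin 4 := ![![0, 2, 3, 1], ![3, 1, 0, 2], ![1, 3, 2, 0], ![2, 0, 1, 3]] v a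

set_option maxRecDepth 100000 in
theorem lft_rgt_of_even : ∀ σ : Equiv.Perm (Fin 4), Equiv.Perm.sign σ = 1 →
    lft (σ 0) (σ 2) = σ 1 ∧ rgt (σ 0) (σ 2) = σ 3 := by
  decide

set_option maxRecDepth 100000 in
theorem lft_rgt_of_odd : ∀ σ : Equiv.Perm (Fin 4), Equiv.Perm.sign σ = -1 →
    lft (σ 0) (σ 2) = σ 3 ∧ rgt (σ 0) (σ 2) = σ 1 := by
  decide

set_option maxRecDepth 100000 in
theorem lft_rgt_glue : ∀ p : Equiv.Perm (Fin 4), Equiv.Perm.sign p = -1 → ∀ v a, v ≠ a →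
    lft (p v) (p a) = p (rgt v a) ∧ rgt (p v) (p a) = p (lft v a) := by
  decide

theorem lft_ne : ∀ v a : Fin 4, v ≠ a → lft v a ≠ v ∧ lft v a ≠ a ∧ rgt v a ≠ v ∧ rgt v a ≠ a ∧
    lft v a ≠ rgt v a := by
  decide

theorem lft_self : ∀ v : Fin 4, lft v v = v ∧ rgt v v = v := by decide

set_option maxRecDepth 100000 in
/-- Sums over the even permutations with `σ 2 = a`. -/
theorem sum_evenAt {M : Type} [AddCommMonoid M] (F : Fin 4 → Fin 4 → M) (a : Fin 4) :
    ∑ σ ∈ evenAt a, F (σ 0) (σ 1) = ∑ v : Fin 4, if v = a then 0 else F v (lft v a) := by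
  have h : ∀ a v : Fin 4, v ≠ a → ∃ σ : Equiv.Perm (Fin 4),
      (Equiv.Perm.sign σ = 1 ∧ σ 2 = a) ∧ σ 0 = v := by
    decide
  have h' : ∀ σ τ : Equiv.Perm (Fin 4), Equiv.Perm.sign σ = 1 → Equiv.Perm.sign τ = 1 →
      σ 2 = τ 2 → σ 0 = τ 0 → σ = τ := by
    intro σ τ hσ hτ h2 h0
    have e1 := lft_rgt_of_even σ hσ
    have e2 := lft_rgt_of_even τ hτ
    rw [h0, h2] at e1
    refine Equiv.ext fun i => ?_
    fin_cases i
    · exact h0
    · exact e1.1.symm.trans e2.1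
    · exact h2
    · exact e1.2.symm.trans e2.2
  rw [← Finset.sum_filter_add_sum_filter_not Finset.univ (fun v => v = a)]
  rw [Finset.sum_eq_zero (s := Finset.univ.filter fun v => v = a)
    (fun v hv => by rw [if_pos (Finset.mem_filter.1 hv).2]), zero_add]
  refine Finset.sum_bij (fun σ _ => σ 0) ?_ ?_ ?_ ?_
  · intro σ hσ
    simp only [Finset.mem_filter, Finset.mem_univ, true_and]
    simp only [evenAt, Finset.mem_filter, Finset.mem_univ, true_and] at hσ
    rw [← hσ.2]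
    exact fun h => absurd (σ.injective h) (by decide)
  · intro σ hσ τ hτ hστ
    simp only [evenAt, Finset.mem_filter, Finset.mem_univ, true_and] at hσ hτ
    exact h' σ τ hσ.1 hτ.1 (hσ.2.trans hτ.2.symm) hστ
  · intro v hv
    simp only [Finset.mem_filter, Finset.mem_univ, true_and] at hv
    obtain ⟨σ, h1, h2⟩ := h a v hv
    exact ⟨σ, by simp [evenAt, h1], h2⟩
  · intro σ hσ
    simp only [evenAt, Finset.mem_filter, Finset.mem_univ, true_and] at hσ
    have hne : σ 0 ≠ a := by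
      rw [← hσ.2]
      exact fun h => absurd (σ.injective h) (by decide)
    rw [if_neg hne, ← (lft_rgt_of_even σ hσ.1).1, hσ.2]

/-! ### The vectors `pos` -/

/-- The determinant of two vectors. -/
def dd (V W : Fin 2 → ℂ) : ℂ := V 0 * W 1 - V 1 * W 0

/-- The determinants of the vectors representing the ideal vertices. -/
noncomputable def mm (z : ℂ) (v w : Fin 4) : ℂ := dd (pos z v) (pos z w)

theorem mm_antisymm (z : ℂ) (v w : Fin 4) : mm z w v = -mm z v w := by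
  unfold mm dd; ring

theorem mm_self (z : ℂ) (v : Fin 4) : mm z v v = 0 := by
  unfold mm dd; ring

theorem mm_ne {z : ℂ} (h0 : z ≠ 0) (h1 : z ≠ 1) {v w : Fin 4} (h : v ≠ w) : mm z v w ≠ 0 := by
  have h2 : (1 : ℂ) - z ≠ 0 := sub_ne_zero.2 h1.symm
  have h3 : z - 1 ≠ 0 := sub_ne_zero.2 h1
  fin_cases v <;> fin_cases w <;> simp [mm, dd, pos, h0, h2, h3] at h ⊢

theorem mm_plucker (z : ℂ) (v x y u : Fin 4) :
    mm z v x * mm z y u - mm z v y * mm z x u + mm z v u * mm z x y = 0 := by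
  unfold mm dd; ring

/-- The nilpotent matrix `x ↦ V det (V, x)`. -/
def nilM (V : Fin 2 → ℂ) : Mat2 := !![-(V 0 * V 1), V 0 * V 0; -(V 1 * V 1), V 0 * V 1]

/-- The matrix with eigenvalue `1` on `V` and `-1` on `W`. -/
noncomputable def rotM (V W : Fin 2 → ℂ) : Mat2 :=
  (dd V W)⁻¹ • !![V 0 * W 1 + V 1 * W 0, -(2 * (V 0 * W 0)); 2 * (V 1 * W 1),
    -(V 0 * W 1 + V 1 * W 0)]

theorem nilM_trace (V : Fin 2 → ℂ) : (nilM V).trace = 0 := by
  simp [nilM, Matrix.trace, Fin.sum_univ_two]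

theorem rotM_trace (V W : Fin 2 → ℂ) : (rotM V W).trace = 0 := by
  simp [rotM, Matrix.trace, Fin.sum_univ_two]
  ring

theorem rotM_antisymm (V W : Fin 2 → ℂ) : rotM W V = -rotM V W := by
  have h : dd W V = -dd V W := by unfold dd; ring
  have hM : (!![W 0 * V 1 + W 1 * V 0, -(2 * (W 0 * V 0)); 2 * (W 1 * V 1),
    -(W 0 * V 1 + W 1 * V 0)] : Mat2) = !![V 0 * W 1 + V 1 * W 0, -(2 * (V 0 * W 0));
    2 * (V 1 * W 1), -(V 0 * W 1 + V 1 * W 0)] := by
    ext i j
    fin_cases i <;> fin_cases j <;> simp <;> ring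
  unfold rotM
  rw [h, hM, inv_neg, neg_smul]

/-- The displacement from `x` to `y` as seen from `v`. -/
noncomputable def dis (z : ℂ) (s : Fin 4 → ℂ) (v x y : Fin 4) : ℂ :=
  mm z x y / (s v * mm z v x * mm z v y)

theorem dis_antisymm (z : ℂ) (s : Fin 4 → ℂ) (v x y : Fin 4) :
    dis z s v y x = -dis z s v x y := by
  unfold dis
  rw [mm_antisymm z x y, neg_div]
  congr 2
  ring

theorem dis_self (z : ℂ) (s : Fin 4 → ℂ) (v x : Fin 4) : dis z s v x x = 0 := by
  unfold dis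
  rw [mm_self, zero_div]

theorem dis_add {z : ℂ} (h0 : z ≠ 0) (h1 : z ≠ 1) (s : Fin 4 → ℂ) {v x y u : Fin 4}
    (hs : s v ≠ 0) (hx : v ≠ x) (hy : v ≠ y) (hu : v ≠ u) :
    dis z s v x y + dis z s v y u = dis z s v x u := by
  have := mm_ne h0 h1 hx
  have := mm_ne h0 h1 hy
  have := mm_ne h0 h1 hu
  unfold dis
  field_simp
  linear_combination (mm_plucker z v x y u)

theorem dis_ne {z : ℂ} (h0 : z ≠ 0) (h1 : z ≠ 1) (s : Fin 4 → ℂ) {v x y : Fin 4}
    (hs : s v ≠ 0) (hx : v ≠ x) (hy : v ≠ y) (hxy : x ≠ y) : dis z s v x y ≠ 0 := by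
  unfold dis
  exact div_ne_zero (mm_ne h0 h1 hxy) (mul_ne_zero (mul_ne_zero hs (mm_ne h0 h1 hx))
    (mm_ne h0 h1 hy))

/-- The coefficients of the infinitesimal rotation about the edge from `v` to `w` with respect to
the parabolic elements at the vertices of the face `v, w, b`. -/
noncomputable def rdec (z : ℂ) (s : Fin 4 → ℂ) (v w b : Fin 4) (u : Fin 4) : ℂ :=
  if u = v then dis z s v b w else if u = w then dis z s w v b else
    if u = b then dis z s b v w else 0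

/-- The relation between the four parabolic elements. -/
noncomputable def kvec (z : ℂ) (s : Fin 4 → ℂ) : Fin 4 → ℂ :=
  ![z * (z - 1) / s 0, (1 - z) / s 1, z / s 2, -1 / s 3]

theorem sum_fin_three_distinct {M : Type} [AddCommMonoid M] {v w b : Fin 4} (h1 : v ≠ w)
    (h2 : v ≠ b) (h3 : w ≠ b) (F : Fin 4 → M) (hF : ∀ u, u ≠ v → u ≠ w → u ≠ b → F u = 0) :
    ∑ u, F u = F v + F w + F b := by
  have : ∑ u, F u = ∑ u ∈ {v, w, b}, F u := by
    symm
    refine Finset.sum_subset (Finset.subset_univ _) fun u _ hu => ?_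
    simp only [Finset.mem_insert, Finset.mem_singleton, not_or] at hu
    exact hF u hu.1 hu.2.1 hu.2.2
  rw [this, Finset.sum_insert (by simp [h1, h2]), Finset.sum_insert (by simp [h3]),
    Finset.sum_singleton, add_assoc]

/-- The rotation about `vw` in terms of the parabolic elements of a face. -/
theorem rotM_eq {z : ℂ} (h0 : z ≠ 0) (h1 : z ≠ 1) (s : Fin 4 → ℂ) (hs : ∀ v, s v ≠ 0)
    {v w b : Fin 4} (hvw : v ≠ w) (hvb : v ≠ b) (hwb : w ≠ b) :
    rotM (pos z v) (pos z w) = ∑ u, rdec z s v w b u • s u • nilM (pos z u) := by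
  rw [sum_fin_three_distinct hvw hvb hwb _ (by
    intro u hu1 hu2 hu3
    simp [rdec, hu1, hu2, hu3])]
  have e1 : rdec z s v w b v = dis z s v b w := by simp [rdec]
  have e2 : rdec z s v w b w = dis z s w v b := by simp [rdec, hvw.symm]
  have e3 : rdec z s v w b b = dis z s b v w := by simp [rdec, hvb.symm, hwb.symm]
  rw [e1, e2, e3]
  have n1 := mm_ne h0 h1 hvw
  have n2 := mm_ne h0 h1 hvb
  have n3 := mm_ne h0 h1 hwb
  have n4 := hs v
  have n5 := hs w
  have n6 := hs b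
  have m1 := mm_antisymm z v w
  have m2 := mm_antisymm z v b
  have m3 := mm_antisymm z w b
  unfold dis
  rw [m1, m2, m3]
  have c1 : (mm z v w : ℂ) = pos z v 0 * pos z w 1 - pos z v 1 * pos z w 0 := rfl
  have c2 : (mm z v b : ℂ) = pos z v 0 * pos z b 1 - pos z v 1 * pos z b 0 := rfl
  have c3 : (mm z w b : ℂ) = pos z w 0 * pos z b 1 - pos z w 1 * pos z b 0 := rfl
  have c4 : dd (pos z v) (pos z w) = mm z v w := rfl
  unfold rotM nilM
  rw [c4]
  ext i j
  fin_cases i <;> fin_cases j <;> simp <;> field_simp <;> rw [c1, c2, c3] <;> ring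


theorem mm_table (z : ℂ) : (∀ v, mm z v v = 0) ∧ mm z 0 1 = 1 ∧ mm z 0 2 = 1 ∧ mm z 0 3 = 1 ∧
    mm z 1 0 = -1 ∧ mm z 1 2 = -1 ∧ mm z 1 3 = -z ∧ mm z 2 0 = -1 ∧ mm z 2 1 = 1 ∧
    mm z 2 3 = 1 - z ∧ mm z 3 0 = -1 ∧ mm z 3 1 = z ∧ mm z 3 2 = z - 1 := by
  refine ⟨mm_self z, ?_, ?_, ?_, ?_, ?_, ?_, ?_, ?_, ?_, ?_, ?_, ?_⟩ <;> simp [mm, dd, pos]

/-- The difference of the decompositions of a rotation in the two faces at its axis. -/
theorem rdec_sub {z : ℂ} (h0 : z ≠ 0) (h1 : z ≠ 1) (s : Fin 4 → ℂ) (hs : ∀ v, s v ≠ 0)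
    {v a : Fin 4} (hva : v ≠ a) (u : Fin 4) :
    rdec z s v (lft v a) (rgt v a) u - rdec z s v (lft v a) a u =
      zeta z (kind v (lft v a)) * kvec z s u := by
  obtain ⟨m0, m01, m02, m03, m10, m12, m13, m20, m21, m23, m30, m31, m32⟩ := mm_table z
  have h2 : (1 : ℂ) - z ≠ 0 := sub_ne_zero.2 h1.symm
  have h3 : z - 1 ≠ 0 := sub_ne_zero.2 h1
  have s0 := hs 0
  have s1 := hs 1
  have s2 := hs 2
  have s3 := hs 3
  have e : (1 : ℂ) - z = -(z - 1) := by ring
  fin_cases v <;> fin_cases a <;> first | exact absurd rfl hva | skip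
  all_goals
    fin_cases u <;>
    simp [rdec, lft, rgt, kind, zeta, kvec, dis, m0, m01, m02, m03, m10, m12, m13, m20, m21, m23, m30,
      m31, m32] <;> (try rw [e]) <;> field_simp <;> (try ring)


/-- The relation between the parabolic elements at the four vertices. -/
theorem kvec_rel (z : ℂ) (s : Fin 4 → ℂ) (hs : ∀ v, s v ≠ 0) :
    ∑ u, kvec z s u • s u • nilM (pos z u) = 0 := by
  have s0 := hs 0
  have s1 := hs 1
  have s2 := hs 2
  have s3 := hs 3
  ext i j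
  fin_cases i <;> fin_cases j <;>
    simp [Fin.sum_univ_four, kvec, nilM, pos] <;> field_simp <;> ring

theorem kvec_ne {z : ℂ} (h0 : z ≠ 0) (h1 : z ≠ 1) (s : Fin 4 → ℂ) (hs : ∀ v, s v ≠ 0)
    (u : Fin 4) : kvec z s u ≠ 0 := by
  have h2 : (1 : ℂ) - z ≠ 0 := sub_ne_zero.2 h1.symm
  have h3 : z - 1 ≠ 0 := sub_ne_zero.2 h1
  have s0 := hs 0
  have s1 := hs 1
  have s2 := hs 2
  have s3 := hs 3
  fin_cases u <;> simp [kvec, h0, h2, h3, s0, s1, s2, s3]

theorem sum_rdec (z : ℂ) (s : Fin 4 → ℂ) {v w b : Fin 4} (h1 : v ≠ w)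
    (h2 : v ≠ b) (h3 : w ≠ b) :
    ∑ u, rdec z s v w b u = dis z s v b w + dis z s w v b + dis z s b v w := by
  rw [sum_fin_three_distinct h1 h2 h3 _ (by
    intro u hu1 hu2 hu3
    simp [rdec, hu1, hu2, hu3])]
  have e1 : rdec z s v w b v = dis z s v b w := by simp [rdec]
  have e2 : rdec z s v w b w = dis z s w v b := by simp [rdec, h1.symm]
  have e3 : rdec z s v w b b = dis z s b v w := by simp [rdec, h2.symm, h3.symm]
  rw [e1, e2, e3]

theorem sum_rdec_sub (z : ℂ) (s : Fin 4 → ℂ) {v w b : Fin 4} (h1 : v ≠ w)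
    (h2 : v ≠ b) (h3 : w ≠ b) :
    ∑ u, rdec z s v w b u - ∑ u, rdec z s v b w u = 2 * dis z s v b w := by
  rw [sum_rdec z s h1 h2 h3, sum_rdec z s h2 h1 h3.symm, dis_antisymm z s v b w]
  ring

/-- The sum of the rotations about the three edges of a face. -/
theorem sum_face_rdec (z : ℂ) (s : Fin 4 → ℂ) {v a : Fin 4} (hva : v ≠ a) :
    ∑ u, (if u = a then 0 else rdec z s u (lft u a) (rgt u a) v) =
      dis z s v (rgt v a) (lft v a) := by
  have key : ∀ v a : Fin 4, v ≠ a → lft (lft v a) a = rgt v a ∧ rgt (lft v a) a = v ∧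
      lft (rgt v a) a = v ∧ rgt (rgt v a) a = lft v a := by decide
  obtain ⟨k1, k2, k3, k4⟩ := key v a hva
  obtain ⟨l1, l2, l3, l4, l5⟩ := lft_ne v a hva
  have hall' : ∀ v a : Fin 4, v ≠ a → ∀ u : Fin 4, u ≠ v → u ≠ lft v a → u ≠ rgt v a → u = a := by
    decide
  have hall := hall' v a hva
  rw [sum_fin_three_distinct l1.symm l3.symm l5 _ (by
    intro u hu1 hu2 hu3
    rw [if_pos (hall u hu1 hu2 hu3)])]
  rw [if_neg hva, if_neg l2, if_neg l4, k1, k2, k3, k4]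
  have e1 : rdec z s v (lft v a) (rgt v a) v = dis z s v (rgt v a) (lft v a) := by simp [rdec]
  have e2 : rdec z s (lft v a) (rgt v a) v v = dis z s v (lft v a) (rgt v a) := by
    simp [rdec, l1.symm, l3.symm]
  have e3 : rdec z s (rgt v a) v (lft v a) v = dis z s v (rgt v a) (lft v a) := by
    simp [rdec, l3.symm]
  rw [e1, e2, e3, dis_antisymm z s v (rgt v a) (lft v a)]
  ring

/-- The displacements along the sides of a triangle add up to zero. -/
theorem sum_dis {z : ℂ} (h0 : z ≠ 0) (h1 : z ≠ 1) (s : Fin 4 → ℂ) (hs : ∀ v, s v ≠ 0)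
    (v : Fin 4) : ∑ a, dis z s v (rgt v a) (lft v a) = 0 := by
  obtain ⟨m0, m01, m02, m03, m10, m12, m13, m20, m21, m23, m30, m31, m32⟩ := mm_table z
  have h2 : (1 : ℂ) - z ≠ 0 := sub_ne_zero.2 h1.symm
  have h3 : z - 1 ≠ 0 := sub_ne_zero.2 h1
  have s0 := hs 0
  have s1 := hs 1
  have s2 := hs 2
  have s3 := hs 3
  have e : (1 : ℂ) - z = -(z - 1) := by ring
  fin_cases v <;>
    simp [Fin.sum_univ_four, lft, rgt, dis, m0, m01, m02, m03, m10, m12, m13, m20, m21, m23, m30,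
      m31, m32] <;> (try rw [e]) <;> field_simp <;> (try ring)

/-- ratio of displacements: the shape parameter -/
theorem dis_ratio {z : ℂ} (h0 : z ≠ 0) (h1 : z ≠ 1) (s : Fin 4 → ℂ) (hs : ∀ v, s v ≠ 0)
    {v a : Fin 4} (hva : v ≠ a) :
    dis z s v (lft v a) (rgt v a) = par z (kind v (lft v a)) * dis z s v (lft v a) a := by
  obtain ⟨m0, m01, m02, m03, m10, m12, m13, m20, m21, m23, m30, m31, m32⟩ := mm_table z
  have h2 : (1 : ℂ) - z ≠ 0 := sub_ne_zero.2 h1.symm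
  have h3 : z - 1 ≠ 0 := sub_ne_zero.2 h1
  have s0 := hs 0
  have s1 := hs 1
  have s2 := hs 2
  have s3 := hs 3
  have e : (1 : ℂ) - z = -(z - 1) := by ring
  fin_cases v <;> fin_cases a <;> first | exact absurd rfl hva | skip
  all_goals
    simp [lft, rgt, kind, par, dis, m0, m01, m02, m03, m10, m12, m13, m20, m21, m23, m30,
      m31, m32] <;> (try rw [e]) <;> field_simp <;> (try ring)


end Pool.Agent.H15_OneLoop
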