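import Pool.Agent.H15_OneLoop.Basic
import Pool.Agent.H15_OneLoop.Local

/-!
# The figure-eight knot complement: the hypotheses of the 1-loop theorem are satisfiable
-/

set_option autoImplicit false
set_option maxRecDepth 100000

namespace Pool.Agent.H15_OneLoop

open Matrix Equiv

namespace FigureEight

/-- A cycle `0 → 1 → 2 → 3 → 0`. -/
def cyc : Perm (Fin 4) := swap 0 1 * swap 1 2 * swap 2 3

/-- A cycle `0 → 1 → 3 → 2 → 0`. -/
def cyd : Perm (Fin 4) := swap 0 1 * swap 1 3 * swap 3 2

/-- The gluing of two tetrahedra which gives the complement of the figure-eight knot. -/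
def gl : Gluing 2 where
  adj j _ := j + 1
  glue := ![![swap 1 2, swap 0 2, cyc, cyd], ![swap 1 2, swap 0 2, cyd⁻¹, cyc⁻¹]]
  adj_adj := by decide
  glue_glue := by decide
  odd := by decide
  ne_self := by decide

/-- The numbers of the edges. -/
def ed : Fin 2 → Fin 4 → Fin 4 → Fin 2 :=
  ![![![0, 0, 1, 1], ![0, 0, 0, 1], ![1, 0, 0, 0], ![1, 1, 0, 0]],
    ![![0, 1, 1, 0], ![1, 0, 0, 0], ![1, 0, 0, 1], ![0, 0, 1, 0]]]

/-- The rotation about an edge. -/
def rot (x : Fin 2 × Fin 4 × Fin 4) : Fin 2 × Fin 4 × Fin 4 :=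
  (gl.adj x.1 (lft x.2.1 x.2.2), gl.glue x.1 (lft x.2.1 x.2.2) x.2.1,
    gl.glue x.1 (lft x.2.1 x.2.2) x.2.2)

/-- The representatives of the two edges. -/
def rp : Fin 2 → Fin 2 × Fin 4 × Fin 4 := ![(0, 0, 1), (0, 0, 2)]

theorem rot_step (x : Fin 2 × Fin 4 × Fin 4) (h : x.2.1 ≠ x.2.2) :
    gl.EdgeStep x (rot x) ∧ (rot x).2.1 ≠ (rot x).2.2 := by
  obtain ⟨j, v, w⟩ := x
  obtain ⟨l1, l2, -, -, -⟩ := lft_ne v w h
  exact ⟨Gluing.EdgeStep.cross j (lft v w) v w l1.symm l2.symm,
    (gl.glue j (lft v w)).injective.ne h⟩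

theorem rot_iter (k : ℕ) (x : Fin 2 × Fin 4 × Fin 4) (h : x.2.1 ≠ x.2.2) :
    Relation.EqvGen gl.EdgeStep x (rot^[k] x) ∧ (rot^[k] x).2.1 ≠ (rot^[k] x).2.2 := by
  induction k with
  | zero => exact ⟨Relation.EqvGen.refl _, h⟩
  | succ k ih =>
    rw [Function.iterate_succ_apply']
    have := rot_step _ ih.2
    exact ⟨ih.1.trans _ _ _ (Relation.EqvGen.rel _ _ this.1), this.2⟩

theorem to_rp : ∀ x : Fin 2 × Fin 4 × Fin 4, x.2.1 ≠ x.2.2 →
    ∃ k : Fin 6, rot^[k] x = rp (ed x.1 x.2.1 x.2.2) ∨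
      rot^[k] x = ((rp (ed x.1 x.2.1 x.2.2)).1, (rp (ed x.1 x.2.1 x.2.2)).2.2,
        (rp (ed x.1 x.2.1 x.2.2)).2.1) := by
  decide

theorem eqv_rp (x : Fin 2 × Fin 4 × Fin 4) (h : x.2.1 ≠ x.2.2) :
    Relation.EqvGen gl.EdgeStep x (rp (ed x.1 x.2.1 x.2.2)) := by
  obtain ⟨k, hk | hk⟩ := to_rp x h
  · rw [← hk]
    exact (rot_iter k x h).1
  · have h1 := (rot_iter k x h).1
    rw [hk] at h1
    exact h1.trans _ _ _ (Relation.EqvGen.rel _ _ (Gluing.EdgeStep.flip _ _ _))

theorem ed_step (x y : Fin 2 × Fin 4 × Fin 4) (h : gl.EdgeStep x y) :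
    ed x.1 x.2.1 x.2.2 = ed y.1 y.2.1 y.2.2 := by
  have h1 : ∀ j v w, ed j v w = ed j w v := by decide
  have h2 : ∀ j a v w, v ≠ a → w ≠ a → ed j v w = ed (gl.adj j a) (gl.glue j a v)
      (gl.glue j a w) := by decide
  cases h with
  | flip j v w => exact h1 j v w
  | cross j a v w hv hw => exact h2 j a v w hv hw

theorem ed_eqv (x y : Fin 2 × Fin 4 × Fin 4) (h : Relation.EqvGen gl.EdgeStep x y) :
    ed x.1 x.2.1 x.2.2 = ed y.1 y.2.1 y.2.2 := by
  induction h with
  | rel x y h => exact ed_step x y h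
  | refl x => rfl
  | symm x y _ ih => exact ih.symm
  | trans x y z _ _ ih1 ih2 => exact ih1.trans ih2

theorem vx (j : Fin 2) (a v : Fin 4) (h : v ≠ a) (k : Fin 2) (w : Fin 4)
    (hk : gl.adj j a = k) (hw : gl.glue j a v = w)
    (h0 : Relation.EqvGen gl.VertexStep (0, 0) (j, v)) :
    Relation.EqvGen gl.VertexStep (0, 0) (k, w) := by
  subst hk hw
  exact h0.trans _ _ _ (Relation.EqvGen.rel _ _ (Gluing.VertexStep.cross j a v h))

theorem one_cusp (p : Fin 2 × Fin 4) : Relation.EqvGen gl.VertexStep (0, 0) p := by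
  have h00 : Relation.EqvGen gl.VertexStep (0, 0) (0, 0) := Relation.EqvGen.refl _
  have h12 := vx 0 1 0 (by decide) 1 2 (by decide) (by decide) h00
  have h11 := vx 0 2 0 (by decide) 1 1 (by decide) (by decide) h00
  have h01 := vx 1 0 2 (by decide) 0 1 (by decide) (by decide) h12
  have h02 := vx 1 0 1 (by decide) 0 2 (by decide) (by decide) h11
  have h13 := vx 0 3 1 (by decide) 1 3 (by decide) (by decide) h01
  have h10 := vx 0 1 2 (by decide) 1 0 (by decide) (by decide) h02
  have h03 := vx 1 0 3 (by decide) 0 3 (by decide) (by decide) h13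
  obtain ⟨j, v⟩ := p
  fin_cases j <;> fin_cases v <;> assumption

/-- The triangulation of the complement of the figure-eight knot with two tetrahedra. -/
def tri : IdealTriangulation 2 where
  toGluing := gl
  edge := ed
  edge_eq_iff := by
    intro j v w k x y hvw hxy
    constructor
    · intro h
      have h1 := eqv_rp (j, v, w) hvw
      have h2 := eqv_rp (k, x, y) hxy
      simp only at h1 h2
      rw [h] at h1
      exact h1.trans _ _ _ (h2.symm _ _)
    · intro h
      exact ed_eqv _ _ h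
  edge_surj := by decide
  one_cusp := fun p q => ((one_cusp p).symm _ _).trans _ _ _ (one_cusp q)

/-- The directions of the sides of the cusp triangles, as multiples of a sixth of a full turn. -/
def dir : Fin 2 → Fin 4 → Fin 4 → ZMod 6 :=
  ![![![0, 2, 4, 0], ![0, 0, 4, 2], ![2, 4, 0, 0], ![0, 4, 2, 0]],
    ![![0, 1, 3, 5], ![5, 0, 3, 1], ![3, 5, 0, 1], ![3, 1, 5, 0]]]

theorem dir_step : ∀ (j : Fin 2) (σ : Perm (Fin 4)),
    dir (gl.adj j (σ 2)) (gl.glue j (σ 2) (σ 0)) (gl.glue j (σ 2) (σ 2)) =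
      dir j (σ 0) (σ 3) + ((Perm.sign σ : ℤ) : ZMod 6) := by
  decide

/-- The total turning of a closed normal curve is a multiple of a full turn. -/
theorem turning (γ : NormalCurve gl) :
    ∃ n : ℤ, ∑ i ∈ Finset.range γ.len, (Perm.sign (γ.arc i) : ℤ) = 6 * n := by
  have h : ∀ i, ((Perm.sign (γ.arc i) : ℤ) : ZMod 6) =
      dir (γ.tet (i + 1)) (γ.arc (i + 1) 0) (γ.arc (i + 1) 3) -
        dir (γ.tet i) (γ.arc i 0) (γ.arc i 3) := by
    intro i
    rw [γ.tet_succ, γ.vertex_succ, γ.enter_succ, dir_step]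
    ring
  have h2 : ((∑ i ∈ Finset.range γ.len, (Perm.sign (γ.arc i) : ℤ) : ℤ) : ZMod 6) = 0 := by
    rw [Int.cast_sum, Finset.sum_congr rfl fun i _ => h i,
      Finset.sum_range_sub (fun i => dir (γ.tet i) (γ.arc i 0) (γ.arc i 3))]
    have h3 := γ.tet_period 0
    have h4 := γ.arc_period 0
    rw [Nat.zero_add] at h3 h4
    rw [h3, h4, sub_self]
  exact (ZMod.intCast_zmod_eq_zero_iff_dvd _ 6).1 h2

/-- A primitive sixth root of unity. -/
noncomputable def w : ℂ := Complex.exp ((Real.pi / 3 : ℝ) * Complex.I)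

theorem w_ne : w ≠ 0 := Complex.exp_ne_zero _

theorem w_im : 0 < w.im := by
  unfold w
  rw [Complex.exp_ofReal_mul_I_im]
  exact Real.sin_pos_of_pos_of_lt_pi (by positivity) (by linarith [Real.pi_pos])

theorem w_arg : w.arg = Real.pi / 3 := by
  unfold w
  rw [Complex.arg_exp_mul_I, toIocMod_eq_self]
  constructor <;> linarith [Real.pi_pos]

theorem w_cube : w ^ 3 = -1 := by
  unfold w
  rw [← Complex.exp_nat_mul]
  have : ((3 : ℕ) : ℂ) * (((Real.pi / 3 : ℝ) : ℂ) * Complex.I) = Real.pi * Complex.I := by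
    push_cast
    ring
  rw [this, Complex.exp_pi_mul_I]

theorem w_six : w ^ 6 = 1 := by
  have : w ^ 6 = (w ^ 3) ^ 2 := by ring
  rw [this, w_cube]
  norm_num

theorem w_quad : w ^ 2 - w + 1 = 0 := by
  have h : (w + 1) * (w ^ 2 - w + 1) = 0 := by linear_combination w_cube
  rcases mul_eq_zero.1 h with h | h
  · exfalso
    have h1 : w.im = 0 := by
      have := congrArg Complex.im h
      simpa using this
    exact absurd h1 w_im.ne'
  · exact h

theorem w_par (k : Fin 3) : par w k = w := by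
  have h1 : 1 - w ≠ 0 := by
    intro h
    have := w_quad
    have h2 : w = 1 := by linear_combination -h
    rw [h2] at this
    norm_num at this
  have h2 := w_ne
  have h3 := w_quad
  fin_cases k
  · rfl
  · show 1 / (1 - w) = w
    field_simp
    linear_combination h3
  · show 1 - 1 / w = w
    field_simp
    linear_combination -h3

theorem G_sum : ∀ e, ∑ k, ∑ j, tri.G k e j = 6 := by
  decide

theorem C_sum (γ : NormalCurve gl) :
    ∑ k, ∑ j, γ.C k j = ∑ i ∈ Finset.range γ.len, (Perm.sign (γ.arc i) : ℤ) := by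
  unfold NormalCurve.C
  rw [Finset.sum_congr rfl fun k _ => Finset.sum_comm, Finset.sum_comm]
  refine Finset.sum_congr rfl fun i _ => ?_
  have : ∀ k : Fin 3, ∑ j, (if γ.tet i = j ∧ kind (γ.arc i 0) (γ.arc i 1) = k then
      (Perm.sign (γ.arc i) : ℤ) else 0) = if kind (γ.arc i 0) (γ.arc i 1) = k then
      (Perm.sign (γ.arc i) : ℤ) else 0 := by
    intro k
    by_cases hk : kind (γ.arc i 0) (γ.arc i 1) = k
    · simp [hk]
    · simp [hk]
  rw [Finset.sum_congr rfl fun k _ => this k]
  simp

theorem prod_zpow_const {ι : Type} (S : Finset ι) (f : ι → ℤ) :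
    ∏ j ∈ S, w ^ f j = w ^ ∑ j ∈ S, f j := by
  classical
  induction S using Finset.induction_on with
  | empty => simp
  | insert a S ha ih => rw [Finset.prod_insert ha, Finset.sum_insert ha, zpow_add₀ w_ne, ih]

/-- The complete structure: two regular ideal tetrahedra. -/
noncomputable def shapes : CompleteShapes tri where
  z _ := w
  im_pos _ := w_im
  edge_prod e := by
    simp only [w_par, prod_zpow_const]
    rw [G_sum e]
    exact_mod_cast w_six
  edge_angle e := by
    simp only [w_par, w_arg]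
    have h := G_sum e
    have h2 : (∑ k, ∑ j, (tri.G k e j : ℝ)) = 6 := by exact_mod_cast h
    simp only [← Finset.sum_mul]
    rw [h2]
    ring
  complete γ := by
    simp only [w_par, prod_zpow_const]
    obtain ⟨n, hn⟩ := turning γ
    have h : ∑ k, ∑ j, γ.C k j = 6 * n := (C_sum γ).trans hn
    rw [h, _root_.zpow_mul]
    have : w ^ (6 : ℤ) = 1 := by exact_mod_cast w_six
    rw [this, _root_.one_zpow]

/-- The tetrahedra and the arcs of the meridian. -/
def mt : Fin 2 → Fin 2 := ![0, 1]

/-- The tetrahedra and the arcs of the meridian. -/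
def ma : Fin 2 → Perm (Fin 4) := ![1, swap 0 1]

theorem ofNat_succ (i : ℕ) : Fin.ofNat 2 (i + 1) = Fin.ofNat 2 i + 1 := by
  ext
  simp [Fin.ofNat, Fin.val_add]

/-- The meridian. -/
def meridian : NormalCurve gl where
  len := 2
  len_pos := by decide
  tet i := mt (Fin.ofNat 2 i)
  arc i := ma (Fin.ofNat 2 i)
  tet_succ i := by
    have h : ∀ x : Fin 2, mt (x + 1) = gl.adj (mt x) (ma x 2) := by decide
    rw [ofNat_succ]
    exact h _
  vertex_succ i := by
    have h : ∀ x : Fin 2, ma (x + 1) 0 = gl.glue (mt x) (ma x 2) (ma x 0) := by decide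
    rw [ofNat_succ]
    exact h _
  enter_succ i := by
    have h : ∀ x : Fin 2, ma (x + 1) 3 = gl.glue (mt x) (ma x 2) (ma x 2) := by decide
    rw [ofNat_succ]
    exact h _
  tet_period i := by
    have h : ∀ x : Fin 2, mt (x + 1 + 1) = mt x := by decide
    rw [ofNat_succ, ofNat_succ]
    exact h _
  arc_period i := by
    have h : ∀ x : Fin 2, ma (x + 1 + 1) = ma x := by decide
    rw [ofNat_succ, ofNat_succ]
    exact h _

theorem meridian_crossing (j : Fin 2) (v a : Fin 4) : meridian.crossing j v a =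
    ∑ x : Fin 2, ((if mt x = j ∧ ma x 0 = v ∧ ma x 2 = a then 1 else 0) -
      (if mt x = j ∧ ma x 0 = v ∧ ma x 3 = a then 1 else 0)) := by
  rw [Fin.sum_univ_two]
  show ∑ i ∈ Finset.range 2, _ = _
  rw [Finset.sum_range_succ, Finset.sum_range_one]
  rfl

/-- The meridian is essential: a closed path in the triangulation of the cusp crosses it once. -/
theorem meridian_essential : ¬ meridian.NullHomologous := by
  rintro ⟨g, hg, hc⟩
  have G : ∀ (j : Fin 2) (a v w : Fin 4) (k : Fin 2) (x y : Fin 4), v ≠ a → w ≠ a → v ≠ w →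
      gl.adj j a = k → gl.glue j a v = x → gl.glue j a w = y → g k x y = g j v w := by
    intro j a v w k x y h1 h2 h3 hk hx hy
    subst hk hx hy
    exact hg j a v w h1 h2 h3
  have C : ∀ (j : Fin 2) (σ : Perm (Fin 4)) (x y u t : Fin 4), Perm.sign σ = 1 →
      σ 0 = x → σ 1 = y → σ 2 = u → σ 3 = t → meridian.crossing j x u = g j x y - g j x t := by
    intro j σ x y u t h hx hy hu ht
    subst hx hy hu ht
    exact hc j σ h
  have g1 := G 0 2 0 1 1 1 2 (by decide) (by decide) (by decide) (by decide) (by decide)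
    (by decide)
  have g2 := G 0 0 2 1 1 1 2 (by decide) (by decide) (by decide) (by decide) (by decide)
    (by decide)
  have g3 := G 0 3 2 1 1 0 3 (by decide) (by decide) (by decide) (by decide) (by decide)
    (by decide)
  have g4 := G 0 2 3 0 1 0 1 (by decide) (by decide) (by decide) (by decide) (by decide)
    (by decide)
  have g5 := G 0 1 3 0 1 3 2 (by decide) (by decide) (by decide) (by decide) (by decide)
    (by decide)
  have g6 := G 0 3 1 0 1 3 1 (by decide) (by decide) (by decide) (by decide) (by decide)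
    (by decide)
  have g7 := G 0 2 1 0 1 2 1 (by decide) (by decide) (by decide) (by decide) (by decide)
    (by decide)
  have g8 := G 0 1 0 2 1 2 0 (by decide) (by decide) (by decide) (by decide) (by decide)
    (by decide)
  have c1 := C 1 1 0 1 2 3 (by decide) (by decide) (by decide) (by decide) (by decide)
  have c2 := C 1 (swap 0 3 * swap 2 3) 3 1 0 2 (by decide) (by decide) (by decide) (by decide)
    (by decide)
  have c3 := C 1 (swap 0 2 * swap 2 3) 2 1 3 0 (by decide) (by decide) (by decide) (by decide)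
    (by decide)
  have c4 := C 0 (swap 1 2 * swap 2 3) 0 2 3 1 (by decide) (by decide) (by decide) (by decide)
    (by decide)
  have k1 : meridian.crossing 1 0 2 = 0 := by rw [meridian_crossing]; decide
  have k2 : meridian.crossing 1 3 0 = 0 := by rw [meridian_crossing]; decide
  have k3 : meridian.crossing 1 2 3 = 0 := by rw [meridian_crossing]; decide
  have k4 : meridian.crossing 0 0 3 = -1 := by rw [meridian_crossing]; decide
  rw [k1] at c1
  rw [k2] at c2
  rw [k3] at c3
  rw [k4] at c4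
  linarith

theorem flattening : IsFlattening tri (fun k => ![![-1, -1], ![0, 2], ![2, 0]] k) where
  edge := by decide
  tet := by decide

/-- The hypotheses of the 1-loop theorem are satisfiable. -/
theorem hypotheses_satisfiable : ∃ (T : IdealTriangulation 2) (_ : CompleteShapes T)
    (θ : NormalCurve T.toGluing) (f : Fin 3 → Fin 2 → ℤ), ¬ θ.NullHomologous ∧
      IsFlattening T f :=
  ⟨tri, shapes, meridian, _, meridian_essential, flattening⟩

end FigureEight

end Pool.Agent.H15_OneLoop
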