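import Pool.Agent.H15_OneLoop.Core

set_option autoImplicit false

namespace Pool.Agent.H15_OneLoop

open Matrix

variable {N : ℕ}

/-- Three pairwise independent vectors can be mapped to three pairwise independent vectors up to
scalars. -/
theorem aux_three_vectors (V W : Fin 3 → Fin 2 → ℂ) (hV : ∀ i k, i ≠ k → dd (V i) (V k) ≠ 0)
    (hW : ∀ i k, i ≠ k → dd (W i) (W k) ≠ 0) :
    ∃ A : Mat2, IsUnit A.det ∧ ∀ i, ∃ c : ℂ, A *ᵥ V i = c • W i := by
  have v01 := hV 0 1 (by decide)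
  have v21 := hV 2 1 (by decide)
  have v02 := hV 0 2 (by decide)
  have w01 := hW 0 1 (by decide)
  have w21 := hW 2 1 (by decide)
  have w02 := hW 0 2 (by decide)
  obtain ⟨α, hα⟩ : ∃ α : ℂ, α = dd (W 2) (W 1) / dd (V 2) (V 1) := ⟨_, rfl⟩
  obtain ⟨β, hβ⟩ : ∃ β : ℂ, β = dd (W 0) (W 2) / dd (V 0) (V 2) := ⟨_, rfl⟩
  have hα0 : α ≠ 0 := by rw [hα]; exact div_ne_zero w21 v21
  have hβ0 : β ≠ 0 := by rw [hβ]; exact div_ne_zero w02 v02
  have hα' : α * dd (V 2) (V 1) = dd (W 2) (W 1) := by rw [hα]; field_simp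
  have hβ' : β * dd (V 0) (V 2) = dd (W 0) (W 2) := by rw [hβ]; field_simp
  refine ⟨!![α * V 1 1 * W 0 0 - β * V 0 1 * W 1 0, -(α * V 1 0 * W 0 0) + β * V 0 0 * W 1 0;
    α * V 1 1 * W 0 1 - β * V 0 1 * W 1 1, -(α * V 1 0 * W 0 1) + β * V 0 0 * W 1 1], ?_, ?_⟩
  · rw [isUnit_iff_ne_zero]
    have h : Matrix.det !![α * V 1 1 * W 0 0 - β * V 0 1 * W 1 0,
        -(α * V 1 0 * W 0 0) + β * V 0 0 * W 1 0;
        α * V 1 1 * W 0 1 - β * V 0 1 * W 1 1, -(α * V 1 0 * W 0 1) + β * V 0 0 * W 1 1] =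
        α * β * (dd (V 0) (V 1) * dd (W 0) (W 1)) := by
      rw [Matrix.det_fin_two_of]
      unfold dd
      ring
    rw [h]
    exact mul_ne_zero (mul_ne_zero hα0 hβ0) (mul_ne_zero v01 w01)
  · intro i
    fin_cases i
    · refine ⟨α * dd (V 0) (V 1), ?_⟩
      ext k
      fin_cases k <;>
        simp [Matrix.mulVec, dotProduct, Fin.sum_univ_two, dd] <;> ring
    · refine ⟨β * dd (V 0) (V 1), ?_⟩
      ext k
      fin_cases k <;>
        simp [Matrix.mulVec, dotProduct, Fin.sum_univ_two, dd] <;> ring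
    · refine ⟨dd (W 0) (W 1), ?_⟩
      unfold dd at hα' hβ' ⊢
      ext k
      fin_cases k
      · simp [Matrix.mulVec, dotProduct, Fin.sum_univ_two]
        linear_combination (W 0 0) * hα' + (W 1 0) * hβ'
      · simp [Matrix.mulVec, dotProduct, Fin.sum_univ_two]
        linear_combination (W 0 1) * hα' + (W 1 1) * hβ'

/-- TARGET 1 -/
theorem exists_holonomy (T : Gluing N) (z : Fin N → ℂ) (h0 : ∀ j, z j ≠ 0)
    (h1 : ∀ j, z j ≠ 1) : ∃ A, IsHolonomy T z A := by
  have key : ∀ j a, ∃ A : Mat2, IsUnit A.det ∧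
      ∀ v, v ≠ a → ∃ c : ℂ, A *ᵥ pos (z j) v = c • pos (z (T.adj j a)) (T.glue j a v) := by
    intro j a
    obtain ⟨A, hA, hA'⟩ := aux_three_vectors (fun i => pos (z j) (a.succAbove i))
      (fun i => pos (z (T.adj j a)) (T.glue j a (a.succAbove i)))
      (fun i k hik => mm_ne (h0 j) (h1 j) fun h => hik (Fin.succAbove_right_injective h))
      (fun i k hik => mm_ne (h0 _) (h1 _) fun h => hik
        (Fin.succAbove_right_injective ((T.glue j a).injective h)))
    refine ⟨A, hA, fun v hv => ?_⟩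
    obtain ⟨i, hi⟩ := Fin.exists_succAbove_eq hv
    obtain ⟨c, hc⟩ := hA' i
    exact ⟨c, by rw [← hi]; exact hc⟩
  choose A hA using key
  exact ⟨A, fun j a => hA j a⟩

/-- The parallel transport of the scale across a face. -/
theorem aux_scale_transport (T : Gluing N) (z : Fin N → ℂ) (h0 : ∀ j, z j ≠ 0)
    (h1 : ∀ j, z j ≠ 1) (A : Fin N → Fin 4 → Mat2) (hA : IsHolonomy T z A)
    (s : Fin N → Fin 4 → ℂ) (hs : ∀ j v, s j v ≠ 0)
    (hdis : ∀ j v a, v ≠ a → dis (z (T.adj j a)) (s (T.adj j a)) (T.glue j a v)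
      (T.glue j a (rgt v a)) (T.glue j a (lft v a)) = dis (z j) (s j) v (rgt v a) (lft v a))
    (j : Fin N) (a v : Fin 4) (hv : v ≠ a) :
    s (T.adj j a) (T.glue j a v) • nilM (pos (z (T.adj j a)) (T.glue j a v)) =
      A j a * (s j v • nilM (pos (z j) v)) * (A j a)⁻¹ := by
  obtain ⟨hu, hc⟩ := hA j a
  choose! c hc using hc
  have hdet : (A j a).det ≠ 0 := hu.ne_zero
  have hc0 : ∀ v, v ≠ a → c v ≠ 0 := by
    intro v hv h
    have h1 := hc v hv
    rw [h, zero_smul] at h1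
    have h2 : (A j a)⁻¹ *ᵥ (A j a *ᵥ pos (z j) v) = pos (z j) v := by
      rw [Matrix.mulVec_mulVec, Matrix.nonsing_inv_mul _ hu, Matrix.one_mulVec]
    rw [h1, Matrix.mulVec_zero] at h2
    exact pos_ne_zero _ _ h2.symm
  have hm : ∀ v w, v ≠ a → w ≠ a → mm (z (T.adj j a)) (T.glue j a v) (T.glue j a w) =
      (A j a).det * mm (z j) v w / (c v * c w) := by
    intro v w hv hw
    have e1 := hc0 v hv
    have e2 := hc0 w hw
    have h3 : (A j a).det * mm (z j) v w =
        c v * c w * mm (z (T.adj j a)) (T.glue j a v) (T.glue j a w) := by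
      unfold mm
      rw [← dd_mulVec, hc v hv, hc w hw, dd_smul]
    rw [h3]
    field_simp
  obtain ⟨n1, n2, n3, n4, n5⟩ := lft_ne v a hv
  have hd := hdis j v a hv
  unfold dis at hd
  rw [hm _ _ n4 n2, hm _ _ hv n4, hm _ _ hv n2] at hd
  have m1 := mm_ne (h0 j) (h1 j) n5.symm
  have m2 := mm_ne (h0 j) (h1 j) n3.symm
  have m3 := mm_ne (h0 j) (h1 j) n1.symm
  have k1 := hc0 v hv
  have k2 := hc0 _ n2
  have k3 := hc0 _ n4
  have s1 := hs j v
  have s2 := hs (T.adj j a) (T.glue j a v)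
  have hfin : s (T.adj j a) (T.glue j a v) = s j v * ((A j a).det)⁻¹ * c v ^ 2 := by
    field_simp at hd ⊢
    linear_combination -hd
  rw [Matrix.mul_smul, Matrix.smul_mul, mul_nilM_mul, hc v hv, nilM_smul, smul_smul, smul_smul,
    hfin]

/-- TARGET 2 -/
theorem setup_of_scale (T : Gluing N) (z : Fin N → ℂ) (h0 : ∀ j, z j ≠ 0)
    (h1 : ∀ j, z j ≠ 1) (A : Fin N → Fin 4 → Mat2) (hA : IsHolonomy T z A)
    (s : Fin N → Fin 4 → ℂ) (hs : ∀ j v, s j v ≠ 0)
    (hdis : ∀ j v a, v ≠ a → dis (z (T.adj j a)) (s (T.adj j a)) (T.glue j a v)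
      (T.glue j a (rgt v a)) (T.glue j a (lft v a)) = dis (z j) (s j) v (rgt v a) (lft v a))
    (j₀ : Fin N) : Setup T z A (fun j v => s j v • nilM (pos (z j) v)) s where
  h0 := h0
  h1 := h1
  hA := hA
  hP := by
    refine ⟨fun j v => ?_, fun j a v hv => ?_, j₀, 0, ?_⟩
    · rw [Matrix.trace_smul, nilM_trace, smul_zero]
    · exact aux_scale_transport T z h0 h1 A hA s hs hdis j a v hv
    · exact smul_ne_zero (hs _ _) (nilM_ne_zero (pos_ne_zero _ _))
  hs := hs
  hPs := fun _ _ => rfl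

/-- TARGET 3 -/
theorem exists_faceChoice (T : Gluing N) : ∃ φ, IsFaceChoice T φ := by
  classical
  let ι : Fin N × Fin 4 → Fin N × Fin 4 := fun x => (T.adj x.1 x.2, T.glue x.1 x.2 x.2)
  have hι : ∀ x, ι (ι x) = x := by
    rintro ⟨j, a⟩
    simp only [ι]
    rw [T.adj_adj, T.glue_apply_glue]
  have hne : ∀ x, ι x ≠ x := by
    rintro ⟨j, a⟩ h
    simp only [ι, Prod.mk.injEq] at h
    exact T.ne_self j a h
  let e : Fin N × Fin 4 ≃ Fin (N * 4) := finProdFinEquiv
  let S : Finset (Fin N × Fin 4) := Finset.univ.filter fun x => e x < e (ι x)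
  have hS : ∀ x, x ∈ S ↔ e x < e (ι x) := by
    intro x
    simp [S]
  have hS' : ∀ x, x ∉ S ↔ ι x ∈ S := by
    intro x
    rw [hS, hS, hι, not_lt]
    constructor
    · intro h
      exact lt_of_le_of_ne h fun h' => hne x (e.injective h')
    · intro h
      exact h.le
  have hcard : S.card = Sᶜ.card := by
    refine Finset.card_bij (fun x _ => ι x) ?_ ?_ ?_
    · intro x hx
      rw [Finset.mem_compl, hS', hι]
      exact hx
    · intro x _ y _ h
      rw [← hι x, ← hι y, h]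
    · intro y hy
      refine ⟨ι y, ?_, hι y⟩
      rw [← hS']
      exact Finset.mem_compl.1 hy
  have hcard2 : S.card = 2 * N := by
    have h := Finset.card_add_card_compl S
    rw [← hcard, Fintype.card_prod, Fintype.card_fin, Fintype.card_fin] at h
    omega
  let φ' : Fin (2 * N) ≃ S := (S.equivFinOfCardEq hcard2).symm
  refine ⟨fun F => (φ' F : Fin N × Fin 4), fun j a => ?_⟩
  have hmem : ∀ F, ((φ' F : S) : Fin N × Fin 4) ∈ S := fun F => (φ' F).2
  by_cases hx : (j, a) ∈ S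
  · refine ⟨φ'.symm ⟨(j, a), hx⟩, ?_, ?_⟩
    · left
      simp
    · intro F hF
      rcases hF with hF | hF
      · rw [Equiv.eq_symm_apply]
        exact Subtype.ext hF
      · exfalso
        have h1 := hmem F
        simp only [] at hF
        rw [hF] at h1
        exact (hS' (j, a)).2 h1 hx
  · have hx' : (T.adj j a, T.glue j a a) ∈ S := (hS' (j, a)).1 hx
    refine ⟨φ'.symm ⟨(T.adj j a, T.glue j a a), hx'⟩, ?_, ?_⟩
    · right
      simp
    · intro F hF
      rcases hF with hF | hF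
      · exfalso
        have h1 := hmem F
        simp only [] at hF
        rw [hF] at h1
        exact hx h1
      · rw [Equiv.eq_symm_apply]
        exact Subtype.ext hF

end Pool.Agent.H15_OneLoop
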