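import Pool.Agent.H15_OneLoop.Core
import Pool.Agent.H15_OneLoop.Cusp



/-!
# Area, and the invariants of the peripheral subgroup (proofs by helper777)
-/

set_option autoImplicit false

namespace Pool.Agent.H15_OneLoop

open Matrix

variable {N : ℕ}

theorem par_im_pos {z : ℂ} (hz : 0 < z.im) (k : Fin 3) : 0 < (par z k).im := by
  have h0 : z ≠ 0 := by rintro rfl; simp at hz
  have h1 : (1 : ℂ) - z ≠ 0 := by
    intro h
    have := congrArg Complex.im h
    simp at this
    linarith
  have n0 := Complex.normSq_pos.2 h0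
  have n1 := Complex.normSq_pos.2 h1
  fin_cases k
  · simpa [par] using hz
  · have e : (par z 1).im = z.im / Complex.normSq (1 - z) := by
      simp [par, Complex.inv_im]
    show 0 < (par z 1).im
    rw [e]
    positivity
  · have e : (par z 2).im = z.im / Complex.normSq z := by
      simp [par, Complex.inv_im]
      ring
    show 0 < (par z 2).im
    rw [e]
    positivity

theorem ne_zero_one_of_im {z : ℂ} (hz : 0 < z.im) : z ≠ 0 ∧ z ≠ 1 := by
  constructor
  · rintro rfl; simp at hz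
  · rintro rfl; simp at hz

theorem lft_rgt_cycle : ∀ v a : Fin 4, v ≠ a →
    lft v (lft v a) = rgt v a ∧ rgt v (lft v a) = a ∧ lft v (rgt v a) = a ∧
      rgt v (rgt v a) = lft v a := by
  decide

/-- TARGET -/
theorem area_pos {z : ℂ} (hz : 0 < z.im) (s : Fin 4 → ℂ) (hs : ∀ v, s v ≠ 0) (v : Fin 4)
    (X : Fin 4 → ℂ)
    (hX : ∀ a, v ≠ a → X (lft v a) - X (rgt v a) = dis z s v (rgt v a) (lft v a)) :
    0 < ∑ a, (if a = v then 0 else ((starRingEnd ℂ) (X (rgt v a)) * X (lft v a)).im) := by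
  obtain ⟨h0, h1⟩ := ne_zero_one_of_im hz
  obtain ⟨a, hva⟩ : ∃ a : Fin 4, v ≠ a := (by decide : ∀ v : Fin 4, ∃ a : Fin 4, v ≠ a) v
  obtain ⟨c1, c2, c3, c4⟩ := lft_rgt_cycle v a hva
  obtain ⟨l1, l2, l3, l4, l5⟩ := lft_ne v a hva
  have hall : ∀ v a : Fin 4, v ≠ a → ∀ u : Fin 4, u ≠ a → u ≠ lft v a → u ≠ rgt v a → u = v := by
    decide
  rw [sum_fin_three_distinct (v := a) (w := lft v a) (b := rgt v a) l2.symm l4.symm l5 _ (by
    intro u hu1 hu2 hu3
    rw [if_pos (hall v a hva u hu1 hu2 hu3)])]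
  rw [if_neg hva.symm, if_neg l1, if_neg l3, c1, c2, c3, c4]
  have x2 := hX (rgt v a) l3.symm
  rw [c3, c4] at x2
  have x1 := hX a hva
  have r := dis_ratio h0 h1 s hs hva
  rw [dis_antisymm z s v (rgt v a) (lft v a), ← x1, ← x2] at r
  set d := X a - X (lft v a) with hd
  have hd0 : d ≠ 0 := by
    rw [x2]
    exact dis_ne h0 h1 s (hs v) l1.symm hva l2
  have hp := par_im_pos hz (kind v (lft v a))
  set π' := par z (kind v (lft v a)) with hπ
  have e1 : X a = X (lft v a) + d := by rw [hd]; ring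
  have e2 : X (rgt v a) = X (lft v a) + π' * d := by linear_combination r
  have hn : 0 < Complex.normSq d := Complex.normSq_pos.2 hd0
  have e3 : ((starRingEnd ℂ) (X (rgt v a)) * X (lft v a)).im +
      ((starRingEnd ℂ) (X a) * X (rgt v a)).im +
      ((starRingEnd ℂ) (X (lft v a)) * X a).im = π'.im * Complex.normSq d := by
    rw [e1, e2]
    simp only [map_add, map_mul, Complex.add_im, Complex.mul_im, Complex.add_re, Complex.mul_re,
      Complex.conj_re, Complex.conj_im, Complex.normSq_apply]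
    ring
  rw [e3]
  positivity

/-- TARGET -/
theorem not_exact (T : Gluing N) (z : Fin N → ℂ) (hz : ∀ j, 0 < (z j).im)
    (s : Fin N → Fin 4 → ℂ) (hs : ∀ j v, s j v ≠ 0) (j₀ : Fin N)
    (g : Fin N → Fin 4 → Fin 4 → ℂ)
    (hg : ∀ j a v w, v ≠ a → w ≠ a → v ≠ w →
      g (T.adj j a) (T.glue j a v) (T.glue j a w) = g j v w)
    (hD : ∀ j v a, v ≠ a →
      g j v (lft v a) - g j v (rgt v a) = dis (z j) (s j) v (rgt v a) (lft v a)) : False := by
  set F : Fin N × Fin 4 × Fin 4 → ℝ := fun x =>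
    if x.2.2 = x.2.1 then 0 else
      ((starRingEnd ℂ) (g x.1 x.2.1 (rgt x.2.1 x.2.2)) * g x.1 x.2.1 (lft x.2.1 x.2.2)).im with hF
  have hpos : 0 < ∑ x, F x := by
    rw [Fintype.sum_prod_type]
    refine Finset.sum_pos (fun j _ => ?_) ⟨j₀, Finset.mem_univ _⟩
    rw [Fintype.sum_prod_type]
    refine Finset.sum_pos (fun v _ => ?_) ⟨0, Finset.mem_univ _⟩
    exact area_pos (hz j) (s j) (hs j) v (g j v) (fun a hva => hD j v a hva)
  set ι : Fin N × Fin 4 × Fin 4 → Fin N × Fin 4 × Fin 4 := fun x =>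
    (T.adj x.1 x.2.2, T.glue x.1 x.2.2 x.2.1, T.glue x.1 x.2.2 x.2.2) with hι
  have hinv : Function.Involutive ι := by
    rintro ⟨j, v, a⟩
    simp only [hι]
    rw [T.adj_adj, T.glue_apply_glue, T.glue_apply_glue]
  have hFι : ∀ x, F (ι x) = -F x := by
    rintro ⟨j, v, a⟩
    simp only [hF, hι]
    by_cases hva : a = v
    · subst hva
      simp
    · have hva' : v ≠ a := fun h => hva h.symm
      obtain ⟨l1, l2, l3, l4, l5⟩ := lft_ne v a hva'
      obtain ⟨k1, k2⟩ := lft_rgt_glue (T.glue j a) (T.odd j a) v a hva'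
      rw [if_neg hva, if_neg (fun h => hva ((T.glue j a).injective h)), k1, k2,
        hg j a v _ hva' l2 l1.symm, hg j a v _ hva' l4 l3.symm]
      simp only [Complex.mul_im, Complex.conj_re, Complex.conj_im]
      ring
  have h1 : ∑ x, F x = ∑ x, F (ι x) := (Equiv.sum_comp hinv.toPerm F).symm
  rw [Finset.sum_congr rfl (fun x _ => hFι x), Finset.sum_neg_distrib] at h1
  linarith

/-- a function on the triangles of the cusp which is invariant under the gluings is constant -/
theorem const_of_step {α : Type} (T : Gluing N)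
    (hT : ∀ p q : Fin N × Fin 4, Relation.EqvGen T.VertexStep p q) (φ : Fin N → Fin 4 → α)
    (hφ : ∀ j a v, v ≠ a → φ (T.adj j a) (T.glue j a v) = φ j v) (j k : Fin N) (v w : Fin 4) :
    φ j v = φ k w := by
  have key : ∀ p q : Fin N × Fin 4, Relation.EqvGen T.VertexStep p q →
      φ p.1 p.2 = φ q.1 q.2 := by
    intro p q h
    induction h with
    | rel x y h =>
      cases h with
      | cross j a v hv => exact (hφ j a v hv).symm
    | refl x => rfl
    | symm x y _ ih => exact ih.symm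
    | trans x y z _ _ ih1 ih2 => exact ih1.trans ih2
  exact key (j, v) (k, w) (hT _ _)

theorem quad_rel (Q : Mat2) (hQ : Q.trace = 0) (V W U : Fin 2 → ℂ) :
    dd V W ^ 2 * dd U (Q *ᵥ U) = dd V U ^ 2 * dd W (Q *ᵥ W) -
      2 * (dd W U * dd V U * dd V (Q *ᵥ W)) + dd W U ^ 2 * dd V (Q *ᵥ V) := by
  have h : Q 1 1 = -Q 0 0 := by
    rw [Matrix.trace, Fin.sum_univ_two] at hQ
    simp only [Matrix.diag_apply] at hQ
    linear_combination hQ
  simp only [dd, Matrix.mulVec, dotProduct, Fin.sum_univ_two, h]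
  ring

theorem lin_rel (Q : Mat2) (V W U : Fin 2 → ℂ) :
    dd V W * dd V (Q *ᵥ U) = dd V U * dd V (Q *ᵥ W) - dd W U * dd V (Q *ᵥ V) := by
  simp only [dd, Matrix.mulVec, dotProduct, Fin.sum_univ_two]
  ring

theorem exists_nilM (Q : Mat2) (hQ : Q.trace = 0) (V W : Fin 2 → ℂ) (hVW : dd V W ≠ 0)
    (h1 : dd V (Q *ᵥ V) = 0) (h2 : dd V (Q *ᵥ W) = 0) : ∃ c : ℂ, Q = c • nilM V := by
  have h : Q 1 1 = -Q 0 0 := by
    rw [Matrix.trace, Fin.sum_univ_two] at hQ
    simp only [Matrix.diag_apply] at hQ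
    linear_combination hQ
  simp only [dd, Matrix.mulVec, dotProduct, Fin.sum_univ_two, h] at h1 h2 hVW
  -- `Q V = 0`
  have k0 : Q 0 0 * V 0 + Q 0 1 * V 1 = 0 := by
    have : (V 0 * W 1 - V 1 * W 0) * (Q 0 0 * V 0 + Q 0 1 * V 1) = 0 := by
      linear_combination (W 0) * h1 - V 0 * h2
    exact (mul_eq_zero.1 this).resolve_left hVW
  have k1 : Q 1 0 * V 0 - Q 0 0 * V 1 = 0 := by
    have : (V 0 * W 1 - V 1 * W 0) * (Q 1 0 * V 0 - Q 0 0 * V 1) = 0 := by
      linear_combination (W 1) * h1 - V 1 * h2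
    exact (mul_eq_zero.1 this).resolve_left hVW
  by_cases hV1 : V 1 = 0
  · have hV0 : V 0 ≠ 0 := by
      intro h0
      rw [hV1, h0] at hVW
      simp at hVW
    rw [hV1, mul_zero] at k0 k1
    have q00 : Q 0 0 = 0 := by
      have : Q 0 0 * V 0 = 0 := by linear_combination k0
      exact (mul_eq_zero.1 this).resolve_right hV0
    have q10 : Q 1 0 = 0 := by
      have : Q 1 0 * V 0 = 0 := by linear_combination k1
      exact (mul_eq_zero.1 this).resolve_right hV0
    refine ⟨Q 0 1 / (V 0 * V 0), ?_⟩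
    ext i j
    fin_cases i <;> fin_cases j <;> simp [nilM, hV1, q00, q10, h]
    field_simp
  · refine ⟨-Q 1 0 / (V 1 * V 1), ?_⟩
    have q00 : Q 0 0 = Q 1 0 * V 0 / V 1 := by
      field_simp
      linear_combination -k1
    have q01 : Q 0 1 = -(Q 1 0 * V 0 * V 0) / (V 1 * V 1) := by
      have e : Q 0 1 * V 1 = -(Q 0 0 * V 0) := by linear_combination k0
      rw [q00] at e
      field_simp at e ⊢
      linear_combination e
    ext i j
    fin_cases i <;> fin_cases j <;> simp [nilM, h, q00, q01] <;> field_simp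

/-- the polar form of the quadratic form of `Q j v` -/
noncomputable def BB (z : Fin N → ℂ) (Q : Fin N → Fin 4 → Mat2) (j : Fin N) (v x w : Fin 4) : ℂ :=
  dd (pos (z j) x) (Q j v *ᵥ pos (z j) w)

theorem BB_glue {T : Gluing N} {z : Fin N → ℂ} {A Q : Fin N → Fin 4 → Mat2}
    (hA : IsHolonomy T z A)
    (hQ : ∀ j a v, v ≠ a → Q (T.adj j a) (T.glue j a v) = A j a * Q j v * (A j a)⁻¹)
    {j : Fin N} {a v x w : Fin 4} (hv : v ≠ a) {cx cw : ℂ}
    (hx : A j a *ᵥ pos (z j) x = cx • pos (z (T.adj j a)) (T.glue j a x))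
    (hw : A j a *ᵥ pos (z j) w = cw • pos (z (T.adj j a)) (T.glue j a w)) :
    cx * cw * BB z Q (T.adj j a) (T.glue j a v) (T.glue j a x) (T.glue j a w) =
      (A j a).det * BB z Q j v x w := by
  unfold BB
  rw [← dd_smul, ← Matrix.mulVec_smul, ← hx, ← hw, hQ j a v hv, Matrix.mulVec_mulVec,
    Matrix.mul_assoc, Matrix.nonsing_inv_mul _ (hA j a).1, Matrix.mul_one, ← Matrix.mulVec_mulVec,
    dd_mulVec]

/-- TARGET -/
theorem cuspInvariant_parabolic (T : Gluing N)
    (hT : ∀ p q : Fin N × Fin 4, Relation.EqvGen T.VertexStep p q)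
    (z : Fin N → ℂ) (hz : ∀ j, 0 < (z j).im) (A X Q : Fin N → Fin 4 → Mat2)
    (s : Fin N → Fin 4 → ℂ) (H : Setup T z A X s) (hQ : IsCuspInvariant T A Q) :
    ∃ s' : Fin N → Fin 4 → ℂ, (∀ j v, s' j v ≠ 0) ∧
      ∀ j v, Q j v = s' j v • nilM (pos (z j) v) := by
  obtain ⟨j₀, v₀, hne⟩ := hQ.ne_zero
  -- the three invariants
  set γ : Fin N → Fin 4 → ℂ := fun j v => s j v * BB z Q j v v v with hγ
  set g : Fin N → Fin 4 → Fin 4 → ℂ := fun j v w => BB z Q j v v w / mm (z j) v w with hg
  set f : Fin N → Fin 4 → Fin 4 → ℂ := fun j v w =>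
    BB z Q j v w w / (s j v * mm (z j) v w ^ 2) with hf
  have hmm : ∀ j v w, v ≠ w → mm (z j) v w ≠ 0 := fun j v w hvw => mm_ne (H.h0 j) (H.h1 j) hvw
  -- invariance
  have hγ_inv : ∀ j a v, v ≠ a → γ (T.adj j a) (T.glue j a v) = γ j v := by
    intro j a v hv
    obtain ⟨c, hc0, hc, hm, hsc⟩ := H.scale j a
    have hD : (A j a).det ≠ 0 := (H.hA j a).1.ne_zero
    have e := BB_glue H.hA hQ.parallel hv (hc v hv) (hc v hv)
    have es := hsc v hv
    have c1 := hc0 v hv
    simp only [hγ]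
    apply mul_left_cancel₀ (mul_ne_zero hD (mul_ne_zero c1 c1))
    linear_combination (s (T.adj j a) (T.glue j a v) * (A j a).det) * e +
      ((A j a).det * BB z Q j v v v) * es
  have hg_inv : ∀ j a v w, v ≠ a → w ≠ a → v ≠ w →
      g (T.adj j a) (T.glue j a v) (T.glue j a w) = g j v w := by
    intro j a v w hv hw hvw
    obtain ⟨c, hc0, hc, hm, hsc⟩ := H.scale j a
    have hD : (A j a).det ≠ 0 := (H.hA j a).1.ne_zero
    have e := BB_glue H.hA hQ.parallel hv (hc v hv) (hc w hw)
    have em := hm v w hv hw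
    have c1 := hc0 v hv
    have c2 := hc0 w hw
    have m1 := hmm j v w hvw
    have m2 := hmm (T.adj j a) (T.glue j a v) (T.glue j a w)
      (fun h => hvw ((T.glue j a).injective h))
    simp only [hg]
    rw [div_eq_div_iff m2 m1]
    apply mul_left_cancel₀ (mul_ne_zero hD (mul_ne_zero c1 c2))
    linear_combination ((A j a).det * mm (z j) v w) * e +
      ((A j a).det * BB z Q j v v w) * em
  have hf_inv : ∀ j a v w, v ≠ a → w ≠ a → v ≠ w →
      f (T.adj j a) (T.glue j a v) (T.glue j a w) = f j v w := by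
    intro j a v w hv hw hvw
    obtain ⟨c, hc0, hc, hm, hsc⟩ := H.scale j a
    have hD : (A j a).det ≠ 0 := (H.hA j a).1.ne_zero
    have e := BB_glue H.hA hQ.parallel hv (hc w hw) (hc w hw)
    have em := hm v w hv hw
    have es := hsc v hv
    have c1 := hc0 v hv
    have c2 := hc0 w hw
    have m1 := hmm j v w hvw
    have m2 := hmm (T.adj j a) (T.glue j a v) (T.glue j a w)
      (fun h => hvw ((T.glue j a).injective h))
    have s1 := H.hs j v
    have s2 := H.hs (T.adj j a) (T.glue j a v)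
    simp only [hf]
    set B' := BB z Q (T.adj j a) (T.glue j a v) (T.glue j a w) (T.glue j a w)
    set B := BB z Q j v w w
    set m' := mm (z (T.adj j a)) (T.glue j a v) (T.glue j a w)
    set m := mm (z j) v w
    set s' := s (T.adj j a) (T.glue j a v)
    set D := (A j a).det
    have eB : B' = D * B / (c w * c w) := by
      field_simp
      linear_combination e
    have em' : m' = D * m / (c v * c w) := by
      field_simp
      linear_combination -em
    have es' : s' = s j v * c v ^ 2 / D := by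
      field_simp
      linear_combination es
    rw [eB, em', es']
    field_simp
  -- relations in a triangle
  have hg_rel : ∀ j v w b, v ≠ w → v ≠ b → g j v b = g j v w - γ j v * dis (z j) (s j) v w b := by
    intro j v w b hvw hvb
    have m1 := hmm j v w hvw
    have m2 := hmm j v b hvb
    have s1 := H.hs j v
    have key := lin_rel (Q j v) (pos (z j) v) (pos (z j) w) (pos (z j) b)
    simp only [hg, hγ, dis]
    change mm (z j) v w * BB z Q j v v b = mm (z j) v b * BB z Q j v v w -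
      mm (z j) w b * BB z Q j v v v at key
    field_simp
    linear_combination key
  have hf_rel : ∀ j v w b, v ≠ w → v ≠ b → f j v b = f j v w -
      2 * g j v w * dis (z j) (s j) v w b + γ j v * dis (z j) (s j) v w b ^ 2 := by
    intro j v w b hvw hvb
    have m1 := hmm j v w hvw
    have m2 := hmm j v b hvb
    have s1 := H.hs j v
    have key := quad_rel (Q j v) (hQ.trace_eq j v) (pos (z j) v) (pos (z j) w) (pos (z j) b)
    simp only [hg, hγ, hf, dis]
    change mm (z j) v w ^ 2 * BB z Q j v b b = mm (z j) v b ^ 2 * BB z Q j v w w -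
      2 * (mm (z j) w b * mm (z j) v b * BB z Q j v v w) + mm (z j) w b ^ 2 * BB z Q j v v v at key
    field_simp
    linear_combination key
  -- `γ = 0`
  have hγ_const := const_of_step T hT γ hγ_inv
  have hγ0 : ∀ j v, γ j v = 0 := by
    by_contra hcon
    push Not at hcon
    obtain ⟨j₁, v₁, h1⟩ := hcon
    set γ₀ := γ j₁ v₁ with hγ₀
    refine not_exact T z hz s H.hs j₀ (fun j v w => -(g j v w) / γ₀) ?_ ?_
    · intro j a v w hv hw hvw
      rw [hg_inv j a v w hv hw hvw]
    · intro j v a hva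
      obtain ⟨l1, l2, l3, l4, l5⟩ := lft_ne v a hva
      have h2 := hg_rel j v (rgt v a) (lft v a) l3.symm l1.symm
      rw [hγ_const j j₁ v v₁, ← hγ₀] at h2
      rw [h2]
      field_simp
      ring
  -- `g = 0`
  have hg_eq : ∀ j v w b, v ≠ w → v ≠ b → g j v b = g j v w := by
    intro j v w b hvw hvb
    rw [hg_rel j v w b hvw hvb, hγ0, zero_mul, sub_zero]
  have hex : ∀ v : Fin 4, ∃ w : Fin 4, v ≠ w := by decide
  choose n hn using hex
  have hg_const := const_of_step T hT (fun j v => g j v (n v)) (by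
    intro j a v hv
    obtain ⟨l1, l2, l3, l4, l5⟩ := lft_ne v a hv
    rw [hg_eq (T.adj j a) (T.glue j a v) (T.glue j a (lft v a)) _
      (fun h => l1 ((T.glue j a).injective h).symm) (hn _),
      hg_inv j a v (lft v a) hv l2 l1.symm, hg_eq j v (lft v a) (n v) l1.symm (hn v)])
  have hg0 : ∀ j v w, v ≠ w → g j v w = 0 := by
    by_contra hcon
    push Not at hcon
    obtain ⟨j₁, v₁, w₁, hvw₁, h1⟩ := hcon
    set g₀ := g j₁ v₁ w₁ with hg₀
    have hgc : ∀ j v w, v ≠ w → g j v w = g₀ := by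
      intro j v w hvw
      rw [hg_eq j v (n v) w (hn v) hvw, hg₀, hg_eq j₁ v₁ (n v₁) w₁ (hn v₁) hvw₁]
      exact hg_const j j₁ v v₁
    refine not_exact T z hz s H.hs j₀ (fun j v w => -(f j v w) / (2 * g₀)) ?_ ?_
    · intro j a v w hv hw hvw
      rw [hf_inv j a v w hv hw hvw]
    · intro j v a hva
      obtain ⟨l1, l2, l3, l4, l5⟩ := lft_ne v a hva
      have h2 := hf_rel j v (rgt v a) (lft v a) l3.symm l1.symm
      rw [hγ0, hgc j v (rgt v a) l3.symm] at h2
      rw [h2]
      field_simp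
      ring
  -- conclusion
  have hnil : ∀ j v, ∃ c : ℂ, Q j v = c • nilM (pos (z j) v) := by
    intro j v
    have m1 := hmm j v (n v) (hn v)
    refine exists_nilM (Q j v) (hQ.trace_eq j v) _ (pos (z j) (n v)) m1 ?_ ?_
    · have h1 := hγ0 j v
      simp only [hγ] at h1
      exact (mul_eq_zero.1 h1).resolve_left (H.hs j v)
    · have h1 := hg0 j v (n v) (hn v)
      simp only [hg] at h1
      exact (div_eq_zero_iff.1 h1).resolve_right m1
  choose s' hs' using hnil
  refine ⟨s', ?_, hs'⟩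
  intro j v h0
  have hz0 : Q j v = 0 := by rw [hs' j v, h0, zero_smul]
  have hconst := const_of_step T hT (fun j v => Q j v = 0) (by
    intro j a v hv
    apply propext
    rw [hQ.parallel j a v hv]
    have hu := (H.hA j a).1
    constructor
    · intro h
      have h2 : (A j a)⁻¹ * (A j a * Q j v * (A j a)⁻¹) * A j a = Q j v := by
        rw [Matrix.mul_assoc (A j a), ← Matrix.mul_assoc, Matrix.nonsing_inv_mul _ hu,
          Matrix.one_mul, Matrix.mul_assoc, Matrix.nonsing_inv_mul _ hu, Matrix.mul_one]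
      rw [← h2, h]
      simp
    · intro h
      rw [h]
      simp)
  have h3 := hconst j j₀ v v₀
  beta_reduce at h3
  exact hne (h3 ▸ hz0)

end Pool.Agent.H15_OneLoop
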