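import Pool.Agent.H15_OneLoop.Reps
import Pool.Agent.H15_OneLoop.Duality
import Pool.Agent.H15_OneLoop.TorusCore
import Pool.Agent.H15_OneLoop.Parabolic

/-!
# The intersection number of the displacement class with an essential curve (proofs by helper322)
-/

set_option autoImplicit false

namespace Pool.Agent.H15_OneLoop

open Matrix

variable {N : ℕ}

/-- TARGET 1 -/
theorem crossing_div {T : Gluing N} (θ : NormalCurve T) (j : Fin N) (v : Fin 4) :
    ∑ a, θ.crossing j v a = 0 := by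
  unfold NormalCurve.crossing
  rw [Finset.sum_comm]
  refine Finset.sum_eq_zero fun i _ => ?_
  rw [Finset.sum_sub_distrib]
  have h : ∀ k : Fin 4, ∑ a, (if θ.tet i = j ∧ θ.arc i 0 = v ∧ θ.arc i k = a then (1 : ℤ) else 0)
      = if θ.tet i = j ∧ θ.arc i 0 = v then 1 else 0 := by
    intro k
    rw [Finset.sum_eq_single (θ.arc i k)]
    · simp
    · intro b _ hb
      rw [if_neg]
      rintro ⟨-, -, h⟩
      exact hb h.symm
    · intro h
      exact absurd (Finset.mem_univ _) h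
  rw [h, h, sub_self]

/-- TARGET 2 -/
theorem torus_hyps (T : IdealTriangulation N) (φ : Fin (2 * N) → Fin N × Fin 4)
    (hφ : IsFaceChoice T.toGluing φ) (cls : Fin N → Fin 4 → Fin 4 → Fin N × Fin 2)
    (hcls : IsCornerClass T.toGluing cls) (c₀ : Fin N × Fin 2) (t₀ : Fin N × Fin 4) :
    Fintype.card (Fin (2 * N) × Fin 3) =
        Fintype.card (Fin N × Fin 2) + Fintype.card (Fin N × Fin 4) ∧
    cuspD₁ T.toGluing φ * cuspD₂ φ cls = 0 ∧
    (∀ i, ∑ c, cuspD₂ φ cls i c = 0) ∧ (∀ i, ∑ t, cuspD₁ T.toGluing φ t i = 0) ∧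
    (∀ c, ∃ l : Fin (2 * N) × Fin 3 → ℤ,
      l ᵥ* cuspD₂ φ cls = Pi.single c 1 - Pi.single c₀ 1) ∧
    (∀ t, ∃ y : Fin (2 * N) × Fin 3 → ℤ,
      cuspD₁ T.toGluing φ *ᵥ y = Pi.single t 1 - Pi.single t₀ 1) ∧
    (∀ x, cuspD₁ T.toGluing φ *ᵥ x = 0 → x ⬝ᵥ cuspΩ T.toGluing φ *ᵥ x = 0) ∧
    (∀ g y, cuspD₁ T.toGluing φ *ᵥ y = 0 →
      (cuspD₂ φ cls *ᵥ g) ⬝ᵥ cuspΩ T.toGluing φ *ᵥ y = 0) ∧
    (∀ l, l ᵥ* cuspD₂ φ cls = 0 → ∃ y, cuspD₁ T.toGluing φ *ᵥ y = 0 ∧
      ∀ x, cuspD₁ T.toGluing φ *ᵥ x = 0 → x ⬝ᵥ cuspΩ T.toGluing φ *ᵥ y = l ⬝ᵥ x) := by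
  refine ⟨?_, cusp_D₁D₂ T.toGluing φ hφ cls hcls, ?_, ?_, ?_, ?_, ?_, ?_, ?_⟩
  · simp only [Fintype.card_prod, Fintype.card_fin]
    ring
  · intro i
    unfold cuspD₂
    rw [Finset.sum_sub_distrib]
    simp
  · intro i
    unfold cuspD₁
    rw [Finset.sum_sub_distrib]
    simp
  · intro c
    exact cusp_prim T.toGluing T.one_cusp φ hφ cls hcls c c₀
  · intro t
    exact cusp_dual T.toGluing T.one_cusp φ hφ t t₀
  · intro x hx
    exact cusp_omega_self T.toGluing φ hφ x hx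
  · intro g y hy
    exact cusp_omega_exact T.toGluing φ hφ cls hcls g y hy
  · intro l hl
    exact cusp_omega_dual T.toGluing φ hφ cls hcls l hl

/-- the pairing of the displacement flow with its complex conjugate -/
theorem J11_pair (T : Gluing N) {z : Fin N → ℂ}
    {A P : Fin N → Fin 4 → Mat2} {s : Fin N → Fin 4 → ℂ} (H : Setup T z A P s)
    (hz : ∀ j, 0 < (z j).im) (φ : Fin (2 * N) → Fin N × Fin 4)
    (hφ : IsFaceChoice T φ) (r : Fin N) :
    res φ (disFlow z s) ⬝ᵥ (cuspΩ T φ).map (Int.cast : ℤ → ℂ) *ᵥ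
      (res φ fun j v a => (starRingEnd ℂ) (disFlow z s j v a)) ≠ 0 := by
  set D := disFlow z s with hDdef
  have hD : IsFlow T D := disFlow_isFlow H
  have hDs : ∀ j v, ∑ a, D j v a = 0 := fun j v => disFlow_sum H.h0 H.h1 H.hs j v
  have hD' : IsFlow T (fun j v a => (starRingEnd ℂ) (D j v a)) := by
    refine ⟨fun j a => ?_, fun j v a hva => ?_⟩
    · rw [hD.diag, map_zero]
    · rw [hD.anti j v a hva, map_neg]
  have hps : ∀ j v a, v ≠ a → pot (D j v) v (lft v a) - pot (D j v) v (rgt v a) = D j v a :=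
    fun j v a h => pot_sub (D j v) v (hD.diag j v) (hDs j v) a h
  have hjump : ∀ j v a, v ≠ a → 2 * jump T D j v a =
      (pot (D j v) v (lft v a) + pot (D j v) v (rgt v a)) -
      (pot (D (T.adj j a) (T.glue j a v)) (T.glue j a v) (lft (T.glue j a v) (T.glue j a a)) +
        pot (D (T.adj j a) (T.glue j a v)) (T.glue j a v)
          (rgt (T.glue j a v) (T.glue j a a))) := by
    intro j v a h
    obtain ⟨h1, h2⟩ := lft_rgt_glue (T.glue j a) (T.odd j a) v a h
    have e1 := hps j v a h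
    have e2 := hps (T.adj j a) (T.glue j a v) (T.glue j a a)
      (fun h' => h ((T.glue j a).injective h'))
    rw [hD.anti j v a h] at e2
    unfold jump
    rw [h1, h2] at e2 ⊢
    linear_combination e1 + e2
  have hpair := pairing T φ hφ (fun j v a => (starRingEnd ℂ) (D j v a) *
    (pot (D j v) v (lft v a) + pot (D j v) v (rgt v a)))
    (fun j a => by rw [hD.diag]; simp)
  have hd := dot_res T φ hφ D hD (res φ fun j v a => (starRingEnd ℂ) (D j v a))
  have h2 : 2 * (res φ D ⬝ᵥ (cuspΩ T φ).map (Int.cast : ℤ → ℂ) *ᵥ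
      (res φ fun j v a => (starRingEnd ℂ) (D j v a))) =
      ∑ j, ∑ v, ∑ a, (starRingEnd ℂ) (D j v a) *
        (pot (D j v) v (lft v a) + pot (D j v) v (rgt v a)) := by
    rw [hpair, hd, Finset.mul_sum]
    refine Finset.sum_congr rfl fun x _ => ?_
    have e1 := hjump (φ x.1).1 (sv φ x) (φ x.1).2 (Fin.succAbove_ne _ _)
    rw [hD.anti _ (sv φ x) _ (Fin.succAbove_ne _ _), map_neg]
    unfold res
    linear_combination ((starRingEnd ℂ) (D (φ x.1).1 (sv φ x) (φ x.1).2)) * e1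
  have him : ∀ j v, (∑ a, (starRingEnd ℂ) (D j v a) *
        (pot (D j v) v (lft v a) + pot (D j v) v (rgt v a))).im < 0 := by
    intro j v
    have ha := area_pos (hz j) (s j) (H.hs j) v (pot (D j v) v) (fun a h => hps j v a h)
    set X := pot (D j v) v with hX
    have hterm : ∀ a, (starRingEnd ℂ) (D j v a) * (X (lft v a) + X (rgt v a)) =
        ((starRingEnd ℂ) (X (lft v a)) * X (lft v a) -
          (starRingEnd ℂ) (X (rgt v a)) * X (rgt v a)) +
        ((starRingEnd ℂ) (X (lft v a)) * X (rgt v a) -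
          (starRingEnd ℂ) (X (rgt v a)) * X (lft v a)) := by
      intro a
      by_cases h : v = a
      · subst h
        rw [hD.diag, (lft_self v).1, (lft_self v).2, map_zero]
        ring
      · rw [← hps j v a h, map_sub]
        ring
    have hsum : ∑ a, (starRingEnd ℂ) (D j v a) * (X (lft v a) + X (rgt v a)) =
        ∑ a, ((starRingEnd ℂ) (X (lft v a)) * X (rgt v a) -
          (starRingEnd ℂ) (X (rgt v a)) * X (lft v a)) := by
      simp only [hterm]
      rw [Finset.sum_add_distrib, Finset.sum_sub_distrib,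
        (j303_lft_bij v).sum_comp (fun w => (starRingEnd ℂ) (X w) * X w),
        (j303_rgt_bij v).sum_comp (fun w => (starRingEnd ℂ) (X w) * X w), sub_self, zero_add]
    rw [hsum, Complex.im_sum]
    have hfin : ∑ a, ((starRingEnd ℂ) (X (lft v a)) * X (rgt v a) -
          (starRingEnd ℂ) (X (rgt v a)) * X (lft v a)).im =
        -2 * ∑ a, (if a = v then 0 else ((starRingEnd ℂ) (X (rgt v a)) * X (lft v a)).im) := by
      rw [Finset.mul_sum]
      refine Finset.sum_congr rfl fun a _ => ?_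
      by_cases h : a = v
      · subst h
        rw [if_pos rfl, (lft_self a).1, (lft_self a).2]
        simp
      · rw [if_neg h]
        simp only [Complex.sub_im, Complex.mul_im, Complex.conj_re, Complex.conj_im]
        ring
    rw [hfin]
    linarith
  intro h
  rw [h, mul_zero] at h2
  have h3 := congrArg Complex.im h2
  rw [Complex.zero_im, Complex.im_sum] at h3
  have h4 : ∑ j, (∑ v, ∑ a, (starRingEnd ℂ) (D j v a) *
        (pot (D j v) v (lft v a) + pot (D j v) v (rgt v a))).im < 0 := by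
    refine Finset.sum_neg (fun j _ => ?_) ⟨r, Finset.mem_univ _⟩
    rw [Complex.im_sum]
    exact Finset.sum_neg (fun v _ => him j v) ⟨0, Finset.mem_univ _⟩
  linarith

/-- TARGET 3 -/
theorem intersection_ne_zero (T : IdealTriangulation N) {z : Fin N → ℂ}
    {A P : Fin N → Fin 4 → Mat2} {s : Fin N → Fin 4 → ℂ} (H : Setup T.toGluing z A P s)
    (hz : ∀ j, 0 < (z j).im) (φ : Fin (2 * N) → Fin N × Fin 4)
    (hφ : IsFaceChoice T.toGluing φ) (cls : Fin N → Fin 4 → Fin 4 → Fin N × Fin 2)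
    (hcls : IsCornerClass T.toGluing cls) (r : Fin N) (θ : NormalCurve T.toGluing)
    (hθ : ¬ θ.NullHomologous) :
    res φ (disFlow z s) ⬝ᵥ (cuspΩ T.toGluing φ).map (Int.cast : ℤ → ℂ) *ᵥ
      (res φ fun j v a => (θ.crossing j v a : ℂ)) ≠ 0 := by
  intro hI
  apply hθ
  have hD : IsFlow T.toGluing (disFlow z s) := disFlow_isFlow H
  have hDs : ∀ j v, ∑ a, disFlow z s j v a = 0 := fun j v => disFlow_sum H.h0 H.h1 H.hs j v
  have hD' : IsFlow T.toGluing (fun j v a => (starRingEnd ℂ) (disFlow z s j v a)) := by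
    refine ⟨fun j a => ?_, fun j v a hva => ?_⟩
    · rw [hD.diag, map_zero]
    · rw [hD.anti j v a hva, map_neg]
  have hd : (cuspD₁ T.toGluing φ).map (Int.cast : ℤ → ℂ) *ᵥ res φ (disFlow z s) = 0 := by
    ext t
    rw [div_res T.toGluing φ hφ _ hD t, hDs, neg_zero, Pi.zero_apply]
  have hd' : (cuspD₁ T.toGluing φ).map (Int.cast : ℤ → ℂ) *ᵥ
      (res φ fun j v a => (starRingEnd ℂ) (disFlow z s j v a)) = 0 := by
    ext t
    rw [div_res T.toGluing φ hφ _ hD' t, ← map_sum, hDs, map_zero, neg_zero, Pi.zero_apply]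
  have hθf : IsFlow T.toGluing (fun j u a => θ.crossing j u a) := by
    have := crossing_isFlow θ ℤ
    simpa only [Int.cast_id] using this
  have hθ0 : cuspD₁ T.toGluing φ *ᵥ (res φ fun j v a => θ.crossing j v a) = 0 := by
    ext t
    have := div_res T.toGluing φ hφ _ hθf t
    rw [j303_map_cast, crossing_div, neg_zero] at this
    exact this
  have hI' : (res φ fun j v a => (starRingEnd ℂ) (disFlow z s j v a)) ⬝ᵥ
      (cuspΩ T.toGluing φ).map (Int.cast : ℤ → ℂ) *ᵥ
      (res φ fun j v a => (θ.crossing j v a : ℂ)) = 0 := by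
    have h := congrArg (starRingEnd ℂ) hI
    rw [map_zero] at h
    rw [← h]
    simp only [dotProduct, mulVec, map_sum, map_mul, res, Matrix.map_apply, map_intCast]
  obtain ⟨hc, hDD, h2, h1, hprim, hdual, hΩ1, hΩ2, hΩ3⟩ :=
    torus_hyps T φ hφ cls hcls (r, 0) (r, 0)
  obtain ⟨g, hg⟩ := torus_exact (cuspD₂ φ cls) (cuspD₁ T.toGluing φ) (cuspΩ T.toGluing φ)
    (r, 0) (r, 0) hc hDD h2 h1 hprim hdual hΩ1 hΩ2 hΩ3 (res φ (disFlow z s))
    (res φ fun j v a => (starRingEnd ℂ) (disFlow z s j v a)) hd hd'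
    (J11_pair T.toGluing H hz φ hφ r)
    (res φ fun j v a => θ.crossing j v a) hθ0 hI hI'
  rw [j303_cf_res] at hg
  have hall : ∀ j v a, θ.crossing j v a = j303_cf cls g j v a := by
    intro j v a
    rw [j303_flow_expand T.toGluing φ hφ _ (j303_cf_flow T.toGluing cls hcls g) j v a, hg]
    exact j303_flow_expand T.toGluing φ hφ _ hθf j v a
  refine ⟨fun j v w => g (cls j v w), fun j a v w hv hw hvw => ?_, fun j σ hσ => ?_⟩
  · simp only [hcls.glue j a v w hv hw hvw]
  · obtain ⟨e1, e2⟩ := lft_rgt_of_even σ hσ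
    rw [hall]
    unfold j303_cf
    rw [e1, e2]

end Pool.Agent.H15_OneLoop
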