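import Pool.Agent.H15_OneLoop.Local

set_option autoImplicit false

namespace Pool.Agent.H15_OneLoop

open Matrix

variable {N : ℕ}

namespace J7

/-- sums over the edges of a given kind -/
def row (S : Fin 4 → Fin 4 → ℂ) (k : Fin 3) : ℂ := ∑ p ∈ oppEdges k, S p.1 p.2

/-- the function on the sides -/
def sid (S : Fin 4 → Fin 4 → ℂ) (v a : Fin 4) : ℂ :=
  S (lft v a) (rgt v a) - S v (lft v a) - S v (rgt v a)

theorem row_eq (S : Fin 4 → Fin 4 → ℂ) : row S 0 = S 0 1 + S 2 3 ∧ row S 1 = S 0 2 + S 1 3 ∧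
    row S 2 = S 0 3 + S 1 2 := by
  refine ⟨?_, ?_, ?_⟩ <;> simp [row, oppEdges]

theorem loc_even (S : Fin 4 → Fin 4 → ℂ) (hS : ∀ v w, v ≠ w → S v w = S w v) {v a : Fin 4}
    (hva : v ≠ a) :
    row S (kind v (lft v a) + 2) - row S (kind v (lft v a) + 1) =
      -(sid S v a - sid S v (rgt v a)) := by
  obtain ⟨r0, r1, r2⟩ := row_eq S
  have s10 := hS 1 0 (by decide)
  have s20 := hS 2 0 (by decide)
  have s30 := hS 3 0 (by decide)
  have s21 := hS 2 1 (by decide)
  have s31 := hS 3 1 (by decide)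
  have s32 := hS 3 2 (by decide)
  fin_cases v <;> fin_cases a <;> first | exact absurd rfl hva | skip
  all_goals
    simp [sid, lft, rgt, kind, r0, r1, r2, s10, s20, s30, s21, s31, s32]
    ring

theorem loc_odd (S : Fin 4 → Fin 4 → ℂ) (hS : ∀ v w, v ≠ w → S v w = S w v) {v a : Fin 4}
    (hva : v ≠ a) :
    row S (kind v (rgt v a) + 2) - row S (kind v (rgt v a) + 1) =
      (sid S v a - sid S v (lft v a)) := by
  obtain ⟨r0, r1, r2⟩ := row_eq S
  have s10 := hS 1 0 (by decide)
  have s20 := hS 2 0 (by decide)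
  have s30 := hS 3 0 (by decide)
  have s21 := hS 2 1 (by decide)
  have s31 := hS 3 1 (by decide)
  have s32 := hS 3 2 (by decide)
  fin_cases v <;> fin_cases a <;> first | exact absurd rfl hva | skip
  all_goals
    simp [sid, lft, rgt, kind, r0, r1, r2, s10, s20, s30, s21, s31, s32]
    ring

theorem loc (S : Fin 4 → Fin 4 → ℂ) (hS : ∀ v w, v ≠ w → S v w = S w v)
    (σ : Equiv.Perm (Fin 4)) :
    ((Equiv.Perm.sign σ : ℤ) : ℂ) * (row S (kind (σ 0) (σ 1) + 2) - row S (kind (σ 0) (σ 1) + 1)) =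
      -(sid S (σ 0) (σ 2) - sid S (σ 0) (σ 3)) := by
  have hva : σ 0 ≠ σ 2 := fun h => absurd (σ.injective h) (by decide)
  rcases Int.units_eq_one_or (Equiv.Perm.sign σ) with h | h
  · obtain ⟨h1, h2⟩ := lft_rgt_of_even σ h
    have := loc_even S hS hva
    rw [h1, h2] at this
    rw [h, this]
    simp
  · obtain ⟨h1, h2⟩ := lft_rgt_of_odd σ h
    have := loc_odd S hS hva
    rw [h1, h2] at this
    rw [h, this]
    simp

/-- the values of a function on the edges -/
def val (T : IdealTriangulation N) (g : Fin N → ℂ) (j : Fin N) (v w : Fin 4) : ℂ := g (T.edge j v w)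

theorem val_symm (T : IdealTriangulation N) (g : Fin N → ℂ) (j : Fin N) (v w : Fin 4)
    (h : v ≠ w) : val T g j v w = val T g j w v := by
  unfold val
  congr 1
  exact (T.edge_eq_iff h h.symm).2 (Relation.EqvGen.rel _ _ (Gluing.EdgeStep.flip j v w))

theorem val_glue (T : IdealTriangulation N) (g : Fin N → ℂ) (j : Fin N) (a v w : Fin 4)
    (hv : v ≠ a) (hw : w ≠ a) (h : v ≠ w) :
    val T g (T.adj j a) (T.glue j a v) (T.glue j a w) = val T g j v w := by
  unfold val
  congr 1
  refine ((T.edge_eq_iff h ?_).2 (Relation.EqvGen.rel _ _ (Gluing.EdgeStep.cross j a v w hv hw))).symm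
  exact fun h' => h ((T.glue j a).injective h')

theorem sid_glue (T : IdealTriangulation N) (g : Fin N → ℂ) (j : Fin N) (a v : Fin 4)
    (hv : v ≠ a) :
    sid (val T g (T.adj j a)) (T.glue j a v) (T.glue j a a) = sid (val T g j) v a := by
  obtain ⟨h1, h2⟩ := lft_rgt_glue (T.glue j a) (T.odd j a) v a hv
  obtain ⟨l1, l2, l3, l4, l5⟩ := lft_ne v a hv
  unfold sid
  rw [h1, h2, val_glue T g j a _ _ l4 l2 l5.symm, val_glue T g j a _ _ hv l4 l3.symm,
    val_glue T g j a _ _ hv l2 l1.symm, val_symm T g j _ _ l5.symm]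
  ring

/-- the form -/
def om (α β : Fin 3 → Fin N → ℂ) : ℂ := ∑ j, ∑ k, (α (k + 2) j - α (k + 1) j) * β k j

theorem om_curve (T : IdealTriangulation N) (θ : NormalCurve T.toGluing) (g : Fin N → ℂ) :
    om (fun k j => row (val T g j) k) (fun k j => (θ.C k j : ℂ)) = 0 := by
  have h1 : om (fun k j => row (val T g j) k) (fun k j => (θ.C k j : ℂ)) =
      ∑ i ∈ Finset.range θ.len, ((Equiv.Perm.sign (θ.arc i) : ℤ) : ℂ) *
        (row (val T g (θ.tet i)) (kind (θ.arc i 0) (θ.arc i 1) + 2) -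
          row (val T g (θ.tet i)) (kind (θ.arc i 0) (θ.arc i 1) + 1)) := by
    unfold om NormalCurve.C
    simp only [Int.cast_sum, Finset.mul_sum]
    rw [Finset.sum_congr rfl fun j _ => Finset.sum_comm, Finset.sum_comm]
    refine Finset.sum_congr rfl fun i _ => ?_
    rw [Finset.sum_eq_single (θ.tet i), Finset.sum_eq_single (kind (θ.arc i 0) (θ.arc i 1))]
    · rw [if_pos ⟨rfl, rfl⟩]
      ring
    · intro k _ hk
      rw [if_neg (fun h => hk h.2.symm)]
      simp
    · intro h
      exact absurd (Finset.mem_univ _) h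
    · intro j _ hj
      refine Finset.sum_eq_zero fun k _ => ?_
      rw [if_neg (fun h => hj h.1.symm)]
      simp
    · intro h
      exact absurd (Finset.mem_univ _) h
  rw [h1]
  have h2 : ∀ i, ((Equiv.Perm.sign (θ.arc i) : ℤ) : ℂ) *
        (row (val T g (θ.tet i)) (kind (θ.arc i 0) (θ.arc i 1) + 2) -
          row (val T g (θ.tet i)) (kind (θ.arc i 0) (θ.arc i 1) + 1)) =
      -(sid (val T g (θ.tet (i + 1))) (θ.arc (i + 1) 0) (θ.arc (i + 1) 3) -
        sid (val T g (θ.tet i)) (θ.arc i 0) (θ.arc i 3)) := by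
    intro i
    rw [loc _ (val_symm T g (θ.tet i)), θ.tet_succ, θ.vertex_succ, θ.enter_succ, sid_glue]
    exact fun h => absurd ((θ.arc i).injective h) (by decide)
  rw [Finset.sum_congr rfl fun i _ => h2 i, Finset.sum_neg_distrib, Finset.sum_sub_distrib,
    θ.sum_shift (fun t s => sid (val T g t) (s 0) (s 3)), sub_self, neg_zero]

set_option maxRecDepth 100000 in
/-- twice a row as a sum over even permutations -/
theorem two_row (S : Fin 4 → Fin 4 → ℂ) (hS : ∀ v w, v ≠ w → S v w = S w v) (k : Fin 3) :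
    2 * row S k = ∑ a : Fin 4, ∑ v : Fin 4,
      if v = a then 0 else if kind v (lft v a) = k then S v (lft v a) else 0 := by
  obtain ⟨r0, r1, r2⟩ := row_eq S
  have s10 := hS 1 0 (by decide)
  have s20 := hS 2 0 (by decide)
  have s30 := hS 3 0 (by decide)
  have s21 := hS 2 1 (by decide)
  have s31 := hS 3 1 (by decide)
  have s32 := hS 3 2 (by decide)
  fin_cases k <;>
    simp [Fin.sum_univ_four, lft, kind, r0, r1, r2, s10, s20, s30, s21, s31, s32] <;> ring

/-- the even permutations -/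
def ev : Finset (Equiv.Perm (Fin 4)) := Finset.univ.filter fun σ => Equiv.Perm.sign σ = 1

theorem sum_ev {M : Type} [AddCommMonoid M] (F : Equiv.Perm (Fin 4) → M) :
    ∑ σ ∈ ev, F σ = ∑ a : Fin 4, ∑ σ ∈ evenAt a, F σ := by
  rw [← Finset.sum_fiberwise ev (fun σ => σ 2)]
  refine Finset.sum_congr rfl fun a _ => Finset.sum_congr ?_ fun _ _ => rfl
  ext σ
  simp [ev, evenAt]

theorem two_row' (S : Fin 4 → Fin 4 → ℂ) (hS : ∀ v w, v ≠ w → S v w = S w v) (k : Fin 3) :
    2 * row S k = ∑ σ ∈ ev, if kind (σ 0) (σ 1) = k then S (σ 0) (σ 1) else 0 := by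
  rw [two_row S hS, sum_ev]
  refine Finset.sum_congr rfl fun a _ => ?_
  rw [sum_evenAt (fun v w => if kind v w = k then S v w else 0)]

theorem om_row (T : IdealTriangulation N) (g h : Fin N → ℂ) :
    om (fun k j => row (val T g j) k) (fun k j => row (val T h j) k) = 0 := by
  have h1 : 2 * om (fun k j => row (val T g j) k) (fun k j => row (val T h j) k) =
      ∑ j, ∑ σ ∈ ev, val T h j (σ 0) (σ 1) *
        (-(sid (val T g j) (σ 0) (σ 2) - sid (val T g j) (σ 0) (σ 3))) := by
    unfold om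
    rw [Finset.mul_sum]
    refine Finset.sum_congr rfl fun j _ => ?_
    rw [Finset.mul_sum]
    have h2 : ∀ k : Fin 3, 2 * ((row (val T g j) (k + 2) - row (val T g j) (k + 1)) *
        row (val T h j) k) = ∑ σ ∈ ev, if kind (σ 0) (σ 1) = k then
          (row (val T g j) (k + 2) - row (val T g j) (k + 1)) * val T h j (σ 0) (σ 1) else 0 := by
      intro k
      rw [mul_left_comm, two_row' _ (val_symm T h j), Finset.mul_sum]
      refine Finset.sum_congr rfl fun σ _ => ?_
      split_ifs <;> simp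
    rw [Finset.sum_congr rfl fun k _ => h2 k, Finset.sum_comm]
    refine Finset.sum_congr rfl fun σ hσ => ?_
    rw [Finset.sum_ite_eq Finset.univ, if_pos (Finset.mem_univ _), ← loc _ (val_symm T g j)]
    have : Equiv.Perm.sign σ = 1 := by simpa [ev] using hσ
    rw [this]
    push_cast
    ring
  have h2 : ∑ j, ∑ σ ∈ ev, val T h j (σ 0) (σ 1) * sid (val T g j) (σ 0) (σ 2) =
      ∑ j, ∑ σ ∈ ev, val T h j (σ 0) (σ 1) * sid (val T g j) (σ 0) (σ 3) := by
    rw [← Finset.sum_product', ← Finset.sum_product']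
    refine Finset.sum_bij'
      (i := fun q _ => (T.adj q.1 (q.2 2), T.glue q.1 (q.2 2) * q.2 * Equiv.swap 2 3))
      (j := fun q _ => (T.adj q.1 (q.2 3), T.glue q.1 (q.2 3) * q.2 * Equiv.swap 2 3))
      ?_ ?_ ?_ ?_ ?_
    · rintro ⟨j, σ⟩ hq
      simp only [ev, Finset.mem_product, Finset.mem_univ, true_and, Finset.mem_filter] at hq ⊢
      rw [Equiv.Perm.sign_mul, Equiv.Perm.sign_mul, hq, T.odd, Equiv.Perm.sign_swap (by decide)]
      decide
    · rintro ⟨j, σ⟩ hq
      simp only [ev, Finset.mem_product, Finset.mem_univ, true_and, Finset.mem_filter] at hq ⊢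
      rw [Equiv.Perm.sign_mul, Equiv.Perm.sign_mul, hq, T.odd, Equiv.Perm.sign_swap (by decide)]
      decide
    · rintro ⟨j, σ⟩ _
      have e3 : (T.glue j (σ 2) * σ * Equiv.swap (2 : Fin 4) 3) 3 = T.glue j (σ 2) (σ 2) := by simp
      refine Prod.ext ?_ ?_
      · change T.adj (T.adj j (σ 2)) ((T.glue j (σ 2) * σ * Equiv.swap (2 : Fin 4) 3) 3) = j
        rw [e3, T.adj_adj]
      · change T.glue (T.adj j (σ 2)) ((T.glue j (σ 2) * σ * Equiv.swap (2 : Fin 4) 3) 3) *
          (T.glue j (σ 2) * σ * Equiv.swap (2 : Fin 4) 3) * Equiv.swap (2 : Fin 4) 3 = σ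
        rw [e3, T.glue_glue]
        ext i
        simp
    · rintro ⟨j, σ⟩ _
      have e3 : (T.glue j (σ 3) * σ * Equiv.swap (2 : Fin 4) 3) 2 = T.glue j (σ 3) (σ 3) := by simp
      refine Prod.ext ?_ ?_
      · change T.adj (T.adj j (σ 3)) ((T.glue j (σ 3) * σ * Equiv.swap (2 : Fin 4) 3) 2) = j
        rw [e3, T.adj_adj]
      · change T.glue (T.adj j (σ 3)) ((T.glue j (σ 3) * σ * Equiv.swap (2 : Fin 4) 3) 2) *
          (T.glue j (σ 3) * σ * Equiv.swap (2 : Fin 4) 3) * Equiv.swap (2 : Fin 4) 3 = σ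
        rw [e3, T.glue_glue]
        ext i
        simp
    · rintro ⟨j, σ⟩ _
      have e0 : (T.glue j (σ 2) * σ * Equiv.swap (2 : Fin 4) 3) 0 = T.glue j (σ 2) (σ 0) := by
        rw [Equiv.Perm.mul_apply, Equiv.Perm.mul_apply,
          Equiv.swap_apply_of_ne_of_ne (by decide) (by decide)]
      have e1 : (T.glue j (σ 2) * σ * Equiv.swap (2 : Fin 4) 3) 1 = T.glue j (σ 2) (σ 1) := by
        rw [Equiv.Perm.mul_apply, Equiv.Perm.mul_apply,
          Equiv.swap_apply_of_ne_of_ne (by decide) (by decide)]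
      have e3 : (T.glue j (σ 2) * σ * Equiv.swap (2 : Fin 4) 3) 3 = T.glue j (σ 2) (σ 2) := by simp
      have n02 : σ 0 ≠ σ 2 := fun h => absurd (σ.injective h) (by decide)
      have n12 : σ 1 ≠ σ 2 := fun h => absurd (σ.injective h) (by decide)
      have n01 : σ 0 ≠ σ 1 := fun h => absurd (σ.injective h) (by decide)
      change val T h j (σ 0) (σ 1) * sid (val T g j) (σ 0) (σ 2) =
        val T h (T.adj j (σ 2)) ((T.glue j (σ 2) * σ * Equiv.swap (2 : Fin 4) 3) 0)
          ((T.glue j (σ 2) * σ * Equiv.swap (2 : Fin 4) 3) 1) *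
        sid (val T g (T.adj j (σ 2))) ((T.glue j (σ 2) * σ * Equiv.swap (2 : Fin 4) 3) 0)
          ((T.glue j (σ 2) * σ * Equiv.swap (2 : Fin 4) 3) 3)
      rw [e0, e1, e3, sid_glue T g j _ _ n02, val_glue T h j _ _ _ n02 n12 n01]
  have h3 : 2 * om (fun k j => row (val T g j) k) (fun k j => row (val T h j) k) = 0 := by
    rw [h1]
    simp only [mul_neg, mul_sub, Finset.sum_neg_distrib, Finset.sum_sub_distrib]
    rw [h2, sub_self, neg_zero]
  simpa using h3

theorem row_G (T : IdealTriangulation N) (g : Fin N → ℂ) (k : Fin 3) (j : Fin N) :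
    ∑ e, g e * (T.G k e j : ℂ) = row (val T g j) k := by
  unfold row val IdealTriangulation.G
  have h1 : ∀ e, g e * ((((oppEdges k).filter fun p => T.edge j p.1 p.2 = e).card : ℤ) : ℂ) =
      ∑ p ∈ oppEdges k, if T.edge j p.1 p.2 = e then g e else 0 := by
    intro e
    rw [Finset.card_filter]
    push_cast
    rw [Finset.mul_sum]
    refine Finset.sum_congr rfl fun p _ => ?_
    split_ifs <;> simp
  rw [Finset.sum_congr rfl fun e _ => h1 e, Finset.sum_comm]
  refine Finset.sum_congr rfl fun p _ => ?_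
  rw [Finset.sum_ite_eq Finset.univ, if_pos (Finset.mem_univ _)]

theorem zeta_vals (z : ℂ) : zeta z 0 = 1 / z ∧ zeta z 1 = 1 / (1 - z) ∧
    zeta z 2 = 1 / (z * (z - 1)) := ⟨rfl, rfl, rfl⟩

/-- the relation between the differences -/
theorem diff_rel {z : ℂ} (hz : 0 < z.im) (a : Fin 3 → ℂ) (h : ∑ k, a k * zeta z k = 0) :
    a 2 - a 1 = (a 0 - a 1) * (1 - z) := by
  have h0 : z ≠ 0 := by
    rintro rfl
    simp at hz
  have h1 : z ≠ 1 := by
    rintro rfl
    simp at hz
  have h2 : (1 : ℂ) - z ≠ 0 := sub_ne_zero.2 h1.symm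
  have h3 : z - 1 ≠ 0 := sub_ne_zero.2 h1
  obtain ⟨z0, z1, z2⟩ := zeta_vals z
  rw [Fin.sum_univ_three, z0, z1, z2] at h
  have e : (1 : ℂ) - z = -(z - 1) := by ring
  rw [e] at h ⊢
  field_simp at h
  linear_combination h

/-- the rows are constant in `k` -/
theorem row_const (T : IdealTriangulation N) (z : Fin N → ℂ) (hz : ∀ j, 0 < (z j).im)
    (x : Fin N → ℂ) (hx : ∀ j, ∑ k, row (val T x j) k * zeta (z j) k = 0) (j : Fin N)
    (k l : Fin 3) : row (val T x j) k = row (val T x j) l := by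
  have h1 := om_row T x (fun e => (starRingEnd ℂ) (x e))
  have h2 : ∀ j k, row (val T (fun e => (starRingEnd ℂ) (x e)) j) k =
      (starRingEnd ℂ) (row (val T x j) k) := by
    intro j k
    unfold row val
    rw [map_sum]
  have h3 : ∀ j, ∑ k, (row (val T x j) (k + 2) - row (val T x j) (k + 1)) *
      row (val T (fun e => (starRingEnd ℂ) (x e)) j) k =
      ((-2 * (Complex.normSq (row (val T x j) 0 - row (val T x j) 1) * (z j).im) : ℝ) : ℂ) *
        Complex.I := by
    intro j
    have hd := diff_rel (hz j) _ (hx j)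
    rw [Fin.sum_univ_three, h2, h2, h2]
    have e1 : (0 : Fin 3) + 2 = 2 := rfl
    have e2 : (0 : Fin 3) + 1 = 1 := rfl
    have e3 : (1 : Fin 3) + 2 = 0 := rfl
    have e4 : (1 : Fin 3) + 1 = 2 := rfl
    have e5 : (2 : Fin 3) + 2 = 1 := rfl
    have e6 : (2 : Fin 3) + 1 = 0 := rfl
    rw [e1, e2, e3, e4, e5, e6]
    have hd' := congrArg (starRingEnd ℂ) hd
    simp only [map_sub, map_mul, map_one] at hd'
    have hn : ((Complex.normSq (row (val T x j) 0 - row (val T x j) 1) : ℝ) : ℂ) =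
        (row (val T x j) 0 - row (val T x j) 1) *
          ((starRingEnd ℂ) (row (val T x j) 0) - (starRingEnd ℂ) (row (val T x j) 1)) := by
      rw [← map_sub, Complex.mul_conj]
    have hi : z j - (starRingEnd ℂ) (z j) = 2 * ((z j).im : ℂ) * Complex.I := by
      rw [Complex.sub_conj]
      push_cast
      ring
    push_cast
    rw [hn]
    linear_combination ((starRingEnd ℂ) (row (val T x j) 0) - (starRingEnd ℂ) (row (val T x j) 1)) *
      hd - (row (val T x j) 0 - row (val T x j) 1) * hd' - (row (val T x j) 0 -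
      row (val T x j) 1) * ((starRingEnd ℂ) (row (val T x j) 0) -
      (starRingEnd ℂ) (row (val T x j) 1)) * hi
  unfold om at h1
  rw [Finset.sum_congr rfl fun j _ => h3 j, ← Finset.sum_mul, ← Complex.ofReal_sum] at h1
  have h4 : ∑ j, -2 * (Complex.normSq (row (val T x j) 0 - row (val T x j) 1) * (z j).im) = 0 := by
    have := (mul_eq_zero.1 h1).resolve_right Complex.I_ne_zero
    exact_mod_cast this
  rw [← Finset.mul_sum] at h4
  have h5 := (mul_eq_zero.1 h4).resolve_left (by norm_num)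
  have h6 := (Finset.sum_eq_zero_iff_of_nonneg (fun j _ => mul_nonneg (Complex.normSq_nonneg _)
    (hz j).le)).1 h5 j (Finset.mem_univ j)
  have h7 : row (val T x j) 0 - row (val T x j) 1 = 0 :=
    Complex.normSq_eq_zero.1 ((mul_eq_zero.1 h6).resolve_right (hz j).ne')
  have h8 := diff_rel (hz j) _ (hx j)
  rw [h7, zero_mul] at h8
  have e01 := sub_eq_zero.1 h7
  have e21 := sub_eq_zero.1 h8
  have hall : ∀ k : Fin 3, row (val T x j) k = row (val T x j) 1 := by
    intro k
    fin_cases k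
    · exact e01
    · rfl
    · exact e21
  rw [hall k, hall l]

/-- the end of the proof -/
theorem eq_const (T : IdealTriangulation N) (x : Fin N → ℂ)
    (hx : ∀ j k l, row (val T x j) k = row (val T x j) l) : ∃ c, ∀ e, x e = c := by
  -- `sid` does not depend on the face
  have hind1 : ∀ j v a, v ≠ a → sid (val T x j) v a = sid (val T x j) v (rgt v a) := by
    intro j v a hva
    have h1 := loc_even _ (val_symm T x j) hva
    rw [hx j _ (kind v (lft v a) + 1), sub_self] at h1
    have h2 := neg_eq_zero.1 h1.symm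
    exact sub_eq_zero.1 h2
  have key : ∀ v a b : Fin 4, v ≠ a → v ≠ b → b = a ∨ b = rgt v a ∨ b = rgt v (rgt v a) := by
    decide
  have hind : ∀ j v a b, v ≠ a → v ≠ b → sid (val T x j) v a = sid (val T x j) v b := by
    intro j v a b hva hvb
    rcases key v a b hva hvb with h | h | h
    · rw [h]
    · rw [h, hind1 j v a hva]
    · rw [h, hind1 j v a hva, hind1 j v (rgt v a) (lft_ne v a hva).2.2.1.symm]
  have hne : ∀ v : Fin 4, v ≠ v + 1 := by decide
  let Y : Fin N × Fin 4 → ℂ := fun q => sid (val T x q.1) q.2 (q.2 + 1)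
  have hstep : ∀ p q, T.VertexStep p q → Y p = Y q := by
    rintro p q ⟨j, a, v, hv⟩
    change sid (val T x j) v (v + 1) = sid (val T x (T.adj j a)) (T.glue j a v) (T.glue j a v + 1)
    rw [hind j v (v + 1) a (hne v) hv, ← sid_glue T x j a v hv]
    exact hind _ _ _ _ (fun h => hv ((T.glue j a).injective h)) (hne _)
  have hY : ∀ p q, Y p = Y q := by
    intro p q
    have h := T.one_cusp p q
    induction h with
    | rel p q h => exact hstep p q h
    | refl p => rfl
    | symm p q _ ih => exact ih.symm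
    | trans p q s _ _ ih1 ih2 => exact ih1.trans ih2
  have hex : ∀ v w : Fin 4, v ≠ w → ∃ a, v ≠ a ∧ w ≠ a ∧ lft v a = w ∧ lft w a = rgt v a ∧
      rgt w a = v ∧ rgt v a ≠ v ∧ rgt v a ≠ w := by decide
  rcases isEmpty_or_nonempty (Fin N) with hN | ⟨⟨j₀⟩⟩
  · exact ⟨0, fun e => hN.elim e⟩
  refine ⟨-Y (j₀, 0), fun e => ?_⟩
  obtain ⟨j, v, w, hvw, rfl⟩ := T.edge_surj e
  obtain ⟨a, hva, hwa, l1, l2, l3, n1, n2⟩ := hex v w hvw
  have h1 : sid (val T x j) v a = Y (j₀, 0) := by
    rw [hind j v a (v + 1) hva (hne v)]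
    exact hY (j, v) (j₀, 0)
  have h2 : sid (val T x j) w a = Y (j₀, 0) := by
    rw [hind j w a (w + 1) hwa (hne w)]
    exact hY (j, w) (j₀, 0)
  unfold sid at h1 h2
  rw [l1] at h1
  rw [l2, l3, val_symm T x j _ _ n1, val_symm T x j w v hvw.symm] at h2
  have h3 : val T x j v w = x (T.edge j v w) := rfl
  rw [h3] at h1 h2
  linear_combination (-(1 : ℂ) / 2) * h1 - (1 / 2 : ℂ) * h2

end J7

/-- TARGET -/
theorem oneLoop_det_ne_zero (T : IdealTriangulation N) (z : Fin N → ℂ)
    (hz : ∀ j, 0 < (z j).im) (θ : NormalCurve T.toGluing) (r : Fin N) (u : Fin N → ℂ)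
    (hu : ∀ e, ∑ j, (∑ k, (T.G k e j : ℂ) * zeta (z j) k) * u j = 0)
    (hθ : ∑ j, (∑ k, (θ.C k j : ℂ) * zeta (z j) k) * u j ≠ 0) :
    (∑ k, (hatG T θ r k).map (Int.cast : ℤ → ℂ) *
      Matrix.diagonal fun j => zeta (z j) k).det ≠ 0 := by
  intro hdet
  obtain ⟨x, hx0, hx⟩ := Matrix.exists_vecMul_eq_zero_iff.mpr hdet
  have hα : ∀ j, ∑ k, (∑ e, x e * (hatG T θ r k e j : ℂ)) * zeta (z j) k = 0 := by
    intro j
    have h1 := congrFun hx j
    simp only [Matrix.vecMul, dotProduct, Matrix.sum_apply, Matrix.mul_diagonal,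
      Matrix.map_apply, Pi.zero_apply] at h1
    rw [← h1]
    simp only [Finset.mul_sum, Finset.sum_mul]
    rw [Finset.sum_comm]
    refine Finset.sum_congr rfl fun e _ => Finset.sum_congr rfl fun k _ => ?_
    ring
  let g : Fin N → ℂ := fun e => if e = r then 0 else x e
  have hsplit : ∀ k j, ∑ e, x e * (hatG T θ r k e j : ℂ) =
      ∑ e, g e * (T.G k e j : ℂ) + x r * (θ.C k j : ℂ) := by
    intro k j
    have h1 : ∀ e, x e * (hatG T θ r k e j : ℂ) = g e * (T.G k e j : ℂ) +
        (if e = r then x r * (θ.C k j : ℂ) else 0) := by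
      intro e
      by_cases he : e = r
      · subst he
        simp [g, hatG]
      · simp [g, hatG, he]
    rw [Finset.sum_congr rfl fun e _ => h1 e, Finset.sum_add_distrib, Finset.sum_ite_eq' Finset.univ,
      if_pos (Finset.mem_univ _)]
  have hxr : x r = 0 := by
    have h1 : ∑ j, (∑ k, (∑ e, x e * (hatG T θ r k e j : ℂ)) * zeta (z j) k) * u j = 0 :=
      Finset.sum_eq_zero fun j _ => by rw [hα j, zero_mul]
    have h2 : ∑ j, (∑ k, (∑ e, x e * (hatG T θ r k e j : ℂ)) * zeta (z j) k) * u j =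
        ∑ e, g e * ∑ j, (∑ k, (T.G k e j : ℂ) * zeta (z j) k) * u j +
          x r * ∑ j, (∑ k, (θ.C k j : ℂ) * zeta (z j) k) * u j := by
      simp only [hsplit]
      simp only [Finset.mul_sum, Finset.sum_mul, add_mul, Finset.sum_add_distrib]
      congr 1
      · rw [Finset.sum_comm' (s := Finset.univ) (t := fun _ => Finset.univ)
          (t' := Finset.univ) (s' := fun _ => Finset.univ) (by simp)]
        rw [Finset.sum_comm]
        rw [Finset.sum_congr rfl fun j _ => Finset.sum_comm, Finset.sum_comm]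
        refine Finset.sum_congr rfl fun e _ => Finset.sum_congr rfl fun j _ =>
          Finset.sum_congr rfl fun k _ => ?_
        ring
      · refine Finset.sum_congr rfl fun j _ => Finset.sum_congr rfl fun k _ => ?_
        ring
    rw [h1, Finset.sum_congr rfl fun e _ => by rw [hu e, mul_zero], Finset.sum_const_zero,
      zero_add] at h2
    exact (mul_eq_zero.1 h2.symm).resolve_right hθ
  have hgx : g = x := by
    funext e
    by_cases he : e = r
    · subst he
      simp [g, hxr]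
    · simp [g, he]
  have hrow : ∀ j, ∑ k, J7.row (J7.val T x j) k * zeta (z j) k = 0 := by
    intro j
    rw [← hα j]
    refine Finset.sum_congr rfl fun k _ => ?_
    rw [hsplit, hxr, zero_mul, add_zero, hgx, J7.row_G]
  obtain ⟨c, hc⟩ := J7.eq_const T x fun j k l => J7.row_const T z hz x hrow j k l
  apply hx0
  funext e
  rw [hc e, ← hc r, hxr]
  rfl

end Pool.Agent.H15_OneLoop

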