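import Pool.Agent.H15_OneLoop.Reps
import Pool.Agent.H15_OneLoop.Flows

/-!
# The product formula (proofs by helper782)
-/

set_option autoImplicit false

namespace Pool.Agent.H15_OneLoop

open Matrix

variable {N : ℕ}

/-! ### helpers -/

theorem j9_prod_class {ι κ : Type} [Fintype ι] [Fintype κ] [DecidableEq κ] (g : ι → κ)
    (h : κ → ℂ) :
    ∏ i, h (g i) = ∏ e, h e ^ (∑ i, if g i = e then 1 else 0 : ℕ) := by
  classical
  rw [← Finset.prod_fiberwise_of_maps_to (g := g) (t := Finset.univ)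
    (fun _ _ => Finset.mem_univ _)]
  refine Finset.prod_congr rfl fun e _ => ?_
  rw [← Finset.card_filter, ← Finset.prod_const]
  refine Finset.prod_congr rfl fun i hi => ?_
  rw [(Finset.mem_filter.1 hi).2]

theorem j9_zpow_sum {ι : Type} {a : ℂ} (ha : a ≠ 0) (s : Finset ι) (g : ι → ℤ) :
    a ^ (∑ i ∈ s, g i) = ∏ i ∈ s, a ^ g i := by
  classical
  induction s using Finset.induction_on with
  | empty => simp
  | insert x s hx ih => rw [Finset.sum_insert hx, Finset.prod_insert hx, zpow_add₀ ha, ih]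

/-- the three edges of a face -/
def j9_E3 : Fin 3 → Fin 3 × Fin 3 := ![(0, 1), (1, 2), (0, 2)]

/-- the six edges of a tetrahedron, by kind -/
def j9_E6 (k : Fin 3) (i : Fin 2) : Fin 4 × Fin 4 :=
  (![![(0, 1), (2, 3)], ![(0, 2), (1, 3)], ![(0, 3), (1, 2)]] : Fin 3 → Fin 2 → Fin 4 × Fin 4) k i

theorem j9_E6_ne : ∀ k i, (j9_E6 k i).1 ≠ (j9_E6 k i).2 := by decide

theorem j9_E3_ne (a : Fin 4) (i : Fin 3) :
    a.succAbove (j9_E3 i).1 ≠ a.succAbove (j9_E3 i).2 := by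
  refine Fin.succAbove_right_injective.ne ?_
  revert i
  decide

/-- the sum over the ordered edges of a face -/
def j9_D (g : Fin 4 → Fin 4 → ℕ) (a : Fin 4) : ℕ :=
  ∑ v, ∑ w, if v ≠ a ∧ w ≠ a ∧ v ≠ w then g v w else 0

theorem j9_D_face (g : Fin 4 → Fin 4 → ℕ) (hg : ∀ v w, v ≠ w → g w v = g v w) (a : Fin 4) :
    j9_D g a = 2 * ∑ i, g (a.succAbove (j9_E3 i).1) (a.succAbove (j9_E3 i).2) := by
  have e10 := hg 0 1 (by decide)
  have e20 := hg 0 2 (by decide)
  have e30 := hg 0 3 (by decide)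
  have e21 := hg 1 2 (by decide)
  have e31 := hg 1 3 (by decide)
  have e32 := hg 2 3 (by decide)
  unfold j9_D
  simp only [Fin.sum_univ_four, Fin.sum_univ_three, j9_E3]
  fin_cases a <;> simp [e10, e20, e30, e21, e31, e32, Fin.succAbove] <;> ring

theorem j9_D_tet (g : Fin 4 → Fin 4 → ℕ) (hg : ∀ v w, v ≠ w → g w v = g v w) :
    ∑ a, j9_D g a = 4 * ∑ k, ∑ i, g (j9_E6 k i).1 (j9_E6 k i).2 := by
  have e10 := hg 0 1 (by decide)
  have e20 := hg 0 2 (by decide)
  have e30 := hg 0 3 (by decide)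
  have e21 := hg 1 2 (by decide)
  have e31 := hg 1 3 (by decide)
  have e32 := hg 2 3 (by decide)
  unfold j9_D
  simp only [Fin.sum_univ_four, Fin.sum_univ_three, Fin.sum_univ_two, j9_E6]
  simp [e10, e20, e30, e21, e31, e32]
  ring

theorem j9_D_perm (g h : Fin 4 → Fin 4 → ℕ) (σ : Equiv.Perm (Fin 4)) (a : Fin 4)
    (hgh : ∀ v w, v ≠ a → w ≠ a → v ≠ w → g (σ v) (σ w) = h v w) :
    j9_D g (σ a) = j9_D h a := by
  unfold j9_D
  rw [← Equiv.sum_comp σ]
  refine Finset.sum_congr rfl fun v _ => ?_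
  rw [← Equiv.sum_comp σ]
  refine Finset.sum_congr rfl fun w _ => ?_
  simp only [ne_eq, σ.injective.eq_iff]
  split_ifs with hc
  · exact hgh v w hc.1 hc.2.1 hc.2.2
  · rfl

/-- number of the edges of the triangulation: over the chosen faces and over the tetrahedra -/
theorem j9_count (T : IdealTriangulation N) (φ : Fin (2 * N) → Fin N × Fin 4)
    (hφ : IsFaceChoice T.toGluing φ) (e : Fin N) :
    (∑ F, ∑ i : Fin 3, if T.edge (φ F).1 ((φ F).2.succAbove (j9_E3 i).1)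
      ((φ F).2.succAbove (j9_E3 i).2) = e then 1 else 0 : ℕ) =
    ∑ j, ∑ k, ∑ i, if T.edge j (j9_E6 k i).1 (j9_E6 k i).2 = e then 1 else 0 := by
  have h1 := j303_total T.toGluing φ hφ
    (fun p => j9_D (fun v w => if T.edge p.1 v w = e then 1 else 0) p.2)
  have hsym : ∀ j, ∀ v w : Fin 4, v ≠ w → (if T.edge j w v = e then 1 else 0 : ℕ) =
      if T.edge j v w = e then 1 else 0 := by
    intro j v w h
    rw [T.edge_symm j h]
  have h2 : ∀ F, j9_D (fun v w => if T.edge (T.adj (φ F).1 (φ F).2) v w = e then 1 else 0)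
      (T.glue (φ F).1 (φ F).2 (φ F).2) =
      j9_D (fun v w => if T.edge (φ F).1 v w = e then 1 else 0) (φ F).2 := by
    intro F
    refine j9_D_perm _ _ _ _ fun v w hv hw hvw => ?_
    rw [T.edge_glue _ hv hw hvw]
  simp only [h2] at h1
  have h3 : ∀ F, j9_D (fun v w => if T.edge (φ F).1 v w = e then 1 else 0) (φ F).2 =
      2 * ∑ i : Fin 3, if T.edge (φ F).1 ((φ F).2.succAbove (j9_E3 i).1)
      ((φ F).2.succAbove (j9_E3 i).2) = e then 1 else 0 :=
    fun F => j9_D_face _ (hsym _) _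
  rw [Fintype.sum_prod_type] at h1
  have h4 : ∀ j, ∑ a, j9_D (fun v w => if T.edge j v w = e then 1 else 0) a =
      4 * ∑ k, ∑ i, if T.edge j (j9_E6 k i).1 (j9_E6 k i).2 = e then 1 else 0 :=
    fun j => j9_D_tet _ (hsym j)
  simp only [h3, h4] at h1
  rw [← Finset.mul_sum, Finset.sum_add_distrib, ← Finset.mul_sum] at h1
  omega

/-- TARGET -/
theorem product_formula (T : IdealTriangulation N) {z : Fin N → ℂ} {A P : Fin N → Fin 4 → Mat2}
    {s : Fin N → Fin 4 → ℂ} (H : Setup T.toGluing z A P s)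
    (φ : Fin (2 * N) → Fin N × Fin 4) (hφ : IsFaceChoice T.toGluing φ)
    (ε : Fin N → Fin N × Fin 4 × Fin 4) (hε : IsEdgeChoice T ε)
    (f : Fin 3 → Fin N → ℤ) (hf : IsFlattening T f) :
    (∏ F, (Setup.faceMat P (φ F).1 (φ F).2).det ^ 2) *
        (∏ k, ∏ j, zeta (z j) k ^ f k j) ^ 2 =
      (∏ e, (s (ε e).1 (ε e).2.1 * s (ε e).1 (ε e).2.2 *
        mm (z (ε e).1) (ε e).2.1 (ε e).2.2 ^ 2) ^ 2) * ∏ j, (∏ v, s j v) ^ 2 := by
  classical
  -- the function lam
  set lam : Fin N → Fin 4 → Fin 4 → ℂ := fun j v w => s j v * s j w * mm (z j) v w ^ 2 with hlam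
  set Λ : Fin N → ℂ := fun e => lam (ε e).1 (ε e).2.1 (ε e).2.2 with hΛ
  have hlam_ne : ∀ j v w, v ≠ w → lam j v w ≠ 0 := fun j v w h =>
    mul_ne_zero (mul_ne_zero (H.hs j v) (H.hs j w)) (pow_ne_zero 2 (mm_ne (H.h0 j) (H.h1 j) h))
  have hΛ_ne : ∀ e, Λ e ≠ 0 := fun e => hlam_ne _ _ _ (hε e).1
  have hstep : ∀ p q : Fin N × Fin 4 × Fin 4, Relation.EqvGen T.toGluing.EdgeStep p q →
      lam p.1 p.2.1 p.2.2 = lam q.1 q.2.1 q.2.2 := by
    intro p q h
    induction h with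
    | rel x y hxy =>
      cases hxy with
      | flip j v w =>
        simp only [hlam]
        rw [mm_antisymm (z j) v w]
        ring
      | cross j a v w hv hw => exact (H.lam_glue j hv hw).symm
    | refl x => rfl
    | symm x y _ ih => exact ih.symm
    | trans x y w _ _ ih1 ih2 => exact ih1.trans ih2
  have hedge : ∀ j v w, v ≠ w → lam j v w = Λ (T.edge j v w) := by
    intro j v w h
    have h1 := hε (T.edge j v w)
    have h2 := (T.edge_eq_iff h h1.1).1 h1.2.symm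
    exact hstep _ _ h2
  -- the faces
  have hface : ∀ F, (Setup.faceMat P (φ F).1 (φ F).2).det ^ 2 =
      ∏ i : Fin 3, Λ (T.edge (φ F).1 ((φ F).2.succAbove (j9_E3 i).1)
        ((φ F).2.succAbove (j9_E3 i).2)) := by
    intro F
    have h1 : ∀ i : Fin 3, Λ (T.edge (φ F).1 ((φ F).2.succAbove (j9_E3 i).1)
        ((φ F).2.succAbove (j9_E3 i).2)) = lam (φ F).1 ((φ F).2.succAbove (j9_E3 i).1)
        ((φ F).2.succAbove (j9_E3 i).2) := fun i => (hedge _ _ _ (j9_E3_ne _ i)).symm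
    simp only [h1]
    rw [H.faceMat_det, Fin.prod_univ_three]
    simp only [hlam, j9_E3, Matrix.cons_val_zero, Matrix.cons_val_one, Matrix.cons_val]
    ring
  -- the products over the faces and over the tetrahedra
  have hX : ∏ F, (Setup.faceMat P (φ F).1 (φ F).2).det ^ 2 =
      ∏ j, ∏ k, ∏ i, Λ (T.edge j (j9_E6 k i).1 (j9_E6 k i).2) := by
    simp only [hface]
    have h1 : ∏ F, ∏ i : Fin 3, Λ (T.edge (φ F).1 ((φ F).2.succAbove (j9_E3 i).1)
        ((φ F).2.succAbove (j9_E3 i).2)) = ∏ x : Fin (2 * N) × Fin 3,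
        Λ (T.edge (φ x.1).1 ((φ x.1).2.succAbove (j9_E3 x.2).1)
        ((φ x.1).2.succAbove (j9_E3 x.2).2)) := by
      rw [Fintype.prod_prod_type]
    have h2 : ∏ j, ∏ k, ∏ i, Λ (T.edge j (j9_E6 k i).1 (j9_E6 k i).2) =
        ∏ x : Fin N × Fin 3 × Fin 2, Λ (T.edge x.1 (j9_E6 x.2.1 x.2.2).1 (j9_E6 x.2.1 x.2.2).2) := by
      rw [Fintype.prod_prod_type]
      refine Finset.prod_congr rfl fun j _ => ?_
      rw [Fintype.prod_prod_type]
    rw [h1, h2, j9_prod_class (fun x : Fin (2 * N) × Fin 3 => T.edge (φ x.1).1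
        ((φ x.1).2.succAbove (j9_E3 x.2).1) ((φ x.1).2.succAbove (j9_E3 x.2).2)) Λ,
      j9_prod_class (fun x : Fin N × Fin 3 × Fin 2 => T.edge x.1 (j9_E6 x.2.1 x.2.2).1
        (j9_E6 x.2.1 x.2.2).2) Λ]
    refine Finset.prod_congr rfl fun e _ => ?_
    congr 1
    rw [Fintype.sum_prod_type, Fintype.sum_prod_type]
    have := j9_count T φ hφ e
    rw [this]
    refine Finset.sum_congr rfl fun j _ => ?_
    rw [Fintype.sum_prod_type]
  -- the shape parameters
  have hzeta : ∀ k j, zeta (z j) k ^ 2 * ∏ k', ∏ i, Λ (T.edge j (j9_E6 k' i).1 (j9_E6 k' i).2) =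
      (∏ v, s j v) ^ 2 * ∏ i, Λ (T.edge j (j9_E6 k i).1 (j9_E6 k i).2) := by
    intro k j
    have h1 : ∀ k' i, Λ (T.edge j (j9_E6 k' i).1 (j9_E6 k' i).2) =
        lam j (j9_E6 k' i).1 (j9_E6 k' i).2 := fun k' i => (hedge _ _ _ (j9_E6_ne k' i)).symm
    simp only [h1]
    obtain ⟨m0, m01, m02, m03, m10, m12, m13, m20, m21, m23, m30, m31, m32⟩ := mm_table (z j)
    have z0 := H.h0 j
    have z1 := H.h1 j
    have h2 : (1 : ℂ) - z j ≠ 0 := sub_ne_zero.2 z1.symm
    have h3 : z j - 1 ≠ 0 := sub_ne_zero.2 z1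
    have e : (1 : ℂ) - z j = -(z j - 1) := by ring
    simp only [hlam, Fin.prod_univ_three, Fin.prod_univ_two, Fin.prod_univ_four, j9_E6]
    fin_cases k <;> simp [zeta, m01, m02, m03, m12, m13, m23] <;> (try rw [e]) <;>
      field_simp
  have hLL : ∀ j k, ∏ i, Λ (T.edge j (j9_E6 k i).1 (j9_E6 k i).2) =
      ∏ e, Λ e ^ (T.G k e j) := by
    intro j k
    rw [j9_prod_class (fun i => T.edge j (j9_E6 k i).1 (j9_E6 k i).2) Λ]
    refine Finset.prod_congr rfl fun e _ => ?_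
    rw [← zpow_natCast]
    congr 1
    unfold IdealTriangulation.G
    rw [Finset.card_filter]
    have g0 : oppEdges 0 = {(0, 1), (2, 3)} := rfl
    have g1 : oppEdges 1 = {(0, 2), (1, 3)} := rfl
    have g2 : oppEdges 2 = {(0, 3), (1, 2)} := rfl
    fin_cases k
    · simp only [Fin.zero_eta, g0]
      rw [Finset.sum_pair (by decide), Fin.sum_univ_two]
      simp [j9_E6]
    · simp only [Fin.mk_one, g1]
      rw [Finset.sum_pair (by decide), Fin.sum_univ_two]
      simp [j9_E6]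
    · simp only [Fin.reduceFinMk, g2]
      rw [Finset.sum_pair (by decide), Fin.sum_univ_two]
      simp [j9_E6]
  set L : Fin N → ℂ := fun j => ∏ k, ∏ i, Λ (T.edge j (j9_E6 k i).1 (j9_E6 k i).2) with hL
  set S : Fin N → ℂ := fun j => ∏ v, s j v with hS
  have hL_ne : ∀ j, L j ≠ 0 := fun j => Finset.prod_ne_zero_iff.2 fun k _ =>
    Finset.prod_ne_zero_iff.2 fun i _ => hΛ_ne _
  have hS_ne : ∀ j, S j ≠ 0 := fun j => Finset.prod_ne_zero_iff.2 fun v _ => H.hs j v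
  have hz2 : ∀ k j, zeta (z j) k ^ 2 = S j ^ 2 / L j * ∏ e, Λ e ^ (T.G k e j) := by
    intro k j
    rw [← hLL, div_mul_eq_mul_div, eq_div_iff (hL_ne j)]
    exact hzeta k j
  have hmain : (∏ k, ∏ j, zeta (z j) k ^ f k j) ^ 2 = (∏ j, (S j ^ 2 / L j)) * ∏ e, Λ e ^ 2 := by
    rw [← Finset.prod_pow]
    have h1 : ∀ k, (∏ j, zeta (z j) k ^ f k j) ^ 2 =
        ∏ j, ((S j ^ 2 / L j) ^ f k j * ∏ e, Λ e ^ (T.G k e j * f k j)) := by
      intro k
      rw [← Finset.prod_pow]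
      refine Finset.prod_congr rfl fun j _ => ?_
      rw [← zpow_natCast, ← _root_.zpow_mul, mul_comm, _root_.zpow_mul, zpow_natCast, hz2, mul_zpow,
        ← Finset.prod_zpow]
      simp only [_root_.zpow_mul]
    simp only [h1, Finset.prod_mul_distrib]
    congr 1
    · rw [Finset.prod_comm]
      refine Finset.prod_congr rfl fun j _ => ?_
      have hne : S j ^ 2 / L j ≠ 0 := div_ne_zero (pow_ne_zero 2 (hS_ne j)) (hL_ne j)
      have h2 := hf.tet j
      rw [Fin.sum_univ_three] at h2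
      rw [Fin.prod_univ_three, ← zpow_add₀ hne, ← zpow_add₀ hne, h2, zpow_one]
    · have h3 : ∀ k, ∏ j, ∏ e, Λ e ^ (T.G k e j * f k j) = ∏ e, Λ e ^ (∑ j, T.G k e j * f k j) := by
        intro k
        rw [Finset.prod_comm]
        refine Finset.prod_congr rfl fun e _ => ?_
        exact (j9_zpow_sum (hΛ_ne e) _ _).symm
      simp only [h3]
      rw [Finset.prod_comm]
      refine Finset.prod_congr rfl fun e _ => ?_
      rw [← j9_zpow_sum (hΛ_ne e), hf.edge e]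
      norm_cast
  rw [hX, hmain]
  have h5 : ∏ j, (S j ^ 2 / L j) = (∏ j, S j ^ 2) / ∏ j, L j := Finset.prod_div_distrib _ _
  have h6 : ∏ j, L j ≠ 0 := Finset.prod_ne_zero_iff.2 fun j _ => hL_ne j
  rw [h5]
  change _ = (∏ e, Λ e ^ 2) * ∏ j, S j ^ 2
  change (∏ j, L j) * _ = _
  rw [← mul_assoc, mul_div_cancel₀ _ h6, mul_comm]

end Pool.Agent.H15_OneLoop
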