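import Pool.Agent.H15_OneLoop.Assembly
import Pool.Agent.H15_OneLoop.ProductFormula
import Pool.Agent.H15_OneLoop.Curve
import Pool.Agent.H15_OneLoop.Intersection
import Pool.Agent.H15_OneLoop.Holonomy
import Pool.Agent.H15_OneLoop.ChainProps
import Pool.Agent.H15_OneLoop.Scale
import Pool.Agent.H15_OneLoop.Nonvanish
import Pool.Agent.H15_OneLoop.CornerClass

/-!
# The 1-loop theorem
-/

set_option autoImplicit false

namespace Pool.Agent.H15_OneLoop

open Matrix

variable {N : ℕ}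

theorem lam_prod_ne {T : IdealTriangulation N} {z : Fin N → ℂ} {A P : Fin N → Fin 4 → Mat2}
    {s : Fin N → Fin 4 → ℂ} (H : Setup T.toGluing z A P s)
    (ε : Fin N → Fin N × Fin 4 × Fin 4) (hε : IsEdgeChoice T ε) :
    ∏ e, (s (ε e).1 (ε e).2.1 * s (ε e).1 (ε e).2.2 *
        mm (z (ε e).1) (ε e).2.1 (ε e).2.2 ^ 2) ^ 2 ≠ 0 := by
  refine Finset.prod_ne_zero_iff.2 fun e _ => pow_ne_zero 2 ?_
  exact mul_ne_zero (mul_ne_zero (H.hs _ _) (H.hs _ _))
    (pow_ne_zero 2 (mm_ne (H.h0 _) (H.h1 _) (hε e).1))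

theorem kappa_card (c₀ : Fin N × Fin 2) (r : Fin N) :
    Fintype.card (Fin N × Fin 3) =
      1 + Fintype.card ({c // c ≠ c₀} ⊕ (Unit ⊕ {E // E ≠ r})) := by
  have hN : 0 < N := lt_of_le_of_lt (Nat.zero_le _) r.2
  simp only [Fintype.card_sum, Fintype.card_unit]
  rw [Fintype.card_subtype_compl, Fintype.card_subtype_eq, Fintype.card_subtype_compl,
    Fintype.card_subtype_eq]
  simp only [Fintype.card_prod, Fintype.card_fin]
  omega

/-- The torsion formula for `P` with known scale. -/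
theorem torsion_formula (T : IdealTriangulation N) {z : Fin N → ℂ} {A P : Fin N → Fin 4 → Mat2}
    {s : Fin N → Fin 4 → ℂ} (H : Setup T.toGluing z A P s) (hz : ∀ j, 0 < (z j).im)
    (φ : Fin (2 * N) → Fin N × Fin 4) (hφ : IsFaceChoice T.toGluing φ)
    (ε : Fin N → Fin N × Fin 4 × Fin 4) (hε : IsEdgeChoice T ε) (θ : NormalCurve T.toGluing)
    (hθ : ¬ θ.NullHomologous) (f : Fin 3 → Fin N → ℤ) (hf : IsFlattening T f) (r : Fin N)
    (τ : ℂ) (hτ : IsTorsion (coord₂ T.toGluing A ε) (coord₁ T.toGluing A φ) (coord₀ N)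
      (bd₂ T.toGluing A) (bd₁ T.toGluing A) (classTwo H.hP) (classOne H.hP θ) τ) :
    τ = oneLoop T z θ f r ∨ τ = -oneLoop T z θ f r := by
  obtain ⟨cls, hcls, h1, h2, h3⟩ := exists_cornerClass T ε hε
  have hb := bfam_sqdet H ε hε cls hcls h1 h2 h3 (r, 0) r
  have hE := lam_prod_ne H ε hε
  obtain ⟨κ, hfin, hdec, b₁, hκ, -, hq0, -, hsq⟩ := torsion_sq _ _ _ _ _ _ _ τ hτ
    (bfam H cls hcls (r, 0) r) (kappa_card (r, 0) r) (by rw [hb]; exact hE)
  have hκ' : Fintype.card κ = 3 * N := by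
    rw [hκ]
    simp only [Fintype.card_prod, Fintype.card_fin]
    ring
  have hcurve := curve_identity H φ hφ θ
  have hI := intersection_ne_zero T H hz φ hφ cls hcls r θ hθ
  have hmain := assembly H φ hφ cls hcls (r, 0) r θ (crossing_div θ) hcurve hI b₁ hκ'
  rw [← hsq, hb] at hmain
  have hpf := product_formula T H φ hφ ε hε f hf
  have hF : ∏ F, (Setup.faceMat P (φ F).1 (φ F).2).det ^ 2 ≠ 0 :=
    Finset.prod_ne_zero_iff.2 fun F _ => pow_ne_zero 2 (H.faceMat_det_ne _ _)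
  have hZ : ∏ k, ∏ j, zeta (z j) k ^ f k j ≠ 0 := by
    refine Finset.prod_ne_zero_iff.2 fun k _ => Finset.prod_ne_zero_iff.2 fun j _ =>
      zpow_ne_zero _ ?_
    have e0 := H.h0 j
    have e1 : (1 : ℂ) - z j ≠ 0 := sub_ne_zero.2 (H.h1 j).symm
    have e2 : z j - 1 ≠ 0 := sub_ne_zero.2 (H.h1 j)
    fin_cases k <;> simp [zeta, e0, e1, e2]
  set D := (numMat T z θ r).det with hD
  set Z := ∏ k, ∏ j, zeta (z j) k ^ f k j with hZdef
  have key : 4 * τ ^ 2 * Z ^ 2 = D ^ 2 := by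
    refine mul_left_cancel₀ hF (mul_right_cancel₀ hq0 ?_)
    rw [← hmain]
    linear_combination (4 * τ ^ 2 *
      sqdet (cm (coord₀ N) (bd₁ T.toGluing A ∘ b₁))) * hpf
  have hone : oneLoop T z θ f r = D / (2 * Z) := rfl
  rw [hone]
  have : (τ - D / (2 * Z)) * (τ + D / (2 * Z)) = 0 := by
    field_simp
    linear_combination key
  rcases mul_eq_zero.1 this with h | h
  · left; linear_combination h
  · right; linear_combination h

theorem torsion_exists (T : IdealTriangulation N) {z : Fin N → ℂ} {A P : Fin N → Fin 4 → Mat2}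
    {s : Fin N → Fin 4 → ℂ} (H : Setup T.toGluing z A P s) (hz : ∀ j, 0 < (z j).im)
    (φ : Fin (2 * N) → Fin N × Fin 4) (hφ : IsFaceChoice T.toGluing φ)
    (ε : Fin N → Fin N × Fin 4 × Fin 4) (hε : IsEdgeChoice T ε) (θ : NormalCurve T.toGluing)
    (hθ : ¬ θ.NullHomologous) (r : Fin N) :
    ∃ τ, IsTorsion (coord₂ T.toGluing A ε) (coord₁ T.toGluing A φ) (coord₀ N)
      (bd₂ T.toGluing A) (bd₁ T.toGluing A) (classTwo H.hP) (classOne H.hP θ) τ := by
  obtain ⟨cls, hcls, h1, h2, h3⟩ := exists_cornerClass T ε hε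
  have hb := bfam_sqdet H ε hε cls hcls h1 h2 h3 (r, 0) r
  have hE := lam_prod_ne H ε hε
  have hcurve := curve_identity H φ hφ θ
  have hI := intersection_ne_zero T H hz φ hφ cls hcls r θ hθ
  have hsum : ∑ t : Fin N × Fin 4, (∑ k, (θ.C k t.1 : ℂ) * zeta (z t.1) k) *
      kvec (z t.1) (s t.1) t.2 ≠ 0 := by
    intro h
    rw [h] at hcurve
    have : 4 * (res φ (disFlow z s) ⬝ᵥ (cuspΩ T.toGluing φ).map (Int.cast : ℤ → ℂ) *ᵥ
        (res φ fun j v a => (θ.crossing j v a : ℂ))) ^ 2 = 0 := by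
      rw [← hcurve]; ring
    exact hI (by simpa using this)
  -- the 0-chains
  have hsurj := bd₁_surj T.one_cusp H φ hφ (fun j => ∑ k, (θ.C k j : ℂ) * zeta (z j) k) hsum
  have hc₀ := coord₀_bij N
  have hex : ∀ p : Fin N × Fin 3, ∃ y, coord₀ N (bd₁ T.toGluing A y) = Pi.single p 1 := by
    intro p
    obtain ⟨u, hu⟩ := hc₀.2 (Pi.single p 1)
    obtain ⟨y, hy⟩ := hsurj u
    exact ⟨y, by rw [hy, hu]⟩
  choose b₁ hb₁ using hex
  have hcm0 : cm (coord₀ N) (bd₁ T.toGluing A ∘ b₁) = 1 := by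
    ext p k
    simp only [cm, Matrix.of_apply, Function.comp_apply, hb₁, Pi.single_apply,
      Matrix.one_apply]
  have hmain := assembly H φ hφ cls hcls (r, 0) r θ (crossing_div θ) hcurve hI b₁ (by
    simp only [Fintype.card_prod, Fintype.card_fin]; ring)
  have hF : ∏ F, (Setup.faceMat P (φ F).1 (φ F).2).det ^ 2 ≠ 0 :=
    Finset.prod_ne_zero_iff.2 fun F _ => pow_ne_zero 2 (H.faceMat_det_ne _ _)
  -- the 1-loop determinant
  have hdet : (numMat T z θ r).det ≠ 0 := by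
    refine oneLoop_det_ne_zero T z hz θ r (fun j => ∑ v, kvec (z j) (s j) v) ?_ ?_
    · intro e
      have hp := pairing T.toGluing φ hφ (psi T z s e) (psi_isFlow H e).diag
      have h0 : ∑ x : Fin (2 * N) × Fin 3, (psi T z s e (φ x.1).1 (sv φ x) (φ x.1).2 +
          psi T z s e (T.adj (φ x.1).1 (φ x.1).2) (T.glue (φ x.1).1 (φ x.1).2 (sv φ x))
            (T.glue (φ x.1).1 (φ x.1).2 (φ x.1).2)) = 0 := by
        refine Finset.sum_eq_zero fun x _ => ?_
        rw [(psi_isFlow H e).anti _ (sv φ x) _ (Fin.succAbove_ne _ _)]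
        ring
      rw [h0] at hp
      rw [← hp]
      refine Finset.sum_congr rfl fun j _ => ?_
      rw [Finset.mul_sum]
      exact Finset.sum_congr rfl fun v _ => (psi_div T H.h0 H.h1 H.hs e j v).symm
    · intro h
      apply hsum
      rw [← h, Fintype.sum_prod_type]
      refine Finset.sum_congr rfl fun j _ => ?_
      rw [Finset.mul_sum]
  have hc1 : sqdet (cm (coord₁ T.toGluing A φ)
      (Sum.elim (bd₂ T.toGluing A ∘ bfam H cls hcls (r, 0) r)
        (Sum.elim (fun _ : Unit => classOne H.hP θ) b₁))) ≠ 0 := by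
    intro h
    rw [h, hcm0, sqdet_square, Matrix.det_one, mul_zero, zero_mul] at hmain
    have : (∏ F, (Setup.faceMat P (φ F).1 (φ F).2).det ^ 2) * (numMat T z θ r).det ^ 2 *
      1 ^ 2 ≠ 0 := by
      rw [one_pow, mul_one]
      exact mul_ne_zero hF (pow_ne_zero 2 hdet)
    exact this hmain.symm
  -- the coordinates on the 2-chains
  have hc₂ : Function.Bijective (coord₂ T.toGluing A ε) := by
    refine ⟨coord₂_inj H ε hε, fun w => ?_⟩
    obtain ⟨u, hu⟩ := exists_mulVec_eq (cm (coord₂ T.toGluing A ε)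
      (Sum.elim (fun _ : Unit => classTwo H.hP) (bfam H cls hcls (r, 0) r)))
      (by rw [kappa_card (r, 0) r]; simp only [Fintype.card_sum, Fintype.card_unit])
      (by rw [hb]; exact hE) w
    refine ⟨∑ k, u k • (Sum.elim (fun _ : Unit => classTwo H.hP) (bfam H cls hcls (r, 0) r)) k,
      ?_⟩
    rw [map_sum, ← hu]
    ext p
    simp only [Finset.sum_apply, map_smul, Pi.smul_apply, smul_eq_mul, Matrix.mulVec,
      dotProduct, cm, Matrix.of_apply]
    exact Finset.sum_congr rfl fun k _ => mul_comm _ _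
  let e₂ : Fin N × Fin 3 ≃ Unit ⊕ ({c // c ≠ ((r, 0) : Fin N × Fin 2)} ⊕
      (Unit ⊕ {E // E ≠ r})) := Fintype.equivOfCardEq (by
    rw [kappa_card (r, 0) r]; simp only [Fintype.card_sum, Fintype.card_unit])
  let e₁ : Fin (2 * N) × Fin 3 ≃ ({c // c ≠ ((r, 0) : Fin N × Fin 2)} ⊕
      (Unit ⊕ {E // E ≠ r})) ⊕ Unit ⊕ (Fin N × Fin 3) := Fintype.equivOfCardEq (by
    have := kappa_card (N := N) (r, 0) r
    simp only [Fintype.card_sum, Fintype.card_prod, Fintype.card_fin, Fintype.card_unit] at this ⊢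
    omega)
  refine ⟨_, hc₂, coord₁_bij H φ hφ, hc₀, bd₂_classTwo H.hP cls hcls, ?_,
    bd₁_bd₂ T.toGluing A, _, _, bfam H cls hcls (r, 0) r, b₁, e₂, e₁, Equiv.refl _, ?_, ?_, ?_,
    rfl⟩
  · -- the peripheral curve is a cycle
    ext1
    funext j
    rw [bd₁_rep (rep_classOne H.hP θ) j]
    simp only [← Int.cast_sum, crossing_div, Int.cast_zero, neg_zero, zero_smul,
      Finset.sum_const_zero]
    rfl
  · intro h
    have := vol_sq (coord₂ T.toGluing A ε)
      (Sum.elim (fun _ : Unit => classTwo H.hP) (bfam H cls hcls (r, 0) r)) e₂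
    rw [h, hb] at this
    exact hE (by rw [← this]; ring)
  · intro h
    have := vol_sq (coord₁ T.toGluing A φ)
      (Sum.elim (bd₂ T.toGluing A ∘ bfam H cls hcls (r, 0) r)
        (Sum.elim (fun _ : Unit => classOne H.hP θ) b₁)) e₁
    rw [h] at this
    exact hc1 (by rw [← this]; ring)
  · have : vol (coord₀ N) (bd₁ T.toGluing A ∘ b₁ ∘ (Equiv.refl (Fin N × Fin 3))) =
        (cm (coord₀ N) (bd₁ T.toGluing A ∘ b₁)).det := rfl
    rw [this, hcm0, Matrix.det_one]
    exact one_ne_zero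

/-- The 1-loop theorem. -/
theorem statement : Statement := by
  intro N T S θ hθ f hf r
  have h01 : ∀ j, S.z j ≠ 0 ∧ S.z j ≠ 1 := fun j => ne_zero_one_of_im (S.im_pos j)
  obtain ⟨s, hs, hdis⟩ := exists_scale T S
  constructor
  · obtain ⟨A, hA⟩ := exists_holonomy T.toGluing S.z (fun j => (h01 j).1) (fun j => (h01 j).2)
    have H := setup_of_scale T.toGluing S.z (fun j => (h01 j).1) (fun j => (h01 j).2) A hA s hs
      hdis r
    obtain ⟨φ, hφ⟩ := exists_faceChoice T.toGluing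
    choose je ve we hne he using T.edge_surj
    have hε : IsEdgeChoice T (fun e => (je e, ve e, we e)) := fun e => ⟨hne e, he e⟩
    obtain ⟨τ, hτ⟩ := torsion_exists T H S.im_pos φ hφ _ hε θ hθ r
    exact ⟨τ, A, _, hA, H.hP, φ, _, hφ, hε, hτ⟩
  · rintro τ ⟨A, P, hA, hP, φ, ε, hφ, hε, hτ⟩
    have H := setup_of_scale T.toGluing S.z (fun j => (h01 j).1) (fun j => (h01 j).2) A hA s hs
      hdis r
    obtain ⟨s', hs', hP'⟩ := cuspInvariant_parabolic T.toGluing T.one_cusp S.z S.im_pos A _ P s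
      H hP
    have H' : Setup T.toGluing S.z A P s' :=
      ⟨fun j => (h01 j).1, fun j => (h01 j).2, hA, hP, hs', hP'⟩
    exact torsion_formula T H' S.im_pos φ hφ ε hε θ hθ f hf r τ hτ

end Pool.Agent.H15_OneLoop
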