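import Pool.Agent.H15_OneLoop.Defs

/-!
# The torsion in terms of plain functions and in terms of vector spaces
-/

set_option autoImplicit false

namespace Pool.Agent.H15_OneLoop

open Matrix

variable {N : ℕ}

theorem portiTorsion_iff (T : IdealTriangulation N) (z : Fin N → ℂ) (θ : NormalCurve T.toGluing)
    (τ : ℂ) : IsPortiTorsion T z θ τ ↔ IsAdjointTorsion T z θ τ := by
  constructor
  · rintro ⟨A, P, φ, ε, hA, hP, hφ, hε, u₂, u₁, u₀, hd₂, hd₁, ⟨hh₂, hz₂⟩, ⟨hh₁, hz₁⟩, κ₂, κ₁, b₂,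
      b₁, e₂, e₁, e₀, hb₂, hb₁, n₂, n₁, n₀, hτ⟩
    refine ⟨A, P, hA, hP, φ, ε, hφ, hε, ⟨?_, ?_⟩, ⟨?_, ?_⟩, ⟨?_, ?_⟩, ?_, ?_, ?_, κ₂, κ₁,
      fun k => ⟨b₂ k, hb₂ k⟩, fun k => ⟨b₁ k, hb₁ k⟩, e₂, e₁, e₀, ?_, ?_, ?_, ?_⟩
    · intro x y hxy
      obtain ⟨t, -, ht⟩ := u₂ (crd₂ ε y.1)
      exact Subtype.ext ((ht _ ⟨x.2, hxy⟩).trans (ht _ ⟨y.2, rfl⟩).symm)
    · intro w
      obtain ⟨x, ⟨hx, hxw⟩, -⟩ := u₂ w
      exact ⟨⟨x, hx⟩, hxw⟩
    · intro x y hxy
      obtain ⟨t, -, ht⟩ := u₁ (crd₁ φ y.1)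
      exact Subtype.ext ((ht _ ⟨x.2, hxy⟩).trans (ht _ ⟨y.2, rfl⟩).symm)
    · intro w
      obtain ⟨x, ⟨hx, hxw⟩, -⟩ := u₁ w
      exact ⟨⟨x, hx⟩, hxw⟩
    · intro x y hxy
      obtain ⟨t, -, ht⟩ := u₀ (crd₀ y.1)
      exact Subtype.ext ((ht _ ⟨x.2, hxy⟩).trans (ht _ ⟨y.2, rfl⟩).symm)
    · intro w
      obtain ⟨x, ⟨hx, hxw⟩, -⟩ := u₀ w
      exact ⟨⟨x, hx⟩, hxw⟩
    · exact Subtype.ext hz₂
    · exact Subtype.ext hz₁
    · intro x
      exact Subtype.ext (hd₂ x.1 x.2).2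
    · refine fun h => n₂ ?_
      rw [← h]
      unfold vol
      congr 2
      funext i k
      rcases h : e₂ k with t | t <;> simp only [Function.comp_apply, h, Sum.elim_inl, Sum.elim_inr]
        <;> rfl
    · refine fun h => n₁ ?_
      rw [← h]
      unfold vol
      congr 2
      funext i k
      rcases h : e₁ k with t | t | t <;>
        simp only [Function.comp_apply, h, Sum.elim_inl, Sum.elim_inr] <;> rfl
    · refine fun h => n₀ ?_
      rw [← h]
      rfl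
    · rw [hτ]
      congr 1
      · unfold vol
        congr 2
        funext i k
        rcases h : e₁ k with t | t | t <;>
          simp only [Function.comp_apply, h, Sum.elim_inl, Sum.elim_inr] <;> rfl
      · congr 1
        unfold vol
        congr 2
        funext i k
        rcases h : e₂ k with t | t <;>
          simp only [Function.comp_apply, h, Sum.elim_inl, Sum.elim_inr] <;> rfl
  · rintro ⟨A, P, hA, hP, φ, ε, hφ, hε, u₂, u₁, u₀, hz₂, hz₁, hdd, κ₂, κ₁, b₂,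
      b₁, e₂, e₁, e₀, n₂, n₁, n₀, hτ⟩
    refine ⟨A, P, φ, ε, hA, hP, hφ, hε, ?_, ?_, ?_, ?_, ?_, ⟨(classTwo hP).2, ?_⟩,
      ⟨(classOne hP θ).2, ?_⟩, κ₂, κ₁, fun k => (b₂ k).1, fun k => (b₁ k).1, e₂, e₁, e₀,
      fun k => (b₂ k).2, fun k => (b₁ k).2, ?_, ?_, ?_, ?_⟩
    · intro w
      obtain ⟨x, hx⟩ := u₂.2 w
      exact ⟨x.1, ⟨x.2, hx⟩, fun y hy => congrArg Subtype.val (u₂.1 (a₁ := ⟨y, hy.1⟩)
        (hy.2.trans hx.symm))⟩
    · intro w
      obtain ⟨x, hx⟩ := u₁.2 w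
      exact ⟨x.1, ⟨x.2, hx⟩, fun y hy => congrArg Subtype.val (u₁.1 (a₁ := ⟨y, hy.1⟩)
        (hy.2.trans hx.symm))⟩
    · intro w
      obtain ⟨x, hx⟩ := u₀.2 w
      exact ⟨x.1, ⟨x.2, hx⟩, fun y hy => congrArg Subtype.val (u₀.1 (a₁ := ⟨y, hy.1⟩)
        (hy.2.trans hx.symm))⟩
    · intro x hx
      exact ⟨(bd₂ T.toGluing A ⟨x, hx⟩).2, congrArg Subtype.val (hdd ⟨x, hx⟩)⟩
    · intro y hy
      exact (bd₁ T.toGluing A ⟨y, hy⟩).2
    · exact congrArg Subtype.val hz₂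
    · exact congrArg Subtype.val hz₁
    · refine fun h => n₂ ?_
      rw [← h]
      unfold vol
      congr 2
      funext i k
      rcases h : e₂ k with t | t <;> simp only [Function.comp_apply, h, Sum.elim_inl, Sum.elim_inr]
        <;> rfl
    · refine fun h => n₁ ?_
      rw [← h]
      unfold vol
      congr 2
      funext i k
      rcases h : e₁ k with t | t | t <;>
        simp only [Function.comp_apply, h, Sum.elim_inl, Sum.elim_inr] <;> rfl
    · refine fun h => n₀ ?_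
      rw [← h]
      rfl
    · rw [hτ]
      congr 1
      · unfold vol
        congr 2
        funext i k
        rcases h : e₁ k with t | t | t <;>
          simp only [Function.comp_apply, h, Sum.elim_inl, Sum.elim_inr] <;> rfl
      · congr 1
        unfold vol
        congr 2
        funext i k
        rcases h : e₂ k with t | t <;>
          simp only [Function.comp_apply, h, Sum.elim_inl, Sum.elim_inr] <;> rfl

end Pool.Agent.H15_OneLoop
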