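import Pool.Agent.H15_OneLoop.Core
import Pool.Agent.H15_OneLoop.Cusp

/-!
# The displacement flow and the flows of the edges
-/

set_option autoImplicit false

namespace Pool.Agent.H15_OneLoop

open Matrix

variable {N : ℕ}

/-- The displacement along the sides of the triangles of the cusp. -/
noncomputable def disFlow (z : Fin N → ℂ) (s : Fin N → Fin 4 → ℂ) :
    Fin N → Fin 4 → Fin 4 → ℂ :=
  fun j v a => dis (z j) (s j) v (rgt v a) (lft v a)

/-- The flow of the edge `E`. -/
noncomputable def psi (T : IdealTriangulation N) (z : Fin N → ℂ) (s : Fin N → Fin 4 → ℂ)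
    (E : Fin N) : Fin N → Fin 4 → Fin 4 → ℂ :=
  fun j u a => ∑ v, if v = a then 0 else
    if T.edge j v (lft v a) = E then rdec (z j) (s j) v (lft v a) (rgt v a) u else 0

theorem disFlow_sum {z : Fin N → ℂ} (h0 : ∀ j, z j ≠ 0) (h1 : ∀ j, z j ≠ 1)
    {s : Fin N → Fin 4 → ℂ} (hs : ∀ j v, s j v ≠ 0) (j : Fin N) (v : Fin 4) :
    ∑ a, disFlow z s j v a = 0 :=
  sum_dis (h0 j) (h1 j) (s j) (hs j) v

theorem disFlow_isFlow {T : Gluing N} {z : Fin N → ℂ} {A P : Fin N → Fin 4 → Mat2}
    {s : Fin N → Fin 4 → ℂ} (H : Setup T z A P s) : IsFlow T (disFlow z s) where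
  diag j a := by
    unfold disFlow
    rw [(lft_self a).1, (lft_self a).2, dis_self]
  anti j v a hva := by
    unfold disFlow
    obtain ⟨l1, l2, l3, l4, l5⟩ := lft_ne v a hva
    rw [(lft_rgt_glue _ (T.odd j a) v a hva).1, (lft_rgt_glue _ (T.odd j a) v a hva).2,
      H.dis_glue j hva l2 l4 l1.symm l3.symm, dis_antisymm]

theorem rdec_antisymm (z : ℂ) (s : Fin 4 → ℂ) {v w : Fin 4} (hvw : v ≠ w) (b u : Fin 4) :
    rdec z s w v b u = -rdec z s v w b u := by
  unfold rdec
  by_cases h1 : u = v
  · subst h1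
    simp only [if_neg hvw, if_true]
    rw [dis_antisymm]
  · by_cases h2 : u = w
    · subst h2
      simp only [if_neg h1, if_true]
      rw [dis_antisymm]
    · by_cases h3 : u = b
      · subst h3
        simp only [if_neg h1, if_neg h2, if_true]
        rw [dis_antisymm]
      · simp [h1, h2, h3]

theorem IdealTriangulation.edge_symm (T : IdealTriangulation N) (j : Fin N) {v w : Fin 4}
    (h : v ≠ w) : T.edge j w v = T.edge j v w :=
  ((T.edge_eq_iff h h.symm).2 (Relation.EqvGen.rel _ _ (Gluing.EdgeStep.flip j v w))).symm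

theorem IdealTriangulation.edge_glue (T : IdealTriangulation N) (j : Fin N) {a v w : Fin 4}
    (hv : v ≠ a) (hw : w ≠ a) (h : v ≠ w) :
    T.edge (T.adj j a) (T.glue j a v) (T.glue j a w) = T.edge j v w :=
  ((T.edge_eq_iff h ((T.glue j a).injective.ne h)).2
    (Relation.EqvGen.rel _ _ (Gluing.EdgeStep.cross j a v w hv hw))).symm

theorem lft_lft : ∀ v a : Fin 4, v ≠ a → lft (lft v a) a = rgt v a ∧ rgt (lft v a) a = v ∧
      lft (rgt v a) a = v ∧ rgt (rgt v a) a = lft v a := by decide

theorem psi_isFlow {T : IdealTriangulation N} {z : Fin N → ℂ} {A P : Fin N → Fin 4 → Mat2}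
    {s : Fin N → Fin 4 → ℂ} (H : Setup T.toGluing z A P s) (E : Fin N) :
    IsFlow T.toGluing (psi T z s E) where
  diag j a := by
    unfold psi
    refine Finset.sum_eq_zero fun v _ => ?_
    by_cases hva : v = a
    · rw [if_pos hva]
    · rw [if_neg hva]
      obtain ⟨l1, l2, l3, l4, l5⟩ := lft_ne v a hva
      have : rdec (z j) (s j) v (lft v a) (rgt v a) a = 0 := by
        unfold rdec
        rw [if_neg (Ne.symm hva), if_neg l2.symm, if_neg l4.symm]
      rw [this, ite_self]
  anti j u a _ := by
    unfold psi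
    rw [← Equiv.sum_comp (T.glue j a)]
    -- the sum over `w` with `v = rgt w a`
    have key : ∀ w, (if T.glue j a w = T.glue j a a then (0 : ℂ) else
        if T.edge (T.adj j a) (T.glue j a w) (lft (T.glue j a w) (T.glue j a a)) = E then
          rdec (z (T.adj j a)) (s (T.adj j a)) (T.glue j a w)
            (lft (T.glue j a w) (T.glue j a a)) (rgt (T.glue j a w) (T.glue j a a))
            (T.glue j a u) else 0) =
        -(if rgt w a = a then (0 : ℂ) else
          if T.edge j (rgt w a) (lft (rgt w a) a) = E then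
            rdec (z j) (s j) (rgt w a) (lft (rgt w a) a) (rgt (rgt w a) a) u else 0) := by
      intro w
      by_cases hw : w = a
      · subst hw
        rw [if_pos rfl, (lft_self w).2, if_pos rfl, neg_zero]
      · have hw' : T.glue j a w ≠ T.glue j a a := (T.glue j a).injective.ne hw
        obtain ⟨l1, l2, l3, l4, l5⟩ := lft_ne w a hw
        rw [if_neg hw', if_neg l4, (lft_rgt_glue _ (T.odd j a) w a hw).1,
          (lft_rgt_glue _ (T.odd j a) w a hw).2, (lft_lft w a hw).2.2.1,
          (lft_lft w a hw).2.2.2, T.edge_glue j hw l4 l3.symm,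
          H.rdec_glue j hw l4 l2 l3.symm l1.symm l5.symm, T.edge_symm j l3.symm,
          rdec_antisymm (z j) (s j) l3]
        split_ifs <;> simp
    rw [Finset.sum_congr rfl fun w _ => key w, Finset.sum_neg_distrib]
    congr 1
    -- `w ↦ rgt w a` is a permutation
    have hinj : Function.Injective fun w => rgt w a := by
      have : ∀ a x y : Fin 4, rgt x a = rgt y a → x = y := by decide
      exact fun x y h => this a x y h
    exact (Equiv.ofBijective _ (Finite.injective_iff_bijective.1 hinj)).sum_comp (fun v =>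
      if v = a then (0 : ℂ) else
        if T.edge j v (lft v a) = E then
          rdec (z j) (s j) v (lft v a) (rgt v a) u else 0)

/-- The flows of the edges add up to the displacement flow. -/
theorem sum_psi (T : IdealTriangulation N) (z : Fin N → ℂ) (s : Fin N → Fin 4 → ℂ)
    (j : Fin N) {u a : Fin 4} (hu : u ≠ a) : ∑ E, psi T z s E j u a = disFlow z s j u a := by
  unfold psi disFlow
  rw [Finset.sum_comm, ← sum_face_rdec (z j) (s j) hu]
  refine Finset.sum_congr rfl fun v _ => ?_
  by_cases hv : v = a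
  · simp [hv]
  · simp [hv]

theorem IdealTriangulation.G_zero (T : IdealTriangulation N) (e j : Fin N) :
    (T.G 0 e j : ℂ) = (if T.edge j 0 1 = e then 1 else 0) +
      (if T.edge j 2 3 = e then 1 else 0) := by
  unfold IdealTriangulation.G
  rw [Finset.card_filter]
  have h : oppEdges 0 = {(0, 1), (2, 3)} := rfl
  rw [h, Finset.sum_pair (by decide)]
  push_cast
  rfl

theorem IdealTriangulation.G_one (T : IdealTriangulation N) (e j : Fin N) :
    (T.G 1 e j : ℂ) = (if T.edge j 0 2 = e then 1 else 0) +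
      (if T.edge j 1 3 = e then 1 else 0) := by
  unfold IdealTriangulation.G
  rw [Finset.card_filter]
  have h : oppEdges 1 = {(0, 2), (1, 3)} := rfl
  rw [h, Finset.sum_pair (by decide)]
  push_cast
  rfl

theorem IdealTriangulation.G_two (T : IdealTriangulation N) (e j : Fin N) :
    (T.G 2 e j : ℂ) = (if T.edge j 0 3 = e then 1 else 0) +
      (if T.edge j 1 2 = e then 1 else 0) := by
  unfold IdealTriangulation.G
  rw [Finset.card_filter]
  have h : oppEdges 2 = {(0, 3), (1, 2)} := rfl
  rw [h, Finset.sum_pair (by decide)]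
  push_cast
  rfl

/-- The divergence of the flow of an edge: a row of the gluing matrix. -/
theorem psi_div (T : IdealTriangulation N) {z : Fin N → ℂ} (h0 : ∀ j, z j ≠ 0)
    (h1 : ∀ j, z j ≠ 1) {s : Fin N → Fin 4 → ℂ} (hs : ∀ j v, s j v ≠ 0) (E j : Fin N)
    (u : Fin 4) :
    ∑ a, psi T z s E j u a = (∑ k, (T.G k E j : ℂ) * zeta (z j) k) * kvec (z j) (s j) u := by
  have e10 := T.edge_symm j (show (0 : Fin 4) ≠ 1 by decide)
  have e20 := T.edge_symm j (show (0 : Fin 4) ≠ 2 by decide)
  have e30 := T.edge_symm j (show (0 : Fin 4) ≠ 3 by decide)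
  have e21 := T.edge_symm j (show (1 : Fin 4) ≠ 2 by decide)
  have e31 := T.edge_symm j (show (1 : Fin 4) ≠ 3 by decide)
  have e32 := T.edge_symm j (show (2 : Fin 4) ≠ 3 by decide)
  have r := fun (v a : Fin 4) (h : v ≠ a) => rdec_sub (h0 j) (h1 j) (s j) (hs j) h u
  -- the six edges
  have r01 := r 0 2 (by decide)
  have r02 := r 0 3 (by decide)
  have r03 := r 0 1 (by decide)
  have r12 := r 1 0 (by decide)
  have r13 := r 1 2 (by decide)
  have r23 := r 2 0 (by decide)
  have a01 := fun b => rdec_antisymm (z j) (s j) (show (0 : Fin 4) ≠ 1 by decide) b u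
  have a02 := fun b => rdec_antisymm (z j) (s j) (show (0 : Fin 4) ≠ 2 by decide) b u
  have a03 := fun b => rdec_antisymm (z j) (s j) (show (0 : Fin 4) ≠ 3 by decide) b u
  have a12 := fun b => rdec_antisymm (z j) (s j) (show (1 : Fin 4) ≠ 2 by decide) b u
  have a13 := fun b => rdec_antisymm (z j) (s j) (show (1 : Fin 4) ≠ 3 by decide) b u
  have a23 := fun b => rdec_antisymm (z j) (s j) (show (2 : Fin 4) ≠ 3 by decide) b u
  simp only [lft, rgt, kind, Matrix.cons_val', Matrix.cons_val_zero,
    Matrix.cons_val_one, Matrix.cons_val_fin_one, Matrix.cons_val] at r01 r02 r03 r12 r13 r23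
  have aux : ∀ (e : Fin N) (X Y c : ℂ), X - Y = c → (if e = E then X else 0) +
      (if e = E then -Y else 0) = (if e = E then 1 else 0) * c := by
    intro e X Y c h
    split_ifs
    · rw [← h]; ring
    · ring
  have h01 := aux (T.edge j 0 1) _ _ _ r01
  have h02 := aux (T.edge j 0 2) _ _ _ r02
  have h03 := aux (T.edge j 0 3) _ _ _ r03
  have h12 := aux (T.edge j 1 2) _ _ _ r12
  have h13 := aux (T.edge j 1 3) _ _ _ r13
  have h23 := aux (T.edge j 2 3) _ _ _ r23
  simp only [psi, Fin.sum_univ_four, Fin.sum_univ_three, IdealTriangulation.G_zero,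
    IdealTriangulation.G_one, IdealTriangulation.G_two]
  simp [lft, rgt, e10, e20, e30, e21, e31, e32, a01, a02, a03, a12, a13, a23]
  linear_combination h01 + h02 + h03 + h12 + h13 + h23

end Pool.Agent.H15_OneLoop
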