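import Pool.Agent.H15_OneLoop.Chains

/-!
# The special chains and their flows
-/

set_option autoImplicit false

namespace Pool.Agent.H15_OneLoop

open Matrix

variable {N : ℕ}

theorem rotM_self (V : Fin 2 → ℂ) : rotM V V = 0 := by
  have h : dd V V = 0 := by unfold dd; ring
  unfold rotM
  rw [h, _root_.inv_zero, zero_smul]

/-- The `2`-chain of the edge `E`: the infinitesimal rotation about the edge. -/
noncomputable def qEdge {T : IdealTriangulation N} {z : Fin N → ℂ} {A P : Fin N → Fin 4 → Mat2}
    {s : Fin N → Fin 4 → ℂ} (H : Setup T.toGluing z A P s) (E : Fin N) :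
    chain₂ T.toGluing A :=
  ⟨fun j v w => if T.edge j v w = E then rotM (pos (z j) v) (pos (z j) w) else 0, by
    refine ⟨fun j v w => ?_, fun j v w => ?_, fun j a v w hv hw => ?_⟩ <;> beta_reduce
    · split_ifs
      · exact rotM_trace _ _
      · simp
    · by_cases hvw : v = w
      · subst hvw
        simp [rotM_self]
      · rw [T.edge_symm j hvw, rotM_antisymm]
        split_ifs <;> simp
    · by_cases hvw : v = w
      · subst hvw
        simp [rotM_self]
      · rw [T.edge_glue j hv hw hvw, H.rotM_glue j hv hw]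
        split_ifs <;> simp⟩

theorem rep_qEdge {T : IdealTriangulation N} {z : Fin N → ℂ} {A P : Fin N → Fin 4 → Mat2}
    {s : Fin N → Fin 4 → ℂ} (H : Setup T.toGluing z A P s) (E : Fin N) :
    Rep P (bd₂ T.toGluing A (qEdge H E)) (psi T z s E) := by
  refine ⟨psi_isFlow H E, fun j a => ?_⟩
  show ∑ σ ∈ evenAt a, (qEdge H E).1 j (σ 0) (σ 1) = _
  rw [sum_evenAt (fun v w => (qEdge H E).1 j v w) a]
  simp only [psi, Finset.sum_smul]
  rw [Finset.sum_comm]
  refine Finset.sum_congr rfl fun v _ => ?_
  by_cases hva : v = a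
  · simp [hva]
  · obtain ⟨l1, l2, l3, l4, l5⟩ := lft_ne v a hva
    simp only [if_neg hva, qEdge]
    by_cases hE : T.edge j v (lft v a) = E
    · simp only [if_pos hE]
      rw [rotM_eq (H.h0 j) (H.h1 j) (s j) (H.hs j) l1.symm l3.symm l5]
      refine Finset.sum_congr rfl fun u _ => ?_
      rw [H.hPs j u]
    · simp [if_neg hE]

/-- The `2`-chain of a function on the vertices of the cusp triangulation. -/
def phiTwo {T : Gluing N} {A P : Fin N → Fin 4 → Mat2} (hP : IsCuspInvariant T A P) {I : Type}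
    (cls : Fin N → Fin 4 → Fin 4 → I) (hcls : IsCornerClass T cls) (g : I → ℂ) :
    chain₂ T A :=
  ⟨fun j v w => g (cls j v w) • P j v - g (cls j w v) • P j w, by
    refine ⟨fun j v w => ?_, fun j v w => ?_, fun j a v w hv hw => ?_⟩ <;> beta_reduce
    · rw [Matrix.trace_sub, Matrix.trace_smul, Matrix.trace_smul, hP.trace_eq, hP.trace_eq,
        smul_zero, smul_zero, sub_zero]
    · exact (neg_sub _ _).symm
    · by_cases hvw : v = w
      · subst hvw
        simp
      · rw [hP.parallel j a v hv, hP.parallel j a w hw, hcls.glue j a v w hv hw hvw,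
          hcls.glue j a w v hw hv (Ne.symm hvw), Matrix.mul_sub, Matrix.sub_mul]
        simp only [Matrix.mul_smul, Matrix.smul_mul]⟩

theorem rep_phiTwo {T : Gluing N} {A P : Fin N → Fin 4 → Mat2} (hP : IsCuspInvariant T A P)
    {I : Type} (cls : Fin N → Fin 4 → Fin 4 → I) (hcls : IsCornerClass T cls) (g : I → ℂ) :
    Rep P (bd₂ T A (phiTwo hP cls hcls g))
      (fun j u a => g (cls j u (lft u a)) - g (cls j u (rgt u a))) := by
  refine ⟨⟨fun j a => ?_, fun j v a hva => ?_⟩, fun j a => ?_⟩
  · show g (cls j a (lft a a)) - g (cls j a (rgt a a)) = 0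
    rw [(lft_self a).1, (lft_self a).2, sub_self]
  · obtain ⟨l1, l2, l3, l4, l5⟩ := lft_ne v a hva
    show g (cls _ _ (lft _ _)) - g (cls _ _ (rgt _ _)) = _
    rw [(lft_rgt_glue _ (T.odd j a) v a hva).1, (lft_rgt_glue _ (T.odd j a) v a hva).2,
      hcls.glue j a v _ hva l4 l3.symm, hcls.glue j a v _ hva l2 l1.symm, neg_sub]
  · show ∑ σ ∈ evenAt a, (phiTwo hP cls hcls g).1 j (σ 0) (σ 1) = _
    rw [sum_evenAt (fun v w => (phiTwo hP cls hcls g).1 j v w) a]
    have hinj : Function.Injective fun w => lft w a := by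
      have : ∀ a x y : Fin 4, lft x a = lft y a → x = y := by decide
      exact fun x y h => this a x y h
    have h1 : ∑ v, (if v = a then (0 : Mat2) else
        g (cls j (lft v a) v) • P j (lft v a)) =
        ∑ w, (if w = a then (0 : Mat2) else g (cls j w (rgt w a)) • P j w) := by
      rw [← (Equiv.ofBijective _ (Finite.injective_iff_bijective.1 hinj)).sum_comp (fun w =>
        if w = a then (0 : Mat2) else g (cls j w (rgt w a)) • P j w)]
      refine Finset.sum_congr rfl fun v _ => ?_
      simp only [Equiv.ofBijective_apply]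
      by_cases hva : v = a
      · subst hva
        rw [(lft_self v).1]
        simp
      · obtain ⟨l1, l2, l3, l4, l5⟩ := lft_ne v a hva
        rw [if_neg hva, if_neg l2, (lft_lft v a hva).2.1]
    have h2 : ∀ v, (if v = a then (0 : Mat2) else (phiTwo hP cls hcls g).1 j v (lft v a)) =
        (if v = a then (0 : Mat2) else g (cls j v (lft v a)) • P j v) -
          (if v = a then (0 : Mat2) else g (cls j (lft v a) v) • P j (lft v a)) := by
      intro v
      split_ifs
      · simp
      · rfl
    rw [Finset.sum_congr rfl fun v _ => h2 v, Finset.sum_sub_distrib, h1,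
      ← Finset.sum_sub_distrib]
    refine Finset.sum_congr rfl fun v _ => ?_
    by_cases hva : v = a
    · subst hva
      beta_reduce
      rw [(lft_self v).1, (lft_self v).2, if_pos rfl]
      simp
    · rw [if_neg hva, if_neg hva, sub_smul]

theorem classTwo_eq {T : Gluing N} {A P : Fin N → Fin 4 → Mat2} (hP : IsCuspInvariant T A P)
    {I : Type} (cls : Fin N → Fin 4 → Fin 4 → I) (hcls : IsCornerClass T cls) :
    classTwo hP = phiTwo hP cls hcls (fun _ => 1) := by
  ext j v w
  simp [classTwo, phiTwo]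

theorem crossing_isFlow {T : Gluing N} (θ : NormalCurve T) (K : Type) [CommRing K] :
    IsFlow T (fun j u a => (θ.crossing j u a : K)) where
  diag j a := by
    have : θ.crossing j a a = 0 := by
      unfold NormalCurve.crossing
      refine Finset.sum_eq_zero fun i _ => ?_
      have h2 : ¬ (θ.tet i = j ∧ θ.arc i 0 = a ∧ θ.arc i 2 = a) := by
        rintro ⟨-, h1, h2⟩
        exact absurd ((θ.arc i).injective (h1.trans h2.symm)) (by decide)
      have h3 : ¬ (θ.tet i = j ∧ θ.arc i 0 = a ∧ θ.arc i 3 = a) := by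
        rintro ⟨-, h1, h2⟩
        exact absurd ((θ.arc i).injective (h1.trans h2.symm)) (by decide)
      rw [if_neg h2, if_neg h3, sub_zero]
    rw [this, Int.cast_zero]
  anti j v a _ := by
    have hexit : ∀ (k : Fin N) (x b : Fin 4),
        ∑ i ∈ Finset.range θ.len, (if θ.tet i = T.adj k b ∧ θ.arc i 0 = T.glue k b x ∧
          θ.arc i 3 = T.glue k b b then (1 : ℤ) else 0) =
        ∑ i ∈ Finset.range θ.len, (if θ.tet i = k ∧ θ.arc i 0 = x ∧ θ.arc i 2 = b then
          (1 : ℤ) else 0) := by
      intro k x b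
      rw [← θ.sum_shift (fun t s => if t = T.adj k b ∧ s 0 = T.glue k b x ∧
        s 3 = T.glue k b b then (1 : ℤ) else 0)]
      refine Finset.sum_congr rfl fun i _ => ?_
      have key : (θ.tet (i + 1) = T.adj k b ∧ θ.arc (i + 1) 0 = T.glue k b x ∧
          θ.arc (i + 1) 3 = T.glue k b b) ↔ (θ.tet i = k ∧ θ.arc i 0 = x ∧ θ.arc i 2 = b) := by
        have h1 := T.side_iff (T.adj k b) (T.glue k b b) (θ.tet i) (θ.arc i 2)
        rw [T.adj_adj, T.glue_apply_glue] at h1
        rw [θ.tet_succ, θ.enter_succ, θ.vertex_succ]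
        constructor
        · rintro ⟨h2, h3, h4⟩
          obtain ⟨h5, h6⟩ := h1.1 ⟨h2, h4⟩
          rw [h5, h6] at h3
          exact ⟨h5, (T.glue k b).injective h3, h6⟩
        · rintro ⟨h2, h3, h4⟩
          rw [h2, h3, h4]
          exact ⟨rfl, rfl, rfl⟩
      simp only [key]
    have h1 := hexit j v a
    have h2 := hexit (T.adj j a) (T.glue j a v) (T.glue j a a)
    rw [T.adj_adj, T.glue_apply_glue, T.glue_apply_glue] at h2
    have h3 : θ.crossing (T.adj j a) (T.glue j a v) (T.glue j a a) = -θ.crossing j v a := by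
      unfold NormalCurve.crossing
      rw [Finset.sum_sub_distrib, Finset.sum_sub_distrib, h1, ← h2]
      ring
    rw [h3, Int.cast_neg]

theorem rep_classOne {T : Gluing N} {A P : Fin N → Fin 4 → Mat2} (hP : IsCuspInvariant T A P)
    (θ : NormalCurve T) :
    Rep P (classOne hP θ) (fun j u a => (θ.crossing j u a : ℂ)) := by
  refine ⟨crossing_isFlow θ ℂ, fun j a => ?_⟩
  show ∑ i ∈ Finset.range θ.len,
      ((if θ.tet i = j ∧ θ.arc i 2 = a then P (θ.tet i) (θ.arc i 0) else 0) -
        (if θ.tet i = j ∧ θ.arc i 3 = a then P (θ.tet i) (θ.arc i 0) else 0)) = _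
  unfold NormalCurve.crossing
  push_cast
  simp only [Finset.sum_smul]
  rw [Finset.sum_comm]
  refine Finset.sum_congr rfl fun i _ => ?_
  simp only [sub_smul, Finset.sum_sub_distrib]
  congr 1
  · by_cases h : θ.tet i = j ∧ θ.arc i 2 = a
    · rw [if_pos h, Finset.sum_eq_single (θ.arc i 0)]
      · rw [if_pos ⟨h.1, rfl, h.2⟩, one_smul, h.1]
      · intro b _ hb
        rw [if_neg (fun h' => hb h'.2.1.symm), zero_smul]
      · intro h; exact absurd (Finset.mem_univ _) h
    · rw [if_neg h]
      symm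
      refine Finset.sum_eq_zero fun u _ => ?_
      rw [if_neg (fun h' => h ⟨h'.1, h'.2.2⟩), zero_smul]
  · by_cases h : θ.tet i = j ∧ θ.arc i 3 = a
    · rw [if_pos h, Finset.sum_eq_single (θ.arc i 0)]
      · rw [if_pos ⟨h.1, rfl, h.2⟩, one_smul, h.1]
      · intro b _ hb
        rw [if_neg (fun h' => hb h'.2.1.symm), zero_smul]
      · intro h; exact absurd (Finset.mem_univ _) h
    · rw [if_neg h]
      symm
      refine Finset.sum_eq_zero fun u _ => ?_
      rw [if_neg (fun h' => h ⟨h'.1, h'.2.2⟩), zero_smul]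

/-- The boundary of a `1`-chain in terms of its flow. -/
theorem bd₁_rep {T : Gluing N} {A P : Fin N → Fin 4 → Mat2} {y : chain₁ T A}
    {η : Fin N → Fin 4 → Fin 4 → ℂ} (h : Rep P y η) (j : Fin N) :
    (bd₁ T A y).1 j = ∑ u, (-∑ a, η j u a) • P j u := by
  show -∑ a, y.1 j a = _
  simp only [h.2 j, neg_smul, Finset.sum_smul]
  rw [Finset.sum_comm, ← Finset.sum_neg_distrib]

end Pool.Agent.H15_OneLoop
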