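import Pool.Agent.H15_OneLoop.SqDet

/-!
# An integral basis adapted to the chain complex of a torus (proof by helper534)
-/

set_option autoImplicit false

namespace Pool.Agent.H15_OneLoop

open Matrix


theorem aux_tb_dual {I : Type} [Fintype I] [DecidableEq I] (φ : (I → ℤ) →ₗ[ℤ] ℤ) (x : I → ℤ) :
    (fun j => φ (Pi.single j 1)) ⬝ᵥ x = φ x := by
  have h : x = ∑ j, x j • (Pi.single j 1 : I → ℤ) := by
    funext i
    simp [Finset.sum_apply, Pi.single_apply]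
  conv_rhs => rw [h]
  rw [map_sum]
  simp only [dotProduct, map_smul, smul_eq_mul]
  exact Finset.sum_congr rfl fun j _ => mul_comm _ _

theorem aux_tb_split {I₁ J K : Type} [Fintype I₁] [DecidableEq I₁] [Fintype J] [DecidableEq J]
    [Fintype K] [DecidableEq K]
    (L : Matrix J I₁ ℤ) (β : Matrix I₁ J ℤ) (D : Matrix K I₁ ℤ) (Y : Matrix I₁ K ℤ)
    (hcard : Fintype.card I₁ = Fintype.card J + 2 + Fintype.card K)
    (h1 : L * β = 1) (h2 : D * β = 0) (h3 : L * Y = 0) (h4 : D * Y = 1) :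
    ∃ (x₁ x₂ l₁ l₂ : I₁ → ℤ), D *ᵥ x₁ = 0 ∧ D *ᵥ x₂ = 0 ∧ L *ᵥ x₁ = 0 ∧ L *ᵥ x₂ = 0 ∧
      l₁ ᵥ* β = 0 ∧ l₂ ᵥ* β = 0 ∧ l₁ ᵥ* Y = 0 ∧ l₂ ᵥ* Y = 0 ∧
      l₁ ⬝ᵥ x₁ = 1 ∧ l₁ ⬝ᵥ x₂ = 0 ∧ l₂ ⬝ᵥ x₁ = 0 ∧ l₂ ⬝ᵥ x₂ = 1 ∧
      ∀ x, x = β *ᵥ (L *ᵥ x) + (l₁ ⬝ᵥ x) • x₁ + (l₂ ⬝ᵥ x) • x₂ + Y *ᵥ (D *ᵥ x) := by
  have e1 : ∀ u, L *ᵥ (β *ᵥ u) = u := fun u => by rw [mulVec_mulVec, h1, one_mulVec]
  have e2 : ∀ u, D *ᵥ (β *ᵥ u) = 0 := fun u => by rw [mulVec_mulVec, h2, zero_mulVec]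
  have e3 : ∀ u, L *ᵥ (Y *ᵥ u) = 0 := fun u => by rw [mulVec_mulVec, h3, zero_mulVec]
  have e4 : ∀ u, D *ᵥ (Y *ᵥ u) = u := fun u => by rw [mulVec_mulVec, h4, one_mulVec]
  let H : Submodule ℤ (I₁ → ℤ) := LinearMap.ker D.mulVecLin ⊓ LinearMap.ker L.mulVecLin
  have hH : ∀ x, x ∈ H ↔ D *ᵥ x = 0 ∧ L *ᵥ x = 0 := by
    intro x
    simp [H, Submodule.mem_inf, LinearMap.mem_ker]
  let P0 : (I₁ → ℤ) →ₗ[ℤ] (I₁ → ℤ) :=
    LinearMap.id - β.mulVecLin ∘ₗ L.mulVecLin - Y.mulVecLin ∘ₗ D.mulVecLin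
  have hP0 : ∀ x, P0 x = x - β *ᵥ (L *ᵥ x) - Y *ᵥ (D *ᵥ x) := fun x => rfl
  let P : (I₁ → ℤ) →ₗ[ℤ] H := P0.codRestrict H (by
    intro x
    rw [hH, hP0]
    constructor
    · rw [mulVec_sub, mulVec_sub, e2, e4]; simp
    · rw [mulVec_sub, mulVec_sub, e1, e3]; simp)
  have hP : ∀ x, ((P x : H) : I₁ → ℤ) = x - β *ᵥ (L *ᵥ x) - Y *ᵥ (D *ᵥ x) := fun x => rfl
  have hPH : ∀ h : H, P h = h := by
    intro h
    apply Subtype.ext
    obtain ⟨ha, hb⟩ := (hH h).mp h.2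
    rw [hP, ha, hb]
    simp
  have hPβ : ∀ u, P (β *ᵥ u) = 0 := by
    intro u
    apply Subtype.ext
    rw [hP, e1, e2]
    simp
  have hPY : ∀ u, P (Y *ᵥ u) = 0 := by
    intro u
    apply Subtype.ext
    rw [hP, e3, e4]
    simp
  let E : ((J → ℤ) × H × (K → ℤ)) ≃ₗ[ℤ] (I₁ → ℤ) :=
    { toFun := fun p => β *ᵥ p.1 + (p.2.1 : I₁ → ℤ) + Y *ᵥ p.2.2
      map_add' := by
        intro p q
        simp only [Prod.fst_add, Prod.snd_add, mulVec_add, Submodule.coe_add]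
        abel
      map_smul' := by
        intro r p
        simp only [Prod.smul_fst, Prod.smul_snd, mulVec_smul, Submodule.coe_smul,
          RingHom.id_apply, smul_add]
      invFun := fun x => (L *ᵥ x, P x, D *ᵥ x)
      left_inv := by
        rintro ⟨u, h, g⟩
        obtain ⟨ha, hb⟩ := (hH h).mp h.2
        refine Prod.ext ?_ (Prod.ext ?_ ?_)
        · show L *ᵥ (β *ᵥ u + (h : I₁ → ℤ) + Y *ᵥ g) = u
          rw [mulVec_add, mulVec_add, e1, e3, hb]; simp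
        · show P (β *ᵥ u + (h : I₁ → ℤ) + Y *ᵥ g) = h
          rw [map_add, map_add, hPβ, hPY, hPH]; simp
        · show D *ᵥ (β *ᵥ u + (h : I₁ → ℤ) + Y *ᵥ g) = g
          rw [mulVec_add, mulVec_add, e2, e4, ha]; simp
      right_inv := by
        intro x
        show β *ᵥ (L *ᵥ x) + ((P x : H) : I₁ → ℤ) + Y *ᵥ (D *ᵥ x) = x
        rw [hP]
        abel }
  have hrank : Module.finrank ℤ H = 2 := by
    have h5 := E.finrank_eq
    rw [Module.finrank_prod, Module.finrank_prod, Module.finrank_pi, Module.finrank_pi,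
      Module.finrank_pi] at h5
    omega
  let hb : Module.Basis (Fin 2) ℤ H := Module.finBasisOfFinrankEq ℤ H hrank
  let φ : Fin 2 → ((I₁ → ℤ) →ₗ[ℤ] ℤ) := fun i => (hb.coord i) ∘ₗ P
  let l : Fin 2 → (I₁ → ℤ) := fun i j => φ i (Pi.single j 1)
  have hl : ∀ i x, l i ⬝ᵥ x = φ i x := fun i x => aux_tb_dual (φ i) x
  have hφβ : ∀ i, l i ᵥ* β = 0 := by
    intro i
    funext c
    have h6 : (l i ᵥ* β) c = l i ⬝ᵥ (β *ᵥ (Pi.single c 1)) := by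
      rw [mulVec_single_one]; rfl
    rw [h6, hl]
    show (hb.coord i) (P (β *ᵥ (Pi.single c 1))) = 0
    rw [hPβ, map_zero]
  have hφY : ∀ i, l i ᵥ* Y = 0 := by
    intro i
    funext c
    have h6 : (l i ᵥ* Y) c = l i ⬝ᵥ (Y *ᵥ (Pi.single c 1)) := by
      rw [mulVec_single_one]; rfl
    rw [h6, hl]
    show (hb.coord i) (P (Y *ᵥ (Pi.single c 1))) = 0
    rw [hPY, map_zero]
  have hlx : ∀ i j, l i ⬝ᵥ ((hb j : H) : I₁ → ℤ) = if i = j then 1 else 0 := by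
    intro i j
    rw [hl]
    show (hb.coord i) (P ((hb j : H) : I₁ → ℤ)) = _
    rw [hPH, Module.Basis.coord_apply, Module.Basis.repr_self, Finsupp.single_apply]
    simp only [eq_comm]
  refine ⟨(hb 0 : H), (hb 1 : H), l 0, l 1, ((hH _).mp (hb 0).2).1, ((hH _).mp (hb 1).2).1,
    ((hH _).mp (hb 0).2).2, ((hH _).mp (hb 1).2).2, hφβ 0, hφβ 1, hφY 0, hφY 1, ?_, ?_, ?_, ?_, ?_⟩
  · rw [hlx]; simp
  · rw [hlx]; simp
  · rw [hlx]; simp
  · rw [hlx]; simp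
  · intro x
    rw [hl, hl]
    have h7 : P x = (φ 0 x) • hb 0 + (φ 1 x) • hb 1 := by
      have := hb.sum_repr (P x)
      rw [Fin.sum_univ_two] at this
      exact this.symm
    have h8 : ((P x : H) : I₁ → ℤ) = (φ 0 x) • ((hb 0 : H) : I₁ → ℤ) +
        (φ 1 x) • ((hb 1 : H) : I₁ → ℤ) := by
      rw [h7]; rfl
    rw [hP] at h8
    have h9 : x = β *ᵥ (L *ᵥ x) + (x - β *ᵥ (L *ᵥ x) - Y *ᵥ (D *ᵥ x)) + Y *ᵥ (D *ᵥ x) := by abel
    rw [h8] at h9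
    rw [← add_assoc] at h9
    exact h9

theorem aux_tb_sqdet {I N : Type} [Fintype I] [DecidableEq I] [Fintype N] [DecidableEq N]
    (V : Matrix N I ℤ) (W : Matrix I N ℤ) (hc : Fintype.card I = Fintype.card N)
    (h : V * W = 1) : sqdet W = 1 := by
  have h1 : sqdet (V * W) = sqdet V * sqdet W := sqdet_mul V W hc.symm hc
  have h2 : sqdet (1 : Matrix N N ℤ) = 1 := by
    rw [sqdet_square, det_one, one_pow]
  rw [h, h2] at h1
  have e : I ≃ N := Fintype.equivOfCardEq hc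
  have h3 : 0 ≤ sqdet W := by
    rw [sqdet_eq' W e]
    positivity
  rcases Int.isUnit_iff.mp (IsUnit.of_mul_eq_one_right _ h1.symm) with h4 | h4
  · exact h4
  · rw [h4] at h3
    norm_num at h3

theorem aux_tb_anti {I₁ I₀ : Type} [Fintype I₁] [DecidableEq I₁] [Fintype I₀] [DecidableEq I₀]
    (D₁ : Matrix I₀ I₁ ℤ) (Ω : Matrix I₁ I₁ ℤ)
    (hΩ1 : ∀ x, D₁ *ᵥ x = 0 → x ⬝ᵥ Ω *ᵥ x = 0) (p q : I₁ → ℤ)
    (hp : D₁ *ᵥ p = 0) (hq : D₁ *ᵥ q = 0) : p ⬝ᵥ Ω *ᵥ q = - (q ⬝ᵥ Ω *ᵥ p) := by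
  have h := hΩ1 (p + q) (by rw [mulVec_add, hp, hq, add_zero])
  rw [mulVec_add, dotProduct_add, add_dotProduct, add_dotProduct, hΩ1 p hp, hΩ1 q hq] at h
  linarith

/-- TARGET -/
theorem torus_basis {I₂ I₁ I₀ : Type} [Fintype I₂] [DecidableEq I₂] [Fintype I₁]
    [DecidableEq I₁] [Fintype I₀] [DecidableEq I₀]
    (D₂ : Matrix I₁ I₂ ℤ) (D₁ : Matrix I₀ I₁ ℤ) (Ω : Matrix I₁ I₁ ℤ) (c₀ : I₂) (t₀ : I₀)
    (hcard : Fintype.card I₁ = Fintype.card I₂ + Fintype.card I₀)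
    (hDD : D₁ * D₂ = 0)
    (h2 : ∀ i, ∑ c, D₂ i c = 0) (h1 : ∀ i, ∑ t, D₁ t i = 0)
    (hprim : ∀ c, ∃ l : I₁ → ℤ, l ᵥ* D₂ = Pi.single c 1 - Pi.single c₀ 1)
    (hdual : ∀ t, ∃ y : I₁ → ℤ, D₁ *ᵥ y = Pi.single t 1 - Pi.single t₀ 1)
    (hΩ1 : ∀ x, D₁ *ᵥ x = 0 → x ⬝ᵥ Ω *ᵥ x = 0)
    (hΩ2 : ∀ g y, D₁ *ᵥ y = 0 → (D₂ *ᵥ g) ⬝ᵥ Ω *ᵥ y = 0)
    (hΩ3 : ∀ l, l ᵥ* D₂ = 0 → ∃ y, D₁ *ᵥ y = 0 ∧ ∀ x, D₁ *ᵥ x = 0 → x ⬝ᵥ Ω *ᵥ y = l ⬝ᵥ x) :
    ∃ (x₁ x₂ : I₁ → ℤ) (Y : Matrix I₁ {t // t ≠ t₀} ℤ),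
      D₁ *ᵥ x₁ = 0 ∧ D₁ *ᵥ x₂ = 0 ∧
      (D₁.submatrix (Subtype.val : {t // t ≠ t₀} → I₀) id) * Y = 1 ∧
      sqdet (fromCols (D₂.submatrix id (Subtype.val : {c // c ≠ c₀} → I₂))
        (fromCols (replicateCol Unit x₁) (fromCols (replicateCol Unit x₂) Y))) = 1 ∧
      (x₁ ⬝ᵥ Ω *ᵥ x₂) ^ 2 = 1 := by
  classical
  choose l hl using hprim
  choose y hy using hdual
  let L : Matrix {c // c ≠ c₀} I₁ ℤ := Matrix.of (fun c i => l c i)
  let β : Matrix I₁ {c // c ≠ c₀} ℤ := D₂.submatrix id (Subtype.val : {c // c ≠ c₀} → I₂)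
  let D : Matrix {t // t ≠ t₀} I₁ ℤ := D₁.submatrix (Subtype.val : {t // t ≠ t₀} → I₀) id
  let Y0 : Matrix I₁ {t // t ≠ t₀} ℤ := Matrix.of (fun i t => y t i)
  have hLβ : L * β = 1 := by
    ext c c'
    have h := congrFun (hl c) c'
    have h3 : (L * β) c c' = (l c ᵥ* D₂) c' := rfl
    rw [h3, h, Matrix.one_apply, Pi.sub_apply, Pi.single_apply, Pi.single_apply,
      if_neg c'.2, sub_zero]
    simp only [Subtype.ext_iff, eq_comm]
  have hDβ : D * β = 0 := by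
    ext t c
    exact congrFun (congrFun hDD (t : I₀)) (c : I₂)
  have hDY0 : D * Y0 = 1 := by
    ext t t'
    have h := congrFun (hy t') t
    have h3 : (D * Y0) t t' = (D₁ *ᵥ (y t')) t := rfl
    rw [h3, h, Matrix.one_apply, Pi.sub_apply, Pi.single_apply, Pi.single_apply,
      if_neg t.2, sub_zero]
    simp only [Subtype.ext_iff]
  have hLY : L * (Y0 - β * (L * Y0)) = 0 := by
    rw [Matrix.mul_sub, ← Matrix.mul_assoc, hLβ, Matrix.one_mul, sub_self]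
  have hDY : D * (Y0 - β * (L * Y0)) = 1 := by
    rw [Matrix.mul_sub, ← Matrix.mul_assoc, hDβ, Matrix.zero_mul, sub_zero, hDY0]
  generalize Y0 - β * (L * Y0) = Y at hLY hDY
  have hc2 : Fintype.card {c // c ≠ c₀} = Fintype.card I₂ - 1 := by
    rw [Fintype.card_subtype_compl, Fintype.card_subtype_eq]
  have hc0 : Fintype.card {t // t ≠ t₀} = Fintype.card I₀ - 1 := by
    rw [Fintype.card_subtype_compl, Fintype.card_subtype_eq]
  have hp2 : 0 < Fintype.card I₂ := Fintype.card_pos_iff.mpr ⟨c₀⟩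
  have hp0 : 0 < Fintype.card I₀ := Fintype.card_pos_iff.mpr ⟨t₀⟩
  have hcard' : Fintype.card I₁ = Fintype.card {c // c ≠ c₀} + 2 + Fintype.card {t // t ≠ t₀} := by
    omega
  obtain ⟨x₁, x₂, l₁, l₂, a1, a2, a3, a4, a5, a6, a7, a8, a9, a10, a11, a12, a13⟩ :=
    aux_tb_split L β D Y hcard' hLβ hDβ hLY hDY
  have hD1 : ∀ x, D *ᵥ x = 0 → D₁ *ᵥ x = 0 := by
    intro x hx
    have h3 : ∀ t, t ≠ t₀ → (D₁ *ᵥ x) t = 0 := fun t ht => congrFun hx ⟨t, ht⟩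
    have h4 : ∑ t, (D₁ *ᵥ x) t = 0 := by
      simp only [mulVec, dotProduct]
      rw [Finset.sum_comm]
      refine Finset.sum_eq_zero fun i _ => ?_
      rw [← Finset.sum_mul, h1 i, zero_mul]
    rw [Finset.sum_eq_single t₀ (fun t _ ht => h3 t ht)
      (fun h => absurd (Finset.mem_univ _) h)] at h4
    funext t
    by_cases ht : t = t₀
    · rw [ht]; exact h4
    · exact h3 t ht
  have b1 := hD1 x₁ a1
  have b2 := hD1 x₂ a2
  refine ⟨x₁, x₂, Y, b1, b2, hDY, ?_, ?_⟩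
  · -- the determinant
    let V : Matrix ({c // c ≠ c₀} ⊕ Unit ⊕ Unit ⊕ {t // t ≠ t₀}) I₁ ℤ :=
      fromRows L (fromRows (replicateRow Unit l₁) (fromRows (replicateRow Unit l₂) D))
    apply aux_tb_sqdet V
    · rw [Fintype.card_sum, Fintype.card_sum, Fintype.card_sum, Fintype.card_unit]
      omega
    · show fromRows L (fromRows (replicateRow Unit l₁) (fromRows (replicateRow Unit l₂) D)) *
        fromCols β (fromCols (replicateCol Unit x₁) (fromCols (replicateCol Unit x₂) Y)) = 1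
      ext r n
      rcases r with c | ⟨⟩ | ⟨⟩ | t <;> rcases n with c' | ⟨⟩ | ⟨⟩ | t'
      · have := congrFun (congrFun hLβ c) c'
        simpa [Matrix.one_apply] using this
      · exact congrFun a3 c
      · exact congrFun a4 c
      · exact congrFun (congrFun hLY c) t'
      · exact congrFun a5 c'
      · exact a9
      · exact a10
      · exact congrFun a7 t'
      · exact congrFun a6 c'
      · exact a11
      · exact a12
      · exact congrFun a8 t'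
      · exact congrFun (congrFun hDβ t) c'
      · exact congrFun a1 t
      · exact congrFun a2 t
      · have := congrFun (congrFun hDY t) t'
        simpa [Matrix.one_apply] using this
  · -- the intersection number
    have hl0 : l₂ ᵥ* D₂ = 0 := by
      have h3 : ∀ c, c ≠ c₀ → (l₂ ᵥ* D₂) c = 0 := fun c hc => congrFun a6 ⟨c, hc⟩
      have h4 : ∑ c, (l₂ ᵥ* D₂) c = 0 := by
        simp only [vecMul, dotProduct]
        rw [Finset.sum_comm]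
        refine Finset.sum_eq_zero fun i _ => ?_
        rw [← Finset.mul_sum, h2 i, mul_zero]
      rw [Finset.sum_eq_single c₀ (fun t _ ht => h3 t ht)
        (fun h => absurd (Finset.mem_univ _) h)] at h4
      funext c
      by_cases hc : c = c₀
      · rw [hc]; exact h4
      · exact h3 c hc
    obtain ⟨z, hz, hz2⟩ := hΩ3 l₂ hl0
    have hDz : D *ᵥ z = 0 := by
      funext t
      exact congrFun hz (t : I₀)
    have hz3 := hz2 x₂ b2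
    rw [a12] at hz3
    have hz4 := a13 z
    rw [hDz, mulVec_zero, add_zero] at hz4
    -- `β u = D₂ u'`
    let g : I₂ → ℤ := fun c => if h : c ≠ c₀ then (L *ᵥ z) ⟨c, h⟩ else 0
    have hg : β *ᵥ (L *ᵥ z) = D₂ *ᵥ g := by
      funext i
      show ∑ c : {c // c ≠ c₀}, D₂ i c * (L *ᵥ z) c = ∑ c, D₂ i c * g c
      rw [← Fintype.sum_subtype_add_sum_subtype (fun c => c ≠ c₀) (fun c => D₂ i c * g c)]
      have h8 : ∑ c : {c // ¬ (c ≠ c₀)}, D₂ i (c : I₂) * g c = 0 := by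
        refine Finset.sum_eq_zero fun c _ => ?_
        have : g (c : I₂) = 0 := dif_neg c.2
        rw [this, mul_zero]
      rw [h8, add_zero]
      refine Finset.sum_congr rfl fun c _ => ?_
      have : g (c : I₂) = (L *ᵥ z) c := dif_pos c.2
      rw [this]
    have hβz : D₁ *ᵥ (β *ᵥ (L *ᵥ z)) = 0 := by
      rw [hg, mulVec_mulVec, hDD, zero_mulVec]
    have h5 : x₂ ⬝ᵥ Ω *ᵥ (β *ᵥ (L *ᵥ z)) = 0 := by
      rw [aux_tb_anti D₁ Ω hΩ1 _ _ b2 hβz, hg, hΩ2 g x₂ b2, neg_zero]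
    rw [hz4, mulVec_add, mulVec_add, dotProduct_add, dotProduct_add, h5, mulVec_smul, mulVec_smul,
      dotProduct_smul, dotProduct_smul, hΩ1 x₂ b2, aux_tb_anti D₁ Ω hΩ1 x₂ x₁ b2 b1] at hz3
    have h6 : (x₁ ⬝ᵥ Ω *ᵥ x₂) * (- (l₁ ⬝ᵥ z)) = 1 := by
      simp only [smul_eq_mul] at hz3
      linarith
    rcases Int.isUnit_iff.mp (IsUnit.of_mul_eq_one _ h6) with h7 | h7
    · rw [h7]; norm_num
    · rw [h7]; norm_num

end Pool.Agent.H15_OneLoop
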